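import Pool.Agent.P.MP_6277db_ag.KEW.Sites
import Pool.Agent.P.MP_6277db_ag.KEW.L1.DM

/-!
KEW, layer L9: families of schemes over a site, presheaves of cycles on them, and the statement of
the vanishing theorem delivered by layer L8.
-/

noncomputable section

open CategoryTheory Limits AlgebraicGeometry Opposite MonoidalCategory

namespace Pool.Agent.KEW

section fam

variable {C : Type 1} [Category.{0} C] {u : C ⥤ Scheme.{0}}

variable (u) in
/-- A cartesian family of separated schemes over the objects of `C`. -/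
structure CFam where
  /-- the total spaces -/
  X : C ⥤ Scheme.{0}
  /-- the projections -/
  p : X ⟶ u
  sep : ∀ c, IsSeparated (p.app c)
  pb : ∀ {c' c : C} (φ : c' ⟶ c), IsPullback (X.map φ) (p.app c') (p.app c) (u.map φ)

instance (F : CFam u) (c : C) : IsSeparated (F.p.app c) := F.sep c

/-- A family of sets of points which is mapped to itself. -/
structure CFam.Sets (F : CFam u) where
  /-- the sets -/
  T : ∀ c, Set (F.X.obj c)
  maps : ∀ {c' c : C} (φ : c' ⟶ c), Set.MapsTo (F.X.map φ) (T c') (T c)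

/-- Cycles whose closed support misses `T₁`, modulo those whose closed support also misses `T₂`. -/
abbrev CycPair (m : ℕ) {X W : Scheme.{0}} (p : X ⟶ W) [IsSeparated p] (T₁ T₂ : Set X) : Type :=
  CycOff m p T₁ ⧸ (CycOff m p T₂).addSubgroupOf (CycOff m p T₁)

theorem CycOff.pull_mem (m : ℕ) {X W X' W' : Scheme.{0}} {f : X' ⟶ X} {p' : X' ⟶ W'} {p : X ⟶ W}
    {g : W' ⟶ W} [IsSeparated p] [IsSeparated p'] (H : IsPullback f p' p g) {T : Set X}
    {T' : Set X'} (h : Set.MapsTo f T' T) {c : Cyc m p} (hc : c ∈ CycOff m p T) :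
    Cyc.pull m H c ∈ CycOff m p' T' :=
  Set.disjoint_left.2 fun _ hx hx' =>
    Set.disjoint_left.1 hc (f.continuous.closure_preimage_subset _ hx) (h hx')

/-- Base change on `CycPair`. -/
def CycPair.pull (m : ℕ) {X W X' W' : Scheme.{0}} {f : X' ⟶ X} {p' : X' ⟶ W'} {p : X ⟶ W}
    {g : W' ⟶ W} [IsSeparated p] [IsSeparated p'] (H : IsPullback f p' p g) {T₁ T₂ : Set X}
    {T₁' T₂' : Set X'} (h₁ : Set.MapsTo f T₁' T₁) (h₂ : Set.MapsTo f T₂' T₂) :
    CycPair m p T₁ T₂ →+ CycPair m p' T₁' T₂' :=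
  QuotientAddGroup.map _ _
    (((Cyc.pull m H).comp (CycOff m p T₁).subtype).codRestrict _
      fun c => CycOff.pull_mem m H h₁ c.2)
    fun _ hc => CycOff.pull_mem m H h₂ hc

/-- The presheaf of abelian groups `c ↦ CycPair (T₁ c) (T₂ c)`. -/
def CFam.cyc (F : CFam u) (m : ℕ) (T₁ T₂ : F.Sets) : Cᵒᵖ ⥤ AddCommGrpCat.{0} where
  obj c := AddCommGrpCat.of (CycPair m (F.p.app c.unop) (T₁.T c.unop) (T₂.T c.unop))
  map φ := AddCommGrpCat.ofHom (CycPair.pull m (F.pb φ.unop) (T₁.maps φ.unop) (T₂.maps φ.unop))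
  map_id c := by
    ext z
    refine congrArg QuotientAddGroup.mk (Subtype.ext (Subtype.ext ?_))
    change z.1.1 ∘ F.X.map (𝟙 _) = z.1.1
    rw [F.X.map_id]
    rfl
  map_comp φ ψ := by
    ext z
    refine congrArg QuotientAddGroup.mk (Subtype.ext (Subtype.ext ?_))
    change z.1.1 ∘ F.X.map (ψ.unop ≫ φ.unop) = _
    rw [F.X.map_comp]
    rfl

/-- The presheaf of modules `c ↦ L ⊗ CycPair (T₁ c) (T₂ c)`. -/
def CFam.mot (F : CFam u) (L : Type 1) [CommRing L] (m : ℕ) (T₁ T₂ : F.Sets) : PSh C L :=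
  F.cyc m T₁ T₂ ⋙ coef L

variable (u) in
/-- The family of affine spaces. -/
def affFam (ι : Type) : CFam u where
  X := u ⋙ (AffineSpace.functor.obj (op ι))
  p := { app := fun c => 𝔸(ι; u.obj c) ↘ u.obj c
         naturality := fun _ _ φ => AffineSpace.map_over (u.map φ) }
  sep c := inferInstanceAs (IsSeparated (𝔸(ι; u.obj c) ↘ u.obj c))
  pb φ := AffineSpace.isPullback_map (u.map φ)

/-- The preimages of a set of points of a fixed scheme `T` under a natural family of maps. -/
def CFam.preim (F : CFam u) {T : Scheme.{0}} (t : ∀ c, F.X.obj c ⟶ T)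
    (ht : ∀ {c' c : C} (φ : c' ⟶ c), F.X.map φ ≫ t c = t c') (Z : Set T) : F.Sets where
  T c := t c ⁻¹' Z
  maps {c' c} φ x hx := by
    change (F.X.map φ ≫ t c) x ∈ Z
    rw [ht]
    exact hx

end fam

variable (A : Type) [CommRing A]

/-- For a set `Z` of points of affine space over `A`, its preimages in the affine spaces over the
smooth `A`-schemes. -/
def affSets (ι : Type) (Z : Set 𝔸(ι; Spec (.of A))) : (affFam (smS A) ι).Sets :=
  (affFam (smS A) ι).preim (fun W => AffineSpace.map ι W.obj.obj.hom)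
    (fun φ => (AffineSpace.map_comp _ _).symm.trans
      (congrArg (AffineSpace.map ι) (Over.w φ.hom.hom))) Z

/-- The special fibre of affine space over a local ring. -/
def affSp [IsLocalRing A] (ι : Type) : Set 𝔸(ι; Spec (.of A)) :=
  (𝔸(ι; Spec (.of A)) ↘ Spec (.of A)) ⁻¹' {IsLocalRing.closedPoint A}

/-- The motive `L_tr(A^ι_K) / L_tr(A^ι_K - Z)` on the smooth site of `A`. -/
def MZ [IsLocalRing A] (L : Type 1) [CommRing L] (m : ℕ) (ι : Type)
    (Z : Set 𝔸(ι; Spec (.of A))) : PSh (Sm A) L :=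
  (affFam (smS A) ι).mot L m (affSets A ι (affSp A ι)) (affSets A ι Z)

variable {A} in
/-- The residue field of the point `z` has transcendence degree at most `e` over the image of `A`:
any `e + 1` elements satisfy a polynomial relation which is nonzero as a polynomial over `A`. -/
def TrLe {X : Scheme.{0}} (f : X ⟶ Spec (.of A)) (z : X) (e : ℕ) : Prop :=
  ∀ a : Fin (e + 1) → X.residueField z, ∃ P : MvPolynomial (Fin (e + 1)) A, P ≠ 0 ∧
    MvPolynomial.eval₂
      ((X.Γevaluation z).hom.comp (f.appTop.hom.comp (Scheme.ΓSpecIso (.of A)).inv.hom)) a P = 0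

/-- The vanishing theorem. -/
def VAN [IsLocalRing A] (L : Type 1) [CommRing L] (m : ℕ) : Prop :=
  ∀ (D e r : ℕ) (Z : Set 𝔸(Fin D; Spec (.of A))), IsClosed Z → r + e ≤ D →
    (∀ z ∈ Z, z ∉ affSp A (Fin D) → TrLe (𝔸(Fin D; Spec (.of A)) ↘ Spec (.of A)) z e) →
    ∀ (q : ℤ) (f : (QM (NGen (smS A))).obj ((src L (smS A) q r).obj (𝟙_ (PSh (Sm A) L))) ⟶
      (QM (NGen (smS A))).obj ((sgl 0).obj (MZ A L m (Fin D) Z))), f = 0

end Pool.Agent.KEW
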