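import Pool.Agent.P.MP_6277db_ag.KEW.L9.Col

/-!
KEW, layer L9: adjunctions up to local equivalence and their effect on the stable groups.
-/

set_option backward.isDefEq.respectTransparency false

noncomputable section

open CategoryTheory Limits AlgebraicGeometry Opposite MonoidalCategory

namespace Pool.Agent.KEW

variable {C : Type 1} [Category.{0} C] {C' : Type 1} [Category.{0} C'] {L : Type 1} [CommRing L]

/-- An adjunction `Λ ⊣ Ρ` whose counit is only defined up to the local equivalence `c`. -/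
structure AdjDat (L : Type 1) [CommRing L] (u : C ⥤ Scheme.{0}) (u' : C' ⥤ Scheme.{0})
    (F₀ : PSh C' L) (F : PSh C L) where
  /-- the left adjoint -/
  l : Lax L u' u
  /-- the right adjoint -/
  r : Lax L u u'
  /-- the target of the counit -/
  p : PSh C L ⥤ PSh C L
  ex : IsExact p
  pres : PresW (NGen u) (NGen u) (mapC p)
  /-- the unit -/
  η : 𝟭 _ ⟶ l.F ⋙ r.F
  /-- the counit -/
  ε : r.F ⋙ l.F ⟶ p
  /-- the comparison -/
  c : 𝟭 _ ⟶ p
  wc : ∀ K, WG (NGen u) ((chT c).app K)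
  tri₁ : ∀ G, l.F.map (η.app G) ≫ ε.app (l.F.obj G) = c.app (l.F.obj G)
  tri₂ : ∀ G, η.app (r.F.obj G) ≫ r.F.map (ε.app G) = r.F.map (c.app G)
  iso : IsIso l.θ
  ηθ : ∀ G, (RS.unit.T L u').map (η.app G) ≫ r.θ.app (l.F.obj G) ≫ r.F.map (l.θ.app G) =
    η.app ((RS.unit.T L u').obj G)
  /-- the identification of the source -/
  e : F ≅ l.F.obj F₀

variable {u : C ⥤ Scheme.{0}} {u' : C' ⥤ Scheme.{0}} {F₀ : PSh C' L} {F F' : PSh C L}

/-- A map of adjunctions, compatible with `φ : F' ⟶ F`. -/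
structure AdjDat.Hom (d' : AdjDat L u u' F₀ F') (d : AdjDat L u u' F₀ F) (φ : F' ⟶ F) where
  /-- the map of left adjoints -/
  l : d'.l.Hom d.l
  /-- the map of right adjoints -/
  r : d.r.Hom d'.r
  comm : ∀ G, d.η.app G ≫ r.τ.app (d.l.F.obj G) = d'.η.app G ≫ d'.r.F.map (l.τ.app G)
  comm_e : φ ≫ d.e.hom = d'.e.hom ≫ l.τ.app F₀

instance Adj_ex (d : AdjDat L u u' F₀ F) : IsExact d.p := d.ex

/-- The unit on complexes. -/
def Adj_η (d : AdjDat L u u' F₀ F) (K : Ch C' L) :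
    K ⟶ (mapC d.r.F).obj ((mapC d.l.F).obj K) := (chT d.η).app K

/-- The counit on complexes. -/
def Adj_ε (d : AdjDat L u u' F₀ F) (M : Ch C L) :
    (mapC d.l.F).obj ((mapC d.r.F).obj M) ⟶ (mapC d.p).obj M := (chT d.ε).app M

/-- The comparison on complexes. -/
def Adj_c (d : AdjDat L u u' F₀ F) (M : Ch C L) : M ⟶ (mapC d.p).obj M := (chT d.c).app M

instance Adj_c_iso (d : AdjDat L u u' F₀ F) (M : Ch C L) : IsIso ((QU L u).map (Adj_c d M)) :=
  (d.wc M).isIso

lemma Adj_η_nat (d : AdjDat L u u' F₀ F) {K K' : Ch C' L}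
    (x : (QU L u').obj K ⟶ (QU L u').obj K') :
    (QU L u').map (Adj_η d K) ≫ d.r.pres.homMap (d.l.pres.homMap x) =
      x ≫ (QU L u').map (Adj_η d K') := by
  have k : PresW (NGen (L := L) u') (NGen u') (𝟭 _) := fun _ _ _ h => h
  have := k.homMap_naturality (d.l.pres.comp d.r.pres) (chT d.η) x
  rw [k.id_homMap, ← PresW.homMap_homMap] at this
  exact this.symm

lemma Adj_ε_nat (d : AdjDat L u u' F₀ F) {M M' : Ch C L}
    (x : (QU L u).obj M ⟶ (QU L u).obj M') :
    d.l.pres.homMap (d.r.pres.homMap x) ≫ (QU L u).map (Adj_ε d M') =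
      (QU L u).map (Adj_ε d M) ≫ d.pres.homMap x := by
  have := (d.r.pres.comp d.l.pres).homMap_naturality d.pres (chT d.ε) x
  rw [← PresW.homMap_homMap] at this
  exact this

lemma Adj_c_nat (d : AdjDat L u u' F₀ F) {M M' : Ch C L}
    (x : (QU L u).obj M ⟶ (QU L u).obj M') :
    (QU L u).map (Adj_c d M) ≫ d.pres.homMap x = x ≫ (QU L u).map (Adj_c d M') := by
  have k : PresW (NGen (L := L) u) (NGen u) (𝟭 _) := fun _ _ _ h => h
  have := k.homMap_naturality d.pres (chT d.c) x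
  rw [k.id_homMap] at this
  exact this.symm

lemma Adj_tri₁ (d : AdjDat L u u' F₀ F) (K : Ch C' L) :
    (mapC d.l.F).map (Adj_η d K) ≫ Adj_ε d ((mapC d.l.F).obj K) =
      Adj_c d ((mapC d.l.F).obj K) := by
  ext n : 1
  exact d.tri₁ (K.X n)

lemma Adj_tri₂ (d : AdjDat L u u' F₀ F) (M : Ch C L) :
    Adj_η d ((mapC d.r.F).obj M) ≫ (mapC d.r.F).map (Adj_ε d M) =
      (mapC d.r.F).map (Adj_c d M) := by
  ext n : 1
  exact d.tri₂ (M.X n)

lemma Adj_ηθ (d : AdjDat L u u' F₀ F) (K : Ch C' L) :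
    (tT L u').map (Adj_η d K) ≫ d.r.θc ((mapC d.l.F).obj K) ≫ (mapC d.r.F).map (d.l.θc K) =
      Adj_η d ((tT L u').obj K) := by
  ext n : 1
  exact d.ηθ (K.X n)

instance Adj_θ_iso (d : AdjDat L u u' F₀ F) (K : Ch C' L) : IsIso (d.l.θc K) := by
  have := d.iso
  have : ∀ n, IsIso ((d.l.θc K).f n) := fun n =>
    inferInstanceAs (IsIso (d.l.θ.app (K.X n)))
  exact HomologicalComplex.Hom.isIso_of_components _

/-- The adjunction map on the localisations. -/
def Adj_ad (d : AdjDat L u u' F₀ F) {K : Ch C' L} {M : Ch C L}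
    (a : (QU L u).obj ((mapC d.l.F).obj K) ⟶ (QU L u).obj M) :
    (QU L u').obj K ⟶ (QU L u').obj ((mapC d.r.F).obj M) :=
  (QU L u').map (Adj_η d K) ≫ d.r.pres.homMap a

lemma Adj_ad_bijective (d : AdjDat L u u' F₀ F) (K : Ch C' L) (M : Ch C L) :
    Function.Bijective (Adj_ad d (K := K) (M := M)) := by
  refine Function.bijective_iff_has_inverse.2 ⟨fun x => d.l.pres.homMap x ≫
    (QU L u).map (Adj_ε d M) ≫ inv ((QU L u).map (Adj_c d M)), fun a => ?_, fun x => ?_⟩
  · dsimp only [Adj_ad]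
    rw [PresW.homMap_comp, PresW.homMap_map, Category.assoc, ← Category.assoc _ _ (inv _),
      Adj_ε_nat, Category.assoc, ← Functor.map_comp_assoc, Adj_tri₁, ← Category.assoc, Adj_c_nat,
      Category.assoc, IsIso.hom_inv_id, Category.comp_id]
  · dsimp only [Adj_ad]
    rw [PresW.homMap_comp, PresW.homMap_comp, PresW.homMap_map, ← Category.assoc, Adj_η_nat,
      Category.assoc, ← Functor.map_comp_assoc, Adj_tri₂, ← d.r.pres.homMap_map,
      ← PresW.homMap_comp, IsIso.hom_inv_id, PresW.homMap_id, Category.comp_id]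

lemma Adj_ad_stp (d : AdjDat L u u' F₀ F) (E : Spt L u) {K : Ch C' L} {n : ℕ}
    (b : (QU L u).obj ((mapC d.l.F).obj K) ⟶ (QU L u).obj (E.X n)) :
    Adj_ad d ((QU L u).map (inv (d.l.θc K)) ≫ stp E b) =
      stp (d.r.spt E) (n := n) (Adj_ad d b) := by
  have h1 := stp_comp (d.r.spt E) (n := n) ((QU L u').map (Adj_η d K)) (d.r.pres.homMap b)
  rw [Lax.stp_homMap, PresW.homMap_map] at h1
  dsimp only [Adj_ad]
  rw [h1, PresW.homMap_comp, PresW.homMap_map, ← Adj_ηθ, ← Functor.map_comp_assoc,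
    ← Functor.map_comp_assoc, Category.assoc, Category.assoc, ← Functor.map_comp (mapC d.r.F),
    IsIso.hom_inv_id, CategoryTheory.Functor.map_id, Category.comp_id]

/-- The identification of the sources. -/
def Adj_e (d : AdjDat L u u' F₀ F) (q : ℤ) :
    ∀ n : ℕ, (src L u q n).obj F ≅ (mapC d.l.F).obj ((src L u' q n).obj F₀)
  | 0 => (sgl q).mapIso d.e ≪≫
      ((HomologicalComplex.singleMapHomologicalComplex d.l.F _ q).app F₀).symm
  | n + 1 => (tT L u).mapIso (Adj_e d q n) ≪≫ asIso (d.l.θc ((src L u' q n).obj F₀))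

/-- The adjunction map on the terms of the colimit. -/
def Adj_adj (d : AdjDat L u u' F₀ F) (E : Spt L u) (q : ℤ) (j n : ℕ)
    (a : (QU L u).obj ((src L u q n).obj F) ⟶ (QU L u).obj (E.X (j + n))) :
    (QU L u').obj ((src L u' q n).obj F₀) ⟶ (QU L u').obj ((d.r.spt E).X (j + n)) :=
  Adj_ad d ((QU L u).map (Adj_e d q n).inv ≫ a)

lemma Adj_adj_bijective (d : AdjDat L u u' F₀ F) (E : Spt L u) (q : ℤ) (j n : ℕ) :
    Function.Bijective (Adj_adj d E q j n) :=
  (Adj_ad_bijective d _ _).comp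
    (((QU L u).mapIso (Adj_e d q n)).homFromEquiv (Z := (QU L u).obj (E.X (j + n)))).bijective

lemma Adj_adj_stp (d : AdjDat L u u' F₀ F) (E : Spt L u) (q : ℤ) (j n : ℕ)
    (a : (QU L u).obj ((src L u q n).obj F) ⟶ (QU L u).obj (E.X (j + n))) :
    Adj_adj d E q j (n + 1) (stp E a) = stp (d.r.spt E) (Adj_adj d E q j n a) := by
  have h := Adj_ad_stp d E ((QU L u).map (Adj_e d q n).inv ≫ a)
  rw [stp_comp, PresW.homMap_map, ← Functor.map_comp_assoc] at h
  exact h

lemma Adj_e_comm {d' : AdjDat L u u' F₀ F'} {d : AdjDat L u u' F₀ F} {φ : F' ⟶ F}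
    (h : d'.Hom d φ) (q : ℤ) (n : ℕ) : (src L u q n).map φ ≫ (Adj_e d q n).hom =
      (Adj_e d' q n).hom ≫ (chT h.l.τ).app ((src L u' q n).obj F₀) := by
  induction n with
  | zero =>
    have h1 : (sgl q).map (h.l.τ.app F₀) ≫
        (HomologicalComplex.singleMapHomologicalComplex d.l.F _ q).inv.app F₀ =
        (HomologicalComplex.singleMapHomologicalComplex d'.l.F _ q).inv.app F₀ ≫
          (chT h.l.τ).app ((sgl q).obj F₀) := by
      apply HomologicalComplex.from_single_hom_ext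
      simp [HomologicalComplex.single_map_f_self]
    change (sgl q).map φ ≫ (sgl q).map d.e.hom ≫
      (HomologicalComplex.singleMapHomologicalComplex d.l.F _ q).inv.app F₀ =
      ((sgl q).map d'.e.hom ≫
      (HomologicalComplex.singleMapHomologicalComplex d'.l.F _ q).inv.app F₀) ≫
        (chT h.l.τ).app ((sgl q).obj F₀)
    rw [Category.assoc, ← h1, ← Functor.map_comp_assoc, ← Functor.map_comp_assoc, h.comm_e]
  | succ n ih =>
    change (tT L u).map ((src L u q n).map φ) ≫ (tT L u).map (Adj_e d q n).hom ≫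
      d.l.θc ((src L u' q n).obj F₀) = ((tT L u).map (Adj_e d' q n).hom ≫
      d'.l.θc ((src L u' q n).obj F₀)) ≫ (chT h.l.τ).app ((tT L u').obj ((src L u' q n).obj F₀))
    rw [Category.assoc, h.l.comm_c, ← Functor.map_comp_assoc, ← Functor.map_comp_assoc, ih]

lemma Adj_ad_comm {d' : AdjDat L u u' F₀ F'} {d : AdjDat L u u' F₀ F} {φ : F' ⟶ F}
    (h : d'.Hom d φ) {K : Ch C' L} {M : Ch C L}
    (b : (QU L u).obj ((mapC d.l.F).obj K) ⟶ (QU L u).obj M) :
    Adj_ad d' ((QU L u).map ((chT h.l.τ).app K) ≫ b) =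
      Adj_ad d b ≫ (QU L u').map ((chT h.r.τ).app M) := by
  have h1 : Adj_η d K ≫ (chT h.r.τ).app ((mapC d.l.F).obj K) =
      Adj_η d' K ≫ (mapC d'.r.F).map ((chT h.l.τ).app K) := by
    ext n : 1
    exact h.comm (K.X n)
  dsimp only [Adj_ad]
  rw [Category.assoc, d.r.pres.homMap_naturality d'.r.pres, PresW.homMap_comp, PresW.homMap_map,
    ← Functor.map_comp_assoc, ← Functor.map_comp_assoc, h1]

lemma Adj_adj_comm {d' : AdjDat L u u' F₀ F'} {d : AdjDat L u u' F₀ F} {φ : F' ⟶ F}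
    (h : d'.Hom d φ) (E : Spt L u) (q : ℤ) (j n : ℕ)
    (a : (QU L u).obj ((src L u q n).obj F) ⟶ (QU L u).obj (E.X (j + n))) :
    Adj_adj d' E q j n ((QU L u).map ((src L u q n).map φ) ≫ a) =
      Adj_adj d E q j n a ≫ (QU L u').map ((h.r.spt E).f (j + n)) := by
  have h1 : (Adj_e d' q n).inv ≫ (src L u q n).map φ =
      (chT h.l.τ).app ((src L u' q n).obj F₀) ≫ (Adj_e d q n).inv := by
    rw [Iso.inv_comp_eq, ← Category.assoc, ← Adj_e_comm h, Category.assoc, Iso.hom_inv_id,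
      Category.comp_id]
  have h2 := Adj_ad_comm h ((QU L u).map (Adj_e d q n).inv ≫ a)
  rw [← Functor.map_comp_assoc, ← h1, Functor.map_comp_assoc] at h2
  exact h2

/-- Hint: define `e n : src q n F ⟶ mapC l (src q n F₀)` by recursion
(`e 0` from `singleMapHomologicalComplex`, `e (n + 1) = tT (e n) ≫ θc`), all isomorphisms, and
`adj n a = Q η ≫ homMap r (Q (inv (e n)) ≫ a)`. It is bijective with inverse
`x ↦ Q (e n) ≫ homMap l x ≫ Q ε ≫ inv (Q c)` (triangle identities, `homMap_naturality`,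
`homMap_homMap`), commutes with `stp` (`ηθ`, `Lax.stp_homMap`), so `SCol.bijective_map` applies; and
`adj' ∘ pre φ = post r ∘ adj`. -/
theorem AdjDat.Hom.bijective_pre {d' : AdjDat L u u' F₀ F'} {d : AdjDat L u u' F₀ F} {φ : F' ⟶ F}
    (h : d'.Hom d φ) (E : Spt L u) (q : ℤ) (j : ℕ)
    (hb : Function.Bijective (SCol.post (h.r.spt E) q j F₀)) :
    Function.Bijective (SCol.pre E q j φ) := by
  have b1 := SCol.bijective_map (Adj_adj d E q j) (Adj_adj_stp d E q j) (Adj_adj_bijective d E q j)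
  have b2 := SCol.bijective_map (Adj_adj d' E q j) (Adj_adj_stp d' E q j)
    (Adj_adj_bijective d' E q j)
  refine (Function.Bijective.of_comp_iff' b2 _).1 ?_
  refine (congrArg Function.Bijective (funext fun x => ?_)).mpr (hb.comp b1)
  induction x using Quot.ind with
  | mk x => exact congrArg (fun y => Quot.mk _ (Sigma.mk x.1 y)) (Adj_adj_comm h E q j x.1 x.2)

end Pool.Agent.KEW
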