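import Pool.Agent.P.MP_6277db_ag.KEW.L9.Spt

/-!
KEW, layer L9: the stable groups as colimits, and exact sequences of spectra.
-/

set_option backward.isDefEq.respectTransparency false

noncomputable section

open CategoryTheory Limits AlgebraicGeometry Opposite MonoidalCategory

namespace Pool.Agent.KEW

variable {C : Type 1} [Category.{0} C] {C' : Type 1} [Category.{0} C'] {L : Type 1} [CommRing L]
  {u : C ⥤ Scheme.{0}} {u' : C' ⥤ Scheme.{0}}

/-- The terms of the colimit. -/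
abbrev STerm (E : Spt L u) (q : ℤ) (j : ℕ) (F : PSh C L) : Type 2 :=
  Σ n : ℕ, ((QU L u).obj ((src L u q n).obj F) ⟶ (QU L u).obj (E.X (j + n)))

/-- The stable group `colim_n Hom(F[-q] ⊗ T^n, E (j + n))`. -/
def SCol (E : Spt L u) (q : ℤ) (j : ℕ) (F : PSh C L) : Type 2 :=
  Quot fun x y : STerm E q j F => y = ⟨x.1 + 1, stp E x.2⟩

/-- Functoriality in the source. -/
def SCol.pre (E : Spt L u) (q : ℤ) (j : ℕ) {F F' : PSh C L} (φ : F' ⟶ F) :
    SCol E q j F → SCol E q j F' :=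
  Quot.map (fun x => ⟨x.1, (QU L u).map ((src L u q x.1).map φ) ≫ x.2⟩) (by
    rintro x _ rfl
    refine congrArg (Sigma.mk (x.1 + 1)) ?_
    rw [stp_comp, PresW.homMap_map]
    rfl)

/-- Functoriality in the spectrum. -/
def SCol.post {E E' : Spt L u} (f : SptHom E E') (q : ℤ) (j : ℕ) (F : PSh C L) :
    SCol E q j F → SCol E' q j F :=
  Quot.map (fun x => ⟨x.1, x.2 ≫ (QU L u).map (f.f (j + x.1))⟩) (by
    rintro x _ rfl
    exact congrArg (Sigma.mk (x.1 + 1)) (stp_post f x.2).symm)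

lemma Col_exact {α : Type 2} (s : α → α) {x y : α}
    (h : Quot.mk (fun x y => y = s x) x = Quot.mk (fun x y => y = s x) y) :
    ∃ k l : ℕ, s^[k] x = s^[l] y := by
  replace h := Quot.eqvGen_exact h
  induction h with
  | rel x y h => exact ⟨1, 0, h.symm⟩
  | refl x => exact ⟨0, 0, rfl⟩
  | symm x y _ ih =>
    obtain ⟨k, l, e⟩ := ih
    exact ⟨l, k, e.symm⟩
  | trans x y z _ _ ih ih' =>
    obtain ⟨k, l, e⟩ := ih
    obtain ⟨k', l', e'⟩ := ih'
    refine ⟨k' + k, l + l', ?_⟩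
    rw [Function.iterate_add_apply, Function.iterate_add_apply, e, ← e',
      ← Function.iterate_add_apply, ← Function.iterate_add_apply, add_comm]

lemma Col_iter {α : Type 2} (s : α → α) (k : ℕ) (x : α) :
    Quot.mk (fun x y => y = s x) (s^[k] x) = Quot.mk (fun x y => y = s x) x := by
  induction k with
  | zero => rfl
  | succ k ih =>
    rw [Function.iterate_succ_apply', ← ih]
    symm
    exact Quot.sound rfl

lemma Col_inj {A A' : ℕ → Type 2} (s : ∀ n, A n → A (n + 1)) (s' : ∀ n, A' n → A' (n + 1))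
    (a : ∀ n, A n → A' n) (ha : ∀ n x, a (n + 1) (s n x) = s' n (a n x))
    (h : ∀ ⦃x y : Σ n, A n⦄, y = ⟨x.1 + 1, s x.1 x.2⟩ →
      (⟨y.1, a y.1 y.2⟩ : Σ n, A' n) = ⟨x.1 + 1, s' x.1 (a x.1 x.2)⟩)
    (hb : ∀ n (x y : A n), a n x = a n y →
      Quot.mk (fun x y : Σ n, A n => y = ⟨x.1 + 1, s x.1 x.2⟩) ⟨n, x⟩ = Quot.mk _ ⟨n, y⟩) :
    Function.Injective (Quot.map (ra := fun x y : Σ n, A n => y = ⟨x.1 + 1, s x.1 x.2⟩)
      (rb := fun x y : Σ n, A' n => y = ⟨x.1 + 1, s' x.1 x.2⟩)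
      (fun x => ⟨x.1, a x.1 x.2⟩) h) := by
  rintro ⟨x⟩ ⟨y⟩ e
  obtain ⟨k, l, e'⟩ := Col_exact (fun x : Σ n, A' n => ⟨x.1 + 1, s' x.1 x.2⟩) e
  have hs : Function.Semiconj (fun x : Σ n, A n => (⟨x.1, a x.1 x.2⟩ : Σ n, A' n))
      (fun x => ⟨x.1 + 1, s x.1 x.2⟩) (fun x => ⟨x.1 + 1, s' x.1 x.2⟩) :=
    fun x => congrArg (Sigma.mk (x.1 + 1)) (ha x.1 x.2)
  have e'' := ((hs.iterate_right k x).trans e').trans (hs.iterate_right l y).symm
  rw [← Col_iter (fun x : Σ n, A n => ⟨x.1 + 1, s x.1 x.2⟩) k x,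
    ← Col_iter (fun x : Σ n, A n => ⟨x.1 + 1, s x.1 x.2⟩) l y]
  generalize (fun x : Σ n, A n => (⟨x.1 + 1, s x.1 x.2⟩ : Σ n, A n))^[k] x = x' at e'' ⊢
  generalize (fun x : Σ n, A n => (⟨x.1 + 1, s x.1 x.2⟩ : Σ n, A n))^[l] y = y' at e'' ⊢
  obtain ⟨n, x'⟩ := x'
  obtain ⟨n', y'⟩ := y'
  obtain rfl : n = n' := congrArg Sigma.fst e''
  exact hb n x' y' (sigma_mk_injective e'')

lemma Col_congr {α β : Type 2} {r r' : α → α → Prop} {t t' : β → β → Prop} (e : r = r')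
    (e' : t = t') (f : α → β) (h : ∀ ⦃a b⦄, r a b → t (f a) (f b))
    (h' : ∀ ⦃a b⦄, r' a b → t' (f a) (f b)) (H : Function.Bijective (Quot.map f h)) :
    Function.Bijective (Quot.map f h') := by
  subst e e'
  exact H

/-- The cohomology groups of the statement are stable groups (`step_eq`). -/
lemma coh_bijective_of_pre (E : Spt L u) (i : ℤ) (j : ℕ) {U V : C} (f : V ⟶ U)
    (h : Function.Bijective (SCol.pre E (i - 2 * j) j ((rep C L).map f))) :
    Function.Bijective (Coh.map E i j f) := by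
  refine Col_congr ?_ ?_ _ _ _ h
  · funext x y
    rw [← step_eq]
  · funext x y
    rw [← step_eq]

lemma SCol.post_comp {E E' E'' : Spt L u} (f : SptHom E E') (g : SptHom E' E'') (q : ℤ) (j : ℕ)
    (F : PSh C L) : SCol.post (f.comp g) q j F = SCol.post g q j F ∘ SCol.post f q j F := by
  funext x
  obtain ⟨x⟩ := x
  refine congrArg (Quot.mk _) (congrArg (Sigma.mk x.1) ?_)
  change x.2 ≫ (QU L u).map (f.f _ ≫ g.f _) = (x.2 ≫ _) ≫ _
  rw [Functor.map_comp, Category.assoc]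

lemma SCol.post_congr {E E' : Spt L u} {f g : SptHom E E'} (h : ∀ n, f.f n = g.f n) (q : ℤ) (j : ℕ)
    (F : PSh C L) : SCol.post f q j F = SCol.post g q j F := by
  obtain ⟨f, _⟩ := f
  obtain ⟨g, _⟩ := g
  obtain rfl : f = g := funext h
  rfl

/-- A levelwise bijection which commutes with the transition maps induces a bijection. -/
lemma SCol.bijective_map {E : Spt L u} {E' : Spt L u'} {q q' : ℤ} {j j' : ℕ} {F : PSh C L}
    {F' : PSh C' L}
    (a : ∀ n, ((QU L u).obj ((src L u q n).obj F) ⟶ (QU L u).obj (E.X (j + n))) →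
      ((QU L u').obj ((src L u' q' n).obj F') ⟶ (QU L u').obj (E'.X (j' + n))))
    (ha : ∀ n x, a (n + 1) (stp E x) = stp E' (a n x)) (hb : ∀ n, Function.Bijective (a n)) :
    Function.Bijective (Quot.map (fun x : STerm E q j F => (⟨x.1, a x.1 x.2⟩ : STerm E' q' j' F'))
      (by
        rintro x _ rfl
        exact congrArg (Sigma.mk (x.1 + 1)) (ha x.1 x.2)) : SCol E q j F → SCol E' q' j' F') := by
  refine ⟨Col_inj (fun _ x => stp E x) (fun _ x => stp E' x) a ha _ fun n x y e => ?_, ?_⟩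
  · rw [(hb n).1 e]
  · rintro ⟨n, y⟩
    obtain ⟨x, rfl⟩ := (hb n).2 y
    exact ⟨Quot.mk _ ⟨n, x⟩, rfl⟩

lemma SCol.post_bijective_of_isW {E E' : Spt L u} {f : SptHom E E'} (h : f.IsW) (q : ℤ) (j : ℕ)
    (F : PSh C L) : Function.Bijective (SCol.post f q j F) := by
  refine SCol.bijective_map (fun n x => x ≫ (QU L u).map (f.f (j + n)))
    (fun n x => (stp_post f x).symm) fun n => ?_
  have := (h (j + n)).isIso
  exact ⟨fun x y e => (cancel_mono _).1 e,
    fun y => ⟨y ≫ inv ((QU L u).map (f.f (j + n))), by simp⟩⟩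

/-- All morphisms from the sources attached to `F` vanish stably. -/
def Van (E : Spt L u) (j : ℕ) (F : PSh C L) : Prop :=
  ∀ (q : ℤ) (n : ℕ) (x : (QU L u).obj ((src L u q n).obj F) ⟶ (QU L u).obj (E.X (j + n))), StZ E x

lemma Van.of_loc {E : Spt L u} (h : ∀ n, Loc (NGen u) (E.X n)) (j : ℕ) (F : PSh C L) :
    Van E j F := by
  intro q n x
  rw [(h (j + n)).isZero.eq_of_tgt x 0]
  exact StZ.zero

lemma van_iff_of_isW {E E' : Spt L u} {f : SptHom E E'} (h : f.IsW) (j : ℕ) (F : PSh C L) :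
    Van E j F ↔ Van E' j F := by
  refine ⟨fun H q n x => ?_, fun H q n x => StZ.of_post h (H q n _)⟩
  have := (h (j + n)).isIso
  have h1 := (H q n (x ≫ inv ((QU L u).map (f.f (j + n))))).post f
  rwa [Category.assoc, IsIso.inv_hom_id, Category.comp_id] at h1

/-- The connecting morphisms are compatible with exact functors. -/
lemma homMap_sesδ {G : Ch C L → Prop} {G' : Ch C' L → Prop} (Φ : PSh C L ⥤ PSh C' L) [IsExact Φ]
    (h : PresW G G' (mapC Φ)) {S : ShortComplex (Ch C L)} (hS : S.ShortExact) :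
    h.homMap (sesδ G hS) ≫ (QM G').map (((mapC Φ).commShiftIso (1 : ℤ)).hom.app S.X₁) =
      sesδ G' (shortExact_mapC Φ hS) := by
  have := CochainComplex.mappingCone.quasiIso_descShortComplex hS
  have := h.isIso_homMap ((QM G).map (CochainComplex.mappingCone.descShortComplex S))
  rw [← cancel_epi (h.homMap ((QM G).map (CochainComplex.mappingCone.descShortComplex S))),
    ← Category.assoc, ← h.homMap_comp, desc_sesδ, h.homMap_map, h.homMap_map,
    ← CochainComplex.mappingCone.mapHomologicalComplexIso_hom_descShortComplex,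
    Functor.map_comp, Category.assoc, desc_sesδ, ← Functor.map_comp, ← Functor.map_comp]
  exact congrArg (QM G').map (CochainComplex.mappingCone.map_δ S.f Φ)

/-- Induction along the transition maps. -/
lemma Col_ind {E : Spt L u} {q : ℤ} {j : ℕ} {F : PSh C L}
    (Q : ∀ n, ((QU L u).obj ((src L u q n).obj F) ⟶ (QU L u).obj (E.X (j + n))) → Prop)
    (h0 : ∀ n, Q n 0) (h1 : ∀ n x, Q (n + 1) (stp E x) → Q n x) {n : ℕ}
    {x : (QU L u).obj ((src L u q n).obj F) ⟶ (QU L u).obj (E.X (j + n))} (h : StZ E x) :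
    Q n x := by
  suffices H : ∀ {l : ℕ} {K : Ch C L} {z : (QU L u).obj K ⟶ (QU L u).obj (E.X l)}, StZ E z →
      ∀ n, K = (src L u q n).obj F → l = j + n → ∀ x, z ≍ x → Q n x from H h n rfl rfl x HEq.rfl
  intro l K z hz
  induction hz with
  | zero =>
    rintro n rfl rfl x hx
    exact eq_of_heq hx ▸ h0 n
  | step z _ ih =>
    rintro n rfl rfl x hx
    obtain rfl := eq_of_heq hx
    exact h1 n z (ih (n + 1) rfl rfl _ HEq.rfl)

lemma Col_mk_stp {E : Spt L u} {q : ℤ} {j : ℕ} {F : PSh C L} {n : ℕ}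
    (x : (QU L u).obj ((src L u q n).obj F) ⟶ (QU L u).obj (E.X (j + n))) :
    (Quot.mk _ ⟨n, x⟩ : SCol E q j F) = Quot.mk _ ⟨n + 1, stp E x⟩ :=
  Quot.sound rfl

lemma Col_mk_eq {E : Spt L u} {q : ℤ} {j : ℕ} {F : PSh C L} {n : ℕ}
    (x y : (QU L u).obj ((src L u q n).obj F) ⟶ (QU L u).obj (E.X (j + n))) (h : StZ E (x - y)) :
    (Quot.mk _ ⟨n, x⟩ : SCol E q j F) = Quot.mk _ ⟨n, y⟩ := by
  refine Col_ind (fun n z => ∀ x y, x - y = z →
    (Quot.mk _ ⟨n, x⟩ : SCol E q j F) = Quot.mk _ ⟨n, y⟩) (fun n x y e => ?_)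
    (fun n z ih x y e => ?_) h x y rfl
  · rw [sub_eq_zero.1 e]
  · exact ((Col_mk_stp x).trans (ih (stp E x) (stp E y) (by
      rw [← e]; exact (stp_sub E x y).symm))).trans (Col_mk_stp y).symm

variable (L u) in
/-- Tensoring with `T` commutes with the shift. -/
def Col_c : shiftFunctor (Ch C L) (1 : ℤ) ⋙ tT L u ≅ tT L u ⋙ shiftFunctor (Ch C L) (1 : ℤ) :=
  (mapC (RS.unit.T L u)).commShiftIso (1 : ℤ)

/-- The shifted spectrum. -/
def Col_sh (E : Spt L u) : Spt L u where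
  X n := (E.X n)⟦(1 : ℤ)⟧
  σ n := (Col_c L u).hom.app (E.X n) ≫ (E.σ n)⟦(1 : ℤ)⟧'

lemma Col_stp_sh (E : Spt L u) {K : Ch C L} {n : ℕ} (y : (QU L u).obj K ⟶ (QU L u).obj (E.X n)) :
    stp (Col_sh E) (n := n) ((presW_shift (1 : ℤ)).homMap y) =
      (QU L u).map ((Col_c L u).hom.app K) ≫ (presW_shift (1 : ℤ)).homMap (stp E y) := by
  have h := ((presW_shift (1 : ℤ)).comp presW_tT).homMap_naturality
    (presW_tT.comp (presW_shift (1 : ℤ))) (Col_c L u).hom y
  rw [← (presW_shift (1 : ℤ)).homMap_homMap presW_tT,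
    ← presW_tT.homMap_homMap (presW_shift (1 : ℤ))] at h
  dsimp only [stp, Col_sh]
  rw [PresW.homMap_comp, PresW.homMap_map, Functor.map_comp, ← Category.assoc, ← Category.assoc]
  exact congrArg (· ≫ _) h

lemma Col_stZ_sh {E : Spt L u} {K : Ch C L} {n : ℕ} {y : (QU L u).obj K ⟶ (QU L u).obj (E.X n)}
    (h : StZ E y) : StZ (Col_sh E) (n := n) ((presW_shift (1 : ℤ)).homMap y) := by
  induction h with
  | zero =>
    rw [PresW.homMap_zero]
    exact StZ.zero
  | step y _ ih =>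
    refine StZ.step _ ?_
    rw [Col_stp_sh]
    exact ih.pre _

lemma Col_src (q : ℤ) (F : PSh C L) (n : ℕ) :
    Nonempty ((src L u q n).obj F ≅ ((src L u (q + 1) n).obj F)⟦(1 : ℤ)⟧) := by
  induction n with
  | zero => exact ⟨((sglShiftIso 1 q (q + 1) (add_comm _ _)).app F).symm⟩
  | succ n ih =>
    obtain ⟨e⟩ := ih
    exact ⟨(tT L u).mapIso e ≪≫ (Col_c L u).app _⟩

lemma Col_van_sh {E : Spt L u} {j : ℕ} {F : PSh C L} (h : Van E j F) : Van (Col_sh E) j F := by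
  intro q n z
  obtain ⟨e⟩ := Col_src (u := u) q F n
  obtain ⟨y, hy⟩ := (shift_homMap_bijective (G := NGen u) 1 ((src L u (q + 1) n).obj F)
    (E.X (j + n))).2 ((QU L u).map e.inv ≫ z)
  refine StZ.of_pre ((QU L u).map e.inv) ?_
  rw [← hy]
  exact Col_stZ_sh (h (q + 1) n y)

section ses

variable {E₁ E₂ E₃ : Spt L u} (f : SptHom E₁ E₂) (g : SptHom E₂ E₃)
  (w : ∀ n, f.f n ≫ g.f n = 0) (hS : ∀ n, (ShortComplex.mk _ _ (w n)).ShortExact)
  {j : ℕ} {F : PSh C L}
include hS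

lemma Col_mid (h₁ : Van E₁ j F) {q : ℤ} {n : ℕ}
    (x : (QU L u).obj ((src L u q n).obj F) ⟶ (QU L u).obj (E₂.X (j + n)))
    (h : StZ E₃ (x ≫ (QU L u).map (g.f (j + n)))) : StZ E₂ x := by
  refine Col_ind (E := E₃) (fun n z => ∀ x : _ ⟶ (QU L u).obj (E₂.X (j + n)),
    x ≫ (QU L u).map (g.f (j + n)) = z → StZ E₂ x) (fun n x e => ?_) (fun n z ih x e => ?_) h x rfl
  · obtain ⟨y, rfl⟩ := ses_cov₂ (hS (j + n)) x e
    exact (h₁ q n y).post f
  · exact StZ.step x (ih (stp E₂ x) (by rw [← e]; exact (stp_post g x).symm))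

lemma Col_stp_δ {K : Ch C L} {n : ℕ} (x : (QU L u).obj K ⟶ (QU L u).obj (E₃.X n)) :
    stp (Col_sh E₁) (n := n) (x ≫ sesδ _ (hS n)) = stp E₃ x ≫ sesδ _ (hS (n + 1)) := by
  have h1 := homMap_sesδ (RS.unit.T L u) (presW_tT (L := L) (u := u)) (hS n)
  have h2 := sesδ_naturality (G := NGen u) (shortExact_mapC (RS.unit.T L u) (hS n)) (hS (n + 1))
    ⟨E₁.σ n, E₂.σ n, E₃.σ n, f.comm n, g.comm n⟩
  rw [← h1] at h2
  dsimp only [stp, Col_sh]
  rw [PresW.homMap_comp, Functor.map_comp, Category.assoc, Category.assoc, ← Category.assoc _ _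
    ((QU L u).map ((E₁.σ n)⟦(1 : ℤ)⟧'))]
  exact congrArg (_ ≫ ·) h2

/-- Hint: induction on `StZ E₃ (x ≫ g)`, `ses_cov₂`. -/
lemma Van.mid (h₁ : Van E₁ j F) (h₃ : Van E₃ j F) : Van E₂ j F := by
  exact fun q n x => Col_mid f g w hS h₁ x (h₃ q n _)

/-- Hint: two terms have the same class iff some iterates under the transition agree. Injectivity
as in `Van.mid`. Surjectivity: consider the shifted spectrum `n ↦ E₁.X n⟦1⟧` with bonding maps
given by `commShiftIso`; it is stably zero by `shift_homMap_bijective` and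
`src q n F ≅ (src (q + 1) n F)⟦1⟧`; the maps `sesδ` commute with the transitions (`homMap_sesδ`,
`sesδ_naturality`); conclude with `ses_cov₃`. -/
theorem SCol.post_bijective_of_ses (h₁ : Van E₁ j F) (q : ℤ) :
    Function.Bijective (SCol.post g q j F) := by
  refine ⟨Col_inj
    (A := fun n => (QU L u).obj ((src L u q n).obj F) ⟶ (QU L u).obj (E₂.X (j + n)))
    (A' := fun n => (QU L u).obj ((src L u q n).obj F) ⟶ (QU L u).obj (E₃.X (j + n)))
    (fun _ x => stp E₂ x) (fun _ x => stp E₃ x)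
    (fun n x => x ≫ (QU L u).map (g.f (j + n))) (fun n x => (stp_post g x).symm) _
    fun n x y e => Col_mk_eq x y (Col_mid f g w hS h₁ _ ?_), ?_⟩
  · rw [Preadditive.sub_comp, sub_eq_zero.2 e]
    exact StZ.zero
  · rintro ⟨n, x⟩
    refine Col_ind (E := Col_sh E₁) (fun n z => ∀ x : _ ⟶ (QU L u).obj (E₃.X (j + n)),
      x ≫ sesδ _ (hS (j + n)) = z → ∃ y, SCol.post g q j F y = Quot.mk _ ⟨n, x⟩)
      (fun n x e => ?_) (fun n z ih x e => ?_) (Col_van_sh h₁ q n _) x rfl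
    · obtain ⟨y, rfl⟩ := ses_cov₃ (hS (j + n)) x e
      exact ⟨Quot.mk _ ⟨n, y⟩, rfl⟩
    · obtain ⟨y, hy⟩ := ih (stp E₃ x) (by rw [← e]; exact (Col_stp_δ f g w hS x).symm)
      exact ⟨y, hy.trans (Col_mk_stp x).symm⟩

end ses

end Pool.Agent.KEW
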