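import Pool.Agent.P.MP_6277db_ag.KEW.L9.Dat
import Pool.Agent.P.MP_6277db_ag.KEW.L9.VAN
import Pool.Agent.P.MP_6277db_ag.KEW.L2b.Sigma
import Pool.Agent.P.MP_6277db_ag.KEW.L3.All

/-!
KEW, layer L9: the presheaf of cycles `M^Q` and the geometry of the maps into it.
-/

set_option backward.isDefEq.respectTransparency false
set_option linter.unusedSectionVars false

noncomputable section

open CategoryTheory Limits AlgebraicGeometry Opposite TensorProduct

namespace Pool.Agent.KEW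

section CycG_aux

variable {X Y S T : Scheme.{0}} {ι : Type}

lemma CycG_app (f : X ⟶ Y) (g : Y ⟶ S) (a : Γ(S, ⊤)) :
    f.appTop (g.appTop a) = (f ≫ g).appTop a := by
  rw [Scheme.Hom.comp_appTop, CommRingCat.comp_apply]

lemma CycG_comp (f : X ⟶ Y) (g : Y ⟶ S) (v : ι → Γ(Y, ⊤)) :
    f ≫ AffineSpace.homOfVector g v =
      AffineSpace.homOfVector (f ≫ g) fun i => f.appTop (v i) :=
  AffineSpace.comp_homOfVector v f g

lemma CycG_congr {f g : X ⟶ S} {v w : ι → Γ(X, ⊤)} (h : f = g) (h' : ∀ i, v i = w i) :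
    AffineSpace.homOfVector f v = AffineSpace.homOfVector g w := by
  rw [h, funext h']

lemma CycG_map (f : X ⟶ S) (g : S ⟶ T) (v : ι → Γ(X, ⊤)) :
    AffineSpace.homOfVector f v ≫ AffineSpace.map ι g = AffineSpace.homOfVector (f ≫ g) v := by
  refine (CycG_comp _ _ _).trans (CycG_congr ?_ fun i => AffineSpace.homOfVector_appTop_coord _ _ _)
  rw [AffineSpace.homOfVector_over_assoc]

lemma CycG_reindex {ι' : Type} (f : X ⟶ S) (v : ι → Γ(X, ⊤)) (e : ι' → ι) :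
    AffineSpace.homOfVector f v ≫ AffineSpace.reindex e S =
      AffineSpace.homOfVector f fun i => v (e i) :=
  (CycG_comp _ _ _).trans (CycG_congr (AffineSpace.homOfVector_over _ _)
    fun _ => AffineSpace.homOfVector_appTop_coord _ _ _)

lemma CycG_mem (f : X ⟶ Y) (a : Γ(Y, ⊤)) (x : X) :
    f x ∈ Y.basicOpen a ↔ x ∈ X.basicOpen (f.appTop a) := by
  rw [← Scheme.preimage_basicOpen_top]
  rfl

lemma CycG_coord (f : X ⟶ S) (v : ι → Γ(X, ⊤)) (i : ι) (x : X) :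
    AffineSpace.homOfVector f v x ∈ 𝔸(ι; S).basicOpen (AffineSpace.coord S i) ↔
      x ∈ X.basicOpen (v i) := by
  rw [CycG_mem, AffineSpace.homOfVector_appTop_coord]

lemma CycG_zero (f : X ⟶ S) (v : ι → Γ(X, ⊤)) (x : X) :
    AffineSpace.homOfVector f v x ∈ Set.range (zeroSec ι S) ↔ ∀ i, x ∉ X.basicOpen (v i) := by
  rw [mem_range_zeroSec]
  exact forall_congr' fun i => not_congr (CycG_coord f v i x)

lemma CycG_pt {f : X ⟶ Y} {g : Y ⟶ S} {h : X ⟶ S} (e : f ≫ g = h) (x : X) : g (f x) = h x := by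
  rw [← e, Scheme.Hom.comp_apply]

lemma CycG_tr {α : Type} {a b : α} {U : Set α} (e : a = b) (h : a ∈ U) : b ∈ U := e ▸ h

lemma CycG_eqAt {f : X ⟶ Y} {u v : Y ⟶ S} {u' v' : X ⟶ S} (hu : f ≫ u = u') (hv : f ≫ v = v')
    (x : X) : EqAt u v (f x) ↔ EqAt u' v' x := by
  rw [← hu, ← hv, eqAt_comp]

lemma CycG_pb {W W' P : Scheme.{0}} (a : W ⟶ S) (a' : W' ⟶ S) (b : P ⟶ S) (f : W' ⟶ W)
    (hf : f ≫ a = a') (g : pullback a' b ⟶ pullback a b)
    (h₁ : g ≫ pullback.fst a b = pullback.fst a' b ≫ f)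
    (h₂ : g ≫ pullback.snd a b = pullback.snd a' b) :
    IsPullback g (pullback.fst a' b) (pullback.fst a b) f := by
  refine IsPullback.of_right (h₁₂ := pullback.snd a b) (v₁₃ := b) (h₂₂ := a) ?_ h₁
    (IsPullback.of_hasPullback a b).flip
  rw [h₂, hf]
  exact (IsPullback.of_hasPullback a' b).flip

lemma CycG_tensor {L : Type 1} [CommRing L] {G : Type} [AddCommGroup G] {H : AddSubgroup G}
    {P : L ⊗[ℤ] (G ⧸ H) → Prop} (x : L ⊗[ℤ] (G ⧸ H)) (zero : P 0)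
    (gen : ∀ (l : L) (z : G), P (l ⊗ₜ[ℤ] (QuotientAddGroup.mk z : G ⧸ H)))
    (add : ∀ x y, P x → P y → P (x + y)) : P x := by
  induction x using TensorProduct.induction_on with
  | zero => exact zero
  | tmul l q =>
    obtain ⟨z, rfl⟩ := QuotientAddGroup.mk_surjective q
    exact gen l z
  | add x y hx hy => exact add x y hx hy

end CycG_aux

section el

variable {C : Type 1} [Category.{0} C] {u : C ⥤ Scheme.{0}} {L : Type 1} [CommRing L] {m : ℕ}

/-- The generators of `HH`. -/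
def hEl {ι : Type} {W : Scheme.{0}} (l : L) (z : Cyc m (𝔸(ι; W) ↘ W)) : (HH L m ι).obj (op W) :=
  l ⊗ₜ[ℤ] (QuotientAddGroup.mk z : CycA m ι W)

lemma hEl_induction {ι : Type} {W : Scheme.{0}} {P : (HH L m ι).obj (op W) → Prop}
    (x : (HH L m ι).obj (op W)) (zero : P 0) (gen : ∀ l z, P (hEl l z))
    (add : ∀ x y, P x → P y → P (x + y)) : P x := by
  exact CycG_tensor (P := P) x zero gen add

lemma map_hEl {ι : Type} {W W' : Scheme.{0}} (f : W' ⟶ W) (l : L) (z : Cyc m (𝔸(ι; W) ↘ W)) :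
    ((HH L m ι).map f.op).hom (hEl l z) =
      hEl l (Cyc.pull m (AffineSpace.isPullback_map f) z) := rfl

/-- The generators of `CFam.mot`. -/
def CFam.el (F : CFam u) (T₁ T₂ : F.Sets) (c : C) (l : L) (z : Cyc m (F.p.app c))
    (h : z ∈ CycOff m (F.p.app c) (T₁.T c)) : (F.mot L m T₁ T₂).obj (op c) :=
  l ⊗ₜ[ℤ] (QuotientAddGroup.mk ⟨z, h⟩ : CycPair m (F.p.app c) (T₁.T c) (T₂.T c))

lemma CFam.el_induction {F : CFam u} {T₁ T₂ : F.Sets} {c : C}
    {P : (F.mot L m T₁ T₂).obj (op c) → Prop} (x : (F.mot L m T₁ T₂).obj (op c)) (zero : P 0)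
    (gen : ∀ l z h, P (F.el T₁ T₂ c l z h)) (add : ∀ x y, P x → P y → P (x + y)) : P x := by
  exact CycG_tensor (P := P) x zero (fun l z => gen l z.1 z.2) add

lemma CFam.map_el (F : CFam u) (T₁ T₂ : F.Sets) {c c' : C} (φ : c' ⟶ c) (l : L)
    (z : Cyc m (F.p.app c)) (h : z ∈ CycOff m (F.p.app c) (T₁.T c)) :
    ((F.mot L m T₁ T₂).map φ.op).hom (F.el T₁ T₂ c l z h) =
      F.el T₁ T₂ c' l (Cyc.pull m (F.pb φ) z) (CycOff.pull_mem m (F.pb φ) (T₁.maps φ) h) := rfl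

/-- The closed immersion `t ↦ (t, y)` of affine spaces. -/
def jC (l : ℕ) {n : ℕ} (W : Scheme.{0}) (y : Fin n → Γ(W, ⊤)) :
    𝔸(Fin l; W) ⟶ 𝔸(Fin (l + n); W) :=
  AffineSpace.homOfVector (𝔸(Fin l; W) ↘ W)
    (Fin.addCases (AffineSpace.coord W) fun i => (𝔸(Fin l; W) ↘ W).appTop (y i))

lemma jC_over (l : ℕ) {n : ℕ} (W : Scheme.{0}) (y : Fin n → Γ(W, ⊤)) :
    jC l W y ≫ 𝔸(Fin (l + n); W) ↘ W = 𝔸(Fin l; W) ↘ W := AffineSpace.homOfVector_over _ _

lemma CycG_jC_left (l : ℕ) {n : ℕ} (W : Scheme.{0}) (y : Fin n → Γ(W, ⊤)) (i : Fin l) :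
    (jC l W y).appTop (AffineSpace.coord W (Fin.castAdd n i)) = AffineSpace.coord W i :=
  (AffineSpace.homOfVector_appTop_coord _ _ _).trans (Fin.addCases_left _)

lemma CycG_jC_right (l : ℕ) {n : ℕ} (W : Scheme.{0}) (y : Fin n → Γ(W, ⊤)) (i : Fin n) :
    (jC l W y).appTop (AffineSpace.coord W (Fin.natAdd l i)) = (𝔸(Fin l; W) ↘ W).appTop (y i) :=
  (AffineSpace.homOfVector_appTop_coord _ _ _).trans (Fin.addCases_right _)

lemma jC_zero (l : ℕ) (W : Scheme.{0}) (y : Fin 0 → Γ(W, ⊤)) : jC l W y = 𝟙 𝔸(Fin l; W) := by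
  refine AffineSpace.hom_ext ((jC_over l W y).trans (Category.id_comp _).symm) fun i => ?_
  exact CycG_jC_left l W y i

lemma jC_succ (l : ℕ) {n : ℕ} (W : Scheme.{0}) (y : Fin (n + 1) → Γ(W, ⊤)) :
    jC l W y = jC l W (Fin.init y) ≫ graph finSuccEquivLast W (y (Fin.last n)) := by
  refine AffineSpace.hom_ext ?_ fun i => ?_
  · exact (jC_over l W y).trans ((jC_over l W (Fin.init y)).symm.trans
      ((congrArg _ (graph_over _ W _).symm).trans (Category.assoc _ _ _).symm))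
  · refine Eq.trans ?_ (CycG_app _ _ _)
    refine Eq.trans ?_ (congrArg _ (CycB_coord (finSuccEquivLast (n := l + n)) W (y (Fin.last n)) i).symm)
    induction i using Fin.lastCases (n := l + n) with
    | last =>
      rw [finSuccEquivLast_last, Option.elim_none, CycG_app, jC_over]
      exact CycG_jC_right l W y (Fin.last n)
    | cast j =>
      rw [finSuccEquivLast_castSucc, Option.elim_some]
      induction j using Fin.addCases with
      | left k => exact (CycG_jC_left l W y k).trans (CycG_jC_left l W _ k).symm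
      | right k =>
        exact (CycG_jC_right l W y k.castSucc).trans (CycG_jC_right l W (Fin.init y) k).symm

lemma jC_map (l : ℕ) {n : ℕ} {W W' : Scheme.{0}} (f : W' ⟶ W) (y : Fin n → Γ(W, ⊤)) :
    jC l W' (fun i => f.appTop (y i)) ≫ AffineSpace.map _ f = AffineSpace.map _ f ≫ jC l W y := by
  refine (CycG_map _ _ _).trans (Eq.trans ?_ (CycG_comp _ _ _).symm)
  refine CycG_congr (AffineSpace.map_over f).symm fun i => ?_
  induction i using Fin.addCases with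
  | left k => rw [Fin.addCases_left, Fin.addCases_left, AffineSpace.map_appTop_coord]
  | right k =>
    rw [Fin.addCases_right, Fin.addCases_right, CycG_app, CycG_app, AffineSpace.map_over]

end el

variable {A : Type} [CommRing A] [IsNoetherianRing A] [IsLocalRing A]

variable (A) in
/-- The levels of Voevodsky's spectrum over the generic point. -/
abbrev HG (L : Type 1) [CommRing L] (m l : ℕ) : PSh (SmGen A) L := (genSch A).op ⋙ HH L m (Fin l)

namespace PD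

variable {N : ℕ} (D : PD A N) (L : Type 1) [CommRing L] (m : ℕ) (r : Fin (N + 1)) (Z : Set D.S)
  (l : ℕ)

instance isSeparated_P : IsSeparated D.P.obj.obj.hom := D.P.obj.property.2.2

/-- The products `W × P`. -/
def WP : D.SP' ⥤ Scheme.{0} where
  obj c := pullback c.W.obj.obj.hom D.P.obj.obj.hom
  map {c' c} f := pullback.lift (pullback.fst _ _ ≫ D.uS.map f) (pullback.snd _ _)
    (by rw [Category.assoc, ← pullback.condition]; exact congrArg _ (Big.w f.1.hom))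
  map_id c := by
    apply pullback.hom_ext
    · rw [pullback.lift_fst, D.uS.map_id, Category.id_comp]
      exact Category.comp_id _
    · rw [pullback.lift_snd, Category.id_comp]
  map_comp f g := by
    apply pullback.hom_ext
    · rw [pullback.lift_fst, Category.assoc, pullback.lift_fst, pullback.lift_fst_assoc,
        D.uS.map_comp, Category.assoc]
    · rw [pullback.lift_snd, Category.assoc, pullback.lift_snd, pullback.lift_snd]

/-- The projection `A^l × W × P ⟶ W`. -/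
def pa (c : D.SP') : 𝔸(Fin l; D.WP.obj c) ⟶ D.uS.obj c :=
  𝔸(Fin l; D.WP.obj c) ↘ D.WP.obj c ≫ pullback.fst c.W.obj.obj.hom D.P.obj.obj.hom

/-- The projection `A^l × W × P ⟶ P`. -/
def pb' (c : D.SP') : 𝔸(Fin l; D.WP.obj c) ⟶ D.S :=
  𝔸(Fin l; D.WP.obj c) ↘ D.WP.obj c ≫ pullback.snd c.W.obj.obj.hom D.P.obj.obj.hom

lemma CycG_fst {c' c : D.SP'} (f : c' ⟶ c) :
    D.WP.map f ≫ pullback.fst c.W.obj.obj.hom D.P.obj.obj.hom =
      pullback.fst c'.W.obj.obj.hom D.P.obj.obj.hom ≫ D.uS.map f := pullback.lift_fst _ _ _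

lemma CycG_snd {c' c : D.SP'} (f : c' ⟶ c) :
    D.WP.map f ≫ pullback.snd c.W.obj.obj.hom D.P.obj.obj.hom =
      pullback.snd c'.W.obj.obj.hom D.P.obj.obj.hom := pullback.lift_snd _ _ _

lemma CycG_w {c' c : D.SP'} (f : c' ⟶ c) : D.uS.map f ≫ c.W.obj.obj.hom = c'.W.obj.obj.hom :=
  Big.w f.1.hom

lemma CycG_x {c' c : D.SP'} (f : c' ⟶ c) : D.uS.map f ≫ (big A).map c.x = (big A).map c'.x :=
  ((big A).map_comp f.1.hom c.x).symm.trans (congrArg (big A).map f.2)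

instance (c : D.SP') : IsSeparated (D.pa l c) := by
  have : IsSeparated (pullback.fst c.W.obj.obj.hom D.P.obj.obj.hom) :=
    MorphismProperty.pullback_fst _ _ D.isSeparated_P
  have h : IsSeparated (𝔸(Fin l; D.WP.obj c) ↘ D.WP.obj c) := inferInstance
  exact IsSeparated.stableUnderComposition.comp_mem _ _ h this

lemma isPullback_pa {c' c : D.SP'} (f : c' ⟶ c) :
    IsPullback (AffineSpace.map (Fin l) (D.WP.map f)) (D.pa l c') (D.pa l c) (D.uS.map f) := by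
  exact (AffineSpace.isPullback_map (D.WP.map f)).paste_vert
    (CycG_pb _ _ _ _ (D.CycG_w f) _ (D.CycG_fst f) (D.CycG_snd f))

lemma map_pb' {c' c : D.SP'} (f : c' ⟶ c) :
    AffineSpace.map (Fin l) (D.WP.map f) ≫ D.pb' l c = D.pb' l c' := by
  exact (AffineSpace.map_over_assoc _ _).trans (congrArg _ (D.CycG_snd f))

/-- The family `A^l × W × P ⟶ W`. -/
def famQ : CFam D.uS where
  X := D.WP ⋙ AffineSpace.functor.obj (op (Fin l))
  p := { app := fun c => D.pa l c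
         naturality := fun _ _ f => (D.isPullback_pa l f).w }
  sep c := inferInstanceAs (IsSeparated (D.pa l c))
  pb f := D.isPullback_pa l f

/-- The points where the second coordinate is the tautological point. -/
def Dg (c : D.SP') : Set 𝔸(Fin l; D.WP.obj c) :=
  {x | EqAt (D.pa l c ≫ (big A).map c.x) (D.pb' l c) x}

lemma isClosed_Dg (c : D.SP') : IsClosed (D.Dg l c) := by
  refine KEW.isClosed_eqAt D.P.obj.obj.hom ?_
  rw [Category.assoc, Big.w c.x, pa, pb', Category.assoc, Category.assoc]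
  exact congrArg _ pullback.condition

lemma preimage_Dg {c' c : D.SP'} (f : c' ⟶ c) :
    AffineSpace.map (Fin l) (D.WP.map f) ⁻¹' D.Dg l c = D.Dg l c' := by
  ext x
  refine CycG_eqAt ?_ (D.map_pb' l f) x
  rw [← Category.assoc, (D.isPullback_pa l f).w, Category.assoc, D.CycG_x]

/-- The special fibre and the diagonal points outside the chart. -/
def T1 : (D.famQ l).Sets where
  T c := {x : 𝔸(Fin l; D.WP.obj c) |
    c.W.obj.obj.hom (D.pa l c x) = IsLocalRing.closedPoint A ∨ (x ∈ D.Dg l c ∧ D.pb' l c x ∉ D.U r)}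
  maps := by
    intro c' c f x hx
    rcases hx with hx | ⟨h₁, h₂⟩
    · refine Or.inl (Eq.trans ?_ hx)
      exact (congrArg _ ((CycG_pt (D.isPullback_pa l f).w x).trans (CycG_pt rfl x).symm)).trans
        (CycG_pt (D.CycG_w f) _)
    · refine Or.inr ⟨((D.preimage_Dg l f).symm ▸ h₁ :), fun h => h₂ ?_⟩
      exact CycG_pt (D.map_pb' l f) x ▸ h

/-- The diagonal points over `Z` on the zero section. -/
def T2 : (D.famQ l).Sets where
  T c := {x : 𝔸(Fin l; D.WP.obj c) |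
    x ∈ Set.range (zeroSec (Fin l) (D.WP.obj c)) ∧ x ∈ D.Dg l c ∧ D.pb' l c x ∈ Z}
  maps := by
    intro c' c f x hx
    obtain ⟨h₀, h₁, h₂⟩ := hx
    refine ⟨map_zeroSec _ _ h₀, ((D.preimage_Dg l f).symm ▸ h₁ :), ?_⟩
    exact (CycG_pt (D.map_pb' l f) x).symm ▸ h₂

/-- The presheaf `M^Q`. -/
abbrev MQ : PSh D.SP' L := (D.famQ l).mot L m (D.T1 r l) (D.T2 Z l)

/-- The graph of `v`. -/
def jQ (c : D.SP') (v : c.W.obj ⟶ D.P.obj) : 𝔸(Fin l; D.uS.obj c) ⟶ 𝔸(Fin l; D.WP.obj c) :=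
  AffineSpace.map (Fin l) (pullback.lift (𝟙 _) ((big A).map v)
    ((Category.id_comp _).trans (Big.w v).symm))

lemma jQ_pa (c : D.SP') (v : c.W.obj ⟶ D.P.obj) :
    D.jQ l c v ≫ D.pa l c = 𝔸(Fin l; D.uS.obj c) ↘ D.uS.obj c := by
  exact (AffineSpace.map_over_assoc _ _).trans
    ((congrArg _ (pullback.lift_fst _ _ _)).trans (Category.comp_id _))

lemma CycG_jQ_pb (c : D.SP') (v : c.W.obj ⟶ D.P.obj) :
    D.jQ l c v ≫ D.pb' l c = 𝔸(Fin l; D.uS.obj c) ↘ D.uS.obj c ≫ (big A).map v :=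
  (AffineSpace.map_over_assoc _ _).trans (congrArg _ (pullback.lift_snd _ _ _))

lemma CycG_jQ_pt (c : D.SP') (v : c.W.obj ⟶ D.P.obj) (x : 𝔸(Fin l; D.uS.obj c)) :
    D.pb' l c (D.jQ l c v x) = (big A).map v ((𝔸(Fin l; D.uS.obj c) ↘ D.uS.obj c) x) :=
  (CycG_pt (D.CycG_jQ_pb l c v) x).trans (CycG_pt rfl x).symm

lemma CycG_jQ_Dg (c : D.SP') (v : c.W.obj ⟶ D.P.obj) (x : 𝔸(Fin l; D.uS.obj c)) :
    D.jQ l c v x ∈ D.Dg l c ↔
      EqAt ((big A).map c.x) ((big A).map v) ((𝔸(Fin l; D.uS.obj c) ↘ D.uS.obj c) x) :=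
  (CycG_eqAt (by rw [← Category.assoc, D.jQ_pa]) (D.CycG_jQ_pb l c v) x).trans
    (CycG_eqAt rfl rfl x).symm

/-- The point `y₀ + y` of the chart. -/
def jP (c : D.SP') (y₀ : Fin N → Γ(D.uS.obj c, ⊤)) : 𝔸(Fin (l + N); D.uS.obj c) ⟶ D.S :=
  AffineSpace.homOfVector (𝔸(Fin (l + N); D.uS.obj c) ↘ D.uS.obj c ≫ c.W.obj.obj.hom)
    (fun i => (𝔸(Fin (l + N); D.uS.obj c) ↘ D.uS.obj c).appTop (y₀ i) +
      AffineSpace.coord _ (Fin.natAdd l i)) ≫ D.ch r

/-- The open immersion `(t, y) ↦ (t, y₀ + y)`. -/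
def jI (c : D.SP') (y₀ : Fin N → Γ(D.uS.obj c, ⊤)) :
    𝔸(Fin (l + N); D.uS.obj c) ⟶ 𝔸(Fin l; D.WP.obj c) :=
  AffineSpace.homOfVector
    (pullback.lift (𝔸(Fin (l + N); D.uS.obj c) ↘ D.uS.obj c) (D.jP r l c y₀)
      (by rw [jP, Category.assoc, D.chOver, AffineSpace.homOfVector_over]))
    fun i => AffineSpace.coord _ (Fin.castAdd N i)

lemma jI_pa (c : D.SP') (y₀ : Fin N → Γ(D.uS.obj c, ⊤)) :
    D.jI r l c y₀ ≫ D.pa l c = 𝔸(Fin (l + N); D.uS.obj c) ↘ D.uS.obj c := by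
  exact (AffineSpace.homOfVector_over_assoc _ _ _).trans (pullback.lift_fst _ _ _)

lemma jI_pb' (c : D.SP') (y₀ : Fin N → Γ(D.uS.obj c, ⊤)) :
    D.jI r l c y₀ ≫ D.pb' l c = D.jP r l c y₀ := by
  exact (AffineSpace.homOfVector_over_assoc _ _ _).trans (pullback.lift_snd _ _ _)

lemma CycG_ext {X : Scheme.{0}} {c : D.SP'} {f g : X ⟶ 𝔸(Fin l; D.WP.obj c)}
    (h₁ : f ≫ D.pa l c = g ≫ D.pa l c) (h₂ : f ≫ D.pb' l c = g ≫ D.pb' l c)
    (h₃ : ∀ i, f.appTop (AffineSpace.coord _ i) = g.appTop (AffineSpace.coord _ i)) : f = g :=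
  AffineSpace.hom_ext (pullback.hom_ext
    ((Category.assoc _ _ _).trans (h₁.trans (Category.assoc _ _ _).symm))
    ((Category.assoc _ _ _).trans (h₂.trans (Category.assoc _ _ _).symm))) h₃

lemma CycG_jI_coord (c : D.SP') (y₀ : Fin N → Γ(D.uS.obj c, ⊤)) (i : Fin l) :
    (D.jI r l c y₀).appTop (AffineSpace.coord _ i) = AffineSpace.coord _ (Fin.castAdd N i) :=
  AffineSpace.homOfVector_appTop_coord _ _ _

lemma CycG_over_pt {ι : Type} (c : D.SP') (y : Fin N → Γ(D.uS.obj c, ⊤)) :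
    𝔸(ι; D.uS.obj c) ↘ D.uS.obj c ≫ (big A).map (D.pt r c.W.obj y) =
      AffineSpace.homOfVector (𝔸(ι; D.uS.obj c) ↘ D.uS.obj c ≫ c.W.obj.obj.hom)
        (fun i => (𝔸(ι; D.uS.obj c) ↘ D.uS.obj c).appTop (y i)) ≫ D.ch r :=
  (Category.assoc _ _ _).symm.trans (congrArg (· ≫ D.ch r) (CycG_comp _ _ _))

lemma CycG_over_x {ι : Type} (c : D.SP') (h : D.InU r c.x) :
    𝔸(ι; D.uS.obj c) ↘ D.uS.obj c ≫ (big A).map c.x =
      AffineSpace.homOfVector (𝔸(ι; D.uS.obj c) ↘ D.uS.obj c ≫ c.W.obj.obj.hom)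
        (fun i => (𝔸(ι; D.uS.obj c) ↘ D.uS.obj c).appTop (D.crd r c.x i)) ≫ D.ch r :=
  (congrArg (fun v => 𝔸(ι; D.uS.obj c) ↘ D.uS.obj c ≫ (big A).map v) (D.pt_crd h).symm).trans
    (D.CycG_over_pt r c (D.crd r c.x))

lemma jC_jI (c : D.SP') (y₀ y : Fin N → Γ(D.uS.obj c, ⊤)) :
    jC l (D.uS.obj c) y ≫ D.jI r l c y₀ = D.jQ l c (D.pt r c.W.obj fun i => y₀ i + y i) := by
  refine D.CycG_ext l ?_ ?_ fun i => ?_
  · rw [Category.assoc, D.jI_pa, jC_over, D.jQ_pa]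
  · rw [Category.assoc, D.jI_pb', D.CycG_jQ_pb, jP, ← Category.assoc, CycG_comp]
    refine Eq.trans (congrArg (· ≫ D.ch r) (CycG_congr ?_ fun i => ?_))
      (D.CycG_over_pt r c fun i => y₀ i + y i).symm
    · rw [← Category.assoc, jC_over]
    · rw [map_add, map_add, CycG_app, jC_over, CycG_jC_right]
  · rw [← CycG_app, D.CycG_jI_coord, CycG_jC_left]
    exact (AffineSpace.map_appTop_coord _ _).symm

lemma jQ_map {c' c : D.SP'} (f : c' ⟶ c) (v : c.W.obj ⟶ D.P.obj) :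
    D.jQ l c' (f.1.hom ≫ v) ≫ AffineSpace.map (Fin l) (D.WP.map f) =
      AffineSpace.map (Fin l) (D.uS.map f) ≫ D.jQ l c v := by
  refine (AffineSpace.map_comp _ _).symm.trans
    (Eq.trans (congrArg (AffineSpace.map (Fin l)) ?_) (AffineSpace.map_comp _ _))
  refine pullback.hom_ext ?_ ?_
  · rw [Category.assoc, Category.assoc, D.CycG_fst, pullback.lift_fst_assoc, pullback.lift_fst]
    exact (Category.id_comp _).trans (Category.comp_id _).symm
  · rw [Category.assoc, Category.assoc, D.CycG_snd, pullback.lift_snd, pullback.lift_snd]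
    exact (big A).map_comp _ _

lemma jI_map {c' c : D.SP'} (f : c' ⟶ c) (y₀ : Fin N → Γ(D.uS.obj c, ⊤)) :
    D.jI r l c' (fun i => (D.uS.map f).appTop (y₀ i)) ≫ AffineSpace.map (Fin l) (D.WP.map f) =
      AffineSpace.map (Fin (l + N)) (D.uS.map f) ≫ D.jI r l c y₀ := by
  refine D.CycG_ext l ?_ ?_ fun i => ?_
  · rw [Category.assoc, Category.assoc, (D.isPullback_pa l f).w, D.jI_pa, ← Category.assoc,
      D.jI_pa, AffineSpace.map_over]
  · rw [Category.assoc, Category.assoc, D.map_pb', D.jI_pb', D.jI_pb', jP, jP, ← Category.assoc,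
      CycG_comp]
    refine congrArg (· ≫ D.ch r) (CycG_congr ?_ fun i => ?_)
    · rw [AffineSpace.map_over_assoc, D.CycG_w]
    · rw [map_add, CycG_app, CycG_app, AffineSpace.map_over, AffineSpace.map_appTop_coord]
  · rw [← CycG_app, ← CycG_app, AffineSpace.map_appTop_coord, D.CycG_jI_coord, D.CycG_jI_coord,
      AffineSpace.map_appTop_coord]

/-- The set `0 × (Z ∩ U r)` in affine space. -/
def ZA : Set 𝔸(Fin (l + N); Spec (.of A)) :=
  {x | (∀ i : Fin l, x ∉ 𝔸(Fin (l + N); Spec (.of A)).basicOpen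
      (AffineSpace.coord _ (Fin.castAdd N i))) ∧
    (AffineSpace.reindex (Fin.natAdd l) (Spec (.of A)) ≫ D.ch r) x ∈ Z}

lemma jQ_mem (c : D.SP') (v : c.W.obj ⟶ D.P.obj) (h : IsGen c.W.obj)
    (hv : (D.eqSub (D.U r)).mem (W := c) ⟨v, h⟩) (z : Cyc m (𝔸(Fin l; D.uS.obj c) ↘ D.uS.obj c)) :
    Cyc.pushHom m (D.jQ l c v) (D.jQ_pa l c v) z ∈ CycOff m _ ((D.T1 r l).T c) := by
  refine Cyc.pushHom_mem_cycOff _ _ (T := ∅) ?_ (Set.disjoint_empty _)
  rintro x (hx | ⟨h₁, h₂⟩)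
  · exact h ⟨_, (congrArg _ (CycG_pt (D.jQ_pa l c v) x).symm).trans hx⟩
  · have e := (D.CycG_jQ_Dg l c v x).1 h₁
    exact h₂ (CycG_tr (e.eq.trans (D.CycG_jQ_pt l c v x).symm) (hv _ e))

lemma jI_mem (c : D.SP') (y₀ : Fin N → Γ(D.uS.obj c, ⊤))
    (z : Cyc m (𝔸(Fin (l + N); D.uS.obj c) ↘ D.uS.obj c))
    (hz : z ∈ CycOff m _ ((affSets A (Fin (l + N)) (affSp A _)).T c.W)) :
    Cyc.pushHom m (D.jI r l c y₀) (D.jI_pa r l c y₀) z ∈ CycOff m _ ((D.T1 r l).T c) := by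
  refine Cyc.pushHom_mem_cycOff _ _ ?_ hz
  rintro x (hx | ⟨-, h₂⟩)
  · exact ((CycG_pt (AffineSpace.map_over _) x).trans (CycG_pt rfl x).symm).trans
      ((congrArg _ (CycG_pt (D.jI_pa r l c y₀) x).symm).trans hx)
  · exact (h₂ ⟨_, (CycG_pt rfl x).trans (CycG_pt (D.jI_pb' r l c y₀) x).symm⟩).elim

omit D in
lemma _root_.Pool.Agent.KEW.gen_mem {ι : Type} (W : Sm A) (h : IsGen W.obj)
    (z : Cyc m (𝔸(ι; (smS A).obj W) ↘ (smS A).obj W)) :
    z ∈ CycOff m _ ((affSets A ι (affSp A _)).T W) := by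
  refine Set.disjoint_left.2 fun x _ hx => h ⟨(𝔸(ι; (smS A).obj W) ↘ (smS A).obj W) x, ?_⟩
  exact ((CycG_pt rfl x).trans (CycG_pt (AffineSpace.map_over _) x).symm).trans hx

lemma jQ_preimage_T2 (c : D.SP') (v : c.W.obj ⟶ D.P.obj) :
    D.jQ l c v ⁻¹' (D.T2 Z l).T c =
      {x | x ∈ Set.range (zeroSec (Fin l) (D.uS.obj c)) ∧
        EqAt ((big A).map c.x) ((big A).map v) ((𝔸(Fin l; D.uS.obj c) ↘ D.uS.obj c) x) ∧
        (big A).map v ((𝔸(Fin l; D.uS.obj c) ↘ D.uS.obj c) x) ∈ Z} := by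
  ext x
  refine and_congr ((CycG_zero _ _ x).trans (mem_range_zeroSec _ _ x).symm)
    (and_congr (D.CycG_jQ_Dg l c v x) ?_)
  exact iff_of_eq (congrArg (· ∈ Z) (D.CycG_jQ_pt l c v x))

lemma jI_preimage_T2 (c : D.SP') (h : D.InU r c.x) :
    D.jI r l c (D.crd r c.x) ⁻¹' (D.T2 Z l).T c =
      {x | x ∈ Set.range (zeroSec (Fin (l + N)) (D.uS.obj c)) ∧
        (big A).map c.x ((𝔸(Fin (l + N); D.uS.obj c) ↘ D.uS.obj c) x) ∈ Z} := by
  ext x
  have e₀ : D.jI r l c (D.crd r c.x) x ∈ D.Dg l c ↔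
      EqAt (𝔸(Fin (l + N); D.uS.obj c) ↘ D.uS.obj c ≫ (big A).map c.x)
        (D.jP r l c (D.crd r c.x)) x :=
    CycG_eqAt (by rw [← Category.assoc, D.jI_pa]) (D.jI_pb' r l c _) x
  have e₁ : EqAt (D.jP r l c (D.crd r c.x))
      (𝔸(Fin (l + N); D.uS.obj c) ↘ D.uS.obj c ≫ (big A).map c.x) x ↔
      ∀ i, x ∉ 𝔸(Fin (l + N); D.uS.obj c).basicOpen (AffineSpace.coord _ (Fin.natAdd l i)) := by
    rw [D.CycG_over_x r c h]
    refine (eqAt_mono _ _ _ _).trans ((eqAt_homOfVector _ _ _ _).trans ?_)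
    simp only [add_sub_cancel_left]
  have e₂ := CycG_pt (D.jI_pb' r l c (D.crd r c.x)) x
  constructor
  · rintro ⟨h₀, h₁, h₂⟩
    have e := (e₀.1 h₁).symm
    refine ⟨(mem_range_zeroSec _ _ x).2 fun i => ?_, ?_⟩
    · induction i using Fin.addCases with
      | left k => exact (CycG_zero _ _ x).1 h₀ k
      | right k => exact e₁.1 e k
    · exact CycG_tr (e₂.trans (e.eq.trans (CycG_pt rfl x).symm)) h₂
  · rintro ⟨h₀, h₂⟩
    have h₃ := (mem_range_zeroSec _ _ x).1 h₀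
    have e := e₁.2 fun i => h₃ _
    exact ⟨(CycG_zero _ _ x).2 fun i => h₃ _, e₀.2 e.symm,
      CycG_tr (e₂.trans (e.eq.trans (CycG_pt rfl x).symm)).symm h₂⟩

lemma jI_zero_preimage_T2 (c : D.SP') :
    D.jI r l c 0 ⁻¹' (D.T2 Z l).T c ⊆ (affSets A (Fin (l + N)) (D.ZA r Z l)).T c.W := by
  rintro x ⟨h₀, -, h₂⟩
  refine ⟨fun i hi => (CycG_zero _ _ x).1 h₀ i ((CycG_coord _ _ _ x).1 hi), ?_⟩
  have e : AffineSpace.map (Fin (l + N)) c.W.obj.obj.hom ≫
      AffineSpace.reindex (Fin.natAdd l) (Spec (.of A)) ≫ D.ch r = D.jP r l c 0 := by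
    refine (Category.assoc _ _ _).symm.trans (congrArg (· ≫ D.ch r) ?_)
    refine (CycG_reindex _ _ _).trans (CycG_congr rfl fun i => ?_)
    exact (zero_add _).symm.trans (congrArg (· + _) (map_zero _).symm)
  exact CycG_tr ((CycG_pt (D.jI_pb' r l c 0) x).trans (CycG_pt e x).symm) h₂

lemma jC_preimage_ZA (c : D.SP') (h : D.InU r c.x) :
    jC l (D.uS.obj c) (D.crd r c.x) ⁻¹' (affSets A (Fin (l + N)) (D.ZA r Z l)).T c.W =
      {x | x ∈ Set.range (zeroSec (Fin l) (D.uS.obj c)) ∧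
        (big A).map c.x ((𝔸(Fin l; D.uS.obj c) ↘ D.uS.obj c) x) ∈ Z} := by
  ext x
  have e : jC l (D.uS.obj c) (D.crd r c.x) ≫ AffineSpace.map (Fin (l + N)) c.W.obj.obj.hom ≫
      AffineSpace.reindex (Fin.natAdd l) (Spec (.of A)) ≫ D.ch r =
      𝔸(Fin l; D.uS.obj c) ↘ D.uS.obj c ≫ (big A).map c.x := by
    refine Eq.trans ?_ (D.CycG_over_x r c h).symm
    refine ((Category.assoc _ _ _).symm.trans (Category.assoc _ _ _).symm).trans
      (congrArg (· ≫ D.ch r) ?_)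
    refine (congrArg (· ≫ _) (CycG_map _ _ _)).trans ((CycG_reindex _ _ _).trans ?_)
    exact CycG_congr rfl fun i => Fin.addCases_right _
  refine and_congr (Iff.trans (forall_congr' fun i => not_congr ?_) (mem_range_zeroSec _ _ x).symm)
    (iff_of_eq (congrArg (· ∈ Z) ?_))
  · refine (CycG_coord _ _ _ _).trans ((CycG_coord _ _ _ x).trans ?_)
    rw [Fin.addCases_left]
  · exact (congrArg _ (CycG_pt rfl x)).trans ((CycG_pt (Category.assoc _ _ _) x).trans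
      ((congrArg (fun g => g x) e).trans (CycG_pt rfl x).symm))

end PD

end Pool.Agent.KEW
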