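import Pool.Agent.P.MP_6277db_ag.KEW.L9.CycG

/-!
KEW, layer L9: the maps into the presheaf of cycles `M^Q`.
-/

set_option backward.isDefEq.respectTransparency false
set_option linter.unusedSectionVars false

noncomputable section

open CategoryTheory Limits AlgebraicGeometry Opposite TensorProduct

namespace Pool.Agent.KEW

section aux

variable {C : Type 1} [Category.{0} C] {u : C ⥤ Scheme.{0}} {L : Type 1} [CommRing L] {m : ℕ}

/-- Push forward from `CycA` to `CycPair`. -/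
def CycM_a {ι : Type} {W X : Scheme.{0}} {p : X ⟶ W} [IsSeparated p] {T₁ T₂ : Set X}
    (j : 𝔸(ι; W) ⟶ X) (hj : j ≫ p = 𝔸(ι; W) ↘ W)
    (h₁ : ∀ z, Cyc.pushHom m j hj z ∈ CycOff m p T₁) (h₂ : j ⁻¹' T₂ ⊆ Set.range (zeroSec ι W)) :
    CycA m ι W →+ CycPair m p T₁ T₂ :=
  QuotientAddGroup.map _ _ ((Cyc.pushHom m j hj).codRestrict _ h₁)
    fun _ hc => Cyc.pushHom_mem_cycOff j hj h₂ hc

/-- Push forward on `CycPair`. -/
def CycM_p {W X Y : Scheme.{0}} {p : X ⟶ W} [IsSeparated p] {q : Y ⟶ W} [IsSeparated q]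
    {T₁ T₂ : Set X} {S₁ S₂ : Set Y} (j : Y ⟶ X) (hj : j ≫ p = q)
    (h₁ : ∀ z ∈ CycOff m q S₁, Cyc.pushHom m j hj z ∈ CycOff m p T₁) (h₂ : j ⁻¹' T₂ ⊆ S₂) :
    CycPair m q S₁ S₂ →+ CycPair m p T₁ T₂ :=
  QuotientAddGroup.map _ _
    (((Cyc.pushHom m j hj).comp (CycOff m q S₁).subtype).codRestrict _ fun z => h₁ z.1 z.2)
    fun _ hc => Cyc.pushHom_mem_cycOff j hj h₂ hc

lemma CycM_congr (F : CFam u) (T₁ T₂ : F.Sets) (c : C) (l : L) {z z' : Cyc m (F.p.app c)}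
    (e : z = z') (h : z ∈ CycOff m (F.p.app c) (T₁.T c)) (h' : z' ∈ CycOff m (F.p.app c) (T₁.T c)) :
    F.el T₁ T₂ c l z h = F.el T₁ T₂ c l z' h' := by
  subst e
  rfl

lemma CycM_zero (F : CFam u) (T₁ T₂ : F.Sets) (c : C) (l : L) {z : Cyc m (F.p.app c)}
    (h : z ∈ CycOff m (F.p.app c) (T₁.T c)) (h' : z ∈ CycOff m (F.p.app c) (T₂.T c)) :
    F.el T₁ T₂ c l z h = 0 := by
  have e : (QuotientAddGroup.mk ⟨z, h⟩ : CycPair m (F.p.app c) (T₁.T c) (T₂.T c)) = 0 :=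
    (QuotientAddGroup.eq_zero_iff _).2 h'
  exact (congrArg (fun y => l ⊗ₜ[ℤ] y) e).trans (tmul_zero _ _)

lemma CycM_off {W X Y : Scheme.{0}} {p : X ⟶ W} [IsSeparated p] {q : Y ⟶ W} [IsSeparated q]
    {T : Set X} (j : Y ⟶ X) (hj : j ≫ p = q) (h : ∀ y, j y ∉ T) (z : Cyc m q) :
    Cyc.pushHom m j hj z ∈ CycOff m p T :=
  Cyc.pushHom_mem_cycOff j hj (T := ∅) (fun y hy => h y hy) (Set.disjoint_empty _)

/-- Two linear maps out of `HH` which agree on the generators. -/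
lemma CycM_ext {ι : Type} {W : Scheme.{0}} {M : Type 1} [AddCommGroup M] [Module L M]
    {f f' : (HH L m ι).obj (op W) →ₗ[L] M} (h : ∀ l z, f (hEl l z) = f' (hEl l z))
    (x : (HH L m ι).obj (op W)) : f x = f' x :=
  hEl_induction (P := fun x => f x = f' x) x (by rw [map_zero, map_zero]) h
    fun x y hx hy => by rw [map_add, map_add, hx, hy]

lemma CycM_ext2 {ι : Type} {W : Scheme.{0}} {M M₁ M₂ : ModuleCat.{1} L}
    (f₁ : (HH L m ι).obj (op W) ⟶ M₁) (f₂ : M₁ ⟶ M) (g₁ : (HH L m ι).obj (op W) ⟶ M₂)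
    (g₂ : M₂ ⟶ M) (h : ∀ l z, f₂.hom (f₁.hom (hEl l z)) = g₂.hom (g₁.hom (hEl l z)))
    (x : (HH L m ι).obj (op W)) : f₂.hom (f₁.hom x) = g₂.hom (g₁.hom x) :=
  CycM_ext (f := f₂.hom ∘ₗ f₁.hom) (f' := g₂.hom ∘ₗ g₁.hom) h x

end aux

variable {A : Type} [CommRing A] [IsNoetherianRing A] [IsLocalRing A]

namespace PD

variable {N : ℕ} (D : PD A N) (L : Type 1) [CommRing L] (m : ℕ) (r : Fin (N + 1)) (Z : Set D.S)
  (l : ℕ)

/-- The data of the map `cQ`. -/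
def CycM_coneQ : SmCone (D.eqSub (D.U r)) (D.eqSub Zᶜ) ((pb L D.lamQ).obj (HG A L m l))
    (D.MQ L m r Z l) where
  φ p ha := (ext1 L (CycM_a (D.jQ l p.W p.x.1) (D.jQ_pa l p.W p.x.1)
    (D.jQ_mem m r l p.W p.x.1 p.x.2 ha) (T₂ := (D.T2 Z l).T p.W)
    fun _ hx => ((D.jQ_preimage_T2 Z l p.W p.x.1).subset hx).1)).hom
  nat := by
    rintro ⟨c', v'⟩ ⟨c, v⟩ ⟨f, hf⟩ ha g
    refine CycM_ext2 _ _ _ _ (fun a z => ?_) g
    have e : v'.1 = f.1.hom ≫ v.1 := (congrArg Subtype.val hf).symm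
    refine CycM_congr (D.famQ l) _ _ c' a
      (Cyc.pull_pushHom (D.jQ l c v.1) (D.jQ_pa l c v.1) (AffineSpace.isPullback_map (D.uS.map f))
        (D.isPullback_pa l f) (D.jQ l c' v'.1) (D.jQ_pa l c' _) ?_ z) _ _
    rw [e]
    exact D.jQ_map l f v.1
  zero := by
    rintro ⟨c, v⟩ ha g hb
    refine CycM_ext (f' := 0) (fun a z => ?_) g
    refine CycM_zero (D.famQ l) _ _ c a _ (CycM_off _ _ (fun y hy => ?_) z)
    have h := (D.jQ_preimage_T2 Z l c v.1).subset hy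
    exact hb _ h.2.1 (h.2.1.eq ▸ h.2.2)

/-- The data of the map `psi`. -/
def CycM_coneP : SmCone (D.aR r) (D.bR Z) ((pb L D.lamR).obj (HG A L m (l + N)))
    (D.MQ L m r Z l) where
  φ p ha := (ext1 L (CycM_a (D.jI r l p.W (D.crd r p.W.x)) (D.jI_pa r l p.W _)
    (fun z => D.jI_mem m r l p.W _ z (gen_mem m p.W.W p.x.down z)) (T₂ := (D.T2 Z l).T p.W)
    fun _ hx => ((D.jI_preimage_T2 r Z l p.W ha).subset hx).1)).hom
  nat := by
    rintro ⟨c', h'⟩ ⟨c, h⟩ ⟨f, hf⟩ ha g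
    refine CycM_ext2 _ _ _ _ (fun a z => ?_) g
    have e : D.crd r c'.x = fun i => (D.uS.map f).appTop (D.crd r c.x i) :=
      (congrArg (D.crd r) f.2.symm).trans (D.crd_comp f.1.hom ha)
    refine CycM_congr (D.famQ l) _ _ c' a
      (Cyc.pull_pushHom (D.jI r l c (D.crd r c.x)) (D.jI_pa r l c _)
        (AffineSpace.isPullback_map (D.uS.map f)) (D.isPullback_pa l f)
        (D.jI r l c' (D.crd r c'.x)) (D.jI_pa r l c' _) ?_ z) _ _
    rw [e]
    exact D.jI_map r l f _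
  zero := by
    rintro ⟨c, h⟩ ha g hb
    refine CycM_ext (f' := 0) (fun a z => ?_) g
    refine CycM_zero (D.famQ l) _ _ c a _ (CycM_off _ _ (fun y hy => ?_) z)
    exact hb _ ((D.jI_preimage_T2 r Z l c ha).subset hy).2

/-- The inner data of the map `cM`. -/
def CycM_coneM : SmCone (D.aR r) (D.bR Z) ((pb L D.lamR).obj (HG A L m l))
    ((D.gS L).obj (MZ A L m (Fin (l + N)) (D.ZA r Z l))) where
  φ p ha := (ext1 L (CycM_a (jC l (D.uS.obj p.W) (D.crd r p.W.x)) (jC_over l _ _)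
    (fun z => gen_mem m p.W.W p.x.down _)
    (T₂ := (affSets A (Fin (l + N)) (D.ZA r Z l)).T p.W.W)
    fun _ hx => ((D.jC_preimage_ZA r Z l p.W ha).subset hx).1)).hom
  nat := by
    rintro ⟨c', h'⟩ ⟨c, h⟩ ⟨f, hf⟩ ha g
    refine CycM_ext2 _ _ _ _ (fun a z => ?_) g
    have e : D.crd r c'.x = fun i => (D.uS.map f).appTop (D.crd r c.x i) :=
      (congrArg (D.crd r) f.2.symm).trans (D.crd_comp f.1.hom ha)
    refine CycM_congr (affFam (smS A) (Fin (l + N))) _ _ c'.W a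
      (Cyc.pull_pushHom (jC l (D.uS.obj c) (D.crd r c.x)) (jC_over l _ _)
        (AffineSpace.isPullback_map (D.uS.map f)) (AffineSpace.isPullback_map (D.uS.map f))
        (jC l (D.uS.obj c') (D.crd r c'.x)) (jC_over l _ _) ?_ z) _ _
    rw [e]
    exact jC_map l (D.uS.map f) _
  zero := by
    rintro ⟨c, h⟩ ha g hb
    refine CycM_ext (f' := 0) (fun a z => ?_) g
    refine CycM_zero (affFam (smS A) (Fin (l + N))) _ _ c.W a _ (CycM_off _ _ (fun y hy => ?_) z)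
    exact hb _ ((D.jC_preimage_ZA r Z l c ha).subset hy).2

/-- The outer data of the map `cM`. -/
def CycM_coneM' : SmCone .top (D.avoidSub (smBig A) (D.U r)) ((D.phiR L r Z).F.obj (HG A L m l))
    (MZ A L m (Fin (l + N)) (D.ZA r Z l)) where
  φ c _ := ((D.CycM_coneM L m r Z l).desc.app (op c)).hom
  nat f _ g := (congrArg (fun k => k.hom g) ((D.CycM_coneM L m r Z l).desc.naturality f.op)).symm
  zero c _ g hb := D.phiR_induction L r Z
    (P := fun g => ((D.CycM_coneM L m r Z l).desc.app (op c)).hom g = 0) g (map_zero _)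
    (fun _ _ hU hn => absurd (fun w => absurd (hU w) (hb w)) hn)
    fun x y hx hy => by rw [map_add, hx, hy, add_zero]

lemma exists_cQ : ∃ k : (D.phiQ L r Z).obj (HG A L m l) ⟶ D.MQ L m r Z l,
    ∀ (c : D.SP') (v : c.W.obj ⟶ D.P.obj) (h : IsGen c.W.obj)
      (hv : (D.eqSub (D.U r)).mem (W := c) ⟨v, h⟩) (a : L)
      (z : Cyc m (𝔸(Fin l; D.uS.obj c) ↘ D.uS.obj c)),
      (k.app (op c)).hom (D.eQ L r Z _ c v h (hEl a z)) =
        (D.famQ l).el _ _ c a _ (D.jQ_mem m r l c v h hv z) := by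
  exact ⟨(D.CycM_coneQ L m r Z l).desc, fun c v h hv a z =>
    (D.CycM_coneQ L m r Z l).desc_I ⟨c, ⟨v, h⟩⟩ hv (hEl a z)⟩

lemma exists_cM :
    ∃ k : ((D.phiR L r Z).F ⋙ D.Lam L r).obj (HG A L m l) ⟶ MZ A L m (Fin (l + N)) (D.ZA r Z l),
    ∀ (c : D.SP') (h : IsGen c.W.obj), D.InU r c.x → ∀ (a : L)
      (z : Cyc m (𝔸(Fin l; D.uS.obj c) ↘ D.uS.obj c)),
      (k.app (op c.W)).hom (D.eL L r _ c (D.eR L r Z _ c h (hEl a z))) =
        (affFam (smS A) (Fin (l + N))).el _ _ c.W a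
          (Cyc.pushHom m (jC l _ (D.crd r c.x)) (jC_over l _ _) z) (gen_mem m c.W h _) := by
  exact ⟨(D.CycM_coneM' L m r Z l).desc, fun c h hU a z =>
    ((D.CycM_coneM' L m r Z l).desc_I c trivial _).trans
      ((D.CycM_coneM L m r Z l).desc_I ⟨c, ⟨h⟩⟩ hU (hEl a z))⟩

lemma exists_incl : ∃ k : (D.gS L).obj (MZ A L m (Fin (l + N)) (D.ZA r Z l)) ⟶ D.MQ L m r Z l,
    ∀ (c : D.SP') (a : L) (z : Cyc m (𝔸(Fin (l + N); D.uS.obj c) ↘ D.uS.obj c))
      (hz : z ∈ CycOff m _ ((affSets A (Fin (l + N)) (affSp A _)).T c.W)),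
      (k.app (op c)).hom ((affFam (smS A) (Fin (l + N))).el _ _ c.W a z hz) =
        (D.famQ l).el _ _ c a _ (D.jI_mem m r l c 0 z hz) := by
  refine ⟨⟨fun c => ext1 L (CycM_p (D.jI r l c.unop 0) (D.jI_pa r l c.unop 0)
    (D.jI_mem m r l c.unop 0) (D.jI_zero_preimage_T2 r Z l c.unop)), ?_⟩, fun c a z hz => rfl⟩
  rintro ⟨c⟩ ⟨c'⟩ ⟨f⟩
  refine ModuleCat.hom_ext (LinearMap.ext fun g => ?_)
  refine CFam.el_induction (F := affFam (smS A) (Fin (l + N))) (c := c.W)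
    (P := fun g => ModuleCat.Hom.hom _ g = ModuleCat.Hom.hom _ g) g
    (by rw [map_zero, map_zero]) (fun a z h => ?_) fun x y hx hy => by rw [map_add, map_add, hx, hy]
  have e : (fun i => (D.uS.map f).appTop ((0 : Fin N → Γ(D.uS.obj c, ⊤)) i)) = 0 :=
    funext fun _ => map_zero _
  refine CycM_congr (D.famQ l) _ _ c' a
    (Cyc.pull_pushHom (D.jI r l c 0) (D.jI_pa r l c 0) (AffineSpace.isPullback_map (D.uS.map f))
      (D.isPullback_pa l f) _ (D.jI_pa r l c' 0) ?_ z).symm _ _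
  rw [← e]
  exact D.jI_map r l f 0

lemma exists_psi : ∃ k : (D.phiR L r Z).F.obj (HG A L m (l + N)) ⟶ D.MQ L m r Z l,
    ∀ (c : D.SP') (h : IsGen c.W.obj), D.InU r c.x → ∀ (a : L)
      (z : Cyc m (𝔸(Fin (l + N); D.uS.obj c) ↘ D.uS.obj c)),
      (k.app (op c)).hom (D.eR L r Z _ c h (hEl a z)) =
        (D.famQ l).el _ _ c a _ (D.jI_mem m r l c (D.crd r c.x) z (gen_mem m c.W h z)) := by
  exact ⟨(D.CycM_coneP L m r Z l).desc, fun c h hU a z =>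
    (D.CycM_coneP L m r Z l).desc_I ⟨c, ⟨h⟩⟩ hU (hEl a z)⟩

/-- The map `(v, z) ↦ (v, id)_* z`. -/
def cQ : (D.phiQ L r Z).obj (HG A L m l) ⟶ D.MQ L m r Z l := (D.exists_cQ L m r Z l).choose

/-- The map to the motive with supports in affine space. -/
def cM : ((D.phiR L r Z).F ⋙ D.Lam L r).obj (HG A L m l) ⟶ MZ A L m (Fin (l + N)) (D.ZA r Z l) :=
  (D.exists_cM L m r Z l).choose

/-- Extension by zero from the chart. -/
def incl : (D.gS L).obj (MZ A L m (Fin (l + N)) (D.ZA r Z l)) ⟶ D.MQ L m r Z l :=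
  (D.exists_incl L m r Z l).choose

/-- Translation by the tautological point. -/
def psi : (D.phiR L r Z).F.obj (HG A L m (l + N)) ⟶ D.MQ L m r Z l :=
  (D.exists_psi L m r Z l).choose

end PD

end Pool.Agent.KEW
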