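import Pool.Agent.P.MP_6277db_ag.KEW.L9.VAN
import Pool.Agent.P.MP_6277db_ag.KEW.CA.ZMT

/-!
KEW, layer L9: the dimension of the special fibre bounds the transcendence degrees on the generic
fibre.
-/

set_option backward.isDefEq.respectTransparency false

noncomputable section

open CategoryTheory Limits AlgebraicGeometry Opposite

namespace Pool.Agent.KEW

variable {A : Type} [CommRing A]

lemma trLe_comp_iff {X X' : Scheme.{0}} (i : X ⟶ X') (f : X' ⟶ Spec (.of A)) (x : X)
    [IsIso (i.residueFieldMap x)] (e : ℕ) : TrLe (i ≫ f) x e ↔ TrLe f (i x) e := by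
  have hb : Function.Bijective (i.residueFieldMap x).hom :=
    ConcreteCategory.bijective_of_isIso (i.residueFieldMap x)
  have he : (X.Γevaluation x).hom.comp
      ((i ≫ f).appTop.hom.comp (Scheme.ΓSpecIso (.of A)).inv.hom) =
      (i.residueFieldMap x).hom.comp ((X'.Γevaluation (i x)).hom.comp
        (f.appTop.hom.comp (Scheme.ΓSpecIso (.of A)).inv.hom)) := by
    refine RingHom.ext fun a => ?_
    rw [Scheme.Hom.comp_appTop]
    exact (Scheme.Γevaluation_naturality_apply i x _).symm
  unfold TrLe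
  rw [he]
  refine ⟨fun h a => ?_, fun h a => ?_⟩
  · obtain ⟨P, hP, h⟩ := h ((i.residueFieldMap x).hom ∘ a)
    refine ⟨P, hP, hb.1 ?_⟩
    rw [MvPolynomial.eval₂_comp_left, h, map_zero]
  · choose b hb' using fun k => hb.2 (a k)
    obtain ⟨P, hP, h⟩ := h b
    refine ⟨P, hP, ?_⟩
    rw [show a = (i.residueFieldMap x).hom ∘ b from (funext hb').symm,
      ← MvPolynomial.eval₂_comp_left, h, map_zero]

theorem Dim_int {R S : Type} [CommRing R] [CommRing S] (g : R →+* S) (h1 : Function.Injective g)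
    (h2 : g.IsIntegral) : ringKrullDim R ≤ ringKrullDim S := by
  algebraize [g]
  refine iSup_le fun l => ?_
  obtain ⟨P, -, hP, hl⟩ := Ideal.exists_ideal_over_prime_of_isIntegral (S := S) l.head.asIdeal ⊥ (by
    intro a ha
    rw [show a = 0 from h1 (ha.trans (map_zero g).symm)]
    exact zero_mem _)
  have : P.LiesOver l.head.asIdeal := ⟨hl.symm⟩
  obtain ⟨L, hL, -⟩ := Ideal.exists_ltSeries_of_hasGoingUp l P
  rw [← hL]
  exact Order.LTSeries.length_le_krullDim L

theorem Dim_ring [IsLocalRing A] {C K : Type} [CommRing C] [Field K] {φ : A →+* C}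
    (hφ : φ.FiniteType) (e : C →+* K) (he : ∀ y : K, ∃ a b : C, y = e a / e b) {j : ℕ}
    (hj : ringKrullDim (C ⧸ (IsLocalRing.maximalIdeal A).map φ) ≤ j) (𝔮 : Ideal C) (h𝔮 : 𝔮 ≠ ⊤)
    (h1 : RingHom.ker e ≤ 𝔮) (h2 : (IsLocalRing.maximalIdeal A).map φ ≤ 𝔮) (a : Fin (j + 1) → K) :
    ∃ P : MvPolynomial (Fin (j + 1)) A, P ≠ 0 ∧ MvPolynomial.eval₂ (e.comp φ) a P = 0 := by
  set J := (IsLocalRing.maximalIdeal A).map φ with hJ
  have : Nontrivial (C ⧸ J) := Ideal.Quotient.nontrivial_iff.2 fun h => h𝔮 (top_le_iff.1 (h ▸ h2))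
  let φ0 : IsLocalRing.ResidueField A →+* C ⧸ J := Ideal.quotientMap J φ Ideal.le_comap_map
  have hφ0 : φ0.comp (IsLocalRing.residue A) = (Ideal.Quotient.mk J).comp φ := rfl
  have hft : φ0.FiniteType := RingHom.FiniteType.of_comp_finiteType (f := IsLocalRing.residue A)
    (hφ0 ▸ (RingHom.FiniteType.of_surjective _ Ideal.Quotient.mk_surjective).comp hφ)
  let _ := φ0.toAlgebra
  have : Algebra.FiniteType (IsLocalRing.ResidueField A) (C ⧸ J) := hft
  obtain ⟨n, g, g1, g2⟩ := exists_finite_inj_algHom_of_fg (IsLocalRing.ResidueField A) (C ⧸ J)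
  have hn : n ≤ j := by
    have h3 := ((ringKrullDim_add_natCard_le_ringKrullDim_mvPolynomial
      (R := IsLocalRing.ResidueField A) (Fin n)).trans
      (Dim_int g.toRingHom g1 (RingHom.Finite.to_isIntegral g2))).trans hj
    rw [ringKrullDim_eq_zero_of_field, zero_add, Nat.card_fin] at h3
    exact_mod_cast h3
  choose y hy using fun k : Fin n => Ideal.Quotient.mk_surjective (g (MvPolynomial.X k))
  let ψ : MvPolynomial (Fin n) A →+* C := MvPolynomial.eval₂Hom φ y
  have hψ : ψ.comp MvPolynomial.C = φ := MvPolynomial.eval₂Hom_comp_C φ y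
  have hJ' : ((IsLocalRing.maximalIdeal A).map MvPolynomial.C).map ψ = J := by
    rw [Ideal.map_map, hψ]
  have hfin : KEW.FinMod ψ (((IsLocalRing.maximalIdeal A).map MvPolynomial.C).map ψ) := by
    rw [hJ']
    have : (Ideal.Quotient.mk J).comp ψ =
        g.toRingHom.comp (MvPolynomial.map (IsLocalRing.residue A)) := by
      refine MvPolynomial.ringHom_ext (fun r => ?_) fun k => by simp [ψ, hy]
      rw [RingHom.comp_apply, RingHom.comp_apply, MvPolynomial.map_C,
        show ψ (MvPolynomial.C r) = φ r from RingHom.congr_fun hψ r]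
      exact (g.commutes (IsLocalRing.residue A r)).symm
    unfold KEW.FinMod
    rw [this]
    exact RingHom.Finite.comp g2 (RingHom.Finite.of_surjective _
      (MvPolynomial.map_surjective _ IsLocalRing.residue_surjective))
  obtain ⟨St, _, φ1, ι, Q, k1, k2, -, k4, k5⟩ :=
    KEW.zmt_fibre (RingHom.FiniteType.of_comp_finiteType (hψ ▸ hφ)) _ hfin
  have hQ : e (ι Q) ≠ 0 := fun h => h𝔮 ((Ideal.eq_top_iff_one _).2 (by
    have := 𝔮.sub_mem (h1 h) (h2 (hJ' ▸ k4))
    rwa [sub_sub_cancel] at this))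
  let _ := (e.comp φ).toAlgebra
  let B := Algebra.adjoin A (Set.range fun k => e (y k))
  have hB : ∀ p, e (ψ p) ∈ B := fun p => by
    refine (Algebra.adjoin_range_eq_range_aeval A _).ge ⟨p, ?_⟩
    exact (MvPolynomial.eval₂_comp_left e φ y p).symm
  have hz : ∀ z : St, IsAlgebraic B (e (ι z)) := fun z => by
    obtain ⟨p, hp, hz⟩ := k2.to_isIntegral z
    refine IsIntegral.isAlgebraic ⟨p.map ((e.comp ψ).codRestrict B.toSubring hB), hp.map _, ?_⟩
    have := congrArg (e.comp ι) hz
    rw [Polynomial.hom_eval₂, RingHom.comp_assoc, k1, map_zero] at this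
    rw [Polynomial.eval₂_map]
    exact this
  have hC : ∀ c : C, IsAlgebraic B (e c) := fun c => by
    obtain ⟨N, z, h⟩ := k5 c
    have h3 : e c = e (ι z) * (e (ι (Q ^ N)))⁻¹ := by
      rw [← h, map_pow, map_mul, map_pow, mul_comm, inv_mul_cancel_left₀ (pow_ne_zero _ hQ)]
    rw [h3]
    exact (hz z).mul (hz _).inv
  have : Algebra.IsAlgebraic B K := ⟨fun t => by
    obtain ⟨a, b, rfl⟩ := he t
    rw [div_eq_mul_inv]
    exact (hC a).mul (hC b).inv⟩
  by_contra! hne
  have hind : AlgebraicIndependent A a := algebraicIndependent_iff.2 fun P hP => by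
    by_contra h
    exact hne P h hP
  have h3 := (hind.cardinalMk_le_trdeg.trans
    (Algebra.IsAlgebraic.trdeg_le_cardinalMk A (Set.range fun k => e (y k)))).trans
    Cardinal.mk_range_le
  simp only [Cardinal.mk_fintype, Fintype.card_fin, Nat.cast_le] at h3
  omega

theorem Dim_spec [IsLocalRing A] {C : CommRingCat.{0}} {φ : CommRingCat.of A ⟶ C}
    (hφ : φ.hom.FiniteType) {j : ℕ}
    (hj : ringKrullDim (C ⧸ (IsLocalRing.maximalIdeal A).map φ.hom) ≤ j) {p q : Spec C}
    (h1 : p.asIdeal ≤ q.asIdeal) (h2 : (IsLocalRing.maximalIdeal A).map φ.hom ≤ q.asIdeal) :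
    TrLe (Spec.map φ) p j := by
  intro a
  let ε := (Scheme.Spec.residueFieldIso C p).inv.hom
  have hε : Function.Bijective ε :=
    ConcreteCategory.bijective_of_isIso (Scheme.Spec.residueFieldIso C p).inv
  have he : ((Spec C).Γevaluation p).hom.comp
      ((Spec.map φ).appTop.hom.comp (Scheme.ΓSpecIso (.of A)).inv.hom) =
      (ε.comp (algebraMap C p.asIdeal.ResidueField)).comp φ.hom := by
    have h3 := Scheme.Spec.algebraMap_residueFieldIso_inv C p
    have h4 := Scheme.ΓSpecIso_inv_naturality φ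
    refine RingHom.ext fun r => ?_
    have h5 := congrArg (fun t => t.hom (φ.hom r)) h3
    have h6 := congrArg (fun t => ((Spec C).Γevaluation p).hom (t.hom r)) h4
    exact h6.symm.trans h5.symm
  rw [he]
  refine Dim_ring hφ _ (fun y => ?_) hj q.asIdeal q.isPrime.ne_top (fun c hc => h1 ?_) h2 a
  · obtain ⟨y, rfl⟩ := hε.2 y
    obtain ⟨a, b, -, rfl⟩ := IsFractionRing.div_surjective (C ⧸ p.asIdeal) y
    obtain ⟨a, rfl⟩ := Ideal.Quotient.mk_surjective a
    obtain ⟨b, rfl⟩ := Ideal.Quotient.mk_surjective b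
    exact ⟨a, b, map_div₀ ε _ _⟩
  · exact Ideal.algebraMap_residueField_eq_zero.1 (hε.1 (hc.trans (map_zero ε).symm))

/-- Hint: the closure of `x` meets the special fibre in a point `z` (`f` is closed); take an affine
open `Spec C₀` around `z`, `C = C₀ / p_x` a domain of finite type over `A` with `π ≠ 0` not a unit.
Noether normalisation of `C / π` over the residue field in `n ≤ j` variables
(`exists_finite_inj_algHom_of_fg`; `n = dim (C / π) ≤ dim Y`), lift the variables to `C`; then
`A[y] → C` is quasi-finite at a prime containing `π`, hence (`Algebra.QuasiFiniteAt` is open or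
stable under generisation, Zariski main theorem in Mathlib) at the zero ideal, so `Frac C` is
algebraic over the image of `A[y]`, and `j + 1` elements are algebraically dependent over `A`. -/
theorem trLe_of_dim [IsDomain A] [IsDiscreteValuationRing A] {X Y : Scheme.{0}}
    (f : X ⟶ Spec (.of A)) [LocallyOfFiniteType f] (hf : IsClosedMap f) (ι : Y ⟶ X)
    [IsClosedImmersion ι] (hY : Set.range ι = f ⁻¹' {IsLocalRing.closedPoint A}) (j : ℕ)
    (hj : topologicalKrullDim Y ≤ j) (x : X) (hx : f x ≠ IsLocalRing.closedPoint A) :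
    TrLe f x j := by
  obtain ⟨z, hz, hz'⟩ : IsLocalRing.closedPoint A ∈ f '' closure {x} :=
    (IsLocalRing.specializes_closedPoint (f x)).mem_closed (hf _ isClosed_closure)
      ⟨x, subset_closure rfl, rfl⟩
  obtain ⟨_, ⟨U, hU, rfl⟩, hzU, -⟩ :=
    X.isBasis_affineOpens.exists_subset_of_mem_open (Set.mem_univ z) isOpen_univ
  replace hU : IsAffineOpen U := hU
  have hxz : x ⤳ z := specializes_iff_mem_closure.2 hz
  obtain ⟨q, rfl⟩ : z ∈ Set.range hU.fromSpec := hU.range_fromSpec ▸ hzU
  obtain ⟨p, rfl⟩ : x ∈ Set.range hU.fromSpec := hU.range_fromSpec ▸ hxz.mem_open U.2 hzU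
  have hpq : p ⤳ q := hU.fromSpec.isOpenEmbedding.isInducing.specializes_iff.1 hxz
  obtain ⟨φ, hφ⟩ := Spec.map_surjective (hU.fromSpec ≫ f)
  have hft : φ.hom.FiniteType := by
    have : LocallyOfFiniteType (Spec.map φ) := hφ ▸ inferInstance
    exact (HasRingHomProperty.Spec_iff (P := @LocallyOfFiniteType)).1 this
  have hcl : ∀ r : Spec Γ(X, U), f (hU.fromSpec r) = IsLocalRing.closedPoint A ↔
      (IsLocalRing.maximalIdeal A).map φ.hom ≤ r.asIdeal := fun r => by
    rw [← Scheme.Hom.comp_apply, ← hφ, Ideal.map_le_iff_le_comap]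
    refine ⟨fun h => (congrArg PrimeSpectrum.asIdeal h).ge, fun h => PrimeSpectrum.ext ?_⟩
    exact ((IsLocalRing.maximalIdeal.isMaximal A).eq_of_le (Ideal.IsPrime.ne_top inferInstance)
      h).symm
  rw [← trLe_comp_iff, ← hφ]
  refine Dim_spec hft ?_ ((PrimeSpectrum.le_iff_specializes p q).2 hpq) ((hcl q).1 hz')
  rw [← PrimeSpectrum.topologicalKrullDim_eq_ringKrullDim]
  refine le_trans ?_ hj
  have hi := hU.fromSpec.isOpenEmbedding.isInducing.comp
    (PrimeSpectrum.comap_isInducing_of_surjective _ _ (Ideal.Quotient.mk_surjective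
      (I := (IsLocalRing.maximalIdeal A).map φ.hom)))
  have hr : ∀ r, (hU.fromSpec ∘ PrimeSpectrum.comap
      (Ideal.Quotient.mk ((IsLocalRing.maximalIdeal A).map φ.hom))) r ∈ Set.range ι := fun r => by
    rw [hY]
    refine (hcl _).2 fun c hc => ?_
    change Ideal.Quotient.mk _ c ∈ r.asIdeal
    rw [Ideal.Quotient.eq_zero_iff_mem.2 hc]
    exact zero_mem _
  choose g hg using hr
  refine Topology.IsInducing.topologicalKrullDim_le (f := g)
    (ι.isClosedEmbedding.isInducing.of_comp_iff.1 ?_)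
  rwa [show ι ∘ g = _ from funext hg]

end Pool.Agent.KEW
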