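import Pool.Agent.P.MP_6277db_ag.KEW.L9.CycM
import Pool.Agent.P.MP_6277db_ag.KEW.L9.Dim

/-!
KEW, layer L9: the identities between the maps into `M^Q`.
-/

set_option backward.isDefEq.respectTransparency false
set_option linter.unusedSectionVars false

noncomputable section

open CategoryTheory Limits AlgebraicGeometry Opposite TensorProduct

namespace Pool.Agent.KEW

lemma CycS_isIso {X Y : Scheme.{0}} (f : X ⟶ Y) [SurjectiveOnStalks f] (x : X) :
    IsIso (f.residueFieldMap x) := by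
  refine (ConcreteCategory.isIso_iff_bijective _).2 ⟨(f.residueFieldMap x).hom.injective, ?_⟩
  have h : Function.Surjective (Y.residue (f x) ≫ f.residueFieldMap x) := by
    rw [Scheme.residue_residueFieldMap]
    exact (X.residue_surjective x).comp (f.stalkMap_surjective x)
  exact Function.Surjective.of_comp (g := Y.residue (f x)) h

/-- The closed immersion `y ↦ (0, y)`. -/
def CycS_i (l N : ℕ) (S : Scheme.{0}) : 𝔸(Fin N; S) ⟶ 𝔸(Fin (l + N); S) :=
  AffineSpace.homOfVector (𝔸(Fin N; S) ↘ S) (Fin.addCases (fun _ => 0) (AffineSpace.coord S))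

lemma CycS_over (l N : ℕ) (S : Scheme.{0}) :
    CycS_i l N S ≫ 𝔸(Fin (l + N); S) ↘ S = 𝔸(Fin N; S) ↘ S := AffineSpace.homOfVector_over _ _

lemma CycS_section (l N : ℕ) (S : Scheme.{0}) :
    CycS_i l N S ≫ AffineSpace.reindex (Fin.natAdd l) S = 𝟙 _ := by
  refine AffineSpace.hom_ext ?_ fun j => ?_
  · rw [Category.assoc, AffineSpace.reindex_over, CycS_over, Category.id_comp]
  · rw [Scheme.Hom.comp_appTop, CommRingCat.comp_apply, AffineSpace.reindex_appTop_coord, CycS_i,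
      AffineSpace.homOfVector_appTop_coord, Fin.addCases_right, Scheme.Hom.id_appTop]
    rfl

instance CycS_closed (l N : ℕ) (S : Scheme.{0}) : IsClosedImmersion (CycS_i l N S) := by
  have h1 : IsSeparated (AffineSpace.reindex (Fin.natAdd l) S ≫ 𝔸(Fin N; S) ↘ S) := by
    rw [AffineSpace.reindex_over]
    infer_instance
  have h2 := IsSeparated.of_comp (AffineSpace.reindex (Fin.natAdd l) S) (𝔸(Fin N; S) ↘ S)
  have h3 : IsClosedImmersion (CycS_i l N S ≫ AffineSpace.reindex (Fin.natAdd l) S) := by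
    rw [CycS_section]
    infer_instance
  exact IsClosedImmersion.of_comp _ (AffineSpace.reindex (Fin.natAdd l) S)

lemma CycS_mem (l N : ℕ) (S : Scheme.{0}) (z : 𝔸(Fin (l + N); S))
    (hz : ∀ i : Fin l, z ∉ 𝔸(Fin (l + N); S).basicOpen (AffineSpace.coord S (Fin.castAdd N i))) :
    z ∈ Set.range (CycS_i l N S) := by
  rw [mem_range_section (CycS_section l N S)]
  have e : 𝟙 𝔸(Fin (l + N); S) =
      AffineSpace.homOfVector (𝔸(Fin (l + N); S) ↘ S) (AffineSpace.coord S) := by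
    refine AffineSpace.hom_ext ?_ fun j => ?_
    · rw [Category.id_comp, AffineSpace.homOfVector_over]
    · rw [AffineSpace.homOfVector_appTop_coord, Scheme.Hom.id_appTop]
      rfl
  rw [e, CycS_i, AffineSpace.comp_homOfVector, AffineSpace.reindex_over, eqAt_homOfVector]
  intro i
  induction i using Fin.addCases with
  | left i =>
    rw [Function.comp_apply, Fin.addCases_left, map_zero, zero_sub, ← neg_one_mul,
      Scheme.basicOpen_mul]
    exact fun h => hz i h.2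
  | right i =>
    rw [Function.comp_apply, Fin.addCases_right, AffineSpace.reindex_appTop_coord, sub_self,
      Scheme.basicOpen_zero]
    exact fun h => h

lemma CycS_el {C : Type 1} [Category.{0} C] {u : C ⥤ Scheme.{0}} {L : Type 1} [CommRing L] {m : ℕ}
    (F : CFam u) (T₁ T₂ : F.Sets) (c : C) (a : L) {z z' : Cyc m (F.p.app c)} (e : z = z')
    (h : z ∈ CycOff m (F.p.app c) (T₁.T c)) (h' : z' ∈ CycOff m (F.p.app c) (T₁.T c)) :
    F.el T₁ T₂ c a z h = F.el T₁ T₂ c a z' h' := by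
  subst e
  rfl

lemma CycS_push {m : ℕ} {X X' X'' W : Scheme.{0}} {p : X ⟶ W} {p' : X' ⟶ W} {p'' : X'' ⟶ W}
    [IsSeparated p] [IsSeparated p'] [IsSeparated p''] {f : X ⟶ X'} (hf : f ≫ p' = p)
    {g : X' ⟶ X''} (hg : g ≫ p'' = p') {k : X ⟶ X''} (hk : k ≫ p'' = p) (e : f ≫ g = k)
    (z : Cyc m p) : Cyc.pushHom m g hg (Cyc.pushHom m f hf z) = Cyc.pushHom m k hk z := by
  subst e
  exact Cyc.pushHom_pushHom _ _ _ _ z

lemma CycS_bond {C : Type 1} [Category.{0} C] (u : C ⥤ Scheme.{0}) {L : Type 1} [CommRing L]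
    {m : ℕ} {ι ι' : Type} (e : ι' ≃ Option ι) (W : C) (t : Γ(u.obj W, ⊤)) (a : L)
    (z : Cyc m (𝔸(ι; u.obj W) ↘ u.obj W)) :
    ((Functor.whiskerLeft u.op (bond L m e)).app (op W)).hom
      (RS.unit.tp (u := u) (u.op ⋙ HH L m ι) W t (hEl a z)) =
      hEl a (Cyc.pushHom m (graph e _ t) (graph_over e _ t) z) := by
  rw [← Cyc.ext0_eq_pushHom]
  change (Finsupp.linearCombination L
    fun a => (CycA.app m e (u.obj W) a).toIntLinearMap.baseChange L) (Finsupp.single t 1)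
      (a ⊗ₜ[ℤ] (QuotientAddGroup.mk z : CycA m ι (u.obj W))) = _
  rw [Finsupp.linearCombination_single, one_smul]
  rfl

lemma CycS_step {C : Type 1} [Category.{0} C] {C' : Type 1} [Category.{0} C'] {L : Type 1}
    [CommRing L] (Φ Ψ : PSh C' L ⥤ PSh C L) [Φ.Additive] [Ψ.Additive] (T : PSh C L ⥤ PSh C L)
    [T.Additive] (T' : PSh C' L ⥤ PSh C' L) [T'.Additive] (θ : Φ ⋙ T ⟶ T' ⋙ Φ)
    {G G₁ G₂ : PSh C' L} (b : T'.obj G₁ ⟶ G₂)
    (σ : (mapC Ψ).obj ((sgl 0).obj G) ⟶ (mapC Φ).obj ((sgl 0).obj G₁)) (s : Ψ.obj G ⟶ Φ.obj G₁)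
    (h : σ ≫ toSgl Φ (𝟙 _) = toSgl Ψ (s ≫ 𝟙 _)) {M : PSh C L} (k : Φ.obj G₂ ⟶ M) :
    ((mapC T).map σ ≫ (chT θ).app ((sgl 0).obj G₁) ≫ (mapC Φ).map (toSgl T' b)) ≫ toSgl Φ k =
      toSgl (Ψ ⋙ T) ((T.map s ≫ θ.app G₁ ≫ Φ.map b) ≫ k) := by
  have e1 := map_toSgl T' Φ b k
  have e2 := chT_toSgl θ (G := G₁) (Φ.map b ≫ k)
  have e3 := (map_toSgl Φ T (𝟙 (Φ.obj G₁)) (θ.app G₁ ≫ Φ.map b ≫ k)).trans
    (congrArg (toSgl (Φ ⋙ T)) ((congrArg (· ≫ _) (T.map_id _)).trans (Category.id_comp _)))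
  have e4 := (mapC T).congr_map h
  rw [Functor.map_comp, Category.comp_id] at e4
  have e5 := map_toSgl Ψ T s (θ.app G₁ ≫ Φ.map b ≫ k)
  rw [← e4, Category.assoc, e3, ← e2, ← e1] at e5
  simp only [Category.assoc]
  exact e5

variable {A : Type} [CommRing A] [IsNoetherianRing A] [IsLocalRing A]

namespace PD

variable {N : ℕ} (D : PD A N) (L : Type 1) [CommRing L] (m : ℕ) (r : Fin (N + 1)) (Z : Set D.S)
  (l : ℕ)

lemma isClosed_ZA (hZ : IsClosed Z) : IsClosed (D.ZA r Z l) := by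
  have h1 : IsClosed {x : 𝔸(Fin (l + N); Spec (.of A)) | ∀ i : Fin l,
      x ∉ 𝔸(Fin (l + N); Spec (.of A)).basicOpen (AffineSpace.coord _ (Fin.castAdd N i))} := by
    rw [Set.ofPred_forall]
    exact isClosed_iInter fun i => (𝔸(Fin (l + N); Spec (.of A)).basicOpen
      (AffineSpace.coord _ (Fin.castAdd N i))).isOpen.isClosed_compl
  exact h1.inter (hZ.preimage
    (AffineSpace.reindex (Fin.natAdd l) (Spec (.of A)) ≫ D.ch r).continuous)

/-- Hint: a point `z` of `ZA` lies on the closed immersion `i₀ : y ↦ (0, y)`, a section of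
`reindex (Fin.natAdd l)` (`mem_range_section`, `eqAt_homOfVector`); `trLe_comp_iff` for `i₀` and for
the chart (residue field maps of immersions are isomorphisms). -/
lemma trLe_ZA {e : ℕ}
    (h : ∀ z ∈ Z, D.P.obj.obj.hom z ≠ IsLocalRing.closedPoint A → TrLe D.P.obj.obj.hom z e) :
    ∀ z ∈ D.ZA r Z l, z ∉ affSp A (Fin (l + N)) →
      TrLe (𝔸(Fin (l + N); Spec (.of A)) ↘ Spec (.of A)) z e := by
  rintro z ⟨h1, h2⟩ h3
  obtain ⟨y, rfl⟩ := CycS_mem l N _ z h1
  have := CycS_isIso (CycS_i l N (Spec (.of A))) y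
  rw [← trLe_comp_iff, CycS_over, ← D.chOver r, trLe_comp_iff]
  rw [← Scheme.Hom.comp_apply, ← Category.assoc, CycS_section, Category.id_comp] at h2
  refine h _ h2 fun h4 => h3 ?_
  rw [← Scheme.Hom.comp_apply, D.chOver, ← CycS_over l, Scheme.Hom.comp_apply] at h4
  exact h4

lemma CycS_ext {c : D.SP'} {M : Type 1} [AddCommGroup M] [Module L M]
    (f f' : ((D.phiR L r Z).F.obj (HG A L m l)).obj (op c) →ₗ[L] M)
    (H : ∀ (h : IsGen c.W.obj) (a : L) (z : Cyc m (𝔸(Fin l; D.uS.obj c) ↘ D.uS.obj c)),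
      D.InU r c.x → f (D.eR L r Z _ c h (hEl a z)) = f' (D.eR L r Z _ c h (hEl a z)))
    (x : ((D.phiR L r Z).F.obj (HG A L m l)).obj (op c)) : f x = f' x := by
  induction x using D.phiR_induction L r Z with
  | zero => rw [map_zero, map_zero]
  | add g g' h h' => rw [map_add, map_add, h, h']
  | gen h g hU hZ =>
    induction g using hEl_induction (W := D.uS.obj c) with
    | zero => exact (congrArg f (map_zero _)).trans ((map_zero f).trans
        ((map_zero f').symm.trans (congrArg f' (map_zero _)).symm))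
    | add g g' h h' =>
      exact (congrArg f (map_add _ g g')).trans ((map_add f _ _).trans
        ((congrArg₂ _ h h').trans ((map_add f' _ _).symm.trans (congrArg f' (map_add _ g g')).symm)))
    | gen a z => exact H h a z hU

lemma CycS_k2 (c : D.SP') (v : c.W.obj ⟶ D.P.obj) (h : IsGen c.W.obj) (hU : D.InU r v) (a : L)
    (z : Cyc m (𝔸(Fin l; D.uS.obj c) ↘ D.uS.obj c)) :
    ((D.cQ L m r Z l).app (op c)).hom ((((D.k2 L r Z).app (HG A L m l)).app (op c)).hom
      (D.eL L r ((D.phiR L r Z).F.obj (HG A L m l)) ⟨c.W, v⟩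
        (D.eR L r Z (HG A L m l) ⟨c.W, v⟩ h (hEl a z)))) =
    ((D.incl L m r Z l).app (op c)).hom (((D.cM L m r Z l).app (op c.W)).hom
      (D.eL L r ((D.phiR L r Z).F.obj (HG A L m l)) ⟨c.W, v⟩
        (D.eR L r Z (HG A L m l) ⟨c.W, v⟩ h (hEl a z)))) := by
  have hv : (D.eqSub (D.U r)).mem (W := c) ⟨v, h⟩ := fun w hw => hw.eq ▸ hU w
  have e1 := (D.exists_k2 L r Z).choose_spec (HG A L m l) c v h (hEl a z) hU
  have e2 := (D.exists_cQ L m r Z l).choose_spec c v h hv a z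
  have e3 := (D.exists_cM L m r Z l).choose_spec ⟨c.W, v⟩ h hU a z
  have e4 := (D.exists_incl L m r Z l).choose_spec c a
    (Cyc.pushHom m (jC l _ (D.crd r v)) (jC_over l _ _) z) (gen_mem m c.W h _)
  refine ((congrArg ((D.cQ L m r Z l).app (op c)).hom e1).trans e2).trans
    (Eq.trans ?_ ((congrArg ((D.incl L m r Z l).app (op c)).hom e3).trans e4).symm)
  refine CycS_el _ _ _ _ _ (CycS_push _ _ _ ?_ z).symm _ _
  exact (D.jC_jI r l c 0 (D.crd r v)).trans (congrArg (D.jQ l c)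
    ((congrArg (D.pt r c.W.obj) (funext fun i => zero_add _)).trans (D.pt_crd hU)))

/-- Hint: `pb_sm_hom_ext`, `phiR_induction`, `hEl_induction`, `pushHom_pushHom`, `jC_jI`,
`pt_crd`. -/
lemma k2_cQ : (D.k2 L r Z).app (HG A L m l) ≫ D.cQ L m r Z l =
    (D.gS L).map (D.cM L m r Z l) ≫ D.incl L m r Z l := by
  refine pb_sm_hom_ext (El.proj (D.PX (smBig A))) (Y := D.PX (smBig A)) (a := .top)
    (b := D.avoidSub (smBig A) (D.U r)) (G := (D.phiR L r Z).F.obj (HG A L m l))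
    fun c v g _ _ => ?_
  exact D.CycS_ext L m r Z l (c := ⟨c.W, v⟩)
    (((D.cQ L m r Z l).app (op c)).hom ∘ₗ (((D.k2 L r Z).app (HG A L m l)).app (op c)).hom ∘ₗ
      D.eL L r ((D.phiR L r Z).F.obj (HG A L m l)) ⟨c.W, v⟩)
    (((D.incl L m r Z l).app (op c)).hom ∘ₗ ((D.cM L m r Z l).app (op c.W)).hom ∘ₗ
      D.eL L r ((D.phiR L r Z).F.obj (HG A L m l)) ⟨c.W, v⟩)
    (fun h a z hU => D.CycS_k2 L m r Z l c v h hU a z) g

/-- The iterated bonding map on presheaves. Hint: induction on `n`; `voev_σ`, `smθ_I`,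
`Cyc.ext0_eq_pushHom`, `jC_succ`, `map_toSgl`, `chT_toSgl`, `toSgl_comp`. -/
lemma exists_sN (n : ℕ) :
    ∃ s : ((D.phiR L r Z).F ⋙ tN L D.uS n).obj (HG A L m l) ⟶
        (D.phiR L r Z).F.obj (HG A L m (l + n)),
      (∀ (c : D.SP') (y : Fin n → Γ(D.uS.obj c, ⊤)) (h : IsGen c.W.obj) (a : L)
        (z : Cyc m (𝔸(Fin l; D.uS.obj c) ↘ D.uS.obj c)),
        (s.app (op c)).hom (tpN (u := D.uS) ((D.phiR L r Z).F.obj (HG A L m l)) c n y
          (D.eR L r Z _ c h (hEl a z))) =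
        D.eR L r Z _ c h (hEl a (Cyc.pushHom m (jC l _ y) (jC_over l _ y) z))) ∧
      ∀ {M : PSh D.SP' L} (k : (D.phiR L r Z).F.obj (HG A L m (l + n)) ⟶ M),
        ((D.phiR L r Z).spt (voev L (genSch A) m)).σN l n ≫ toSgl (D.phiR L r Z).F k =
          toSgl ((D.phiR L r Z).F ⋙ tN L D.uS n) (s ≫ k) := by
  induction n with
  | zero =>
    refine ⟨𝟙 _, fun c y h a z => ?_, fun k => ?_⟩
    · refine congrArg (fun x => D.eR L r Z (HG A L m l) c h (hEl a x)) ?_
      refine (Cyc.pushHom_id z).symm.trans ?_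
      congr 2
      exact (jC_zero l _ y).symm
    · exact (Category.id_comp _).trans
        (congrArg (toSgl (D.phiR L r Z).F) (Category.id_comp k).symm)
  | succ n ih =>
    obtain ⟨s, h1, h2⟩ := ih
    refine ⟨(RS.unit.T L D.uS).map s ≫ (D.phiR L r Z).θ.app (HG A L m (l + n)) ≫
      (D.phiR L r Z).F.map (Functor.whiskerLeft (genSch A).op (bond L m finSuccEquivLast)),
      fun c y h a z => ?_, fun k => ?_⟩
    · have e1 := (RS.unit.T_map_tp (u := D.uS) s c (y (Fin.last n)) _).trans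
        (congrArg (RS.unit.tp (u := D.uS) _ c (y (Fin.last n))) (h1 c (Fin.init y) h a z))
      have e2 := smθ_I (L := L) (u := D.uS) (u' := genSch A) RS.unit D.lamR (𝟙 _) (D.aR r) (D.bR Z)
        (HG A L m (l + n)) ⟨c, ⟨h⟩⟩ (y (Fin.last n))
        (hEl a (Cyc.pushHom m (jC l _ (Fin.init y)) (jC_over l _ _) z))
      have e3 := sm_map_I (a := D.aR r) (b := D.bR Z) ((pb L D.lamR).map
        (Functor.whiskerLeft (genSch A).op (bond L m (finSuccEquivLast (n := l + n))))) ⟨c, ⟨h⟩⟩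
        (RS.unit.tp (u := genSch A) (HG A L m (l + n)) (toGen c.W h) (y (Fin.last n))
          (hEl a (Cyc.pushHom m (jC l _ (Fin.init y)) (jC_over l _ _) z)))
      have e4 := CycS_bond (genSch A) (finSuccEquivLast (n := l + n)) (toGen c.W h) (y (Fin.last n))
        a (Cyc.pushHom m (jC l _ (Fin.init y)) (jC_over l _ _) z)
      have e5 := CycS_push (jC_over l _ (Fin.init y)) (graph_over _ _ _) (jC_over l _ y)
        (jC_succ l _ y).symm z
      refine (congrArg (((D.phiR L r Z).F.map (Functor.whiskerLeft (genSch A).op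
        (bond L m (finSuccEquivLast (n := l + n))))).app (op c)).hom
        ((congrArg (((D.phiR L r Z).θ.app (HG A L m (l + n))).app (op c)).hom e1).trans e2)).trans ?_
      refine e3.trans (congrArg (D.eR L r Z (HG A L m (l + (n + 1))) c h) ?_)
      exact e4.trans (congrArg (hEl a) e5)
    · exact CycS_step (D.phiR L r Z).F ((D.phiR L r Z).F ⋙ tN L D.uS n) (RS.unit.T L D.uS)
        (RS.unit.T L (genSch A)) (D.phiR L r Z).θ (G := HG A L m l) (G₁ := HG A L m (l + n))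
        (Functor.whiskerLeft (genSch A).op (bond L m (finSuccEquivLast (n := l + n))))
        (((D.phiR L r Z).spt (voev L (genSch A) m)).σN l n) s (h2 (𝟙 _)) k

lemma σN_psi : ((D.phiR L r Z).spt (voev L (genSch A) m)).σN l N ≫
      toSgl (D.phiR L r Z).F (D.psi L m r Z l) =
    (chT (D.bq L r Z)).app ((sgl 0).obj (HG A L m l)) ≫ toSgl (D.phiQ L r Z) (D.cQ L m r Z l) := by
  obtain ⟨s, h1, h2⟩ := D.exists_sN L m r Z l N
  rw [h2, chT_toSgl]
  refine congrArg _ (tN_hom_ext (u := D.uS) (F := (D.phiR L r Z).F.obj (HG A L m l))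
    fun c (y : Fin N → Γ((big A).obj ((smBig A).obj c.W), ⊤)) g => ?_)
  refine D.CycS_ext L m r Z l
    (((s ≫ D.psi L m r Z l).app (op c)).hom ∘ₗ tpN (u := D.uS) _ c N y)
    ((((D.bq L r Z).app (HG A L m l) ≫ D.cQ L m r Z l).app (op c)).hom ∘ₗ tpN (u := D.uS) _ c N y)
    (fun h a z hU => ?_) g
  have e1 := h1 c y h a z
  have e2 := (D.exists_psi L m r Z l).choose_spec c h hU a
    (Cyc.pushHom m (jC l _ y) (jC_over l _ y) z)
  have e3 := (D.exists_bq L r Z).choose_spec (HG A L m l) c y h (hEl a z) hU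
  have e4 := (D.exists_cQ L m r Z l).choose_spec c (D.pt r c.W.obj (D.crd r c.x + y)) h
    (fun w _ => hU w) a z
  refine ((congrArg ((D.psi L m r Z l).app (op c)).hom e1).trans e2).trans
    (Eq.trans ?_ ((congrArg ((D.cQ L m r Z l).app (op c)).hom e3).trans e4).symm)
  exact CycS_el _ _ _ _ _ (CycS_push _ _ _ (D.jC_jI r l c _ y) z) _ _

end PD

end Pool.Agent.KEW
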