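import Pool.Agent.P.MP_6277db_ag.KEW.L9.CycM

/-!
KEW, layer L9: translation by the tautological point is a local isomorphism onto `M^Q`.
-/

set_option backward.isDefEq.respectTransparency false
set_option linter.unusedSectionVars false

noncomputable section

open CategoryTheory Limits AlgebraicGeometry Opposite TensorProduct

namespace Pool.Agent.KEW

lemma CycW_app {X Y Z : Scheme.{0}} (f : X ⟶ Y) (g : Y ⟶ Z) (a : Γ(Z, ⊤)) :
    (f ≫ g).appTop a = f.appTop (g.appTop a) := by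
  rw [Scheme.Hom.comp_appTop, CommRingCat.comp_apply]

lemma CycW_pb {W P S : Scheme.{0}} (s : W ⟶ S) (t : P ⟶ S) {l N : ℕ} (ch : 𝔸(Fin N; S) ⟶ P)
    (hch : ch ≫ t = 𝔸(Fin N; S) ↘ S) (y₀ : Fin N → Γ(W, ⊤))
    (j : 𝔸(Fin (l + N); W) ⟶ 𝔸(Fin l; pullback s t)) (k : 𝔸(Fin (l + N); W) ⟶ 𝔸(Fin N; S))
    (h1 : j ≫ 𝔸(Fin l; pullback s t) ↘ pullback s t ≫ pullback.fst s t = 𝔸(Fin (l + N); W) ↘ W)
    (h2 : j ≫ 𝔸(Fin l; pullback s t) ↘ pullback s t ≫ pullback.snd s t = k ≫ ch)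
    (h3 : ∀ i, j.appTop (AffineSpace.coord _ i) = AffineSpace.coord W (Fin.castAdd N i))
    (h4 : k ≫ 𝔸(Fin N; S) ↘ S = 𝔸(Fin (l + N); W) ↘ W ≫ s)
    (h5 : ∀ i, k.appTop (AffineSpace.coord _ i) =
      (𝔸(Fin (l + N); W) ↘ W).appTop (y₀ i) + AffineSpace.coord W (Fin.natAdd l i)) :
    IsPullback j k (𝔸(Fin l; pullback s t) ↘ pullback s t ≫ pullback.snd s t) ch := by
  let q : ∀ c : PullbackCone (𝔸(Fin l; pullback s t) ↘ pullback s t ≫ pullback.snd s t) ch,
      c.pt ⟶ 𝔸(Fin (l + N); W) := fun c => AffineSpace.homOfVector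
    (c.fst ≫ 𝔸(Fin l; pullback s t) ↘ pullback s t ≫ pullback.fst s t)
    (Fin.addCases (fun i => c.fst.appTop (AffineSpace.coord _ i)) fun i =>
      c.snd.appTop (AffineSpace.coord _ i) -
        (c.fst ≫ 𝔸(Fin l; pullback s t) ↘ pullback s t ≫ pullback.fst s t).appTop (y₀ i))
  have hk : ∀ c, q c ≫ k = c.snd := fun c => by
    refine AffineSpace.hom_ext ?_ fun i => ?_
    · rw [Category.assoc, h4, AffineSpace.homOfVector_over_assoc, ← hch, ← c.condition_assoc]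
      simp only [Category.assoc, pullback.condition]
    · rw [CycW_app, h5, map_add, ← CycW_app, AffineSpace.homOfVector_over,
        AffineSpace.homOfVector_appTop_coord, Fin.addCases_right, add_sub_cancel]
  refine ⟨⟨h2⟩, ⟨PullbackCone.IsLimit.mk h2 q (fun c => ?_) hk fun c q' hq hq' => ?_⟩⟩
  · refine AffineSpace.hom_ext (pullback.hom_ext ?_ ?_) fun i => ?_
    · simp only [Category.assoc]
      rw [h1, AffineSpace.homOfVector_over]
    · simp only [Category.assoc]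
      rw [h2, reassoc_of% hk, c.condition]
    · rw [CycW_app, h3, AffineSpace.homOfVector_appTop_coord, Fin.addCases_left]
  · refine AffineSpace.hom_ext ?_ fun i => ?_
    · rw [AffineSpace.homOfVector_over, ← hq, Category.assoc, h1]
    · rw [AffineSpace.homOfVector_appTop_coord]
      refine Fin.addCases (fun i => ?_) (fun i => ?_) i
      · rw [Fin.addCases_left, ← hq, CycW_app, h3]
      · rw [Fin.addCases_right, ← hq, ← hq', Category.assoc, h1, CycW_app, CycW_app, h5, map_add,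
          add_sub_cancel_left]

lemma CycW_mk_eq {m : ℕ} {X W : Scheme.{0}} {p : X ⟶ W} [IsSeparated p] {T₁ T₂ : Set X}
    {z z' : Cyc m p} (h : z ∈ CycOff m p T₁) (h' : z' ∈ CycOff m p T₁) :
    (QuotientAddGroup.mk ⟨z, h⟩ : CycPair m p T₁ T₂) = QuotientAddGroup.mk ⟨z', h'⟩ ↔
      -z + z' ∈ CycOff m p T₂ := QuotientAddGroup.eq

lemma CycW_mk_zero {m : ℕ} {X W : Scheme.{0}} {p : X ⟶ W} [IsSeparated p] {T₁ T₂ : Set X}
    {z : Cyc m p} (h : z ∈ CycOff m p T₁) :
    (QuotientAddGroup.mk ⟨z, h⟩ : CycPair m p T₁ T₂) = 0 ↔ z ∈ CycOff m p T₂ :=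
  QuotientAddGroup.eq_zero_iff _

variable {A : Type} [CommRing A] [IsNoetherianRing A] [IsLocalRing A]

namespace PD

variable {N : ℕ} (D : PD A N) (L : Type 1) [CommRing L] (m : ℕ) (r : Fin (N + 1)) (Z : Set D.S)
  (l : ℕ)

/-- Hint: `jI` is the base change of the chart `ch r` along `pb'`. -/
lemma isPullback_jI (c : D.SP') (y₀ : Fin N → Γ(D.uS.obj c, ⊤)) :
    ∃ k : 𝔸(Fin (l + N); D.uS.obj c) ⟶ 𝔸(Fin N; Spec (.of A)),
      IsPullback (D.jI r l c y₀) k (D.pb' l c) (D.ch r) :=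
  ⟨_, CycW_pb c.W.obj.obj.hom D.P.obj.obj.hom (D.ch r) (D.chOver r) y₀ (D.jI r l c y₀) _
    (D.jI_pa r l c y₀) (D.jI_pb' r l c y₀) (fun _ => AffineSpace.homOfVector_appTop_coord _ _ _)
    (AffineSpace.homOfVector_over _ _) fun _ => AffineSpace.homOfVector_appTop_coord _ _ _⟩

instance (c : D.SP') (y₀ : Fin N → Γ(D.uS.obj c, ⊤)) : IsOpenImmersion (D.jI r l c y₀) := by
  obtain ⟨k, hk⟩ := D.isPullback_jI r l c y₀
  exact MorphismProperty.of_isPullback (P := @IsOpenImmersion) hk.flip (D.opn r)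

lemma range_jI (c : D.SP') (y₀ : Fin N → Γ(D.uS.obj c, ⊤)) :
    Set.range (D.jI r l c y₀) = D.pb' l c ⁻¹' D.U r := by
  obtain ⟨k, hk⟩ := D.isPullback_jI r l c y₀
  exact TrLB_range hk.flip

lemma CycW_pull_comp {c c' c'' : D.SP'} (g : c'' ⟶ c') (f : c' ⟶ c) (z : Cyc m (D.pa l c)) :
    Cyc.pull m (D.isPullback_pa l (g ≫ f)) z =
      Cyc.pull m (D.isPullback_pa l g) (Cyc.pull m (D.isPullback_pa l f) z) := by
  refine Subtype.ext ?_
  change z.1 ∘ AffineSpace.map (Fin l) (D.WP.map (g ≫ f)) = _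
  rw [D.WP.map_comp, AffineSpace.map_comp]
  rfl

/-- A cycle whose support misses a closed set in one fibre misses it nearby. -/
lemma CycW_shrink {C : Type 1} [Category.{0} C] {u : C ⥤ Scheme.{0}} (hu : IsSite u) {c : C}
    {X : Scheme.{0}} {p : X ⟶ u.obj c} [IsSeparated p] (z : Cyc m p) {T : Set X} (hT : IsClosed T)
    (w : u.obj c) (h : ∀ x ∈ closure (Function.support z.1), p x = w → x ∉ T) :
    Locally u c w fun c' f => ∀ (X' : Scheme.{0}) (p' : X' ⟶ u.obj c') [IsSeparated p']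
      (F : X' ⟶ X) (sq : IsPullback F p' p (u.map f)), Cyc.pull m sq z ∈ CycOff m p' (F ⁻¹' T) := by
  obtain ⟨V, hV, hw, hS⟩ := FinOver.exists_shrink (p := p) z.2.2.2.closure isClosed_closure
    hT.isOpen_compl (w := w) fun x hx => h x hx.1 hx.2
  refine (hu.locally_open hV hw).mono fun c' f hf X' p' _ F sq => ?_
  refine Set.disjoint_left.2 fun x hx hx' => hS ⟨F.continuous.closure_preimage_subset _ hx, ?_⟩ hx'
  rw [Set.mem_preimage, ← Scheme.Hom.comp_apply, sq.w, Scheme.Hom.comp_apply]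
  exact hf ⟨_, rfl⟩

lemma CycW_split (c : D.SP') (z : Cyc m (D.pa l c))
    (hz : z ∈ CycOff m _ ((D.T1 r l).T c)) (w : D.uS.obj c) :
    Locally D.uS c w fun c' f => ∃ (z' : Cyc m (𝔸(Fin (l + N); D.uS.obj c') ↘ D.uS.obj c'))
          (z'' : Cyc m (D.pa l c')), z'' ∈ CycOff m _ (D.Dg l c') ∧
          Cyc.pull m (D.isPullback_pa l f) z =
            Cyc.pushHom m (D.jI r l c' (D.crd r c'.x)) (D.jI_pa r l c' _) z' + z'' := by
  obtain ⟨W', g, w', hg, H⟩ := Cyc.exists_split z w (D.Dg l c) (O₁ := D.pb' l c ⁻¹' D.U r)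
    (O₂ := (D.Dg l c)ᶜ) ((D.isOpen_U r).preimage (D.pb' l c).continuous)
    (D.isClosed_Dg l c).isOpen_compl
    (fun x hx => by
      by_contra hx'
      exact Set.disjoint_left.1 hz hx.1.1 (Or.inr ⟨hx.2, hx'⟩))
    fun x hx => hx.2
  obtain ⟨V, f, y, e, hf, he⟩ := D.siteS.exists_nbhd hg
  refine ⟨V, f, y, hf, ?_⟩
  obtain ⟨c₁, c₂, hc, h₁, h₂, -⟩ := H _ (D.pa l V ≫ e.hom) _ (TrLB_pb (D.isPullback_pa l f) e he)
  have k₁ : c₁.1 ∈ Cyc m (D.pa l V) := TrLB_mem_iso e rfl c₁.2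
  have k₂ : c₂.1 ∈ Cyc m (D.pa l V) := TrLB_mem_iso e rfl c₂.2
  obtain ⟨z', hz'⟩ := (Cyc.mem_range_pushHom (D.jI r l V (D.crd r V.x)) (D.jI_pa r l V _)
    ⟨c₁.1, k₁⟩).2 (by
      rw [range_jI, ← D.map_pb' l f]
      exact fun x hx => (h₁ hx).1)
  refine ⟨z', ⟨c₂.1, k₂⟩, ?_, ?_⟩
  · rw [← D.preimage_Dg l f]
    exact Set.disjoint_left.2 fun x hx hx' => (h₂ hx).1 hx'
  · rw [hz']
    have hc' := congrArg Subtype.val hc
    exact Subtype.ext hc'

lemma CycW_open (c : D.SP') (w : D.uS.obj c)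
    (h1 : c.W.obj.obj.hom w ≠ IsLocalRing.closedPoint A) (h2 : (big A).map c.x w ∈ D.U r) :
    Locally D.uS c w fun c' _ => IsGen c'.W.obj ∧ D.InU r c'.x := by
  have hO : IsOpen (c.W.obj.obj.hom ⁻¹' {IsLocalRing.closedPoint A}ᶜ ∩
      (big A).map c.x ⁻¹' D.U r : Set (D.uS.obj c)) :=
    ((IsLocalRing.isClosed_singleton_closedPoint A).isOpen_compl.preimage
      c.W.obj.obj.hom.continuous).inter ((D.isOpen_U r).preimage ((big A).map c.x).continuous)
  refine (D.siteS.locally_open hO ⟨h1, h2⟩).mono fun c' f hf => ⟨?_, fun y => ?_⟩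
  · rintro ⟨y, hy⟩
    refine (hf ⟨y, rfl⟩).1 ?_
    rw [← hy, ← Big.w f.1.hom]
    rfl
  · have e : c'.x = f.1.hom ≫ c.x := f.2.symm
    rw [e, Functor.map_comp]
    exact (hf ⟨y, rfl⟩).2

/-- A cycle is locally a translated cycle modulo cycles off the diagonal. Cases for the point `w`:
over the closed point the support misses the fibre, so it is empty nearby
(`FinOver.exists_shrink`); over the generic point with `u w ∉ U r` the support misses `Dg` in the
fibre, so it misses `Dg` nearby; otherwise shrink until `W` is generic and `u` lies in the chart,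
and split the cycle (`Cyc.exists_split` with `O₁ = range jI`, `O₂ = Dgᶜ`, `IsSite.exists_nbhd`,
`Cyc.mem_range_pushHom`). -/
lemma cyc_locally (c : D.SP') (z : Cyc m (D.pa l c))
    (hz : z ∈ CycOff m _ ((D.T1 r l).T c)) (w : D.uS.obj c) :
    Locally D.uS c w fun c' f => Cyc.pull m (D.isPullback_pa l f) z ∈ CycOff m _ (D.Dg l c') ∨
      (IsGen c'.W.obj ∧ D.InU r c'.x ∧
        ∃ (z' : Cyc m (𝔸(Fin (l + N); D.uS.obj c') ↘ D.uS.obj c'))
          (z'' : Cyc m (D.pa l c')), z'' ∈ CycOff m _ (D.Dg l c') ∧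
          Cyc.pull m (D.isPullback_pa l f) z =
            Cyc.pushHom m (D.jI r l c' (D.crd r c'.x)) (D.jI_pa r l c' _) z' + z'') := by
  by_cases h : ∀ x ∈ closure (Function.support z.1), D.pa l c x = w → x ∉ D.Dg l c
  · refine (CycW_shrink m D.siteS z (D.isClosed_Dg l c) w h).mono fun c' f hf => Or.inl ?_
    rw [← D.preimage_Dg l f]
    exact hf _ _ _ _
  · push Not at h
    obtain ⟨x, hx, rfl, hx'⟩ := h
    have h1 : c.W.obj.obj.hom (D.pa l c x) ≠ IsLocalRing.closedPoint A :=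
      fun e => Set.disjoint_left.1 hz hx (Or.inl e)
    have h2 : (big A).map c.x (D.pa l c x) ∈ D.U r := by
      by_contra h3
      refine Set.disjoint_left.1 hz hx (Or.inr ⟨hx', ?_⟩)
      rw [← EqAt.eq hx', Scheme.Hom.comp_apply]
      exact h3
    refine (D.CycW_open r c _ h1 h2).bind fun c' f hf y => ?_
    refine (D.CycW_split m r l c' (Cyc.pull m (D.isPullback_pa l f) z)
      (CycOff.pull_mem m (D.isPullback_pa l f) ((D.T1 r l).maps f) hz) y).mono fun c'' g hg => ?_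
    refine Or.inr ⟨hf.1.comp g.1.hom, El.mem_of_hom (a := D.inUSub _ r) g hf.2, ?_⟩
    rw [CycW_pull_comp]
    exact hg

/-- The cycles on affine space are only allowed on generic objects over the chart. -/
def CycW_S1 : (affFam D.uS (Fin (l + N))).Sets where
  T c := {_x | ¬ (IsGen c.W.obj ∧ D.InU r c.x)}
  maps f _ hx h := hx ⟨h.1.comp f.1.hom, El.mem_of_hom (a := D.inUSub _ r) f h.2⟩

/-- The zero section, on the objects which meet `Z`. -/
def CycW_S2 : (affFam D.uS (Fin (l + N))).Sets where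
  T c := {x : 𝔸(Fin (l + N); D.uS.obj c) |
    x ∈ Set.range (zeroSec (Fin (l + N)) (D.uS.obj c)) ∧ ¬ D.Avoid Z c.x}
  maps f _ hx := ⟨map_zeroSec _ (D.uS.map f) hx.1,
    fun h => hx.2 (El.mem_of_hom (a := D.avoidSub _ Z) f h)⟩

lemma CycW_zero {c : D.SP'} (h : ¬ (IsGen c.W.obj ∧ D.InU r c.x))
    {z : Cyc m (𝔸(Fin (l + N); D.uS.obj c) ↘ D.uS.obj c)}
    (hz : z ∈ CycOff m _ ((D.CycW_S1 r l).T c)) : z = 0 := by
  refine Subtype.ext (funext fun x => ?_)
  by_contra hx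
  exact Set.disjoint_left.1 hz (subset_closure hx) h

lemma CycW_mem {c : D.SP'} (h : IsGen c.W.obj) (hu : D.InU r c.x)
    (z : Cyc m (𝔸(Fin (l + N); D.uS.obj c) ↘ D.uS.obj c)) :
    z ∈ CycOff m _ ((D.CycW_S1 r l).T c) :=
  Set.disjoint_left.2 fun _ _ hx => hx ⟨h, hu⟩

lemma CycW_mem1 {c : D.SP'} {z : Cyc m (𝔸(Fin (l + N); D.uS.obj c) ↘ D.uS.obj c)}
    (hz : z ∈ CycOff m _ ((D.CycW_S1 r l).T c)) :
    Cyc.pushHom m (D.jI r l c (D.crd r c.x)) (D.jI_pa r l c _) z ∈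
      CycOff m _ ((D.T1 r l).T c) := by
  by_cases h : IsGen c.W.obj ∧ D.InU r c.x
  · exact D.jI_mem m r l c _ z (gen_mem m c.W h.1 z)
  · rw [D.CycW_zero m r l h hz, map_zero]
    exact zero_mem _

lemma CycW_mem2 {c : D.SP'} {z : Cyc m (𝔸(Fin (l + N); D.uS.obj c) ↘ D.uS.obj c)}
    (hz : z ∈ CycOff m _ ((D.CycW_S1 r l).T c)) (hz' : z ∈ CycOff m _ ((D.CycW_S2 Z l).T c)) :
    Cyc.pushHom m (D.jI r l c (D.crd r c.x)) (D.jI_pa r l c _) z ∈
      CycOff m _ ((D.T2 Z l).T c) := by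
  by_cases h : IsGen c.W.obj ∧ D.InU r c.x
  · refine Cyc.pushHom_mem_cycOff _ _ ((D.jI_preimage_T2 r Z l c h.2).subset.trans ?_) hz'
    exact fun x hx => ⟨hx.1, fun hA => hA _ hx.2⟩
  · rw [D.CycW_zero m r l h hz, map_zero]
    exact zero_mem _

lemma CycW_nat {c c' : D.SP'} (f : c' ⟶ c)
    {z : Cyc m (𝔸(Fin (l + N); D.uS.obj c) ↘ D.uS.obj c)}
    (hz : z ∈ CycOff m _ ((D.CycW_S1 r l).T c)) :
    Cyc.pushHom m (D.jI r l c' (D.crd r c'.x)) (D.jI_pa r l c' _)
        (Cyc.pull m (AffineSpace.isPullback_map (D.uS.map f)) z) =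
      Cyc.pull m (D.isPullback_pa l f)
        (Cyc.pushHom m (D.jI r l c (D.crd r c.x)) (D.jI_pa r l c _) z) := by
  by_cases h : IsGen c.W.obj ∧ D.InU r c.x
  · refine (Cyc.pull_pushHom _ _ _ _ _ _ ?_ z).symm
    have e : c'.x = f.1.hom ≫ c.x := f.2.symm
    rw [e, D.crd_comp _ h.2]
    exact D.jI_map r l f _
  · rw [D.CycW_zero m r l h hz, map_zero, map_zero, map_zero, map_zero]

/-- Push forward along `jI` on classes of cycles. -/
def CycW_p (c : D.SP') :
    CycPair m (𝔸(Fin (l + N); D.uS.obj c) ↘ D.uS.obj c) ((D.CycW_S1 r l).T c)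
        ((D.CycW_S2 Z l).T c) →+ CycPair m (D.pa l c) ((D.T1 r l).T c) ((D.T2 Z l).T c) :=
  QuotientAddGroup.map _ _
    (((Cyc.pushHom m (D.jI r l c (D.crd r c.x)) (D.jI_pa r l c _)).comp
      (CycOff m _ ((D.CycW_S1 r l).T c)).subtype).codRestrict _ fun z => D.CycW_mem1 m r l z.2)
    fun z hz => D.CycW_mem2 m r Z l z.2 hz

lemma CycW_p_nat {c c' : D.SP'} (f : c' ⟶ c)
    (z : CycPair m (𝔸(Fin (l + N); D.uS.obj c) ↘ D.uS.obj c) ((D.CycW_S1 r l).T c)
      ((D.CycW_S2 Z l).T c)) :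
    D.CycW_p m r Z l c' (CycPair.pull m (AffineSpace.isPullback_map (D.uS.map f))
        ((D.CycW_S1 r l).maps f) ((D.CycW_S2 Z l).maps f) z) =
      CycPair.pull m (D.isPullback_pa l f) ((D.T1 r l).maps f) ((D.T2 Z l).maps f)
        (D.CycW_p m r Z l c z) := by
  obtain ⟨⟨z, hz⟩, rfl⟩ := QuotientAddGroup.mk_surjective z
  refine (CycW_mk_eq (D.CycW_mem1 m r l (CycOff.pull_mem m
    (AffineSpace.isPullback_map (D.uS.map f)) ((D.CycW_S1 r l).maps f) hz))
    (CycOff.pull_mem m (D.isPullback_pa l f) ((D.T1 r l).maps f) (D.CycW_mem1 m r l hz))).2 ?_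
  rw [D.CycW_nat m r l f hz, neg_add_cancel]
  exact zero_mem _

/-- Push forward along `jI` as a map of presheaves of abelian groups. -/
def CycW_pi : (affFam D.uS (Fin (l + N))).cyc m (D.CycW_S1 r l) (D.CycW_S2 Z l) ⟶
    (D.famQ l).cyc m (D.T1 r l) (D.T2 Z l) where
  app c := AddCommGrpCat.ofHom (D.CycW_p m r Z l c.unop)
  naturality _ _ f := AddCommGrpCat.hom_ext (AddMonoidHom.ext (D.CycW_p_nat m r Z l f.unop))

lemma CycW_T2 (c : D.SP') {z : Cyc m (D.pa l c)} (hz : z ∈ CycOff m _ (D.Dg l c)) :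
    z ∈ CycOff m _ ((D.T2 Z l).T c) :=
  Cyc.cycOff_anti (fun _ hx => hx.2.1) hz

lemma CycW_surjA : LocSurjA D.uS (D.CycW_pi m r Z l) := by
  intro c b w
  obtain ⟨⟨z, hz⟩, rfl⟩ := QuotientAddGroup.mk_surjective b
  refine (D.cyc_locally m r l c z hz w).mono ?_
  rintro c' f (h | ⟨h1, h2, z', z'', h3, h4⟩)
  · refine ⟨0, (map_zero _).trans (Eq.symm ?_)⟩
    exact (QuotientAddGroup.eq_zero_iff _).2 (D.CycW_T2 m Z l c' h)
  · refine ⟨QuotientAddGroup.mk ⟨z', D.CycW_mem m r l h1 h2 z'⟩,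
      (CycW_mk_eq (D.CycW_mem1 m r l (D.CycW_mem m r l h1 h2 z'))
        (CycOff.pull_mem m (D.isPullback_pa l f) ((D.T1 r l).maps f) hz)).2 ?_⟩
    rw [h4, neg_add_cancel_left]
    exact D.CycW_T2 m Z l c' h3

omit D in
lemma CycW_closed (ι : Type) (W : Scheme.{0}) : IsClosed (Set.range (zeroSec ι W)) := by
  have e : Set.range (zeroSec ι W) =
      ⋂ i, (𝔸(ι; W).basicOpen (AffineSpace.coord W i) : Set 𝔸(ι; W))ᶜ := by
    ext x
    rw [mem_range_zeroSec, Set.mem_iInter]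
    rfl
  rw [e]
  exact isClosed_iInter fun i => (𝔸(ι; W).basicOpen (AffineSpace.coord W i)).2.isClosed_compl

lemma CycW_injA (hZ : IsClosed Z) : LocInjA D.uS (D.CycW_pi m r Z l) := by
  intro c a ha w
  obtain ⟨⟨z, hz⟩, rfl⟩ := QuotientAddGroup.mk_surjective a
  by_cases h : IsGen c.W.obj ∧ D.InU r c.x
  swap
  · obtain rfl := D.CycW_zero m r l h hz
    exact Locally.of_forall w (map_zero _)
  have h1 : Cyc.pushHom m (D.jI r l c (D.crd r c.x)) (D.jI_pa r l c _) z ∈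
      CycOff m _ ((D.T2 Z l).T c) := (CycW_mk_zero (D.CycW_mem1 m r l hz)).1 ha
  have h2 := Cyc.cycOff_anti (D.jI_preimage_T2 r Z l c h.2).superset
    (Cyc.mem_cycOff_of_pushHom _ _ h1)
  by_cases hw : (big A).map c.x w ∈ Z
  · refine (CycW_shrink m D.siteS (p := 𝔸(Fin (l + N); D.uS.obj c) ↘ D.uS.obj c) z
      (CycW_closed _ _) w fun x hx hxw hx' => ?_).mono fun c' f hf => ?_
    · exact Set.disjoint_left.1 h2 hx ⟨hx', hxw ▸ hw⟩
    · refine (QuotientAddGroup.eq_zero_iff _).2 ?_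
      exact Cyc.cycOff_anti (fun x hx => map_zeroSec _ (D.uS.map f) hx.1)
        (hf _ _ _ (AffineSpace.isPullback_map (D.uS.map f)))
  · refine (D.siteS.locally_open (O := (big A).map c.x ⁻¹' Zᶜ)
      (hZ.isOpen_compl.preimage ((big A).map c.x).continuous) hw).mono fun c' f hf => ?_
    refine (QuotientAddGroup.eq_zero_iff _).2 (Set.disjoint_left.2 fun x _ hx => hx.2 fun y => ?_)
    have e : c'.x = f.1.hom ≫ c.x := f.2.symm
    rw [e, Functor.map_comp]
    exact hf ⟨y, rfl⟩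

/-- The comparison of `CycA` with the source of `CycW_pi`. -/
def CycW_q {c : D.SP'} (h : IsGen c.W.obj) (hu : D.InU r c.x) :
    CycA m (Fin (l + N)) (D.uS.obj c) →+
      CycPair m (𝔸(Fin (l + N); D.uS.obj c) ↘ D.uS.obj c) ((D.CycW_S1 r l).T c)
        ((D.CycW_S2 Z l).T c) :=
  QuotientAddGroup.map _ _ ((AddMonoidHom.id _).codRestrict _ (D.CycW_mem m r l h hu))
    fun _ hz => Cyc.cycOff_anti (fun _ hx => hx.1) hz

/-- The inverse comparison on objects which meet `Z`. -/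
def CycW_q' {c : D.SP'} (hA : ¬ D.Avoid Z c.x) :
    CycPair m (𝔸(Fin (l + N); D.uS.obj c) ↘ D.uS.obj c) ((D.CycW_S1 r l).T c)
        ((D.CycW_S2 Z l).T c) →+ CycA m (Fin (l + N)) (D.uS.obj c) :=
  QuotientAddGroup.map _ _ (AddSubgroup.subtype _)
    fun _ hz => Cyc.cycOff_anti (T' := (D.CycW_S2 Z l).T c) (fun _ hx => ⟨hx, hA⟩) hz

lemma CycW_qq {c : D.SP'} (h : IsGen c.W.obj) (hu : D.InU r c.x) (hA : ¬ D.Avoid Z c.x)
    (g : (HH L m (Fin (l + N))).obj (op (D.uS.obj c))) :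
    (ext1 L (D.CycW_q' m r Z l hA)).hom ((ext1 L (D.CycW_q m r Z l h hu)).hom g) = g := by
  induction g using hEl_induction with
  | zero => exact (congrArg _ (map_zero _)).trans (map_zero _)
  | gen a z => rfl
  | add x y hx hy =>
    exact (congrArg _ (map_add _ x y)).trans ((map_add _ _ _).trans (congrArg₂ (· + ·) hx hy))

lemma CycW_psi {c : D.SP'} (h : IsGen c.W.obj) (hu : D.InU r c.x)
    (g : (HH L m (Fin (l + N))).obj (op (D.uS.obj c))) :
    ((D.psi L m r Z l).app (op c)).hom (D.eR L r Z _ c h g) =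
      ((Functor.whiskerRight (D.CycW_pi m r Z l) (coef L)).app (op c)).hom
        ((ext1 L (D.CycW_q m r Z l h hu)).hom g) := by
  induction g using hEl_induction with
  | zero =>
    exact (congrArg _ (map_zero _)).trans ((map_zero _).trans
      ((congrArg _ (map_zero _)).trans (map_zero _)).symm)
  | gen a z => exact (D.exists_psi L m r Z l).choose_spec c h hu a z
  | add x y hx hy =>
    exact (congrArg _ (map_add _ x y)).trans ((map_add _ _ _).trans ((congrArg₂ (· + ·) hx hy).trans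
      ((congrArg _ (map_add _ x y)).trans (map_add _ _ _)).symm))

lemma CycW_res {c c' : D.SP'} (f : c' ⟶ c) (h : IsGen c.W.obj) (hu : D.InU r c.x)
    (h' : IsGen c'.W.obj) (hu' : D.InU r c'.x)
    (g : (HH L m (Fin (l + N))).obj (op (D.uS.obj c))) :
    ((((affFam D.uS (Fin (l + N))).cyc m (D.CycW_S1 r l) (D.CycW_S2 Z l)) ⋙ coef L).map f.op).hom
        ((ext1 L (D.CycW_q m r Z l h hu)).hom g) =
      (ext1 L (D.CycW_q m r Z l h' hu')).hom
        (((HH L m (Fin (l + N))).map (D.uS.map f).op).hom g) := by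
  induction g using hEl_induction with
  | zero =>
    exact (congrArg _ (map_zero _)).trans ((map_zero _).trans
      ((congrArg _ (map_zero _)).trans (map_zero _)).symm)
  | gen a z => rfl
  | add x y hx hy =>
    exact (congrArg _ (map_add _ x y)).trans ((map_add _ _ _).trans ((congrArg₂ (· + ·) hx hy).trans
      ((congrArg _ (map_add _ x y)).trans (map_add _ _ _)).symm))

theorem locSurj_psi : LocSurj D.uS (D.psi L m r Z l) := by
  intro c b w
  refine (LocSurjA.coef L (D.CycW_surjA m r Z l) c b w).mono ?_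
  rintro c' f ⟨a, ha⟩
  have key : ∀ a : ((affFam D.uS (Fin (l + N))).mot L m (D.CycW_S1 r l)
      (D.CycW_S2 Z l)).obj (op c'), ∃ a', ((D.psi L m r Z l).app (op c')).hom a' =
        ((Functor.whiskerRight (D.CycW_pi m r Z l) (coef L)).app (op c')).hom a := by
    intro a
    induction a using CFam.el_induction with
    | zero => exact ⟨0, (map_zero _).trans (map_zero _).symm⟩
    | gen a z hz =>
      by_cases h : IsGen c'.W.obj ∧ D.InU r c'.x
      · exact ⟨_, D.CycW_psi L m r Z l h.1 h.2 (hEl a z)⟩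
      · obtain rfl := D.CycW_zero m r l h hz
        exact ⟨0, (map_zero _).trans ((congrArg _ (tmul_zero _ a)).trans (map_zero _)).symm⟩
    | add x y hx hy =>
      obtain ⟨x', hx⟩ := hx
      obtain ⟨y', hy⟩ := hy
      exact ⟨x' + y', (map_add _ _ _).trans ((congrArg₂ (· + ·) hx hy).trans (map_add _ _ _).symm)⟩
  obtain ⟨a', ha'⟩ := key a
  exact ⟨a', ha'.trans ha⟩

/-- Hint: a section of `phiR` over `c` is zero or `eR c h x` with `InU r u`, `¬ Avoid Z u`. Work on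
the category `C₀ = El (SP.sieve (IsGen ∧ InU r))` with the presheaves of abelian groups
`F' c = CycA (Fin (l + N)) W ⧸ {a | Avoid Z u ∨ a = 0}` and `(famQ.cyc T1 T2)` restricted to `C₀`;
push forward along `jI` is `LocSurjA` (`cyc_locally`) and `LocInjA` (if `u w ∉ Z` shrink until
`Avoid Z u`; otherwise the support misses the zero section over `w` by `jI_preimage_T2`,
`mem_cycOff_of_pushHom`, hence nearby by `FinOver.exists_shrink`); apply `LocInjA.coef` and
`Locally.of_el`; where `¬ Avoid Z u` the quotient map `CycA → F'` is bijective. -/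
theorem locInj_psi (hZ : IsClosed Z) : LocInj D.uS (D.psi L m r Z l) := by
  intro c a ha w
  have key : a = 0 ∨ ∃ h g, D.InU r c.x ∧ a = D.eR L r Z (HG A L m (l + N)) c h g := by
    clear ha
    induction a using phiR_induction with
    | zero => exact Or.inl rfl
    | gen h g hu _ => exact Or.inr ⟨h, g, hu, rfl⟩
    | add x y hx hy =>
      rcases hx with rfl | ⟨h, g, hu, rfl⟩
      · rwa [zero_add]
      rcases hy with rfl | ⟨h', g', -, rfl⟩
      · exact Or.inr ⟨h, g, hu, add_zero _⟩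
      · exact Or.inr ⟨h, g + g', hu, (map_add _ g g').symm⟩
  rcases key with rfl | ⟨h, g, hu, rfl⟩
  · exact Site_el_zero _ c w
  refine (LocInjA.coef L (D.CycW_injA m r Z l hZ) (D.CycW_surjA m r Z l) c
    ((ext1 L (D.CycW_q m r Z l h hu)).hom g)
    ((D.CycW_psi L m r Z l h hu g).symm.trans ha) w).mono fun c' f hf => ?_
  have h' : IsGen c'.W.obj := h.comp f.1.hom
  have hu' : D.InU r c'.x := El.mem_of_hom (a := D.inUSub _ r) f hu
  have e := smObj_map_I' (a := D.aR r) (b := D.bR Z) ((pb L D.lamR).obj (HG A L m (l + N))) f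
    (x := ⟨h⟩) hu g
  refine e.trans ?_
  by_cases hA : D.Avoid Z c'.x
  · exact smI_of_b (p := ⟨c', _⟩) hA _
  · have e1 := (D.CycW_res L m r Z l f h hu h' hu' g).symm.trans hf
    have e2 := (D.CycW_qq L m r Z l h' hu' hA _).symm.trans
      ((congrArg (ext1 L (D.CycW_q' m r Z l hA)).hom e1).trans (map_zero _))
    exact (congrArg _ e2).trans (map_zero _)

end PD

end Pool.Agent.KEW
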