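import Pool.Agent.P.MP_6277db_ag.KEW.L9.Kap

/-!
KEW, layer L9: the functors and natural transformations of the diagonal argument.
-/

set_option backward.isDefEq.respectTransparency false
set_option linter.unusedSectionVars false

noncomputable section

open CategoryTheory Limits AlgebraicGeometry Opposite

namespace Pool.Agent.KEW

section Dat_general

variable {C : Type 1} [Category.{0} C] {C₀ : Type 1} [Category.{0} C₀] {L : Type 1} [CommRing L]
  {X : SP C} {a b : X.Sub} {E : Type 2} [Category.{1} E]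

lemma Dat_hom_ext (φ : C₀ ⥤ C) {G : PSh (El X) L} {M : PSh C₀ L}
    {f f' : (pb L φ).obj (smObj a b G) ⟶ M}
    (h : ∀ (c : C₀) (x : X.obj (φ.obj c)) (g : G.obj (op ⟨φ.obj c, x⟩)), a.mem x → ¬ b.mem x →
      (f.app (op c)).hom (smI a b G ⟨φ.obj c, x⟩ g) =
        (f'.app (op c)).hom (smI a b G ⟨φ.obj c, x⟩ g)) : f = f' := by
  ext W : 2
  exact ModuleCat.hom_ext (sm_lin_ext fun x g ha hb => h W.unop x g ha hb)

/-- Natural maps out of the restriction of a sum. -/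
lemma Dat_exists (φ : C₀ ⥤ C) (P : E ⥤ PSh (El X) L) (M : E ⥤ PSh C₀ L)
    (ψ : ∀ (G : E) (c : C₀) (x : X.obj (φ.obj c)), a.mem x →
      ((P.obj G).obj (op ⟨φ.obj c, x⟩) →ₗ[L] (M.obj G).obj (op c)))
    (nat : ∀ (G : E) {c' c : C₀} (f : c' ⟶ c) (x : X.obj (φ.obj c)) (h : a.mem x)
      (g : (P.obj G).obj (op ⟨φ.obj c, x⟩)), ((M.obj G).map f.op).hom (ψ G c x h g) =
        ψ G c' (X.res (φ.map f) x) (a.res _ h) (((P.obj G).map (El.along (φ.map f) x).op).hom g))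
    (zero : ∀ (G : E) (c : C₀) (x : X.obj (φ.obj c)) (h : a.mem x)
      (g : (P.obj G).obj (op ⟨φ.obj c, x⟩)), b.mem x → ψ G c x h g = 0)
    (natG : ∀ {G G' : E} (τ : G ⟶ G') (c : C₀) (x : X.obj (φ.obj c)) (h : a.mem x)
      (g : (P.obj G).obj (op ⟨φ.obj c, x⟩)), ((M.map τ).app (op c)).hom (ψ G c x h g) =
        ψ G' c x h (((P.map τ).app (op ⟨φ.obj c, x⟩)).hom g)) :
    ∃ k : (P ⋙ sm a b L) ⋙ pb L φ ⟶ M, ∀ (G : E) (c : C₀) (x : X.obj (φ.obj c)) (h : a.mem x)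
      (g : (P.obj G).obj (op ⟨φ.obj c, x⟩)),
      ((k.app G).app (op c)).hom (smI a b (P.obj G) ⟨φ.obj c, x⟩ g) = ψ G c x h g := by
  have hI : ∀ (G : E) (c : C₀) (x : X.obj (φ.obj c)) (h : a.mem x)
      (g : (P.obj G).obj (op ⟨φ.obj c, x⟩)),
      smLift a b (ψ G c) (smI a b (P.obj G) ⟨φ.obj c, x⟩ g) = ψ G c x h g :=
    fun G c x h g => smLift_I (ψ G c) h g (zero G c x h g)
  let k : ∀ G : E, (pb L φ).obj (smObj a b (P.obj G)) ⟶ M.obj G := fun G =>
    { app c := ModuleCat.ofHom (smLift a b (ψ G c.unop))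
      naturality c c' f := by
        refine ModuleCat.hom_ext (sm_lin_ext fun x g ha _ => ?_)
        have h1 := smObj_map_I' (b := b) (P.obj G) (φ.map f.unop) ha g
        have h2 := hI G c.unop x ha g
        have h3 := hI G c'.unop _ (a.res (φ.map f.unop) ha)
          (((P.obj G).map (El.along (φ.map f.unop) x).op).hom g)
        have h4 := nat G f.unop x ha g
        exact (congrArg (smLift a b (ψ G c'.unop)) h1).trans
          (h3.trans (h4.symm.trans (congrArg ((M.obj G).map f).hom h2.symm))) }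
  refine ⟨{ app := k, naturality := fun G G' τ => Dat_hom_ext φ fun c x g ha _ => ?_ }, hI⟩
  have h1 := sm_map_I (a := a) (b := b) (P.map τ) ⟨φ.obj c, x⟩ g
  have h2 := hI G' c x ha (((P.map τ).app (op ⟨φ.obj c, x⟩)).hom g)
  have h3 := natG τ c x ha g
  have h4 := hI G c x ha g
  exact (congrArg (smLift a b (ψ G' c)) h1).trans
    (h2.trans (h3.symm.trans (congrArg ((M.map τ).app (op c)).hom h4.symm)))

/-- Natural maps out of a sum. -/
lemma Dat_exists₀ (P : E ⥤ PSh (El X) L) (M : E ⥤ PSh C L)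
    (ψ : ∀ G : E, SmCone a b (P.obj G) (M.obj G))
    (natG : ∀ {G G' : E} (τ : G ⟶ G') (p : El X) (h : a.mem p.x) (g : (P.obj G).obj (op p)),
      ((M.map τ).app (op p.W)).hom ((ψ G).φ p h g) =
        (ψ G').φ p h (((P.map τ).app (op p)).hom g)) :
    ∃ k : P ⋙ sm a b L ⟶ M, ∀ (G : E) (p : El X) (h : a.mem p.x) (g : (P.obj G).obj (op p)),
      ((k.app G).app (op p.W)).hom (smI a b (P.obj G) p g) = (ψ G).φ p h g := by
  refine ⟨{ app := fun G => (ψ G).desc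
            naturality := fun G G' τ => sm_hom_ext fun p g ha _ => ?_ },
    fun G p h g => (ψ G).desc_I p h g⟩
  have h1 := sm_map_I (a := a) (b := b) (P.map τ) p g
  have h2 := (ψ G').desc_I p ha (((P.map τ).app (op p)).hom g)
  have h3 := natG τ p ha g
  have h4 := (ψ G).desc_I p ha g
  exact (congrArg ((ψ G').desc.app (op p.W)).hom h1).trans
    (h2.trans (h3.symm.trans (congrArg ((M.map τ).app (op p.W)).hom h4.symm)))

/-- The cone attached to a map into a pull back which vanishes on `b`. -/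
def Dat_cone {G : PSh (El X) L} {M : PSh C L} (κ : G ⟶ (pb L (El.proj X)).obj M)
    (zero : ∀ (p : El X) (g : G.obj (op p)), b.mem p.x → (κ.app (op p)).hom g = 0) :
    SmCone a b G M where
  φ p _ := (κ.app (op p)).hom
  nat f _ g := (congrArg (fun k => k.hom g) (κ.naturality f.op)).symm
  zero p _ g h := zero p g h

lemma Dat_exists₁ (P : E ⥤ PSh (El X) L) (M : E ⥤ PSh C L) (κ : P ⟶ M ⋙ pb L (El.proj X))
    (zero : ∀ (G : E) (p : El X) (g : (P.obj G).obj (op p)), b.mem p.x →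
      ((κ.app G).app (op p)).hom g = 0) :
    ∃ k : P ⋙ sm a b L ⟶ M, ∀ (G : E) (p : El X) (_ : a.mem p.x) (g : (P.obj G).obj (op p)),
      ((k.app G).app (op p.W)).hom (smI a b (P.obj G) p g) = ((κ.app G).app (op p)).hom g :=
  Dat_exists₀ P M (fun G => Dat_cone (κ.app G) (zero G)) fun τ p _ g =>
    (congrArg (fun k => k.hom g) (NatTrans.congr_app (κ.naturality τ) (op p))).symm

end Dat_general

variable {A : Type} [CommRing A] [IsNoetherianRing A] [IsLocalRing A]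

/-- A smooth scheme over the generic point as an object of `SmGen A`. -/
def toGen (W : Sm A) (h : IsGen W.obj) : SmGen A := ⟨W.obj, W.property, h⟩

/-- A morphism of `SmGen A`. -/
def toGenMap {V W : Sm A} (hV : IsGen V.obj) (hW : IsGen W.obj) (f : V ⟶ W) :
    toGen V hV ⟶ toGen W hW := ObjectProperty.homMk f.hom

variable (A) in
/-- The underlying scheme of an object of `SmGen A`. -/
abbrev genSch : SmGen A ⥤ Scheme.{0} := smGen A ⋙ big A

namespace PD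

variable {N : ℕ} (D : PD A N) (L : Type 1) [CommRing L]

/-- The big site over `P`. -/
abbrev BP : Type 1 := D.Sl (𝟭 (Big A))

/-- The smooth site over `P`. -/
abbrev SP' : Type 1 := D.Sl (smBig A)

/-- The underlying scheme of an object of the big site over `P`. -/
abbrev uB : D.BP ⥤ Scheme.{0} := D.sl (𝟭 (Big A)) ⋙ big A

/-- The underlying scheme of an object of the smooth site over `P`. -/
abbrev uS : D.SP' ⥤ Scheme.{0} := D.sl (smBig A) ⋙ big A

lemma siteB : IsSite D.uB := (isSite_big A).el (D.PX (𝟭 (Big A)))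

lemma siteS : IsSite D.uS := (isSite_sm A).el (D.PX (smBig A))

/-- The inclusion of the smooth slice in the big slice. -/
def nu : D.SP' ⥤ D.BP where
  obj c := ⟨c.W.obj, c.x⟩
  map f := ⟨f.1.hom, f.2⟩

/-- Pull back from the big site to the big slice. -/
abbrev gB : PSh (Big A) L ⥤ PSh D.BP L := pb L (El.proj (D.PX (𝟭 (Big A))))

/-- Pull back from the smooth site to the smooth slice. -/
abbrev gS : PSh (Sm A) L ⥤ PSh D.SP' L := pb L (El.proj (D.PX (smBig A)))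

/-- The sieve on the big slice given by a subpresheaf of `P`. -/
def ind (a : (D.PX (𝟭 (Big A))).Sub) : (SP.pt D.BP).Sub :=
  SP.ptSub (fun c => a.mem c.x) fun f h => El.mem_of_hom f h

/-- The maps from schemes over the generic point. -/
def genSub : (D.PX (𝟭 (Big A))).Sub := ⟨fun {W} _ => IsGen W, fun f _ h => h.comp f⟩

/-- Pull back to the big slice tensored with the indicator of `a - b`. -/
def indB (a b : (D.PX (𝟭 (Big A))).Sub) : Lax L (big A) D.uB :=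
  Lax.ofSm L (El.proj (SP.pt D.BP) ⋙ El.proj (D.PX (𝟭 (Big A)))) (𝟙 _) (D.ind a) (D.ind b)
    (liftsNb_of_iso D.siteB (isSite_big A) _ (𝟙 _) _ _)

/-- The generators of `indB a b`. -/
def eB (a b : (D.PX (𝟭 (Big A))).Sub) (G : PSh (Big A) L) (c : D.BP) :
    G.obj (op c.W) →ₗ[L] ((D.indB L a b).F.obj G).obj (op c) :=
  smI (D.ind a) (D.ind b)
    ((pb L (El.proj (SP.pt D.BP) ⋙ El.proj (D.PX (𝟭 (Big A))))).obj G) ⟨c, ()⟩

variable (r : Fin (N + 1)) (Z : Set D.S)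

/-- The indicator of `Z ∩ U r` on the generic fibre, on the big slice. -/
abbrev phiB : Lax L (big A) D.uB :=
  D.indB L (D.genSub.inf (D.inUSub (𝟭 _) r)) (D.avoidSub (𝟭 _) Z)

/-- The objects of the smooth slice over the generic point. -/
def XR : SP D.SP' := SP.sieve (fun c => IsGen c.W.obj) fun f h => h.comp f.1.hom

/-- The labels in `SmGen A`. -/
def lamR : El D.XR ⥤ SmGen A where
  obj p := toGen p.W.W p.x.down
  map f := toGenMap _ _ f.1.1

/-- The condition to lie over the chart. -/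
def aR : D.XR.Sub := ⟨fun {c} _ => D.InU r c.x, fun f _ h => El.mem_of_hom (a := D.inUSub _ r) f h⟩

/-- The condition to miss `Z`. -/
def bR : D.XR.Sub :=
  ⟨fun {c} _ => D.Avoid Z c.x, fun f _ h => El.mem_of_hom (a := D.avoidSub _ Z) f h⟩

/-- The indicator of `Z ∩ U r` on the generic fibre, on the smooth slice. -/
def phiR : Lax L (genSch A) D.uS :=
  Lax.ofSm L D.lamR (𝟙 _) (D.aR r) (D.bR Z)
    (liftsNb_of_iso D.siteS (isSite_smGen A) _ (𝟙 _) _ _)

/-- The generators of `phiR`. -/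
def eR (G : PSh (SmGen A) L) (c : D.SP') (h : IsGen c.W.obj) :
    G.obj (op (toGen c.W h)) →ₗ[L] ((D.phiR L r Z).F.obj G).obj (op c) :=
  smI (D.aR r) (D.bR Z) ((pb L D.lamR).obj G) ⟨c, ⟨h⟩⟩

/-- Second maps to `P` on objects over the generic point. -/
def XQ : SP D.SP' where
  obj c := {_v : c.W.obj ⟶ D.P.obj // IsGen c.W.obj}
  res f v := ⟨f.1.hom ≫ v.1, v.2.comp f.1.hom⟩
  res_id _ _ := Subtype.ext (Category.id_comp _)
  res_comp _ _ _ := Subtype.ext (Category.assoc _ _ _)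

/-- The labels in `SmGen A`. -/
def lamQ : El D.XQ ⥤ SmGen A where
  obj p := toGen p.W.W p.x.2
  map f := toGenMap _ _ f.1.1

/-- The points where the two maps agree are sent to `T`. -/
def eqSub (T : Set D.S) : D.XQ.Sub where
  mem {c} v := ∀ w, EqAt ((big A).map c.x) ((big A).map v.1) w → (big A).map c.x w ∈ T
  res {c' c} f v h w hw := by
    have e : c'.x = f.1.hom ≫ c.x := f.2.symm
    rw [e] at hw ⊢
    rw [Functor.map_comp]
    exact h _ ((D.eqAt_comp f.1.hom c.x v.1 w).1 hw)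

/-- The functor `Qq ⊗ -`. -/
abbrev phiQ : PSh (SmGen A) L ⥤ PSh D.SP' L :=
  pb L D.lamQ ⋙ sm (D.eqSub (D.U r)) (D.eqSub Zᶜ) L

lemma presQ : PresW (NGen (genSch A)) (NGen D.uS) (mapC (D.phiQ L r Z)) :=
  presW_sm_of_iso D.siteS (isSite_smGen A) D.lamQ (𝟙 _) _ _

/-- The generators of `phiQ`. -/
def eQ (G : PSh (SmGen A) L) (c : D.SP') (v : c.W.obj ⟶ D.P.obj) (h : IsGen c.W.obj) :
    G.obj (op (toGen c.W h)) →ₗ[L] ((D.phiQ L r Z).obj G).obj (op c) :=
  smI (D.eqSub (D.U r)) (D.eqSub Zᶜ) ((pb L D.lamQ).obj G) ⟨c, ⟨v, h⟩⟩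

/-- The functor `g_# (1' ⊗ -)`. -/
abbrev Lam : PSh D.SP' L ⥤ PSh (Sm A) L := sm .top (D.avoidSub (smBig A) (D.U r)) L

lemma presLam : PresW (NGen D.uS) (NGen (smS A)) (mapC (D.Lam L r)) :=
  presW_sm_id (u := smS A) _ _

lemma presGS : PresW (NGen (smS A)) (NGen D.uS) (mapC (D.gS L)) :=
  presW_pb (El.proj (D.PX (smBig A))) D.siteS (isSite_sm A)

/-- The generators of `Lam`. -/
def eL (F : PSh D.SP' L) (c : D.SP') : F.obj (op c) →ₗ[L] ((D.Lam L r).obj F).obj (op c.W) :=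
  smI .top (D.avoidSub (smBig A) (D.U r)) F c

/-- The functor `K ⊗ -` on the smooth slice. -/
abbrev phi1 : PSh D.SP' L ⥤ PSh D.SP' L := D.K L (D.sl (smBig A)) r

/-- The functor `g^* g_# (1' ⊗ -)` on the smooth slice. -/
abbrev phi2 : PSh D.SP' L ⥤ PSh D.SP' L := D.Lam L r ⋙ D.gS L

lemma pres2 : PresW (NGen D.uS) (NGen D.uS) (mapC (D.phi2 L r)) :=
  (D.presLam L r).comp (D.presGS L)

lemma Dat_eQ_map (G : PSh (SmGen A) L) {c' c : D.SP'} (f : c' ⟶ c) {v : c.W.obj ⟶ D.P.obj}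
    {v' : c'.W.obj ⟶ D.P.obj} (hv : f.1.hom ≫ v = v') (h : IsGen c.W.obj) (h' : IsGen c'.W.obj)
    (ha : ∀ w, EqAt ((big A).map c.x) ((big A).map v) w → (big A).map c.x w ∈ D.U r)
    (g : G.obj (op (toGen c.W h))) :
    (((D.phiQ L r Z).obj G).map f.op).hom (D.eQ L r Z G c v h g) =
      D.eQ L r Z G c' v' h' ((G.map (toGenMap h' h f.1).op).hom g) := by
  subst hv
  exact smObj_map_I' (a := D.eqSub (D.U r)) (b := D.eqSub Zᶜ) ((pb L D.lamQ).obj G) f
    (x := ⟨v, h⟩) ha g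

lemma Dat_eQ_nat {G G' : PSh (SmGen A) L} (τ : G ⟶ G') (c : D.SP') (v : c.W.obj ⟶ D.P.obj)
    (h : IsGen c.W.obj) (g : G.obj (op (toGen c.W h))) :
    (((D.phiQ L r Z).map τ).app (op c)).hom (D.eQ L r Z G c v h g) =
      D.eQ L r Z G' c v h ((τ.app (op (toGen c.W h))).hom g) :=
  sm_map_I (a := D.eqSub (D.U r)) (b := D.eqSub Zᶜ) ((pb L D.lamQ).map τ) ⟨c, ⟨v, h⟩⟩ g

lemma Dat_eQ_zero (G : PSh (SmGen A) L) (c : D.SP') (v : c.W.obj ⟶ D.P.obj) (h : IsGen c.W.obj)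
    (hb : ∀ w, EqAt ((big A).map c.x) ((big A).map v) w → (big A).map c.x w ∉ Z)
    (g : G.obj (op (toGen c.W h))) : D.eQ L r Z G c v h g = 0 :=
  smI_of_b (a := D.eqSub (D.U r)) (b := D.eqSub Zᶜ) (G := (pb L D.lamQ).obj G)
    (p := ⟨c, ⟨v, h⟩⟩) hb g

section Dat_double

variable {D} {X : SP D.SP'} (w : ∀ p : El X, p.W.W.obj ⟶ D.P.obj)
  (hw : ∀ {p q : El X} (f : p ⟶ q), f.1.1.hom ≫ w q = w p)

/-- Relabelling of the structure map to `P`. -/
def Dat_lam : El X ⥤ D.SP' where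
  obj p := ⟨p.W.W, w p⟩
  map f := ⟨f.1.1, hw f⟩

lemma Dat_double (v : ∀ p : El X, p.W.W.obj ⟶ D.P.obj) (b : X.Sub)
    (hv : ∀ {p q : El X} (f : p ⟶ q), D.InU r (w q) → f.1.1.hom ≫ v q = v p)
    (ha : ∀ p : El X, D.InU r (w p) → ∀ y, EqAt ((big A).map p.W.x) ((big A).map (v p)) y →
      (big A).map p.W.x y ∈ D.U r)
    (hb : ∀ p : El X, D.InU r (w p) → D.Avoid Z (w p) →
      ∀ y, EqAt ((big A).map p.W.x) ((big A).map (v p)) y → (big A).map p.W.x y ∉ Z)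
    (hz : ∀ p : El X, D.InU r (w p) → b.mem p.x →
      ∀ y, ¬ EqAt ((big A).map p.W.x) ((big A).map (v p)) y) :
    ∃ k : ((D.phiR L r Z).F ⋙ pb L (Dat_lam w hw)) ⋙ sm .top b L ⟶ D.phiQ L r Z,
      ∀ (G : PSh (SmGen A) L) (p : El X) (h : IsGen p.W.W.obj) (g : G.obj (op (toGen p.W.W h))),
        D.InU r (w p) → ((k.app G).app (op p.W)).hom
          (smI .top b ((pb L (Dat_lam w hw)).obj ((D.phiR L r Z).F.obj G)) p
            (D.eR L r Z G ⟨p.W.W, w p⟩ h g)) = D.eQ L r Z G p.W (v p) h g := by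
  obtain ⟨κ, hκ⟩ := Dat_exists (a := D.aR r) (b := D.bR Z) (Dat_lam w hw) (pb L D.lamR)
    (D.phiQ L r Z ⋙ pb L (El.proj X)) (fun G p x _ => D.eQ L r Z G p.W (v p) x.down)
    (fun G p q f x h g => D.Dat_eQ_map L r Z G f.1 (hv f h) x.down _ (ha q h) g)
    (fun G p x h g h' => D.Dat_eQ_zero L r Z G p.W (v p) x.down (hb p h h') g)
    (fun τ p x _ g => D.Dat_eQ_nat L r Z τ p.W (v p) x.down g)
  obtain ⟨k, hk⟩ := Dat_exists₁ (a := .top) (b := b) ((D.phiR L r Z).F ⋙ pb L (Dat_lam w hw))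
    (D.phiQ L r Z) κ fun G p g h => by
      have e : ((κ.app G).app (op p)).hom = 0 :=
        sm_lin_ext (a := D.aR r) (b := D.bR Z) fun x g h1 _ =>
          (hκ G p x h1 g).trans
            (D.Dat_eQ_zero L r Z G p.W (v p) x.down (fun y hy => (hz p h1 h y hy).elim) g)
      exact LinearMap.congr_fun e g
  exact ⟨k, fun G p h g h' => (hk G p trivial _).trans (hκ G p ⟨h⟩ h' g)⟩

end Dat_double

/-- Translation of a map into the chart. -/
def Dat_shift {W : Big A} (x : W ⟶ D.P.obj) (y : Fin N → Γ((big A).obj W, ⊤)) : W ⟶ D.P.obj :=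
  D.pt r W (D.crd r x + y)

lemma Dat_shift_comp {V W : Big A} (f : V ⟶ W) {x : W ⟶ D.P.obj} {x' : V ⟶ D.P.obj}
    (e : f ≫ x = x') (h : D.InU r x) {y : Fin N → Γ((big A).obj W, ⊤)}
    {y' : Fin N → Γ((big A).obj V, ⊤)} (e' : (fun i => ((big A).map f).appTop (y i)) = y') :
    f ≫ D.Dat_shift r x y = D.Dat_shift r x' y' := by
  subst e e'
  rw [Dat_shift, Dat_shift, D.comp_pt, D.crd_comp _ h]
  exact congrArg _ (funext fun i => map_add _ _ _)

lemma Dat_shift_unit {W : Big A} {x : W ⟶ D.P.obj} (h : D.InU r x)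
    {y : Fin N → Γ((big A).obj W, ⊤)} {i : Fin N} (hi : IsUnit (y i)) (w : (big A).obj W) :
    ¬ EqAt ((big A).map x) ((big A).map (D.Dat_shift r x y)) w := by
  intro e
  have e' : EqAt ((big A).map (D.pt r W (D.crd r x))) ((big A).map (D.pt r W (D.crd r x + y)))
      w := by
    rw [D.pt_crd h]
    exact e
  refine (D.eqAt_pt r _ _ w).1 e' i ?_
  rw [Pi.add_apply, sub_add_cancel_left, Scheme.basicOpen_of_isUnit _ hi.neg]
  trivial

/-- The second structure map as a label. -/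
abbrev Dat_lam2 : El (D.PX (D.sl (smBig A))) ⥤ D.SP' :=
  Dat_lam (X := D.PX (D.sl (smBig A))) (fun p => p.x) fun f => f.2

lemma Dat_swap : ∃ k : D.phi2 L r ⟶
      pb L D.Dat_lam2 ⋙ sm .top (D.avoidSub (D.sl (smBig A)) (D.U r)) L,
    ∀ (F : PSh D.SP' L) (c : D.SP') (v : c.W.obj ⟶ D.P.obj) (g : F.obj (op ⟨c.W, v⟩)),
      ((k.app F).app (op c)).hom (D.eL L r F ⟨c.W, v⟩ g) =
        smI .top (D.avoidSub (D.sl (smBig A)) (D.U r)) ((pb L D.Dat_lam2).obj F) ⟨c, v⟩ g := by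
  obtain ⟨k, hk⟩ := Dat_exists (a := .top) (b := D.avoidSub (smBig A) (D.U r))
    (El.proj (D.PX (smBig A))) (𝟭 _)
    (pb L D.Dat_lam2 ⋙ sm .top (D.avoidSub (D.sl (smBig A)) (D.U r)) L)
    (fun F c v _ => smI .top (D.avoidSub (D.sl (smBig A)) (D.U r)) ((pb L D.Dat_lam2).obj F) ⟨c, v⟩)
    (fun F c' c f v h g => smObj_map_I' (a := .top) (b := D.avoidSub (D.sl (smBig A)) (D.U r))
      ((pb L D.Dat_lam2).obj F) f (x := v) h g)
    (fun F c v _ g h => smI_of_b (a := .top) (b := D.avoidSub (D.sl (smBig A)) (D.U r))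
      (G := (pb L D.Dat_lam2).obj F) (p := ⟨c, v⟩) h g)
    (fun τ c v _ g => sm_map_I (a := .top) (b := D.avoidSub (D.sl (smBig A)) (D.U r))
      ((pb L D.Dat_lam2).map τ) ⟨c, v⟩ g)
  exact ⟨k, fun F c v g => hk F c v trivial g⟩

lemma exists_k1 : ∃ k : (D.phiR L r Z).F ⋙ D.phi1 L r ⟶ D.phiQ L r Z,
    ∀ (G : PSh (SmGen A) L) (c : D.SP') (v : c.W.obj ⟶ D.P.obj) (h : IsGen c.W.obj)
      (g : G.obj (op (toGen c.W h))), D.InU r c.x →
      ((k.app G).app (op c)).hom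
        (D.eK L (D.sl (smBig A)) r ((D.phiR L r Z).F.obj G) c v (D.eR L r Z G c h g)) =
      D.eQ L r Z G c v h g := by
  obtain ⟨k, hk⟩ := Dat_double L r Z (X := D.PX (D.sl (smBig A))) (fun p => p.W.x)
    (fun f => f.1.2) (fun p => p.x) (D.avoidSub _ (D.U r)) (fun f _ => f.2)
    (fun p h y _ => h y) (fun p _ h y _ => h y) (fun p h h' y e => h' y (e.eq ▸ h y))
  exact ⟨k, fun G c v h g h' => hk G ⟨c, v⟩ h g h'⟩

lemma exists_k2 : ∃ k : (D.phiR L r Z).F ⋙ D.phi2 L r ⟶ D.phiQ L r Z,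
    ∀ (G : PSh (SmGen A) L) (c : D.SP') (v : c.W.obj ⟶ D.P.obj) (h : IsGen c.W.obj)
      (g : G.obj (op (toGen c.W h))), D.InU r v →
      ((k.app G).app (op c)).hom
        (D.eL L r ((D.phiR L r Z).F.obj G) ⟨c.W, v⟩ (D.eR L r Z G ⟨c.W, v⟩ h g)) =
      D.eQ L r Z G c v h g := by
  obtain ⟨k, hk⟩ := Dat_double L r Z (X := D.PX (D.sl (smBig A))) (fun p => p.x)
    (fun f => f.2) (fun p => p.x) (D.avoidSub _ (D.U r)) (fun f _ => f.2)
    (fun p h y e => e.eq ▸ h y) (fun p _ h y e => e.eq ▸ h y) (fun p h h' y _ => h' y (h y))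
  obtain ⟨s, hs⟩ := D.Dat_swap L r
  refine ⟨Functor.whiskerLeft _ s ≫ k, fun G c v h g h' => ?_⟩
  exact (congrArg ((k.app G).app (op c)).hom (hs _ c v _)).trans (hk G ⟨c, v⟩ h g h')

lemma exists_bq : ∃ k : (D.phiR L r Z).F ⋙ tN L D.uS N ⟶ D.phiQ L r Z,
    ∀ (G : PSh (SmGen A) L) (c : D.SP') (y : Fin N → Γ((big A).obj ((smBig A).obj c.W), ⊤))
      (h : IsGen c.W.obj) (g : G.obj (op (toGen c.W h))), D.InU r c.x →
      ((k.app G).app (op c)).hom
        (tpN (u := D.uS) ((D.phiR L r Z).F.obj G) c N y (D.eR L r Z G c h g)) =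
      D.eQ L r Z G c (D.pt r c.W.obj (D.crd r c.x + y)) h g := by
  obtain ⟨k, hk⟩ := Dat_double L r Z (X := OS D.uS (Fin N)) (fun p => p.W.x) (fun f => f.1.2)
    (fun p => D.Dat_shift r p.W.x p.x) (unitSub D.uS (Fin N))
    (fun f h => D.Dat_shift_comp r f.1.1.hom f.1.2 h f.2)
    (fun p h y _ => h y) (fun p _ h y _ => h y) fun p h ⟨_, hi⟩ y => D.Dat_shift_unit r h hi y
  refine ⟨Functor.whiskerLeft _ (tNIso L D.uS N).hom ≫ k, fun G c y h g h' => ?_⟩
  exact (congrArg ((k.app G).app (op c)).hom (tNIso_tpN (u := D.uS) _ c y _)).trans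
    (hk G ⟨c, y⟩ h g h')

/-- The data of the map `ee`. -/
def Dat_eeCone (F : PSh (Sm A) L) : SmCone .top (D.avoidSub (D.sl (smBig A)) (D.U r))
    ((D.gS L ⋙ pb L (El.proj (D.PX (D.sl (smBig A))))).obj F) ((D.gS L ⋙ D.phi2 L r).obj F) where
  φ p _ := D.eL L r ((D.gS L).obj F) ⟨p.W.W, p.x⟩
  nat f h g := smObj_map_I (a := .top) (b := D.avoidSub (smBig A) (D.U r)) ((D.gS L).obj F)
    (D.Dat_lam2.map f) h g
  zero p _ g h := smI_of_b (a := .top) (b := D.avoidSub (smBig A) (D.U r))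
    (G := (D.gS L).obj F) (p := ⟨p.W.W, p.x⟩) h g

lemma exists_ee : ∃ k : D.gS L ⋙ D.phi1 L r ⟶ D.gS L ⋙ D.phi2 L r,
    ∀ (F : PSh (Sm A) L) (c : D.SP') (v : c.W.obj ⟶ D.P.obj) (g : F.obj (op c.W)),
      ((k.app F).app (op c)).hom (D.eK L (D.sl (smBig A)) r ((D.gS L).obj F) c v g) =
      D.eL L r ((D.gS L).obj F) ⟨c.W, v⟩ g := by
  obtain ⟨k, hk⟩ := Dat_exists₀ (a := .top) (b := D.avoidSub (D.sl (smBig A)) (D.U r))
    (D.gS L ⋙ pb L (El.proj (D.PX (D.sl (smBig A))))) (D.gS L ⋙ D.phi2 L r) (D.Dat_eeCone L r)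
    fun τ p _ g => sm_map_I (a := .top) (b := D.avoidSub (smBig A) (D.U r)) ((D.gS L).map τ)
      ⟨p.W.W, p.x⟩ g
  exact ⟨k, fun F c v g => hk F ⟨c, v⟩ trivial g⟩

/-- The map `K ⊗ R ⟶ Qq`. -/
def k1 : (D.phiR L r Z).F ⋙ D.phi1 L r ⟶ D.phiQ L r Z := (D.exists_k1 L r Z).choose

/-- The map `g^* g_# R ⟶ Qq`. -/
def k2 : (D.phiR L r Z).F ⋙ D.phi2 L r ⟶ D.phiQ L r Z := (D.exists_k2 L r Z).choose

/-- The map `R ⊗ T^N ⟶ Qq`, `y ↦ u + y`. -/
def bq : (D.phiR L r Z).F ⋙ tN L D.uS N ⟶ D.phiQ L r Z := (D.exists_bq L r Z).choose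

/-- The identification of `phi1` and `phi2` on objects pulled back from the base. -/
def ee : D.gS L ⋙ D.phi1 L r ⟶ D.gS L ⋙ D.phi2 L r := (D.exists_ee L r).choose

/-- Maps out of `phiR G` are determined on generators. -/
lemma phiR_induction {G : PSh (SmGen A) L} {c : D.SP'}
    {P : ((D.phiR L r Z).F.obj G).obj (op c) → Prop} (m : ((D.phiR L r Z).F.obj G).obj (op c))
    (zero : P 0) (gen : ∀ h g, D.InU r c.x → ¬ D.Avoid Z c.x → P (D.eR L r Z G c h g))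
    (add : ∀ m m', P m → P m' → P (m + m')) : P m :=
  sm_induction (a := D.aR r) (b := D.bR Z) (G := (pb L D.lamR).obj G) m zero
    (fun x g ha hb => gen x.down g ha hb) add

/-- The diagonal identity. -/
def DiagP (G : Ch (SmGen A) L) (B : Ch (Sm A) L)
    (x : (QU L D.uS).obj ((mapC (D.gS L)).obj B) ⟶
      (QU L D.uS).obj ((mapC (D.phiR L r Z).F).obj G)) : Prop :=
  (D.presK L (D.sl (smBig A)) r).homMap x ≫ (QU L D.uS).map ((chT (D.k1 L r Z)).app G) =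
    (QU L D.uS).map ((chT (D.ee L r)).app B) ≫ (D.pres2 L r).homMap x ≫
      (QU L D.uS).map ((chT (D.k2 L r Z)).app G)

/-- Restriction from the big slice to the smooth slice. -/
def nuL : Lax L D.uB D.uS := Lax.ofPb L D.nu D.siteS D.siteB

variable (A) in
/-- Restriction from the big site to the smooth site of the generic point. -/
def genL : Lax L (big A) (genSch A) := Lax.ofPb L (smGen A) (isSite_smGen A) (isSite_big A)

/-- The labels of `phiB`. -/
abbrev Dat_lamB : El (SP.pt D.BP) ⥤ Big A := El.proj (SP.pt D.BP) ⋙ El.proj (D.PX (𝟭 (Big A)))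

/-- The first subpresheaf of `phiB`. -/
abbrev Dat_aB : (SP.pt D.BP).Sub := D.ind (D.genSub.inf (D.inUSub (𝟭 _) r))

/-- The second subpresheaf of `phiB`. -/
abbrev Dat_bB : (SP.pt D.BP).Sub := D.ind (D.avoidSub (𝟭 _) Z)

lemma Dat_fwd : ∃ k : (D.phiB L r Z).F ⋙ pb L D.nu ⟶ pb L (smGen A) ⋙ (D.phiR L r Z).F,
    ∀ (G : PSh (Big A) L) (c : D.SP') (h : IsGen c.W.obj) (g : G.obj (op c.W.obj)),
      ((k.app G).app (op c)).hom (D.eB L _ _ G (D.nu.obj c) g) =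
      D.eR L r Z ((pb L (smGen A)).obj G) c h g := by
  obtain ⟨k, hk⟩ := Dat_exists (a := D.Dat_aB r) (b := D.Dat_bB Z) D.nu (pb L D.Dat_lamB)
    (pb L (smGen A) ⋙ (D.phiR L r Z).F)
    (fun G c _ h => D.eR L r Z ((pb L (smGen A)).obj G) c h.1)
    (fun G c' c f _ h g => smObj_map_I' (a := D.aR r) (b := D.bR Z)
      ((pb L D.lamR).obj ((pb L (smGen A)).obj G)) f (x := ⟨h.1⟩) h.2 g)
    (fun G c _ h g h' => smI_of_b (a := D.aR r) (b := D.bR Z)
      (G := (pb L D.lamR).obj ((pb L (smGen A)).obj G)) (p := ⟨c, ⟨h.1⟩⟩) h' g)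
    (fun τ c _ h g => sm_map_I (a := D.aR r) (b := D.bR Z)
      ((pb L D.lamR).map ((pb L (smGen A)).map τ)) ⟨c, ⟨h.1⟩⟩ g)
  refine ⟨k, fun G c h g => ?_⟩
  by_cases hc : D.InU r c.x
  · exact hk G c () ⟨h, hc⟩ g
  · have e1 := smI_of_not_a (a := D.Dat_aB r) (b := D.Dat_bB Z) (G := (pb L D.Dat_lamB).obj G)
      (p := ⟨D.nu.obj c, ()⟩) (fun h' => hc h'.2) g
    have e2 := smI_of_not_a (a := D.aR r) (b := D.bR Z)
      (G := (pb L D.lamR).obj ((pb L (smGen A)).obj G)) (p := ⟨c, ⟨h⟩⟩) hc g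
    exact (congrArg ((k.app G).app (op c)).hom e1).trans ((map_zero _).trans e2.symm)

/-- The data of the inverse of the comparison map. -/
def Dat_invCone (G : PSh (Big A) L) : SmCone (D.aR r) (D.bR Z)
    ((pb L D.lamR).obj ((pb L (smGen A)).obj G)) (((D.phiB L r Z).F ⋙ pb L D.nu).obj G) where
  φ p _ := D.eB L _ _ G (D.nu.obj p.W)
  nat {_ q} f h g := smObj_map_I' (a := D.Dat_aB r) (b := D.Dat_bB Z) ((pb L D.Dat_lamB).obj G)
    (D.nu.map f.1) (x := ()) ⟨q.x.down, h⟩ g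
  zero p _ g h := smI_of_b (a := D.Dat_aB r) (b := D.Dat_bB Z) (G := (pb L D.Dat_lamB).obj G)
    (p := ⟨D.nu.obj p.W, ()⟩) h g

lemma exists_cmp : ∃ k : ((D.phiB L r Z).comp (D.nuL L)).Hom ((genL A L).comp (D.phiR L r Z)),
    IsIso k.τ ∧ ∀ (G : PSh (Big A) L) (c : D.SP') (h : IsGen c.W.obj) (g : G.obj (op c.W.obj)),
      ((k.τ.app G).app (op c)).hom (D.eB L _ _ G (D.nu.obj c) g) =
      D.eR L r Z ((pb L (smGen A)).obj G) c h g := by
  obtain ⟨k, hk⟩ := D.Dat_fwd L r Z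
  have hiso : ∀ G, IsIso (k.app G) := fun G => by
    refine ⟨(D.Dat_invCone L r Z G).desc, ?_, ?_⟩
    · refine Dat_hom_ext (a := D.Dat_aB r) (b := D.Dat_bB Z) D.nu fun c x g h _ => ?_
      exact (congrArg ((D.Dat_invCone L r Z G).desc.app (op c)).hom (hk G c h.1 g)).trans
        ((D.Dat_invCone L r Z G).desc_I ⟨c, ⟨h.1⟩⟩ h.2 g)
    · refine sm_hom_ext (a := D.aR r) (b := D.bR Z) fun p g h _ => ?_
      exact (congrArg ((k.app G).app (op p.W)).hom ((D.Dat_invCone L r Z G).desc_I p h g)).trans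
        (hk G p.W p.x.down g)
  refine ⟨⟨k, fun G => RS.hom_ext _ fun c t m => ?_⟩, NatIso.isIso_of_isIso_app k, hk⟩
  refine sm_induction (a := D.Dat_aB r) (b := D.Dat_bB Z) (G := (pb L D.Dat_lamB).obj G)
    (W := D.nu.obj c) (P := fun m =>
      (((((D.phiB L r Z).comp (D.nuL L)).θ.app G ≫ k.app _).app (op c)).hom ∘ₗ
        RS.unit.tp (u := D.uS) _ c t) m =
      ((((RS.unit.T L D.uS).map (k.app G) ≫ ((genL A L).comp (D.phiR L r Z)).θ.app G).app
        (op c)).hom ∘ₗ RS.unit.tp (u := D.uS) _ c t) m) m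
    ((map_zero _).trans (map_zero _).symm) (fun x g h _ => ?_)
    fun m m' h h' => by rw [map_add, map_add, h, h']
  have e1 := smθ_I (L := L) (u := D.uB) (u' := big A) RS.unit D.Dat_lamB (𝟙 _) (D.Dat_aB r)
    (D.Dat_bB Z) G ⟨D.nu.obj c, ()⟩ t g
  have e2 := hk ((RS.unit.T L (big A)).obj G) c h.1
    (RS.unit.tp (u := big A) G c.W.obj (Scheme.Hom.appTop (𝟙 _) t) g)
  have e3 := RS.unit.T_map_tp (u := D.uS) (k.app G) c t (D.eB L _ _ G (D.nu.obj c) g)
  have e4 := smθ_I (L := L) (u := D.uS) (u' := genSch A) RS.unit D.lamR (𝟙 _) (D.aR r) (D.bR Z)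
    ((pb L (smGen A)).obj G) ⟨c, ⟨h.1⟩⟩ t g
  have e5 := sm_map_I (a := D.aR r) (b := D.bR Z)
    ((pb L D.lamR).map ((genL A L).θ.app G)) ⟨c, ⟨h.1⟩⟩
    (RS.unit.tp (u := big A) G c.W.obj (Scheme.Hom.appTop (𝟙 _) t) g)
  rw [hk G c h.1 g] at e3
  refine ((congrArg ((k.app _).app (op c)).hom e1).trans e2).trans (Eq.symm ?_)
  refine (congrArg ((((genL A L).comp (D.phiR L r Z)).θ.app G).app (op c)).hom e3).trans ?_
  exact (congrArg (((D.phiR L r Z).F.map ((genL A L).θ.app G)).app (op c)).hom e4).trans e5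

/-- The restriction of `phiB` to the smooth slice only depends on the restriction to `SmGen A`. -/
def cmp : ((D.phiB L r Z).comp (D.nuL L)).Hom ((genL A L).comp (D.phiR L r Z)) :=
  (D.exists_cmp L r Z).choose

end PD

end Pool.Agent.KEW
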