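import Pool.Agent.P.MP_6277db_ag.KEW.L9.Dat
import Pool.Agent.P.MP_6277db_ag.KEW.L2b.Sigma
import Pool.Agent.P.MP_6277db_ag.KEW.L2b.Glue

/-!
KEW, layer L9: the diagonal identity.
-/

set_option backward.isDefEq.respectTransparency false
set_option linter.unusedSectionVars false

noncomputable section

open CategoryTheory Limits AlgebraicGeometry Opposite

namespace Pool.Agent.KEW

variable {A : Type} [CommRing A] [IsNoetherianRing A] [IsLocalRing A]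

namespace PD

variable {N : ℕ} (D : PD A N) (L : Type 1) [CommRing L] (r : Fin (N + 1)) (Z : Set D.S)

instance : IsSeparated D.P.obj.obj.hom := D.P.obj.property.2.2

/-- Second maps to `P` on the smooth slice. -/
abbrev XD : SP D.SP' := D.PX (D.sl (smBig A))

/-- The family of the equalizers of the two maps to `P`. -/
def dD : ZDat (D.sl (smBig A)) D.XD where
  T := pullback D.P.obj.obj.hom D.P.obj.obj.hom
  Z₀ := D.S
  i := pullback.diagonal D.P.obj.obj.hom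
  closed := inferInstance
  t p := pullback.lift ((big A).map p.W.x) ((big A).map p.x) ((Big.w _).trans (Big.w _).symm)
  nat {p q} f := by
    apply pullback.hom_ext
    · rw [Category.assoc, pullback.lift_fst, pullback.lift_fst, ← Functor.map_comp]
      exact congrArg (big A).map f.1.2
    · rw [Category.assoc, pullback.lift_snd, pullback.lift_snd, ← Functor.map_comp]
      exact congrArg (big A).map f.2

lemma dD_ι_eq (p : El D.XD) : D.dD.ι.app p ≫ p.W.x = D.dD.ι.app p ≫ p.x := by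
  have h := (D.dD.isPullback p).w
  have h1 : D.dD.fst p ≫ (big A).map p.W.x = D.dD.snd p := by
    have h2 := h =≫ pullback.fst _ _
    rw [Category.assoc, Category.assoc] at h2
    exact (congrArg _ (pullback.lift_fst _ _ _).symm).trans (h2.trans
      ((congrArg _ (pullback.diagonal_fst _)).trans (Category.comp_id _)))
  have h3 : D.dD.fst p ≫ (big A).map p.x = D.dD.snd p := by
    have h2 := h =≫ pullback.snd _ _
    rw [Category.assoc, Category.assoc] at h2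
    exact (congrArg _ (pullback.lift_snd _ _ _).symm).trans (h2.trans
      ((congrArg _ (pullback.diagonal_snd _)).trans (Category.comp_id _)))
  exact Big.hom_ext (h1.trans h3.symm)

lemma mem_range_dD (p : El D.XD) (w : (big A).obj p.W.W.obj) :
    w ∈ Set.range (D.dD.fst p) ↔ EqAt ((big A).map p.W.x) ((big A).map p.x) w := by
  rw [ZDat.range_fst]
  exact eqAt_iff_diag D.P.obj.obj.hom _ w

/-- The equalizer as an object of the big slice. -/
def lamD : El D.XD ⥤ D.BP where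
  obj p := ⟨D.dD.Z.obj p, D.dD.ι.app p ≫ p.W.x⟩
  map {p q} f := ⟨D.dD.Z.map f, by
    change D.dD.Z.map f ≫ D.dD.ι.app q ≫ q.W.x = D.dD.ι.app p ≫ p.W.x
    rw [← Category.assoc, D.dD.ι.naturality, Category.assoc]
    exact congrArg (D.dD.ι.app p ≫ ·) f.1.2⟩
  map_id p := El.hom_ext (D.dD.Z.map_id p)
  map_comp f g := El.hom_ext (D.dD.Z.map_comp f g)

/-- The inclusions of the equalizers. -/
def piD : D.lamD ⋙ D.uB ⟶ El.proj D.XD ⋙ D.uS where
  app p := D.dD.fst p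
  naturality _ _ f := D.dD.map_fst f

/-- The second map misses the chart or the equalizer is empty. -/
def bD : D.XD.Sub := (D.avoidSub _ (D.U r)).sup D.dD.miss

/-- The functor `Φ^Δ`. -/
abbrev phiD : PSh D.BP L ⥤ PSh D.SP' L := pb L D.lamD ⋙ sm .top (D.bD r) L

lemma presD : PresW (NGen D.uB) (NGen D.uS) (mapC (D.phiD L r)) :=
  presW_sm D.lamD D.piD (D.dD.liftsNb D.siteS D.siteB D.lamD (Iso.refl _) fun _ _ h => Or.inr h.2)

/-- The generators of `phiD`. -/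
def eD (G : PSh D.BP L) (p : El D.XD) :
    G.obj (op (D.lamD.obj p)) →ₗ[L] ((D.phiD L r).obj G).obj (op p.W) :=
  smI .top (D.bD r) ((pb L D.lamD).obj G) p

/-- The equalizer maps to `(W, u)`. -/
def toU (p : El D.XD) : D.lamD.obj p ⟶ D.nu.obj p.W := ⟨D.dD.ι.app p, rfl⟩

/-- The equalizer maps to `(W, v)`. -/
def toV (p : El D.XD) : D.lamD.obj p ⟶ D.nu.obj ⟨p.W.W, p.x⟩ :=
  ⟨D.dD.ι.app p, (D.dD_ι_eq p).symm⟩

lemma Diag_app {C : Type 1} [Category.{0} C] {F F' F'' : PSh C L} {f : F ⟶ F'} {f' : F' ⟶ F''}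
    {W : Cᵒᵖ} {x : F.obj W} {y : F'.obj W} {z : F''.obj W} (h : (f.app W).hom x = y)
    (h' : (f'.app W).hom y = z) : ((f ≫ f').app W).hom x = z := (congrArg _ h).trans h'

lemma exists_i1 : ∃ i : pb L D.nu ⋙ D.phi1 L r ⟶ D.phiD L r,
    ∀ (G : PSh D.BP L) (p : El D.XD) (g : G.obj (op (D.nu.obj p.W))),
      ((i.app G).app (op p.W)).hom
        (D.eK L (D.sl (smBig A)) r ((pb L D.nu).obj G) p.W p.x g) =
      D.eD L r G p ((G.map (D.toU p).op).hom g) := by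
  refine ⟨smPush L (lam := El.proj D.XD ⋙ D.nu) (lam' := D.lamD) ⟨fun x => x, fun _ _ => rfl⟩
    ⟨fun p => D.toU p, fun p q f => El.hom_ext (D.dD.ι.naturality f)⟩ (fun _ _ h => h)
    (fun _ _ _ h => Or.inl h), fun G p g => ?_⟩
  exact smPush_I (lam := El.proj D.XD ⋙ D.nu) (lam' := D.lamD) _ _ _ _ G p trivial g

lemma exists_i2 : ∃ i : pb L D.nu ⋙ D.phi2 L r ⟶ D.phiD L r,
    ∀ (G : PSh D.BP L) (p : El D.XD) (g : G.obj (op (D.nu.obj ⟨p.W.W, p.x⟩))),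
      ((i.app G).app (op p.W)).hom (D.eL L r ((pb L D.nu).obj G) ⟨p.W.W, p.x⟩ g) =
      D.eD L r G p ((G.map (D.toV p).op).hom g) := by
  obtain ⟨e, he⟩ := exists_smPull (L := L) (El.proj (D.PX (smBig A))) .top
    (D.avoidSub (smBig A) (D.U r))
  refine ⟨Functor.whiskerLeft (pb L D.nu) e.hom ≫
    smPush L (lam := SP.pullEl _ (El.proj (D.PX (smBig A))) ⋙ D.nu) (lam' := D.lamD)
    ⟨fun x => x, fun _ _ => rfl⟩ ⟨fun p => D.toV ⟨p.W, p.x⟩, fun p q f =>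
      El.hom_ext (D.dD.ι.naturality (X := ⟨p.W, p.x⟩) (Y := ⟨q.W, q.x⟩) f)⟩ (fun _ _ h => h)
    (fun _ _ _ h => Or.inl h), fun G p g => ?_⟩
  refine Diag_app L (he ((pb L D.nu).obj G) p.W p.x g) ?_
  exact smPush_I (lam := SP.pullEl _ (El.proj (D.PX (smBig A))) ⋙ D.nu) (lam' := D.lamD)
    _ _ _ _ G ⟨p.W, p.x⟩ trivial g

/-- The points where the two maps agree are sent to `T`. -/
def Diag_eq (T : Set D.S) : D.XD.Sub where
  mem {c} v := ∀ w, EqAt ((big A).map c.x) ((big A).map v) w → (big A).map c.x w ∈ T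
  res {c' c} f v h w hw := by
    have e : c'.x = f.1.hom ≫ c.x := f.2.symm
    rw [e] at hw ⊢
    rw [Functor.map_comp]
    exact h _ ((D.eqAt_comp f.1.hom c.x v w).1 hw)

/-- The generic part of `Diag_eq (U r)`. -/
def Diag_a : D.XD.Sub :=
  SP.Sub.inf ⟨fun {c} _ => IsGen c.W.obj, fun f _ h => h.comp f.1.hom⟩ (D.Diag_eq (D.U r))

lemma Diag_eq_iff (T : Set D.S) (p : El D.XD) :
    (D.Diag_eq T).mem p.x ↔ ∀ z, (big A).map (D.lamD.obj p).x z ∈ T :=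
  ⟨fun h z => h _ ((D.mem_range_dD p _).1 ⟨z, rfl⟩), fun h w hw => by
    obtain ⟨z, rfl⟩ := (D.mem_range_dD p w).2 hw
    exact h z⟩

lemma Diag_miss (T : Set D.S) {W : D.SP'} {x : D.XD.obj W} (h : D.dD.miss.mem x) :
    (D.Diag_eq T).mem x :=
  fun w hw => (h w ((eqAt_iff_diag D.P.obj.obj.hom _ w).2 hw)).elim

/-- Forgetting that the source is generic. -/
def Diag_t1 : D.XQ.Hom D.XD := ⟨fun v => v.1, fun _ _ => rfl⟩

/-- Adding the trivial label. -/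
def Diag_t3 : D.XD.Hom (SP.sigma D.lamD (SP.pt D.BP)) := ⟨fun x => ⟨x, ()⟩, fun _ _ => rfl⟩

/-- The first step. -/
def Diag_r1 : pb L (D.lamQ ⋙ smGen A) ⋙ sm (D.eqSub (D.U r)) (D.eqSub Zᶜ) L ⟶
    pb L (El.proj D.XD ⋙ D.sl (smBig A)) ⋙ sm (D.Diag_a r) (D.Diag_eq Zᶜ) L :=
  smPush L D.Diag_t1 (𝟙 (D.lamQ ⋙ smGen A)) (fun _ x h => ⟨x.2, h⟩) fun _ _ _ h => h

lemma Diag_w1 (E : Ch (Big A) L) : WG (NisGen D.uS) ((chT (D.Diag_r1 L r Z)).app E) :=
  have : IsIso (X := D.Diag_t1.el ⋙ El.proj D.XD ⋙ D.sl (smBig A)) (𝟙 (D.lamQ ⋙ smGen A)) :=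
    IsIso.id _
  wg_smPush (lam' := El.proj D.XD ⋙ D.sl (smBig A)) D.Diag_t1 (𝟙 (D.lamQ ⋙ smGen A))
    (a := D.eqSub (D.U r)) (b := D.eqSub Zᶜ) (a' := D.Diag_a r) (b' := D.Diag_eq Zᶜ) _ _
    (fun _ _ w _ h => Locally.of_forall w ((D.eqSub Zᶜ).res _ h))
    (fun _ _ _ w _ _ h => Locally.of_forall w (Or.inl (congrArg _ (Subtype.ext h))))
    (fun W x w h => Locally.of_forall w (Or.inr ⟨⟨D.XD.res (𝟙 W) x, h.1⟩,
      ((D.Diag_a r).res (𝟙 W) h).2, rfl⟩)) E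

/-- The third step. -/
def Diag_r3 : pb L D.dD.Z ⋙ sm (D.Diag_a r) (D.Diag_eq Zᶜ) L ⟶
    pb L (SP.sigEl D.lamD (SP.pt D.BP) ⋙ El.proj (SP.pt D.BP) ⋙ El.proj (D.PX (𝟭 (Big A)))) ⋙
      sm (SP.sigAnd D.lamD .top (D.ind (D.genSub.inf (D.inUSub (𝟭 _) r))))
        (SP.sigOr D.lamD (D.bD r) (D.ind (D.avoidSub (𝟭 _) Z))) L :=
  smPush L D.Diag_t3 (𝟙 D.dD.Z)
    (fun W x h => ⟨trivial, h.1.comp (D.dD.ι.app ⟨W, x⟩), (D.Diag_eq_iff _ ⟨W, x⟩).1 h.2⟩)
    fun W x _ h => Or.inr ((D.Diag_eq_iff _ ⟨W, x⟩).1 h)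

lemma Diag_w3 (E : Ch (Big A) L) : WG (NisGen D.uS) ((chT (D.Diag_r3 L r Z)).app E) := by
  have : IsIso (X := D.Diag_t3.el ⋙ SP.sigEl D.lamD (SP.pt D.BP) ⋙ El.proj (SP.pt D.BP) ⋙
      El.proj (D.PX (𝟭 (Big A)))) (𝟙 D.dD.Z) := IsIso.id _
  refine wg_smPush (lam' := SP.sigEl D.lamD (SP.pt D.BP) ⋙ El.proj (SP.pt D.BP) ⋙
      El.proj (D.PX (𝟭 (Big A)))) D.Diag_t3 (𝟙 D.dD.Z) (a := D.Diag_a r) (b := D.Diag_eq Zᶜ)
    (a' := SP.sigAnd D.lamD .top (D.ind (D.genSub.inf (D.inUSub (𝟭 _) r))))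
    (b' := SP.sigOr D.lamD (D.bD r) (D.ind (D.avoidSub (𝟭 _) Z))) _ _
    (fun W x w ha h => Locally.of_forall w ((D.Diag_eq Zᶜ).res _ ?_))
    (fun _ _ _ w _ _ h => Locally.of_forall w (Or.inl (congrArg _ (congrArg Sigma.fst h))))
    (fun W x w h => ?_) E
  · rcases h with (h | h) | h
    · exact fun w hw => (h w (hw.eq ▸ ha.2 w hw)).elim
    · exact D.Diag_miss _ h
    · exact (D.Diag_eq_iff _ ⟨W, x⟩).2 h
  · by_cases hw : w ∈ Set.range (D.dD.fst ⟨W, x.1⟩)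
    · obtain ⟨z, rfl⟩ := hw
      refine (D.siteS.locally_open (O := W.W.obj.obj.hom ⁻¹' {IsLocalRing.closedPoint A}ᶜ)
        ((IsLocalRing.isClosed_singleton_closedPoint A).isOpen_compl.preimage
          W.W.obj.obj.hom.continuous) fun h1 => h.2.1 ⟨z, h1⟩).mono fun V f hf =>
        Or.inr ⟨D.XD.res f x.1, ⟨?_, (D.Diag_eq _).res f ((D.Diag_eq_iff _ ⟨W, x.1⟩).2 h.2.2)⟩, rfl⟩
      rintro ⟨y, hy⟩
      refine hf ⟨y, rfl⟩ ?_
      rw [← Big.w f.1.hom] at hy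
      exact hy
    · refine (D.siteS.locally_open
        (D.dD.fst ⟨W, x.1⟩).isClosedEmbedding.isClosed_range.isOpen_compl hw).mono
        fun V f hf => Or.inl (Or.inl (Or.inr fun y hy => hf ⟨y, rfl⟩ ?_))
      have hy' : D.dD.t ⟨V, D.XD.res f x.1⟩ y ∈ Set.range D.dD.i := hy
      rw [← D.dD.nat (El.along f x.1)] at hy'
      rw [ZDat.range_fst]
      exact hy'

lemma Diag_chT {C C' : Type 1} [Category.{0} C] [Category.{0} C'] {F F' F'' : PSh C' L ⥤ PSh C L}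
    [F.Additive] [F'.Additive] [F''.Additive] (τ : F ⟶ F') (τ' : F' ⟶ F'') (E : Ch C' L) :
    (chT (τ ≫ τ')).app E = (chT τ).app E ≫ (chT τ').app E := rfl

/-- Hint: `ρ` is a composite. (1) `smPush` from `XQ` to `XD` onto the pair
`a' = (IsGen W ∧ eqSub (U r))`, `b' = eqSub Zᶜ` (a bijection of pairs, `wg_smPush`); (2) `dD.toZ a' b'`
(`ZDat.glue`, `miss ≤ b'`); (3) enlarge to `a'' = (IsGen ∧ InU r)` of the equalizer,
`b'' = bD ∨ Avoid Z` on the equalizer: locally bijective, since near a point over the generic point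
`W` becomes generic, and a point over the closed point is not on the (closed) equalizer;
(4) `smSigma` (steps (3) and (4) can be done by one `smPush` to `SP.sigma lamD (SP.pt BP)`). -/
lemma exists_rho : ∃ ρ : pb L (smGen A) ⋙ D.phiQ L r Z ⟶ (D.phiB L r Z).F ⋙ D.phiD L r,
    (∀ (G : PSh (Big A) L) (p : El D.XD) (h : IsGen p.W.W.obj) (g : G.obj (op p.W.W.obj)),
      (D.eqSub (D.U r)).mem (W := p.W) ⟨p.x, h⟩ →
      ((ρ.app G).app (op p.W)).hom (D.eQ L r Z ((pb L (smGen A)).obj G) p.W p.x h g) =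
      D.eD L r ((D.phiB L r Z).F.obj G) p
        (D.eB L _ _ G (D.lamD.obj p) ((G.map (D.dD.ι.app p).op).hom g))) ∧
    ∀ E : Ch (Big A) L, SmGenerated A L E → WG (NGen D.uS) ((chT ρ).app E) := by
  refine ⟨D.Diag_r1 L r Z ≫ D.dD.toZ L _ _ ≫ D.Diag_r3 L r Z ≫ Functor.whiskerLeft
    (pb L (El.proj (SP.pt D.BP) ⋙ El.proj (D.PX (𝟭 (Big A)))))
    (smSigma L D.lamD .top (D.bD r) (D.ind _) (D.ind _)).inv, fun G p h g hp => ?_, fun E hE => ?_⟩
  · have h1 := smPush_I (lam' := El.proj D.XD ⋙ D.sl (smBig A)) D.Diag_t1 (𝟙 (D.lamQ ⋙ smGen A))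
      (a := D.eqSub (D.U r)) (b := D.eqSub Zᶜ) (a' := D.Diag_a r) (b' := D.Diag_eq Zᶜ)
      (fun _ x h => ⟨x.2, h⟩) (fun _ _ _ h => h) G ⟨p.W, ⟨p.x, h⟩⟩ hp g
    have h2 := D.dD.toZ_I (L := L) (D.Diag_a r) (D.Diag_eq Zᶜ) G p g
    have h3 := smPush_I (lam' := SP.sigEl D.lamD (SP.pt D.BP) ⋙ El.proj (SP.pt D.BP) ⋙
      El.proj (D.PX (𝟭 (Big A)))) D.Diag_t3 (𝟙 D.dD.Z) (a := D.Diag_a r) (b := D.Diag_eq Zᶜ)
      (a' := SP.sigAnd D.lamD .top (D.ind (D.genSub.inf (D.inUSub (𝟭 _) r))))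
      (b' := SP.sigOr D.lamD (D.bD r) (D.ind (D.avoidSub (𝟭 _) Z)))
      (fun W x h => ⟨trivial, h.1.comp (D.dD.ι.app ⟨W, x⟩), (D.Diag_eq_iff _ ⟨W, x⟩).1 h.2⟩)
      (fun W x _ h => Or.inr ((D.Diag_eq_iff _ ⟨W, x⟩).1 h)) G p ⟨h, hp⟩
      ((G.map (D.dD.ι.app p).op).hom g)
    have h4 := smSigma_inv_I (L := L) D.lamD .top (D.bD r)
      (D.ind (D.genSub.inf (D.inUSub (𝟭 _) r))) (D.ind (D.avoidSub (𝟭 _) Z))
      ((pb L (El.proj (SP.pt D.BP) ⋙ El.proj (D.PX (𝟭 (Big A))))).obj G) p.W p.x ()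
      ((G.map (D.dD.ι.app p).op).hom g)
    exact Diag_app L (h1.trans (congrArg _ (Site_id G g))) (Diag_app L h2
      (Diag_app L (h3.trans (congrArg _ (Site_id G _))) h4))
  · rw [Diag_chT, Diag_chT, Diag_chT]
    refine (D.Diag_w1 L r Z E).of_nis.comp ((D.dD.glue D.siteS
      (fun _ _ h => D.Diag_miss _ h.2) hE).comp ((D.Diag_w3 L r Z E).of_nis.comp ?_))
    exact WG.of_isIso ((NatIso.mapHomologicalComplex (smSigma L D.lamD .top (D.bD r) (D.ind _)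
      (D.ind _)) _).inv.app ((mapC (pb L (El.proj (SP.pt D.BP) ⋙
        El.proj (D.PX (𝟭 (Big A)))))).obj E))

lemma Diag_eB (G : PSh (Big A) L) {c c' : D.BP} (f : c' ⟶ c) (g : G.obj (op c.W))
    (h : IsGen c.W ∧ D.InU r c.x) :
    (((D.phiB L r Z).F.obj G).map f.op).hom (D.eB L _ _ G c g) =
      D.eB L _ _ G c' ((G.map f.1.op).hom g) :=
  smObj_map_I (a := D.ind (D.genSub.inf (D.inUSub (𝟭 _) r))) (b := D.ind (D.avoidSub (𝟭 _) Z))
    ((pb L (El.proj (SP.pt D.BP) ⋙ El.proj (D.PX (𝟭 (Big A))))).obj G)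
    (p := ⟨c', ()⟩) (q := ⟨c, ()⟩) ⟨f, rfl⟩ h g

lemma Diag_a0 (G : PSh (Big A) L) : (D.exists_i1 L r).choose.app ((D.gB L).obj G) =
    (D.ee L r).app ((pb L (smBig A)).obj G) ≫ (D.exists_i2 L r).choose.app ((D.gB L).obj G) :=
  sm_hom_ext (X := D.XD) fun p g _ _ => by
    have b1 := (D.exists_i1 L r).choose_spec ((D.gB L).obj G) p g
    have b2 := (D.exists_ee L r).choose_spec ((pb L (smBig A)).obj G) p.W p.x g
    have b3 := (D.exists_i2 L r).choose_spec ((D.gB L).obj G) p g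
    exact b1.trans (Diag_app L b2 b3).symm

lemma Diag_a1 (G : PSh (Big A) L) : (D.phi1 L r).map ((D.cmp L r Z).τ.app G) ≫
    (D.k1 L r Z).app ((pb L (smGen A)).obj G) ≫ (D.exists_rho L r Z).choose.app G =
    (D.exists_i1 L r).choose.app ((D.phiB L r Z).F.obj G) :=
  sm_sm_hom_ext (El.proj D.XD ⋙ D.nu) fun W v _ g _ _ h _ => by
    have b1 := sm_map_I (a := .top) (b := D.avoidSub _ (D.U r))
      ((pb L (El.proj D.XD)).map ((D.cmp L r Z).τ.app G)) ⟨W, v⟩ (D.eB L _ _ G (D.nu.obj W) g)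
    have b2 := (D.exists_cmp L r Z).choose_spec.2 G W h.1 g
    have b3 := (D.exists_k1 L r Z).choose_spec ((pb L (smGen A)).obj G) W v h.1 g h.2
    have b4 := (D.exists_rho L r Z).choose_spec.1 G ⟨W, v⟩ h.1 g fun w _ => h.2 w
    have b5 := (D.exists_i1 L r).choose_spec ((D.phiB L r Z).F.obj G) ⟨W, v⟩
      (D.eB L _ _ G (D.nu.obj W) g)
    exact (Diag_app L (b1.trans (congrArg _ b2)) (Diag_app L b3 b4)).trans
      (b5.trans (congrArg _ (D.Diag_eB L r Z G _ g h))).symm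

lemma Diag_ext (G : PSh (Big A) L) {M : PSh D.SP' L}
    {f f' : (D.phi2 L r).obj ((pb L D.nu).obj ((D.phiB L r Z).F.obj G)) ⟶ M}
    (h : ∀ (W : D.SP') (v : W.W.obj ⟶ D.P.obj) (g : G.obj (op W.W.obj)),
      IsGen W.W.obj ∧ D.InU r v →
      (f.app (op W)).hom (D.eL L r _ ⟨W.W, v⟩ (D.eB L _ _ G (D.nu.obj ⟨W.W, v⟩) g)) =
      (f'.app (op W)).hom (D.eL L r _ ⟨W.W, v⟩ (D.eB L _ _ G (D.nu.obj ⟨W.W, v⟩) g))) : f = f' :=
  pb_sm_hom_ext (El.proj (D.PX (smBig A))) fun W v m _ _ =>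
    LinearMap.congr_fun (sm_lin_ext (a := D.ind (D.genSub.inf (D.inUSub (𝟭 _) r)))
      (b := D.ind (D.avoidSub (𝟭 _) Z)) (W := D.nu.obj ⟨W.W, v⟩)
      (G := (pb L (El.proj (SP.pt D.BP) ⋙ El.proj (D.PX (𝟭 (Big A))))).obj G)
      (f := (f.app (op W)).hom ∘ₗ
        D.eL L r ((pb L D.nu).obj ((D.phiB L r Z).F.obj G)) ⟨W.W, v⟩)
      (f' := (f'.app (op W)).hom ∘ₗ
        D.eL L r ((pb L D.nu).obj ((D.phiB L r Z).F.obj G)) ⟨W.W, v⟩)
      fun _ g ha _ => h W v g ha) m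

lemma Diag_a2 (G : PSh (Big A) L) : (D.phi2 L r).map ((D.cmp L r Z).τ.app G) ≫
    (D.k2 L r Z).app ((pb L (smGen A)).obj G) ≫ (D.exists_rho L r Z).choose.app G =
    (D.exists_i2 L r).choose.app ((D.phiB L r Z).F.obj G) :=
  D.Diag_ext L r Z G fun W v g h => by
    have b1 := sm_map_I (a := .top) (b := D.avoidSub _ (D.U r))
      ((D.cmp L r Z).τ.app G) ⟨W.W, v⟩ (D.eB L _ _ G (D.nu.obj ⟨W.W, v⟩) g)
    have b2 := (D.exists_cmp L r Z).choose_spec.2 G ⟨W.W, v⟩ h.1 g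
    have b3 := (D.exists_k2 L r Z).choose_spec ((pb L (smGen A)).obj G) W v h.1 g h.2
    have b4 := (D.exists_rho L r Z).choose_spec.1 G ⟨W, v⟩ h.1 g fun w hw => hw.eq ▸ h.2 w
    have b5 := (D.exists_i2 L r).choose_spec ((D.phiB L r Z).F.obj G) ⟨W, v⟩
      (D.eB L _ _ G (D.nu.obj ⟨W.W, v⟩) g)
    have b6 := b1.trans (congrArg _ b2)
    have b7 := b5.trans (congrArg _ (D.Diag_eB L r Z G (D.toV ⟨W, v⟩) g h))
    refine Eq.trans ?_ b7.symm
    refine Diag_app L b6 ?_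
    exact Diag_app L b3 b4

/-- Hint: on generators `i₁ (gB B₀) = ee ≫ i₂ (gB B₀)`, and on `phiB E`
`i₁ = phi1 (cmp) ≫ k1 ≫ ρ`, `i₂ = phi2 (cmp) ≫ k2 ≫ ρ`. Use `homMap_naturality` for `i₁`, `i₂` (all
three functors preserve `W`: `presD`, `PresW.comp`), `homMap_comp`, `homMap_map`, and cancel `Q ρ`. -/
theorem diagP {E : Ch (Big A) L} (hE : SmGenerated A L E) (B : Ch (Big A) L)
    (x : (QU L D.uB).obj ((mapC (D.gB L)).obj B) ⟶
      (QU L D.uB).obj ((mapC (D.phiB L r Z).F).obj E)) :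
    D.DiagP L r Z ((mapC (pb L (smGen A))).obj E) ((mapC (pb L (smBig A))).obj B)
      ((D.nuL L).pres.homMap x ≫ (QU L D.uS).map ((chT (D.cmp L r Z).τ).app E)) := by
  have a0 := D.Diag_a0 L r
  have a1 := D.Diag_a1 L r Z
  have a2 := D.Diag_a2 L r Z
  have h₄ := (D.exists_rho L r Z).choose_spec.2
  generalize (D.exists_i1 L r).choose = i₁ at a0 a1
  generalize (D.exists_i2 L r).choose = i₂ at a0 a2
  generalize (D.exists_rho L r Z).choose = ρ at a1 a2 h₄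
  have := (h₄ E hE).isIso
  have c1 := PresW.homMap_naturality ((D.nuL L).pres.comp (D.presK L (D.sl (smBig A)) r))
    (D.presD L r) (chT i₁) x
  have c2 := PresW.homMap_naturality ((D.nuL L).pres.comp (D.pres2 L r)) (D.presD L r) (chT i₂) x
  rw [← PresW.homMap_homMap] at c1 c2
  have d0 : (chT i₁).app ((mapC (D.gB L)).obj B) =
      (chT (D.ee L r)).app ((mapC (pb L (smBig A))).obj B) ≫
        (chT i₂).app ((mapC (D.gB L)).obj B) := HomologicalComplex.hom_ext _ _ fun n => a0 _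
  have d1 : (mapC (D.phi1 L r)).map ((chT (D.cmp L r Z).τ).app E) ≫
      (chT (D.k1 L r Z)).app ((mapC (pb L (smGen A))).obj E) ≫ (chT ρ).app E =
      (chT i₁).app ((mapC (D.phiB L r Z).F).obj E) := HomologicalComplex.hom_ext _ _ fun n => a1 _
  have d2 : (mapC (D.phi2 L r)).map ((chT (D.cmp L r Z).τ).app E) ≫
      (chT (D.k2 L r Z)).app ((mapC (pb L (smGen A))).obj E) ≫ (chT ρ).app E =
      (chT i₂).app ((mapC (D.phiB L r Z).F).obj E) := HomologicalComplex.hom_ext _ _ fun n => a2 _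
  rw [← d1, d0, Functor.map_comp, Functor.map_comp, Functor.map_comp, Category.assoc, ← c2, ← d2,
    Functor.map_comp, Functor.map_comp] at c1
  rw [DiagP, PresW.homMap_comp, PresW.homMap_comp, PresW.homMap_map, PresW.homMap_map,
    ← cancel_mono ((QM (NGen D.uS)).map ((chT ρ).app E))]
  simp only [Category.assoc]
  exact c1

end PD

end Pool.Agent.KEW
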