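import Pool.Agent.P.MP_6277db_ag.KEW.L9.Dat
import Pool.Agent.P.MP_6277db_ag.KEW.L9.Col

/-!
KEW, layer L9: the filtration by the affine cells.
-/

set_option backward.isDefEq.respectTransparency false
set_option linter.unusedSectionVars false

noncomputable section

open CategoryTheory Limits AlgebraicGeometry Opposite MonoidalCategory

namespace Pool.Agent.KEW

variable {A : Type} [CommRing A] [IsNoetherianRing A] [IsLocalRing A]

namespace PD

variable {N : ℕ} (D : PD A N) (L : Type 1) [CommRing L]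

/-- Enlarging the indicators. -/
def indLe {a b a' b' : (D.PX (𝟭 (Big A))).Sub} (ha : a.Le a') (hb : (a.inf b).Le b') :
    (D.indB L a b).Hom (D.indB L a' b') :=
  Lax.smLeHom L _ _ _ _ (fun c _ h => ha c.x h) fun c _ h => hb c.x h

lemma indLe_isW {a b a' b' : (D.PX (𝟭 (Big A))).Sub} (ha : a.Le a') (hb : (a.inf b).Le b')
    (hi : ∀ (c : D.BP) (w : D.uB.obj c), a.mem c.x → b'.mem c.x →
      Locally D.uB c w fun c' _ => b.mem c'.x)
    (hs : ∀ (c : D.BP) (w : D.uB.obj c), a'.mem c.x →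
      Locally D.uB c w fun c' _ => a.mem c'.x ∨ b'.mem c'.x) (E : Spt L (big A)) :
    ((D.indLe L ha hb).spt E).IsW := fun n =>
  WG.trans (fun _ h => Loc.gen _ (Or.inl h))
    (wg_smLe (u := D.uB) (a := D.ind a) (b := D.ind b) (a' := D.ind a') (b' := D.ind b')
      (fun c _ h => ha c.x h) (fun c _ h => hb c.x h) (fun c _ w h h' => hi c w h h')
      (fun c _ w h => hs c w h)
      ((mapC (pb L (El.proj (SP.pt D.BP) ⋙ El.proj (D.PX (𝟭 (Big A)))))).obj (E.X n)))

section ses

variable {a b c : (D.PX (𝟭 (Big A))).Sub} (E : Spt L (big A))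

lemma ind_ses : ∃ w : ∀ n,
    ((D.indLe L (a := a.inf b) (b := c) (a' := a) (b' := c) (fun _ _ h => h.1)
      fun _ _ h => h.2).spt E).f n ≫
    ((D.indLe L (a := a) (b := c) (a' := a) (b' := b.sup c) (fun _ _ h => h)
      fun _ _ h => Or.inr h.2).spt E).f n = 0, ∀ n, (ShortComplex.mk _ _ (w n)).ShortExact := by
  have gen : ∀ {S : ShortComplex (Ch D.BP L)}, S.ShortExact →
      ∃ w : S.f ≫ S.g = 0, (ShortComplex.mk _ _ w).ShortExact := fun {S} h => ⟨S.zero, h⟩
  have key := fun n => gen (smSC_shortExact (L := L) (a₁ := D.ind (a.inf b)) (b₁ := D.ind c)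
    (a₂ := D.ind a) (b₂ := D.ind c) (a₃ := D.ind a) (b₃ := D.ind (b.sup c))
    (fun _ _ h => h.1) (fun _ _ h => h.2) (fun _ _ h => h) (fun _ _ h => Or.inr h.2)
    (fun _ _ h => Or.inl h.2) (fun _ _ h => h.2) (fun _ _ h => Or.inl h)
    (fun _ _ h => h.2.imp (fun h' => ⟨h.1, h'⟩) id)
    ((mapC (pb L (El.proj (SP.pt D.BP) ⋙ El.proj (D.PX (𝟭 (Big A)))))).obj (E.X n)))
  exact ⟨fun n => (key n).1, fun n => (key n).2⟩

end ses

lemma loc_open {O : Set D.S} (hO : IsOpen O) (c : D.BP) (w : D.uB.obj c)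
    (h : (big A).map c.x w ∈ O) : Locally D.uB c w fun c' _ => ∀ y, (big A).map c'.x y ∈ O := by
  refine (D.siteB.locally_open (hO.preimage ((big A).map c.x).continuous) h).mono
    fun c' f hf y => ?_
  have e : c'.x = f.1 ≫ c.x := f.2.symm
  rw [e, Functor.map_comp]
  exact hf ⟨y, rfl⟩

lemma loc_gen (c : D.BP) (w : D.uB.obj c) (h : c.W.obj.hom w ≠ IsLocalRing.closedPoint A) :
    Locally D.uB c w fun c' _ => IsGen c'.W := by
  have hO : IsOpen (c.W.obj.hom ⁻¹' {IsLocalRing.closedPoint A}ᶜ) :=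
    (IsLocalRing.isClosed_singleton_closedPoint A).isOpen_compl.preimage c.W.obj.hom.continuous
  refine (D.siteB.locally_open hO h).mono fun c' f hf => ?_
  rintro ⟨y, hy⟩
  refine hf ⟨y, rfl⟩ ?_
  rw [← Big.w f.1] at hy
  exact hy

variable {j : ℕ} {E : Spt L (big A)} {T : Set D.S → Prop}

/-- The part of `X` outside the first `k` charts. -/
def cut (X : Set D.S) (k : ℕ) : Set D.S := {x | x ∈ X ∧ ∀ b : Fin (N + 1), b.1 < k → x ∉ D.U b}

lemma isClosed_cut {X : Set D.S} (hX : IsClosed X) (k : ℕ) : IsClosed (D.cut X k) := by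
  have : D.cut X k = X ∩ ⋂ b : Fin (N + 1), ⋂ _ : b.1 < k, (D.U b)ᶜ := by
    ext x
    simp [cut]
  rw [this]
  exact hX.inter (isClosed_iInter fun b => isClosed_iInter fun _ => (D.isOpen_U b).isClosed_compl)

lemma van_gen {X : Set D.S} (hX : IsClosed X)
    (h : ∀ (r : Fin (N + 1)) (Z : Set D.S), IsClosed Z → Z ⊆ X →
      Van ((D.phiB L r Z).spt E) j (𝟙_ (PSh D.BP L))) :
    Van ((D.indB L D.genSub (D.avoidSub _ X)).spt E) j (𝟙_ (PSh D.BP L)) := by
  have key : ∀ k, k ≤ N + 1 →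
      Van ((D.indB L D.genSub (D.avoidSub _ (D.cut X k))).spt E) j (𝟙_ (PSh D.BP L)) := by
    intro k hk
    induction hk using Nat.decreasingInduction with
    | self =>
      refine Van.of_loc (fun n => Loc.gen _ (Or.inl (NisGen.of_terms fun i =>
        sm_locZero fun c x g w _ hb => absurd (fun y hy => ?_) hb))) _ _
      obtain ⟨b, hb⟩ := D.cover ((big A).map c.x y)
      exact hy.2 b b.2 hb
    | of_succ k hk ih =>
      let r : Fin (N + 1) := ⟨k, hk⟩
      have sub : D.cut X (k + 1) ⊆ D.cut X k := fun x hx =>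
        ⟨hx.1, fun b hb => hx.2 b (Nat.lt_succ_of_lt hb)⟩
      obtain ⟨w, hw⟩ := D.ind_ses L (a := D.genSub) (b := D.avoidSub _ (D.cut X (k + 1)))
        (c := D.avoidSub _ (D.cut X k)) E
      refine Van.mid _ _ w hw ?_ ?_
      · refine (van_iff_of_isW (D.indLe_isW L
          (a := D.genSub.inf (D.inUSub (𝟭 _) r)) (b := D.avoidSub _ (D.cut X k))
          (a' := D.genSub.inf (D.avoidSub _ (D.cut X (k + 1)))) (b' := D.avoidSub _ (D.cut X k))
          (fun _ v hv => ⟨hv.1, fun y hy => hy.2 r (Nat.lt_succ_self k) (hv.2 y)⟩)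
          (fun _ _ hv => hv.2) (fun c y _ hb => Locally.of_forall y ?_) (fun c y hc => ?_) E) _ _).1
          (h r _ (D.isClosed_cut hX k) fun _ hx => hx.1)
        · exact hb
        · by_cases hy : (big A).map c.x y ∈ D.U r
          · exact (D.loc_open (D.isOpen_U r) c y hy).mono fun c' f hf =>
              Or.inl ⟨IsGen.comp f.1 hc.1, hf⟩
          · refine (D.loc_open (D.isClosed_cut hX k).isOpen_compl c y fun hx =>
              hc.2 y ⟨hx.1, fun b hb => ?_⟩).mono fun c' f hf => Or.inr hf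
            rcases Nat.lt_succ_iff_lt_or_eq.1 hb with hb | hb
            · exact hx.2 b hb
            · exact (Fin.ext hb : b = r) ▸ hy
      · refine (van_iff_of_isW (D.indLe_isW L
          (a := D.genSub) (b := D.avoidSub _ (D.cut X (k + 1))) (a' := D.genSub)
          (b' := (D.avoidSub _ (D.cut X (k + 1))).sup (D.avoidSub _ (D.cut X k))) (fun _ _ hv => hv)
          (fun _ _ hv => Or.inl hv.2) (fun c y _ hb => Locally.of_forall y ?_)
          (fun c y hc => Locally.of_forall y (Or.inl hc)) E) _ _).1 ih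
        exact hb.elim id fun h' y hy => h' y (sub hy)
  have e : D.cut X 0 = X := Set.ext fun x => ⟨fun hx => hx.1, fun hx => ⟨hx, by simp⟩⟩
  simpa only [e] using key 0 (Nat.zero_le _)

/-- The kernel of the restriction from `X` to its special fibre `Y` vanishes stably. -/
theorem post_bijective {X Y : Set D.S} (hX : IsClosed X)
    (hXY : Y = X ∩ D.P.obj.obj.hom ⁻¹' {IsLocalRing.closedPoint A})
    (h : ∀ (r : Fin (N + 1)) (Z : Set D.S), IsClosed Z → Z ⊆ X →
      Van ((D.phiB L r Z).spt E) j (𝟙_ (PSh D.BP L)))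
    (hle : (SP.Sub.inf .top (D.avoidSub (𝟭 _) X)).Le (D.avoidSub _ Y)) (q : ℤ) :
    Function.Bijective (SCol.post ((D.indLe L (a := .top) (a' := .top) (fun _ _ h => h) hle).spt E)
      q j (𝟙_ (PSh D.BP L))) := by
  have sub : Y ⊆ X := hXY ▸ Set.inter_subset_left
  have ov : ∀ (c : D.BP) (y : D.uB.obj c), D.P.obj.obj.hom ((big A).map c.x y) = c.W.obj.hom y :=
    fun c y => congrArg (fun k : D.uB.obj c ⟶ Spec (.of A) => k y) (Big.w c.x)
  obtain ⟨w, hw⟩ := D.ind_ses L (a := .top) (b := D.avoidSub _ Y) (c := D.avoidSub _ X) E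
  have h1 : Van ((D.indB L (SP.Sub.inf .top (D.avoidSub _ Y)) (D.avoidSub _ X)).spt E) j
      (𝟙_ (PSh D.BP L)) := by
    refine (van_iff_of_isW (D.indLe_isW L (a := D.genSub) (b := D.avoidSub _ X)
      (a' := SP.Sub.inf .top (D.avoidSub _ Y)) (b' := D.avoidSub _ X)
      (fun W v hv => ⟨trivial, fun y hy => hv ⟨y, ?_⟩⟩) (fun _ _ hv => hv.2)
      (fun c y _ hb => Locally.of_forall y hb) (fun c y hc => ?_) E) _ _).1 (D.van_gen L hX h)
    · rw [hXY] at hy
      exact (ov ⟨W, v⟩ y).symm.trans hy.2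
    · by_cases hy : c.W.obj.hom y = IsLocalRing.closedPoint A
      · refine (D.loc_open hX.isOpen_compl c y fun hx => hc.2 y ?_).mono fun c' f hf => Or.inr hf
        rw [hXY]
        exact ⟨hx, (ov c y).trans hy⟩
      · exact (D.loc_gen c y hy).mono fun c' f hf => Or.inl hf
  have h2 := SCol.post_bijective_of_ses _ _ w hw h1 q
  have h3 := SCol.post_bijective_of_isW (D.indLe_isW L (a := .top) (a' := .top)
    (b := (D.avoidSub (𝟭 _) Y).sup (D.avoidSub _ X)) (b' := D.avoidSub _ Y) (fun _ _ h => h)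
    (fun _ _ hv => hv.2.elim id fun h' y hy => h' y (sub hy))
    (fun c y _ hb => Locally.of_forall y (Or.inl hb))
    (fun c y hc => Locally.of_forall y (Or.inl hc)) E) q j (𝟙_ (PSh D.BP L))
  have h4 := h3.comp h2
  rw [← SCol.post_comp] at h4
  rwa [SCol.post_congr (g := (D.indLe L (a := .top) (a' := .top) (fun _ _ h => h) hle).spt E)] at h4
  intro n
  ext k : 1
  refine sm_hom_ext fun p g _ _ => ?_
  exact ((congrArg _ (smLe_I _ _ _ p trivial g)).trans (smLe_I _ _ _ p trivial g)).trans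
    (smLe_I _ _ _ p trivial g).symm

end PD

end Pool.Agent.KEW
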