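import Pool.Agent.P.MP_6277db_ag.KEW.L9.PD

/-!
KEW, layer L9: the standard charts of projective space.
-/

set_option backward.isDefEq.respectTransparency false

noncomputable section

open CategoryTheory Limits AlgebraicGeometry Opposite

namespace Pool.Agent.KEW

variable {A : Type} [CommRing A]

section

attribute [local instance] MvPolynomial.gradedAlgebra

open MvPolynomial HomogeneousLocalization

variable (A) (N : ℕ)

/-- The standard grading. -/
abbrev Proj_gr : ℕ → Submodule A (MvPolynomial (Fin (N + 1)) A) :=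
  homogeneousSubmodule (Fin (N + 1)) A

variable {N}

lemma Proj_X (b : Fin (N + 1)) : (X b : MvPolynomial (Fin (N + 1)) A) ∈ Proj_gr A N 1 :=
  isHomogeneous_X A b

/-- The map from the polynomial ring in `N` variables to the ring of a chart. -/
def Proj_th (b : Fin (N + 1)) : MvPolynomial (Fin N) A →+* Away (Proj_gr A N) (X b) :=
  eval₂Hom ((fromZeroRingHom (Proj_gr A N) _).comp (algebraMap A (Proj_gr A N 0)))
    fun i => Away.isLocalizationElem (Proj_X A b) (Proj_X A (b.succAbove i))

/-- Dehomogenisation. -/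
def Proj_eps (b : Fin (N + 1)) : MvPolynomial (Fin (N + 1)) A →+* MvPolynomial (Fin N) A :=
  eval₂Hom C (Fin.insertNth (α := fun _ => MvPolynomial (Fin N) A) b 1 X)

/-- The inclusion of the ring of a chart in the localisation. -/
def Proj_val (b : Fin (N + 1)) :
    Away (Proj_gr A N) (X b) →+* Localization.Away (X b : MvPolynomial (Fin (N + 1)) A) where
  toFun := val
  map_one' := val_one
  map_mul' := val_mul
  map_zero' := val_zero
  map_add' := val_add

variable {A}

lemma Proj_eps_self (b : Fin (N + 1)) : Proj_eps A b (X b) = 1 := by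
  simp [Proj_eps]

lemma Proj_eps_succ (b : Fin (N + 1)) (i : Fin N) : Proj_eps A b (X (b.succAbove i)) = X i := by
  simp [Proj_eps]

lemma Proj_eps_C (b : Fin (N + 1)) (r : A) : Proj_eps A b (C r) = C r := by
  simp [Proj_eps]

lemma Proj_val_C (b : Fin (N + 1)) (r : A) : (Proj_th A b (C r)).val =
    algebraMap (MvPolynomial (Fin (N + 1)) A) (Localization.Away (X b)) (C r) := by
  rw [Proj_th, eval₂Hom_C]
  rfl

lemma Proj_val_X (b : Fin (N + 1)) (i : Fin N) : (Proj_th A b (X i)).val *
    algebraMap (MvPolynomial (Fin (N + 1)) A) (Localization.Away (X b)) (X b) =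
    algebraMap (MvPolynomial (Fin (N + 1)) A) (Localization.Away (X b)) (X (b.succAbove i)) := by
  rw [Proj_th, eval₂Hom_X', Away.val_mk, Localization.mk_eq_mk']
  have := IsLocalization.mk'_spec (Localization.Away (X b : MvPolynomial (Fin (N + 1)) A))
    (X (b.succAbove i) ^ 1 : MvPolynomial (Fin (N + 1)) A)
    (⟨X b ^ 1, 1, rfl⟩ : Submonoid.powers (X b : MvPolynomial (Fin (N + 1)) A))
  simpa only [pow_one] using this

lemma Proj_th_injective (b : Fin (N + 1)) : Function.Injective (Proj_th A b) := by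
  have hu : IsUnit (Proj_eps A b (X b)) := by
    rw [Proj_eps_self]
    exact isUnit_one
  let l : Localization.Away (X b : MvPolynomial (Fin (N + 1)) A) →+* MvPolynomial (Fin N) A :=
    IsLocalization.Away.lift (X b) hu
  have hl : ∀ y, l (algebraMap _ _ y) = Proj_eps A b y := IsLocalization.Away.lift_eq _ hu
  have key : (l.comp (Proj_val A b)).comp (Proj_th A b) =
      RingHom.id _ := by
    refine MvPolynomial.ringHom_ext (fun r => ?_) (fun i => ?_)
    · change l (Proj_th A b (C r)).val = C r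
      rw [Proj_val_C, hl, Proj_eps_C]
    · change l (Proj_th A b (X i)).val = X i
      have := congrArg l (Proj_val_X (A := A) b i)
      rwa [map_mul, hl, hl, Proj_eps_self, mul_one, Proj_eps_succ] at this
  exact Function.LeftInverse.injective (g := l.comp (Proj_val A b)) (RingHom.congr_fun key)

lemma Proj_scale {ι S : Type} [CommRing S] {a : MvPolynomial ι A} {n : ℕ} (ha : a.IsHomogeneous n)
    (f g : MvPolynomial ι A →+* S) (u : S) (hC : ∀ r, f (C r) = g (C r))
    (hX : ∀ j, f (X j) * u = g (X j)) : f a * u ^ n = g a := by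
  rw [a.as_sum, map_sum, map_sum, Finset.sum_mul]
  refine Finset.sum_congr rfl fun d hd => ?_
  rw [ha.degree_eq_sum_deg_support hd, monomial_eq, map_mul, map_mul, hC, mul_assoc,
    Finsupp.prod, map_prod, map_prod, ← Finset.prod_pow_eq_pow_sum, ← Finset.prod_mul_distrib]
  congr 1
  refine Finset.prod_congr rfl fun j _ => ?_
  rw [map_pow, map_pow, ← mul_pow, hX]

lemma Proj_th_surjective (b : Fin (N + 1)) : Function.Surjective (Proj_th A b) := by
  intro z
  obtain ⟨n, a, ha, rfl⟩ := Away.mk_surjective (Proj_gr A N) (Proj_X A b) z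
  refine ⟨Proj_eps A b a, ?_⟩
  apply val_injective
  have ha' : a.IsHomogeneous n := by simpa using ha
  have h1 := Proj_scale ha'
    (((Proj_val A b).comp (Proj_th A b)).comp (Proj_eps A b))
    (algebraMap (MvPolynomial (Fin (N + 1)) A) (Localization.Away (X b)))
    (algebraMap (MvPolynomial (Fin (N + 1)) A) (Localization.Away (X b)) (X b))
    (fun r => by
      change (Proj_th A b (Proj_eps A b (C r))).val = _
      rw [Proj_eps_C, Proj_val_C])
    (fun j => by
      change (Proj_th A b (Proj_eps A b (X j))).val * _ = _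
      rcases Fin.eq_self_or_eq_succAbove b j with rfl | ⟨i, rfl⟩
      · rw [Proj_eps_self, map_one, val_one, one_mul]
      · rw [Proj_eps_succ, Proj_val_X])
  rw [Away.val_mk, Localization.mk_eq_mk', IsLocalization.eq_mk'_iff_mul_eq]
  rw [← map_pow] at h1
  exact h1

/-- The ring of a chart is a polynomial ring. -/
def Proj_iso (b : Fin (N + 1)) :
    CommRingCat.of (MvPolynomial (Fin N) A) ≅ CommRingCat.of (Away (Proj_gr A N) (X b)) :=
  (RingEquiv.ofBijective (Proj_th A b) ⟨Proj_th_injective b, Proj_th_surjective b⟩).toCommRingCatIso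

lemma Proj_iso_hom (b : Fin (N + 1)) : (Proj_iso (A := A) b).hom = CommRingCat.ofHom (Proj_th A b) :=
  rfl

variable (A N) in
/-- The structure morphism of projective space. -/
def Proj_str : Proj (Proj_gr A N) ⟶ Spec (.of A) :=
  Proj.toSpecZero _ ≫ Spec.map (CommRingCat.ofHom (algebraMap A (Proj_gr A N 0)))

variable (A) in
/-- The charts. -/
def Proj_ch (b : Fin (N + 1)) : 𝔸(Fin N; Spec (.of A)) ⟶ Proj (Proj_gr A N) :=
  (AffineSpace.SpecIso (Fin N) (.of A)).hom ≫ Spec.map (Proj_iso b).inv ≫
    Proj.awayι (Proj_gr A N) (X b) (Proj_X A b) one_pos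

lemma Proj_ch_open (b : Fin (N + 1)) : IsOpenImmersion (Proj_ch A b) := by
  unfold Proj_ch
  infer_instance

lemma Proj_ch_over (b : Fin (N + 1)) :
    Proj_ch A b ≫ Proj_str A N = 𝔸(Fin N; Spec (.of A)) ↘ Spec (.of A) := by
  unfold Proj_ch Proj_str
  rw [Category.assoc, ← Iso.eq_inv_comp, AffineSpace.SpecIso_inv_over, Category.assoc,
    Proj.awayι_toSpecZero_assoc, ← Spec.map_comp, ← Spec.map_comp]
  congr 1
  rw [Iso.comp_inv_eq, Proj_iso_hom]
  ext r : 2
  exact (eval₂Hom_C _ _ r).symm

lemma Proj_ch_range (b : Fin (N + 1)) :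
    Set.range (Proj_ch A b) = Proj.basicOpen (Proj_gr A N) (X b) := by
  rw [← Proj.opensRange_awayι (Proj_gr A N) (X b) (Proj_X A b) one_pos]
  have := Proj_ch_open (A := A) b
  have h : (Proj_ch A b).opensRange =
      (Proj.awayι (Proj_gr A N) (X b) (Proj_X A b) one_pos).opensRange :=
    (Scheme.Hom.opensRange_comp_of_isIso _ _).trans (Scheme.Hom.opensRange_comp_of_isIso _ _)
  rw [← h]
  rfl

lemma Proj_zero_bij : Function.Bijective (algebraMap A (Proj_gr A N 0)) := by
  refine ⟨fun r s h => C_injective (Fin (N + 1)) A (congrArg Subtype.val h), fun y => ?_⟩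
  have h : y.1 ∈ (1 : Submodule A (MvPolynomial (Fin (N + 1)) A)) := by
    rw [← homogeneousSubmodule_zero]
    exact y.2
  obtain ⟨r, hr⟩ := Submodule.mem_one.1 h
  exact ⟨r, Subtype.ext hr⟩

lemma Proj_adjoin : Algebra.adjoin (Proj_gr A N 0)
    (Set.range (X : Fin (N + 1) → MvPolynomial (Fin (N + 1)) A)) = ⊤ := by
  refine eq_top_iff.2 fun p _ => ?_
  induction p using MvPolynomial.induction_on with
  | C r => exact Subalgebra.algebraMap_mem _ (⟨C r, isHomogeneous_C _ r⟩ : Proj_gr A N 0)
  | add p q hp hq => exact add_mem (hp trivial) (hq trivial)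
  | mul_X p i hp => exact mul_mem (hp trivial) (Algebra.subset_adjoin ⟨i, rfl⟩)

lemma Proj_ft : Algebra.FiniteType (Proj_gr A N 0) (MvPolynomial (Fin (N + 1)) A) :=
  ⟨(Subalgebra.fg_def).2 ⟨_, Set.finite_range _, Proj_adjoin⟩⟩

lemma Proj_proper : IsProper (Proj_str A N) := by
  have := Proj_ft (A := A) (N := N)
  have : IsIso (CommRingCat.ofHom (algebraMap A (Proj_gr A N 0))) :=
    (RingEquiv.ofBijective _ Proj_zero_bij).toCommRingCatIso.isIso_hom
  unfold Proj_str
  infer_instance

lemma Proj_cover (x : Proj (Proj_gr A N)) : ∃ b, x ∈ Set.range (Proj_ch A b) := by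
  have h := Proj.iSup_basicOpen_eq_top' (Proj_gr A N) X (fun b => ⟨1, Proj_X A b⟩) Proj_adjoin
  obtain ⟨b, hb⟩ := TopologicalSpace.Opens.mem_iSup.1 (h.ge (Set.mem_univ x))
  exact ⟨b, by rwa [Proj_ch_range]⟩

lemma Proj_smooth_aff : Smooth (𝔸(Fin N; Spec (.of A)) ↘ Spec (.of A)) := by
  rw [← MorphismProperty.cancel_left_of_respectsIso (P := @Smooth)
    (AffineSpace.SpecIso (Fin N) (.of A)).inv, AffineSpace.SpecIso_inv_over,
    HasRingHomProperty.Spec_iff (P := @Smooth)]
  have : Algebra.Smooth A (MvPolynomial (Fin N) A) := ⟨inferInstance, inferInstance⟩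
  exact RingHom.smooth_algebraMap.2 this

lemma Proj_smooth : Smooth (Proj_str A N) := by
  let U : (Proj (Proj_gr A N)).OpenCover := Scheme.Cover.mkOfCovers (Fin (N + 1))
    (fun _ => 𝔸(Fin N; Spec (.of A))) (Proj_ch A) Proj_cover Proj_ch_open
  refine IsZariskiLocalAtSource.of_openCover (P := @Smooth) U fun b => ?_
  change Smooth (Proj_ch A b ≫ Proj_str A N)
  rw [Proj_ch_over]
  exact Proj_smooth_aff

lemma Proj_trans (b : Fin (N + 1)) (i : Fin N) (x : 𝔸(Fin N; Spec (.of A))) :
    Proj_ch A b x ∈ Set.range (Proj_ch A (b.succAbove i)) ↔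
      x ∈ 𝔸(Fin N; Spec (.of A)).basicOpen (AffineSpace.coord _ i) := by
  rw [Proj_ch_range]
  have h : Proj_ch A b ⁻¹ᵁ Proj.basicOpen (Proj_gr A N) (X (b.succAbove i)) =
      𝔸(Fin N; Spec (.of A)).basicOpen (AffineSpace.coord _ i) := by
    unfold Proj_ch
    rw [Scheme.Hom.comp_preimage, Scheme.Hom.comp_preimage,
      Proj.awayι_preimage_basicOpen (Proj_gr A N) (Proj_X A b) one_pos (Proj_X A (b.succAbove i))
        one_pos, SpecMap_preimage_basicOpen]
    have e : (Proj_iso (A := A) b).inv
        (Away.isLocalizationElem (Proj_X A b) (Proj_X A (b.succAbove i))) = X i := by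
      have e1 : Away.isLocalizationElem (Proj_X A b) (Proj_X A (b.succAbove i)) =
          (Proj_iso (A := A) b).hom (X i) := by
        change _ = Proj_th A b (X i)
        rw [Proj_th, eval₂Hom_X']
      rw [e1, Iso.hom_inv_id_apply]
    have e2 := basicOpen_eq_of_affine (R := .of (MvPolynomial (Fin N) A)) (X i)
    have e3 : (AffineSpace.SpecIso (Fin N) (.of A)).inv.appTop (AffineSpace.coord _ i) =
        (Scheme.ΓSpecIso (.of (MvPolynomial (Fin N) A))).inv (X i) :=
      AffineSpace.SpecIso_inv_appTop_coord (.of A) i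
    rw [e, ← e2, Scheme.preimage_basicOpen_top, ← e3, ← CommRingCat.comp_apply, ← Scheme.Hom.comp_appTop,
      Iso.hom_inv_id]
    simp
  rw [← h]
  rfl

variable (A N) in
/-- Projective space with its charts. -/
def Proj_pd : PD A N where
  P := ⟨⟨Over.mk (Proj_str A N), by
    have := Proj_proper (A := A) (N := N)
    exact ⟨inferInstanceAs (LocallyOfFiniteType (Proj_str A N)),
      inferInstanceAs (QuasiCompact (Proj_str A N)),
      inferInstanceAs (IsSeparated (Proj_str A N))⟩⟩, Proj_smooth⟩
  ch := Proj_ch A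
  opn := Proj_ch_open
  chOver := Proj_ch_over
  cover := Proj_cover
  trans := Proj_trans

end

/-- A projective scheme is a closed subscheme of a scheme with projective charts.
Hint: `Proj.awayι` for `X b`, the isomorphism
`HomogeneousLocalization.Away 𝒜 (X b) ≃ MvPolynomial (Fin N) A` (`X (b.succAbove i) / X b ↦ X i`),
`AffineSpace.SpecIso`, `Proj.awayι_preimage_basicOpen`; smoothness, finite type and
quasi-compactness from the finite open cover by affine spaces; separated from Mathlib. -/
theorem IsProj.exists_pd {X : Scheme.{0}} {f : X ⟶ Spec (.of A)} (h : IsProj f) :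
    ∃ (N : ℕ) (D : PD A N) (j : X ⟶ D.P.obj.obj.left), IsClosedImmersion j ∧
      j ≫ D.P.obj.obj.hom = f := by
  obtain ⟨n, j, hj, e⟩ := h
  exact ⟨n, Proj_pd A n, j, hj, e⟩

/-- Hint: `Proj.toSpecZero` is universally closed (Mathlib, `ProjectiveSpectrum/Proper.lean`) and
`A → 𝒜 0` is an isomorphism. -/
theorem IsProj.isClosedMap {X : Scheme.{0}} {f : X ⟶ Spec (.of A)} (h : IsProj f) :
    IsClosedMap f := by
  obtain ⟨n, j, hj, e⟩ := h
  have := Proj_proper (A := A) (N := n)
  have e' : j ≫ Proj_str A n = f := e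
  rw [← e']
  exact (j ≫ Proj_str A n).isClosedMap

end Pool.Agent.KEW
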