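import Pool.Agent.P.MP_6277db_ag.KEW.L9.StepA

/-!
KEW, layer L9: comparison of the adjunctions attached to two closed subschemes of `P`.
-/

set_option backward.isDefEq.respectTransparency false
set_option linter.unusedSectionVars false

noncomputable section

open CategoryTheory Limits AlgebraicGeometry Opposite MonoidalCategory

namespace Pool.Agent.KEW

section StepB_general

variable {C : Type 1} [Category.{0} C] {C' : Type 1} [Category.{0} C'] {L : Type 1} [CommRing L]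
  {u : C ⥤ Scheme.{0}} {u' : C' ⥤ Scheme.{0}}

/-- A map of labelled presheaves of sets gives a map of lax functors. -/
def StepB_push {X X' : SP C} {lam : El X ⥤ C'} {lam' : El X' ⥤ C'} (t : X.Hom X')
    (μ : t.el ⋙ lam' ⟶ lam) {a b : X.Sub} {a' b' : X'.Sub}
    (ha : ∀ ⦃W : C⦄ (x : X.obj W), a.mem x → a'.mem (t.app x))
    (hb : ∀ ⦃W : C⦄ (x : X.obj W), a.mem x → b.mem x → b'.mem (t.app x))
    (π : lam ⋙ u' ⟶ El.proj X ⋙ u) (π' : lam' ⋙ u' ⟶ El.proj X' ⋙ u)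
    (hπ : ∀ p, u'.map (μ.app p) ≫ π.app p = π'.app (t.el.obj p))
    (h : LiftsNb u u' lam a b) (h' : LiftsNb u u' lam' a' b') :
    (Lax.ofSm L lam π a b h).Hom (Lax.ofSm L lam' π' a' b' h') where
  τ := smPush L t μ ha hb
  comm := by
    intro G
    refine RS.unit.hom_ext fun W r g => ?_
    induction g using sm_induction with
    | zero => rw [map_zero, map_zero, map_zero]
    | add m m' h h' => rw [map_add, map_add, map_add, h, h']
    | gen x g hx _ =>
      have h0 : (u'.map (μ.app ⟨W, x⟩)).appTop ((π.app ⟨W, x⟩).appTop r) =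
          (π'.app (t.el.obj ⟨W, x⟩)).appTop r := by
        rw [← hπ, Scheme.Hom.comp_appTop]
        rfl
      have h1 := smθ_I RS.unit lam π a b G ⟨W, x⟩ r g
      have h2 := smPush_I t μ ha hb ((RS.unit.T L u').obj G) ⟨W, x⟩ hx
        (RS.unit.tp G (lam.obj ⟨W, x⟩) ((π.app ⟨W, x⟩).appTop r) g)
      have h6 := RS.unit.map_tp (u := u') G (μ.app ⟨W, x⟩) ((π.app ⟨W, x⟩).appTop r) g
      rw [h0] at h6
      have h3 := RS.unit.T_map_tp ((smPush L t μ ha hb).app G) W r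
        (smI a b ((pb L lam).obj G) ⟨W, x⟩ g)
      have h4 := smPush_I t μ ha hb G ⟨W, x⟩ hx g
      have h5 := smθ_I RS.unit lam' π' a' b' G (t.el.obj ⟨W, x⟩) r
        ((G.map (μ.app ⟨W, x⟩).op).hom g)
      refine (((congrArg _ h1).trans h2).trans (congrArg _ h6)).trans (h5.symm.trans ?_)
      exact congrArg _ ((congrArg _ h4.symm).trans h3.symm)

lemma StepB_map (G : PSh C L) {U V V' W : C} {f : U ⟶ V} {g : V ⟶ W} {f' : U ⟶ V'} {g' : V' ⟶ W}
    (e : f ≫ g = f' ≫ g') (m : G.obj (op W)) :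
    (G.map f.op).hom ((G.map g.op).hom m) = (G.map f'.op).hom ((G.map g'.op).hom m) := by
  have := congrArg (fun k => (G.map k.op).hom m) e
  simpa only [op_comp, G.map_comp, ModuleCat.hom_comp, LinearMap.comp_apply] using this

end StepB_general

variable {A : Type} [CommRing A] [IsNoetherianRing A] [IsLocalRing A]

namespace PD

variable {N : ℕ} (D : PD A N) (L : Type 1) [CommRing L] {X Y : Big A} (i : X ⟶ D.P.obj)
  (ι : Y ⟶ X) [IsClosedImmersion ((big A).map i)] [IsClosedImmersion ((big A).map (ι ≫ i))]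

lemma imX_sub : D.imX (ι ≫ i) ⊆ D.imX i := by
  rintro _ ⟨y, rfl⟩
  rw [Functor.map_comp]
  exact ⟨_, rfl⟩

lemma avoid_le : (SP.Sub.inf .top (D.avoidSub (𝟭 _) (D.imX i))).Le (D.avoidSub _ (D.imX (ι ≫ i))) :=
  fun _ _ h y hy => h.2 y (D.imX_sub i ι hy)

/-- The preimage of `Y` is contained in the preimage of `X`. -/
def ZYX (c : D.BP) : D.ZX (ι ≫ i) c ⟶ D.ZX i c :=
  D.liftX i c (D.ιX (ι ≫ i) c) (D.sX (ι ≫ i) c ≫ ι)
    ((D.ιX_x (ι ≫ i) c).trans (Category.assoc _ _ _).symm)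

/-- The identity of `W` as a map of the big slice. -/
def reassocX {W : Big A} (y : W ⟶ Y) :
    (⟨W, (y ≫ ι) ≫ i⟩ : D.BP) ⟶ ⟨W, y ≫ ι ≫ i⟩ :=
  ⟨𝟙 W, (Category.id_comp _).trans (Category.assoc _ _ _).symm⟩

lemma StepB_ι (c : D.BP) : D.ZYX i ι c ≫ D.ιX i c = D.ιX (ι ≫ i) c := D.liftX_ι i c _ _ _

lemma StepB_s (c : D.BP) : D.ZYX i ι c ≫ D.sX i c = D.sX (ι ≫ i) c ≫ ι := D.liftX_s i c _ _ _

/-- Composition with `ι`. -/
def StepB_t : (SP.yon (𝟭 (Big A)) Y).Hom (SP.yon (𝟭 (Big A)) X) where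
  app y := y ≫ ι
  nat _ _ := Category.assoc _ _ _

/-- The labels agree. -/
def StepB_μ : (StepB_t ι).el ⋙ D.lamX i ⟶ D.lamX (ι ≫ i) where
  app p := D.reassocX i ι p.x
  naturality _ _ _ := El.hom_ext ((Category.comp_id _).trans (Category.id_comp _).symm)

/-- The identity of the one point presheaf. -/
def StepB_id : (SP.pt D.BP).Hom (SP.pt D.BP) where
  app x := x
  nat _ _ := rfl

/-- The inclusions of the preimages. -/
def StepB_ν : D.StepB_id.el ⋙ (D.dX (ι ≫ i)).Z ⟶ (D.dX i).Z where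
  app p := D.ZYX i ι p.W
  naturality p q f := D.ZX_hom_ext i (by
    have h1 := D.map_ιX i f.1
    have h2 := D.map_ιX (ι ≫ i) f.1
    refine ((Category.assoc _ _ _).trans ((congrArg (_ ≫ ·) (D.StepB_ι i ι q.W)).trans h2)).trans
      (Eq.symm ?_)
    refine (Category.assoc _ _ _).trans ((congrArg (D.ZYX i ι p.W ≫ ·) h1).trans ?_)
    exact (Category.assoc _ _ _).symm.trans (congrArg (· ≫ f.1.1) (D.StepB_ι i ι p.W)))

omit [IsClosedImmersion ((big A).map i)] [IsClosedImmersion ((big A).map (ι ≫ i))] in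
/-- Hint: `smPush`. -/
lemma exists_lHom : ∃ l : (D.LX L (ι ≫ i)).Hom (D.LX L i),
    ∀ (G : PSh D.BP L) (W : Big A) (y : W ⟶ Y) (g : G.obj (op ⟨W, y ≫ ι ≫ i⟩)),
      ((l.τ.app G).app (op W)).hom (D.eLX L (ι ≫ i) G W y g) =
      D.eLX L i G W (y ≫ ι) ((G.map (D.reassocX i ι y).op).hom g) := by
  exact ⟨StepB_push (u := big A) (u' := D.uB) (StepB_t ι) (D.StepB_μ i ι) (fun _ _ h => h)
    (fun _ _ _ h => h) (𝟙 (D.lamX (ι ≫ i) ⋙ D.uB)) (𝟙 (D.lamX i ⋙ D.uB))
    (fun p => (Category.comp_id _).trans ((big A).map_id p.W)) _ _,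
    fun G W y g => smPush_I (StepB_t ι) (D.StepB_μ i ι) (a := .top) (b := .bot) (a' := .top)
      (b' := .bot) (fun _ _ h => h) (fun _ _ _ h => h) G ⟨W, y⟩ trivial g⟩

/-- Hint: `smPush` with the identity of `SP.pt`. -/
lemma exists_rHom : ∃ r : (D.RX L i).Hom (D.RX L (ι ≫ i)),
    ∀ (G : PSh (Big A) L) (c : D.BP) (g : G.obj (op (D.ZX i c))),
      ((r.τ.app G).app (op c)).hom (D.eRX L i G c g) =
      D.eRX L (ι ≫ i) G c ((G.map (D.ZYX i ι c).op).hom g) := by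
  exact ⟨StepB_push (u := D.uB) (u' := big A) D.StepB_id (D.StepB_ν i ι) (fun _ _ h => h)
    (fun c _ _ h => D.avoid_le i ι c.x ⟨trivial, h⟩) (D.piX i) (D.piX (ι ≫ i))
    (fun p => ((big A).map_comp (D.ZYX i ι p.W) (D.ιX i p.W)).symm.trans
      (congrArg (big A).map (D.StepB_ι i ι p.W))) _ _,
    fun G c g => smPush_I D.StepB_id (D.StepB_ν i ι) (a := D.ind .top)
      (b := D.ind (D.avoidSub _ (D.imX i))) (a' := D.ind .top)
      (b' := D.ind (D.avoidSub _ (D.imX (ι ≫ i)))) (fun _ _ h => h)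
      (fun c _ _ h => D.avoid_le i ι c.x ⟨trivial, h⟩) G ⟨c, ()⟩ trivial g⟩

/-- The map of adjunctions. -/
def adjHom : (D.adj L (ι ≫ i)).Hom (D.adj L i) ((rep (Big A) L).map ι) where
  l := (D.exists_lHom L i ι).choose
  r := (D.exists_rHom L i ι).choose
  comm := by
    intro G
    ext c : 2
    obtain ⟨c⟩ := c
    refine ModuleCat.hom_ext (LinearMap.ext fun g => ?_)
    let f : (⟨D.ZX (ι ≫ i) c, D.sX (ι ≫ i) c ≫ ι⟩ : El (SP.yon (𝟭 (Big A)) X)) ⟶
      ⟨D.ZX i c, D.sX i c⟩ := ⟨D.ZYX i ι c, D.StepB_s i ι c⟩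
    have h1 := (D.exists_eta L i).choose_spec G c g
    have h2 := (D.exists_rHom L i ι).choose_spec ((D.LX L i).F.obj G) c
      (D.eLX L i G (D.ZX i c) (D.sX i c) ((G.map (D.inclX i c).op).hom g))
    have h3 := smObj_map_I (a := .top) (b := .bot) ((pb L (D.lamX i)).obj G) f trivial
      ((G.map (D.inclX i c).op).hom g)
    have h4 := StepB_map G (f := (D.lamX i).map f) (g := D.inclX i c)
      (f' := D.reassocX i ι (D.sX (ι ≫ i) c)) (g' := D.inclX (ι ≫ i) c)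
      (El.hom_ext ((D.StepB_ι i ι c).trans (Category.id_comp _).symm)) g
    have h5 := (D.exists_eta L (ι ≫ i)).choose_spec G c g
    have h6 := sm_map_I (a := D.ind .top) (b := D.ind (D.avoidSub _ (D.imX (ι ≫ i))))
      ((pb L (D.dX (ι ≫ i)).Z).map ((D.exists_lHom L i ι).choose.τ.app G)) ⟨c, ()⟩
      (D.eLX L (ι ≫ i) G (D.ZX (ι ≫ i) c) (D.sX (ι ≫ i) c)
        ((G.map (D.inclX (ι ≫ i) c).op).hom g))
    have h7 := (D.exists_lHom L i ι).choose_spec G (D.ZX (ι ≫ i) c) (D.sX (ι ≫ i) c)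
      ((G.map (D.inclX (ι ≫ i) c).op).hom g)
    refine ((congrArg _ h1).trans h2).trans (Eq.symm ?_)
    refine ((congrArg _ h5).trans h6).trans
      (congrArg (D.eRX L (ι ≫ i) ((D.LX L i).F.obj G) c) (h7.trans (Eq.symm (h3.trans ?_))))
    exact congrArg (D.eLX L i G (D.ZX (ι ≫ i) c) (D.sX (ι ≫ i) c ≫ ι)) h4
  comm_e := by
    ext W : 2
    obtain ⟨W⟩ := W
    refine ModuleCat.hom_ext (Cmp_rep_lin_ext fun y => ?_)
    have h1 := rep_map_repEl (L := L) y ι
    have h2 := (D.exists_repIso L i).choose_spec W (y ≫ ι)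
    have h3 := (D.exists_repIso L (ι ≫ i)).choose_spec W y
    have h4 := (D.exists_lHom L i ι).choose_spec (𝟙_ (PSh D.BP L)) W y (1 : L)
    exact ((congrArg _ h1).trans h2).trans ((congrArg _ h3).trans h4).symm

lemma thX_sq (G : PSh (Big A) L) : (D.thX L i).τ.app G ≫ (D.adjHom L i ι).r.τ.app G =
    (D.indLe L (a := .top) (a' := .top) (fun _ _ h => h) (D.avoid_le i ι)).τ.app G ≫
      (D.thX L (ι ≫ i)).τ.app G := by
  refine sm_hom_ext (a := D.ind .top) (b := D.ind (D.avoidSub _ (D.imX i))) fun p g hp _ => ?_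
  have h1 := (D.dX i).toZ_I (L := L) (D.ind .top) (D.ind (D.avoidSub _ (D.imX i))) G p g
  have h2 := (D.exists_rHom L i ι).choose_spec G p.W ((G.map (D.ιX i p.W).op).hom g)
  have h3 := smLe_I (a := D.ind .top) (b := D.ind (D.avoidSub _ (D.imX i))) (a' := D.ind .top)
    (b' := D.ind (D.avoidSub _ (D.imX (ι ≫ i)))) (fun _ _ h => h)
    (fun c _ h => D.avoid_le i ι c.x h)
    ((pb L (El.proj (SP.pt D.BP) ⋙ El.proj (D.PX (𝟭 (Big A))))).obj G) p hp g
  have h4 := (D.dX (ι ≫ i)).toZ_I (L := L) (D.ind .top)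
    (D.ind (D.avoidSub _ (D.imX (ι ≫ i)))) G p g
  have h5 : (G.map (D.ZYX i ι p.W).op).hom ((G.map (D.ιX i p.W).op).hom g) =
      (G.map (D.ιX (ι ≫ i) p.W).op).hom g := by
    rw [← D.StepB_ι i ι p.W, op_comp, G.map_comp]
    rfl
  exact (((congrArg _ h1).trans h2).trans (congrArg (D.eRX L (ι ≫ i) G p.W) h5)).trans
    ((congrArg _ h3).trans h4).symm

theorem bijective_pre {E : Spt L (big A)} (hE : ∀ n, SmGenerated A L (E.X n)) (q : ℤ) (j : ℕ)
    (h : Function.Bijective (SCol.post ((D.indLe L (a := .top) (a' := .top) (fun _ _ h => h)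
      (D.avoid_le i ι)).spt E) q j (𝟙_ (PSh D.BP L)))) :
    Function.Bijective (SCol.pre E q j ((rep (Big A) L).map ι)) := by
  refine (D.adjHom L i ι).bijective_pre E q j ?_
  have h1 := SCol.post_bijective_of_isW (D.thX_isW L i hE) q j (𝟙_ (PSh D.BP L))
  have h2 := (SCol.post_bijective_of_isW (D.thX_isW L (ι ≫ i) hE) q j (𝟙_ (PSh D.BP L))).comp h
  rw [← SCol.post_comp, SCol.post_congr (g := ((D.thX L i).spt E).comp ((D.adjHom L i ι).r.spt E))
    (fun n => by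
      ext k : 1
      exact (D.thX_sq L i ι _).symm), SCol.post_comp] at h2
  exact (Function.Bijective.of_comp_iff _ h1).1 h2

end PD

end Pool.Agent.KEW
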