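import Pool.Agent.P.MP_6277db_ag.KEW.L9.MainL
import Pool.Agent.P.MP_6277db_ag.KEW.L9.StepB
import Pool.Agent.P.MP_6277db_ag.KEW.L9.Proj

/-!
KEW, layer L9: the theorem follows from the vanishing theorem.
-/

set_option backward.isDefEq.respectTransparency false

noncomputable section

open CategoryTheory Limits AlgebraicGeometry Opposite MonoidalCategory

namespace Pool.Agent.KEW

lemma Final_res {X Y : Scheme.{0}} (f : X ⟶ Y) [IsClosedImmersion f] (x : X) :
    IsIso (f.residueFieldMap x) := by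
  refine (ConcreteCategory.isIso_iff_bijective _).2
    ⟨(f.residueFieldMap x).hom.injective, fun a => ?_⟩
  obtain ⟨a, rfl⟩ := X.residue_surjective x a
  obtain ⟨a, rfl⟩ := f.stalkMap_surjective x a
  exact ⟨Y.residue (f x) a, congrArg (fun k => k.hom a) (Scheme.residue_residueFieldMap f x)⟩

theorem main_of_van (A : Type) [CommRing A] [IsDomain A] [IsDiscreteValuationRing A] (m : ℕ)
    (h : VAN A (ULift.{1} (ZMod m)) m)
    (E : Spt (ULift.{1} (ZMod m)) (big A)) (hE : IsMotCoh A m E)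
    (X Y : Big A) (ι : Y ⟶ X) (hX : IsProj X.obj.hom) [IsClosedImmersion ι.hom.left]
    (hY : Set.range ι.hom.left = X.obj.hom ⁻¹' {IsLocalRing.closedPoint A})
    (i : ℤ) (j : ℕ) (hj : topologicalKrullDim Y.obj.left ≤ j) :
    Function.Bijective (Coh.map E i j ι) := by
  obtain ⟨N, D, k, hk, hk'⟩ := hX.exists_pd
  let a : X ⟶ D.P.obj := Big.homMk k hk'
  have i1 : IsClosedImmersion ((big A).map a) := hk
  have i2 : IsClosedImmersion ((big A).map (ι ≫ a)) :=
    inferInstanceAs (IsClosedImmersion (ι.hom.left ≫ k))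
  have i3 : LocallyOfFiniteType X.obj.hom := X.property.1
  have ov : ∀ x : X.obj.left, D.P.obj.obj.hom (k x) = X.obj.hom x := fun x =>
    congrArg (fun f : X.obj.left ⟶ Spec (.of A) => f x) hk'
  refine coh_bijective_of_pre E i j ι (D.bijective_pre _ a ι hE.1 _ j
    (D.post_bijective _ k.isClosedEmbedding.isClosed_range ?_ (fun r Z hZ hZ' => ?_) _ _))
  · ext z
    constructor
    · rintro ⟨y, rfl⟩
      refine ⟨D.imX_sub a ι ⟨y, rfl⟩, (ov (ι.hom.left y)).trans ?_⟩
      exact (Set.ext_iff.1 hY _).1 ⟨y, rfl⟩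
    · rintro ⟨⟨x, rfl⟩, hx⟩
      obtain ⟨y, rfl⟩ := (Set.ext_iff.1 hY x).2 ((ov x).symm.trans hx)
      exact ⟨y, rfl⟩
  · refine D.van_phiB _ m r Z h hZ (fun z hz hz' => ?_) hE.1 hE.2
    obtain ⟨x, rfl⟩ := hZ' hz
    have := Final_res k x
    refine (trLe_comp_iff k D.P.obj.obj.hom x j).1 ?_
    rw [hk']
    exact trLe_of_dim X.obj.hom hX.isClosedMap ι.hom.left hY j hj x fun e => hz' ((ov x).trans e)

end Pool.Agent.KEW
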