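import Pool.Agent.P.MP_6277db_ag.KEW.L2b.Pres
import Pool.Agent.P.MP_6277db_ag.KEW.L1.Rep
import Pool.Agent.P.MP_6277db_ag.KEW.DefsD

/-!
KEW, layer L9: maps of spectra, lax functors, stably vanishing morphisms.
-/

set_option backward.isDefEq.respectTransparency false

noncomputable section

open CategoryTheory Limits AlgebraicGeometry Opposite MonoidalCategory

namespace Pool.Agent.KEW

variable {C : Type 1} [Category.{0} C] {C' : Type 1} [Category.{0} C'] {C'' : Type 1}
  [Category.{0} C''] {L : Type 1} [CommRing L]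
  {u : C ⥤ Scheme.{0}} {u' : C' ⥤ Scheme.{0}} {u'' : C'' ⥤ Scheme.{0}}

lemma tT_eq : tT L u = mapC (RS.unit.T L u) := rfl

lemma presW_tT : PresW (NGen u) (NGen u) (tT L u) := presW_T RS.unit

/-- The localisation functor of a site. -/
abbrev QU (L : Type 1) [CommRing L] (u : C ⥤ Scheme.{0}) : Ch C L ⥤ DM (NGen (L := L) u) :=
  QM (NGen u)

/-- The transition maps, in the notation of layer L1. -/
def stp (E : Spt L u) {K : Ch C L} {n : ℕ} (x : (QU L u).obj K ⟶ (QU L u).obj (E.X n)) :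
    (QU L u).obj ((tT L u).obj K) ⟶ (QU L u).obj (E.X (n + 1)) :=
  presW_tT.homMap x ≫ (QU L u).map (E.σ n)

lemma Spt_step_id (E : Spt L u) (n : ℕ) :
    step E (𝟙 ((QA L u).obj (E.X n))) = (QA L u).map (E.σ n) := by
  simp [step]

lemma Spt_stp_map (E : Spt L u) {K K' : Ch C L} {n : ℕ} (s : K' ⟶ K)
    (x : (QU L u).obj K ⟶ (QU L u).obj (E.X n)) :
    stp E ((QU L u).map s ≫ x) = (QU L u).map ((tT L u).map s) ≫ stp E x := by
  rw [stp, stp, PresW.homMap_comp, PresW.homMap_map, Category.assoc]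

/-- Hint: write `x` as a fraction (`right_fac`) and use the naturality of `suspFac`. -/
lemma step_eq (E : Spt L u) {K : Ch C L} {n : ℕ} (x : (QU L u).obj K ⟶ (QU L u).obj (E.X n)) :
    step E x = stp E x := by
  obtain ⟨X', s, g, hs, e⟩ := right_fac x
  have := (presW_tT s hs).isIso
  have h1 : step E ((QU L u).map s ≫ x) = (QU L u).map ((tT L u).map s) ≫ step E x :=
    step_comp E s x
  have h2 : step E ((QU L u).map g ≫ 𝟙 _) =
      (QU L u).map ((tT L u).map g) ≫ step E (𝟙 ((QA L u).obj (E.X n))) :=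
    step_comp E g (𝟙 _)
  rw [Category.comp_id, Spt_step_id] at h2
  rw [← cancel_epi ((QU L u).map ((tT L u).map s)), ← h1, ← Spt_stp_map, e, h2, stp,
    PresW.homMap_map]
  rfl

instance : (tT L u).Additive := inferInstanceAs (mapC (RS.unit.T L u)).Additive

lemma stp_zero (E : Spt L u) {K : Ch C L} {n : ℕ} :
    stp E (0 : (QU L u).obj K ⟶ (QU L u).obj (E.X n)) = 0 := by
  rw [stp, PresW.homMap_zero, zero_comp]

lemma stp_sub (E : Spt L u) {K : Ch C L} {n : ℕ} (x y : (QU L u).obj K ⟶ (QU L u).obj (E.X n)) :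
    stp E (x - y) = stp E x - stp E y := by
  rw [stp, stp, stp, PresW.homMap_sub, Preadditive.sub_comp]

lemma stp_comp (E : Spt L u) {K K' : Ch C L} {n : ℕ} (y : (QU L u).obj K' ⟶ (QU L u).obj K)
    (x : (QU L u).obj K ⟶ (QU L u).obj (E.X n)) :
    stp E (y ≫ x) = presW_tT.homMap y ≫ stp E x := by
  rw [stp, stp, PresW.homMap_comp, Category.assoc]

/-- Maps of spectra. -/
structure SptHom (E E' : Spt L u) where
  /-- the levels -/
  f : ∀ n, E.X n ⟶ E'.X n
  comm : ∀ n, E.σ n ≫ f (n + 1) = (tT L u).map (f n) ≫ E'.σ n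

/-- Composition of maps of spectra. -/
def SptHom.comp {E E' E'' : Spt L u} (f : SptHom E E') (g : SptHom E' E'') : SptHom E E'' where
  f n := f.f n ≫ g.f n
  comm n := by rw [← Category.assoc, f.comm, Category.assoc, g.comm, Functor.map_comp,
    Category.assoc]

/-- Levelwise local equivalences. -/
def SptHom.IsW {E E' : Spt L u} (f : SptHom E E') : Prop := ∀ n, WG (NGen u) (f.f n)

lemma levelW_iff (E E' : Spt L u) : LevelW E E' ↔ ∃ f : SptHom E E', f.IsW :=
  ⟨fun ⟨f, h, h'⟩ => ⟨⟨f, h'⟩, h⟩, fun ⟨f, h⟩ => ⟨f.f, h, f.comm⟩⟩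

lemma stp_post {E E' : Spt L u} (f : SptHom E E') {K : Ch C L} {n : ℕ}
    (x : (QU L u).obj K ⟶ (QU L u).obj (E.X n)) :
    stp E' (x ≫ (QU L u).map (f.f n)) = stp E x ≫ (QU L u).map (f.f (n + 1)) := by
  rw [stp, stp, PresW.homMap_comp, PresW.homMap_map, Category.assoc, Category.assoc,
    ← Functor.map_comp, ← Functor.map_comp, f.comm]

/-- Morphisms which vanish after finitely many transition maps. -/
inductive StZ (E : Spt L u) :
    ∀ {n : ℕ} {K : Ch C L}, ((QU L u).obj K ⟶ (QU L u).obj (E.X n)) → Prop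
  | zero {n : ℕ} {K : Ch C L} : StZ E (0 : (QU L u).obj K ⟶ (QU L u).obj (E.X n))
  | step {n : ℕ} {K : Ch C L} (x : (QU L u).obj K ⟶ (QU L u).obj (E.X n)) (h : StZ E (stp E x)) :
      StZ E x

lemma StZ.pre {E : Spt L u} {n : ℕ} {K K' : Ch C L} {x : (QU L u).obj K ⟶ (QU L u).obj (E.X n)}
    (h : StZ E x) (y : (QU L u).obj K' ⟶ (QU L u).obj K) : StZ E (y ≫ x) := by
  induction h generalizing K' with
  | zero =>
    rw [comp_zero]
    exact StZ.zero
  | step x _ ih =>
    refine StZ.step _ ?_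
    rw [stp_comp]
    exact ih _

lemma StZ.of_pre {E : Spt L u} {n : ℕ} {K K' : Ch C L} {x : (QU L u).obj K ⟶ (QU L u).obj (E.X n)}
    (y : (QU L u).obj K' ⟶ (QU L u).obj K) [IsIso y] (h : StZ E (y ≫ x)) : StZ E x := by
  have := h.pre (inv y)
  rwa [IsIso.inv_hom_id_assoc] at this

lemma StZ.post {E E' : Spt L u} (f : SptHom E E') {n : ℕ} {K : Ch C L}
    {x : (QU L u).obj K ⟶ (QU L u).obj (E.X n)} (h : StZ E x) :
    StZ E' (x ≫ (QU L u).map (f.f n)) := by
  induction h with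
  | zero =>
    rw [zero_comp]
    exact StZ.zero
  | step x _ ih =>
    refine StZ.step _ ?_
    rw [stp_post]
    exact ih

lemma StZ.of_post {E E' : Spt L u} {f : SptHom E E'} (hf : f.IsW) {n : ℕ} {K : Ch C L}
    {x : (QU L u).obj K ⟶ (QU L u).obj (E.X n)} (h : StZ E' (x ≫ (QU L u).map (f.f n))) :
    StZ E x := by
  have key : ∀ {n : ℕ} {K : Ch C L} {x' : (QU L u).obj K ⟶ (QU L u).obj (E'.X n)},
      StZ E' x' → ∀ x : (QU L u).obj K ⟶ (QU L u).obj (E.X n),
        x ≫ (QU L u).map (f.f n) = x' → StZ E x := by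
    intro n K x' h
    induction h with
    | @zero n K =>
      intro x hx
      have := (hf n).isIso
      have h0 : x = 0 := by
        rw [← cancel_mono ((QU L u).map (f.f n)), hx, zero_comp]
      rw [h0]
      exact StZ.zero
    | step x' _ ih =>
      intro x hx
      refine StZ.step _ (ih _ ?_)
      rw [← stp_post, hx]
  exact key h x rfl

/-- The iterated bonding map. -/
def Spt.σN (E : Spt L u) (n : ℕ) : ∀ N : ℕ, (mapC (tN L u N)).obj (E.X n) ⟶ E.X (n + N)
  | 0 => 𝟙 _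
  | N + 1 => (tT L u).map (σN E n N) ≫ E.σ (n + N)

lemma StZ.of_σN {E : Spt L u} {n : ℕ} {K : Ch C L} {x : (QU L u).obj K ⟶ (QU L u).obj (E.X n)}
    (N : ℕ) (h : (presW_tN N).homMap x ≫ (QU L u).map (E.σN n N) = 0) : StZ E x := by
  have key : ∀ N : ℕ, StZ E ((presW_tN N).homMap x ≫ (QU L u).map (E.σN n N)) → StZ E x := by
    intro N
    induction N with
    | zero =>
      intro h
      have h1 : (presW_tN 0).homMap x = x := PresW.id_homMap (presW_tN 0) x
      have h2 : (QU L u).map (E.σN n 0) = 𝟙 _ := (QU L u).map_id _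
      rw [h1, h2, Category.comp_id] at h
      exact h
    | succ N ih =>
      intro h
      refine ih (StZ.step _ ?_)
      have h1 : presW_tT.homMap ((presW_tN N).homMap x) = (presW_tN (N + 1)).homMap x :=
        PresW.homMap_homMap (presW_tN N) presW_tT x
      have h2 : (QU L u).map (E.σN n (N + 1)) =
          (QU L u).map ((tT L u).map (E.σN n N)) ≫ (QU L u).map (E.σ (n + N)) :=
        (QU L u).map_comp _ _
      rw [stp, PresW.homMap_comp, PresW.homMap_map, Category.assoc, ← h2, h1]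
      exact h
  refine key N ?_
  rw [h]
  exact StZ.zero

/-- An exact functor which preserves local equivalences and is lax compatible with `- ⊗ T`. -/
structure Lax (L : Type 1) [CommRing L] (u' : C' ⥤ Scheme.{0}) (u : C ⥤ Scheme.{0}) where
  /-- the functor -/
  F : PSh C' L ⥤ PSh C L
  ex : IsExact F
  pres : PresW (NGen u') (NGen u) (mapC F)
  /-- the structure map -/
  θ : F ⋙ RS.unit.T L u ⟶ RS.unit.T L u' ⋙ F

namespace Lax

instance (Φ : Lax L u' u) : IsExact Φ.F := Φ.ex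

/-- The structure map on complexes. -/
def θc (Φ : Lax L u' u) (K : Ch C' L) :
    (tT L u).obj ((mapC Φ.F).obj K) ⟶ (mapC Φ.F).obj ((tT L u').obj K) := (chT Φ.θ).app K

/-- The image of a spectrum. -/
def spt (Φ : Lax L u' u) (E : Spt L u') : Spt L u where
  X n := (mapC Φ.F).obj (E.X n)
  σ n := Φ.θc (E.X n) ≫ (mapC Φ.F).map (E.σ n)

lemma θc_nat (Φ : Lax L u' u) {K K' : Ch C' L} (f : K ⟶ K') :
    (tT L u).map ((mapC Φ.F).map f) ≫ Φ.θc K' = Φ.θc K ≫ (mapC Φ.F).map ((tT L u').map f) :=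
  (chT Φ.θ).naturality f

/-- The image of a map of spectra. -/
def sptHom (Φ : Lax L u' u) {E E' : Spt L u'} (f : SptHom E E') : SptHom (Φ.spt E) (Φ.spt E') where
  f n := (mapC Φ.F).map (f.f n)
  comm n := by
    dsimp only [spt]
    rw [Category.assoc, ← Functor.map_comp, f.comm, Functor.map_comp, ← Category.assoc,
      ← θc_nat, Category.assoc]

lemma sptHom_isW (Φ : Lax L u' u) {E E' : Spt L u'} {f : SptHom E E'} (h : f.IsW) :
    (Φ.sptHom f).IsW := fun n => Φ.pres _ (h n)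

lemma stp_homMap (Φ : Lax L u' u) (E : Spt L u') {K : Ch C' L} {n : ℕ}
    (x : (QU L u').obj K ⟶ (QU L u').obj (E.X n)) :
    stp (Φ.spt E) (Φ.pres.homMap x) = (QU L u).map (Φ.θc K) ≫ Φ.pres.homMap (stp E x) := by
  have h1 : (Φ.pres.comp presW_tT).homMap x ≫ (QU L u).map (Φ.θc (E.X n)) =
      (QU L u).map (Φ.θc K) ≫ (presW_tT.comp Φ.pres).homMap x :=
    PresW.homMap_naturality (Φ.pres.comp presW_tT) (presW_tT.comp Φ.pres) (chT Φ.θ) x
  have h2 : (QU L u).map ((Φ.spt E).σ n) =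
      (QU L u).map (Φ.θc (E.X n)) ≫ (QU L u).map ((mapC Φ.F).map (E.σ n)) :=
    (QU L u).map_comp _ _
  rw [stp, stp, PresW.homMap_comp, PresW.homMap_map, PresW.homMap_homMap, PresW.homMap_homMap,
    h2, ← Category.assoc, h1, Category.assoc]

/-- If the functor is faithful on the sources `src q n F`, it reflects stable vanishing.
Hint: prove by induction on `StZ` that `x' = e ≫ homMap x` with `e` invertible implies `StZ E x`. -/
lemma stZ_reflect (Φ : Lax L u' u) [IsIso Φ.θ] (E : Spt L u') (q : ℤ) (F : PSh C' L)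
    (hinj : ∀ (n : ℕ) (K : Ch C' L) (x : (QU L u').obj ((src L u' q n).obj F) ⟶ (QU L u').obj K),
      Φ.pres.homMap x = 0 → x = 0) {n l : ℕ}
    (x : (QU L u').obj ((src L u' q n).obj F) ⟶ (QU L u').obj (E.X l))
    (h : StZ (Φ.spt E) (Φ.pres.homMap x)) : StZ E x := by
  have key : ∀ {l : ℕ} {K : Ch C L} {x' : (QU L u).obj K ⟶ (QU L u).obj ((Φ.spt E).X l)},
      StZ (Φ.spt E) x' → ∀ (n : ℕ)
        (x : (QU L u').obj ((src L u' q n).obj F) ⟶ (QU L u').obj (E.X l))
        (e : (QU L u).obj K ⟶ (QU L u).obj ((mapC Φ.F).obj ((src L u' q n).obj F))), IsIso e →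
        e ≫ Φ.pres.homMap x = x' → StZ E x := by
    intro l K x' h
    induction h with
    | zero =>
      intro n x e he hx
      have h0 : Φ.pres.homMap x = 0 := by
        rw [← cancel_epi e, hx, comp_zero]
      rw [hinj n _ x h0]
      exact StZ.zero
    | step x' _ ih =>
      intro n x e he hx
      have h1 := presW_tT.isIso_homMap e
      have h2 : IsIso (Φ.θc ((src L u' q n).obj F)) :=
        inferInstanceAs (IsIso ((NatIso.mapHomologicalComplex (asIso Φ.θ) _).hom.app _))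
      refine StZ.step _ (ih (n + 1) (stp E x)
        (presW_tT.homMap e ≫ (QU L u).map (Φ.θc ((src L u' q n).obj F))) inferInstance ?_)
      rw [← hx, stp_comp, stp_homMap, Category.assoc]
  exact key h n x (𝟙 _) inferInstance (Category.id_comp _)

/-- Maps of lax functors. -/
structure Hom (Φ Ψ : Lax L u' u) where
  /-- the natural transformation -/
  τ : Φ.F ⟶ Ψ.F
  comm : ∀ G, Φ.θ.app G ≫ τ.app ((RS.unit.T L u').obj G) =
    (RS.unit.T L u).map (τ.app G) ≫ Ψ.θ.app G

lemma Hom.comm_c {Φ Ψ : Lax L u' u} (τ : Φ.Hom Ψ) (K : Ch C' L) :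
    Φ.θc K ≫ (chT τ.τ).app ((tT L u').obj K) = (tT L u).map ((chT τ.τ).app K) ≫ Ψ.θc K := by
  ext n : 1
  exact τ.comm (K.X n)

/-- The map of spectra induced by a map of lax functors. -/
def Hom.spt {Φ Ψ : Lax L u' u} (τ : Φ.Hom Ψ) (E : Spt L u') : SptHom (Φ.spt E) (Ψ.spt E) where
  f n := (chT τ.τ).app (E.X n)
  comm n := by
    dsimp only [Lax.spt]
    rw [Category.assoc, (chT τ.τ).naturality, ← Category.assoc, τ.comm_c, Category.assoc]

/-- Composition of lax functors. -/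
def comp (Φ : Lax L u'' u') (Ψ : Lax L u' u) : Lax L u'' u where
  F := Φ.F ⋙ Ψ.F
  ex := inferInstance
  pres := Φ.pres.comp Ψ.pres
  θ := { app := fun G => Ψ.θ.app (Φ.F.obj G) ≫ Ψ.F.map (Φ.θ.app G)
         naturality := fun G G' f => by
          have h1 := Ψ.θ.naturality (Φ.F.map f)
          have h2 := Ψ.F.congr_map (Φ.θ.naturality f)
          simp only [Functor.comp_map, Functor.map_comp] at h1 h2 ⊢
          rw [← Category.assoc, h1, Category.assoc, h2, Category.assoc] }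

/-- The comparison of the two ways to apply a composite to a spectrum. -/
def compHom (Φ : Lax L u'' u') (Ψ : Lax L u' u) (E : Spt L u'') :
    SptHom (Ψ.spt (Φ.spt E)) ((Φ.comp Ψ).spt E) where
  f _ := 𝟙 _
  comm n := by
    rw [Category.comp_id, CategoryTheory.Functor.map_id, Category.id_comp]
    ext i : 1
    change Ψ.θ.app (Φ.F.obj ((E.X n).X i)) ≫ Ψ.F.map (Φ.θ.app ((E.X n).X i) ≫
      Φ.F.map ((E.σ n).f i)) = (Ψ.θ.app (Φ.F.obj ((E.X n).X i)) ≫
        Ψ.F.map (Φ.θ.app ((E.X n).X i))) ≫ Ψ.F.map (Φ.F.map ((E.σ n).f i))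
    rw [Functor.map_comp, Category.assoc]

variable (L) in
/-- The lax functor attached to a sum. -/
def ofSm {X : SP C} (lam : El X ⥤ C') (π : lam ⋙ u' ⟶ El.proj X ⋙ u) (a b : X.Sub)
    (h : LiftsNb u u' lam a b) : Lax L u' u where
  F := pb L lam ⋙ sm a b L
  ex := inferInstance
  pres := presW_sm lam π h
  θ := smθ L RS.unit lam π a b

variable (L) in
/-- Enlarging the subpresheaves is a map of lax functors. -/
def smLeHom {X : SP C} (lam : El X ⥤ C') (π : lam ⋙ u' ⟶ El.proj X ⋙ u) {a b a' b' : X.Sub}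
    (h : LiftsNb u u' lam a b) (h' : LiftsNb u u' lam a' b') (ha : a.Le a')
    (hb : (a.inf b).Le b') : (ofSm L lam π a b h).Hom (ofSm L lam π a' b' h') where
  τ := Functor.whiskerLeft (pb L lam) (smLe L ha hb)
  comm := by
    intro G
    refine RS.unit.hom_ext fun W r g => ?_
    induction g using sm_induction with
    | zero => rw [map_zero, map_zero, map_zero]
    | add m m' h h' => rw [map_add, map_add, map_add, h, h']
    | gen x g hx _ =>
      have h1 := smθ_I RS.unit lam π a b G ⟨W, x⟩ r g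
      have h2 := smLe_I ha hb ((pb L lam).obj ((RS.unit.T L u').obj G)) ⟨W, x⟩ hx
        (RS.unit.tp G (lam.obj ⟨W, x⟩) ((π.app ⟨W, x⟩).appTop r) g)
      have h3 := RS.unit.T_map_tp ((smLe L ha hb).app ((pb L lam).obj G)) W r
        (smI a b ((pb L lam).obj G) ⟨W, x⟩ g)
      have h4 := smLe_I ha hb ((pb L lam).obj G) ⟨W, x⟩ hx g
      have h5 := smθ_I RS.unit lam π a' b' G ⟨W, x⟩ r g
      refine ((congrArg _ h1).trans h2).trans (h5.symm.trans ?_)
      exact congrArg _ ((congrArg _ h4.symm).trans h3.symm)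

variable (L) in
/-- The lax functor attached to a restriction. -/
def ofPb (φ : C ⥤ C') (hu : IsSite (φ ⋙ u')) (hu' : IsSite u') : Lax L u' (φ ⋙ u') where
  F := pb L φ
  ex := inferInstance
  pres := presW_pb φ hu hu'
  θ := 𝟙 _

instance (φ : C ⥤ C') (hu : IsSite (φ ⋙ u')) (hu' : IsSite u') : IsIso (ofPb L φ hu hu').θ :=
  inferInstanceAs (IsIso (𝟙 _))

end Lax

/-- Restriction commutes with the formation of the sources. -/
lemma nonempty_src_pb (φ : C ⥤ C') (q : ℤ) (n : ℕ) (F : PSh C' L) :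
    Nonempty ((mapC (pb L φ)).obj ((src L u' q n).obj F) ≅
      (src L (φ ⋙ u') q n).obj ((pb L φ).obj F)) := by
  induction n with
  | zero => exact ⟨(HomologicalComplex.singleMapHomologicalComplex (pb L φ) _ q).app F⟩
  | succ n ih => exact ⟨(tT L (φ ⋙ u')).mapIso ih.some⟩

lemma nonempty_src_add (q : ℤ) (n N : ℕ) (F : PSh C L) :
    Nonempty ((mapC (tN L u N)).obj ((src L u q n).obj F) ≅ (src L u q (n + N)).obj F) := by
  induction N with
  | zero => exact ⟨Iso.refl _⟩
  | succ N ih => exact ⟨(tT L u).mapIso ih.some⟩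

lemma nonempty_src_sgl (q : ℤ) (n : ℕ) (F : PSh C L) :
    Nonempty ((src L u q n).obj F ≅ (sgl q).obj ((tN L u n).obj F)) := by
  induction n with
  | zero => exact ⟨Iso.refl _⟩
  | succ n ih =>
    exact ⟨(tT L u).mapIso ih.some ≪≫
      (HomologicalComplex.singleMapHomologicalComplex (RS.unit.T L u) _ q).app _⟩

lemma pb_unit (φ : C ⥤ C') : (pb L φ).obj (𝟙_ (PSh C' L)) = 𝟙_ (PSh C L) := rfl

/-- A map into a single complex from a map of presheaves. -/
def toSgl (Φ : PSh C' L ⥤ PSh C L) [Φ.Additive] {G : PSh C' L} {M : PSh C L} (c : Φ.obj G ⟶ M) :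
    (mapC Φ).obj ((sgl 0).obj G) ⟶ (sgl 0).obj M :=
  (HomologicalComplex.singleMapHomologicalComplex Φ _ 0).hom.app G ≫ (sgl 0).map c

lemma Spt_toSgl_f (Φ : PSh C' L ⥤ PSh C L) [Φ.Additive] {G : PSh C' L} {M : PSh C L}
    (c : Φ.obj G ⟶ M) : (toSgl Φ c).f 0 =
      Φ.map (HomologicalComplex.singleObjXSelf (ComplexShape.up ℤ) 0 G).hom ≫ c ≫
        (HomologicalComplex.singleObjXSelf (ComplexShape.up ℤ) 0 M).inv := by
  rw [toSgl, HomologicalComplex.comp_f, HomologicalComplex.singleMapHomologicalComplex_hom_app_self,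
    HomologicalComplex.single_map_f_self, Category.assoc, Iso.inv_hom_id_assoc]

lemma toSgl_comp (Φ : PSh C' L ⥤ PSh C L) [Φ.Additive] {G : PSh C' L} {M M' : PSh C L}
    (c : Φ.obj G ⟶ M) (c' : M ⟶ M') : toSgl Φ c ≫ (sgl 0).map c' = toSgl Φ (c ≫ c') := by
  rw [toSgl, toSgl, Category.assoc, Functor.map_comp]

lemma chT_toSgl {Φ Φ' : PSh C' L ⥤ PSh C L} [Φ.Additive] [Φ'.Additive] (τ : Φ ⟶ Φ')
    {G : PSh C' L} {M : PSh C L} (c : Φ'.obj G ⟶ M) :
    (chT τ).app ((sgl 0).obj G) ≫ toSgl Φ' c = toSgl Φ (τ.app G ≫ c) := by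
  refine HomologicalComplex.to_single_hom_ext ?_
  rw [HomologicalComplex.comp_f, Spt_toSgl_f, Spt_toSgl_f, Category.assoc,
    τ.naturality_assoc]
  rfl

lemma map_toSgl (Φ : PSh C'' L ⥤ PSh C' L) [Φ.Additive] (Ψ : PSh C' L ⥤ PSh C L) [Ψ.Additive]
    {G : PSh C'' L} {M : PSh C' L} {M' : PSh C L} (c : Φ.obj G ⟶ M) (c' : Ψ.obj M ⟶ M') :
    (mapC Ψ).map (toSgl Φ c) ≫ toSgl Ψ c' = toSgl (Φ ⋙ Ψ) (Ψ.map c ≫ c') := by
  refine HomologicalComplex.to_single_hom_ext ?_
  rw [HomologicalComplex.comp_f, Spt_toSgl_f, Spt_toSgl_f,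
    Functor.mapHomologicalComplex_map_f, Spt_toSgl_f, ← Functor.map_comp_assoc, Category.assoc,
    Category.assoc, Iso.inv_hom_id, Category.comp_id, Functor.map_comp, Category.assoc,
    Category.assoc]
  rfl

lemma toSgl_id {G M : PSh C L} (c : G ⟶ M) : toSgl (𝟭 _) (G := G) c = (sgl 0).map c := by
  refine HomologicalComplex.to_single_hom_ext ?_
  rw [Spt_toSgl_f, HomologicalComplex.single_map_f_self]
  rfl

lemma wg_toSgl (Φ : PSh C' L ⥤ PSh C L) [Φ.Additive] {G : PSh C' L} {M : PSh C L}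
    {c : Φ.obj G ⟶ M} (h : LocInj u c) (h' : LocSurj u c) : WG (NGen u) (toSgl Φ c) := by
  exact WG.comp (WG.of_isIso _) (WG.of_nis ((wg_nis_sgl_iff c 0).2 ⟨h, h'⟩))

lemma voev_σ (m n : ℕ) : (voev L u m).σ n =
    toSgl (RS.unit.T L u) (Functor.whiskerLeft u.op (bond L m finSuccEquivLast)) := rfl

end Pool.Agent.KEW
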