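import Pool.Agent.P.MP_6277db_ag.KEW.L9.PD
import Pool.Agent.P.MP_6277db_ag.KEW.L9.Spt
import Pool.Agent.P.MP_6277db_ag.KEW.L2b.Push

/-!
KEW, layer L9: the object `P / (P - U)` is a power of the Tate object.
-/

set_option backward.isDefEq.respectTransparency false

noncomputable section

open CategoryTheory Limits AlgebraicGeometry Opposite

namespace Pool.Agent.KEW

namespace PD

variable {A : Type} [CommRing A] {N : ℕ} (D : PD A N) {C : Type 1} [Category.{0} C]
  (L : Type 1) [CommRing L] (s : C ⥤ Big A) (r : Fin (N + 1))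

/-- The presheaf of maps to `P`. -/
abbrev PX : SP C := SP.yon s D.P.obj

/-- The slice of the site over `P`. -/
abbrev Sl : Type 1 := El (D.PX s)

/-- The structure functor of the slice. -/
abbrev sl : D.Sl s ⥤ Big A := El.proj (D.PX s) ⋙ s

/-- The maps to `P` which miss the set `Z`. -/
def avoidSub (Z : Set D.S) : (D.PX s).Sub := ⟨fun v => D.Avoid Z v, fun f _ h => h.comp (s.map f)⟩

/-- The maps to `P` with image in a chart. -/
def inUSub (b : Fin (N + 1)) : (D.PX s).Sub := ⟨fun v => D.InU b v, fun f _ h => h.comp (s.map f)⟩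

/-- The maps to `P` which miss the origin of the chart `r`. -/
def away0 : (D.PX s).Sub where
  mem {W} v := ∀ w, ¬ EqAt ((big A).map v) ((big A).map (D.pt r (s.obj W) 0)) w
  res {V W} f v h w hw := h ((big A).map (s.map f) w) (by
    rw [← D.eqAt_comp, D.comp_pt]
    have e : (fun i : Fin N => ((big A).map (s.map f)).appTop
        ((0 : Fin N → Γ((big A).obj (s.obj W), ⊤)) i)) = 0 := funext fun _ => map_zero _
    rw [e]
    exact hw)

/-- The functor `- ⊗ P / (P - U r)`. -/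
abbrev K : PSh C L ⥤ PSh C L := pb L (El.proj (D.PX s)) ⋙ sm .top (D.avoidSub s (D.U r)) L

/-- The functor `- ⊗ P / (P - 0)`. -/
abbrev K0 : PSh C L ⥤ PSh C L := pb L (El.proj (D.PX s)) ⋙ sm .top (D.away0 s r) L

/-- The generators of `K F`. -/
def eK (F : PSh C L) (W : C) (v : s.obj W ⟶ D.P.obj) :
    F.obj (op W) →ₗ[L] ((D.K L s r).obj F).obj (op W) :=
  smI .top (D.avoidSub s (D.U r)) ((pb L (El.proj (D.PX s))).obj F) ⟨W, v⟩

lemma avoid_le_away0 : (SP.Sub.inf .top (D.avoidSub s (D.U r))).Le (D.away0 s r) :=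
  fun W v h w hw => h.2 w (hw.eq ▸ D.inU_pt r (s.obj W) 0 w)

/-- The map `P / (P - U r) ⟶ P / (P - 0)`. -/
def al0 : D.K L s r ⟶ D.K0 L s r :=
  Functor.whiskerLeft _ (smLe L (fun _ _ h => h) (D.avoid_le_away0 s r))

/-- The chart `r` as a map of presheaves of sets. -/
def ptHom : (OS (s ⋙ big A) (Fin N)).Hom (D.PX s) where
  app {W} y := D.pt r (s.obj W) y
  nat f y := (D.comp_pt (s.map f) r y).symm

lemma ptHom_unit ⦃W : C⦄ (y : (OS (s ⋙ big A) (Fin N)).obj W)
    (h : (unitSub (s ⋙ big A) (Fin N)).mem y) : (D.away0 s r).mem ((D.ptHom s r).app y) := by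
  obtain ⟨i, hi⟩ := h
  intro w hw
  refine (D.eqAt_pt r y 0 w).1 hw i ?_
  rw [Pi.zero_apply, sub_zero]
  exact (Scheme.basicOpen_of_isUnit _ hi).ge trivial

/-- The map `T^N ⟶ P / (P - 0)`. -/
def be0 : tN L (s ⋙ big A) N ⟶ D.K0 L s r :=
  (tNIso L (s ⋙ big A) N).hom ≫ smPush L (lam := El.proj _) (lam' := El.proj _) (D.ptHom s r) (𝟙 _)
    (fun _ _ h => h) (fun _ y _ h => D.ptHom_unit s r y h)

lemma presK : PresW (NGen (s ⋙ big A)) (NGen (s ⋙ big A)) (mapC (D.K L s r)) := presW_sm_proj _ _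

lemma presK0 : PresW (NGen (s ⋙ big A)) (NGen (s ⋙ big A)) (mapC (D.K0 L s r)) :=
  presW_sm_proj _ _

section mul

variable {V W : Big A} {v : W ⟶ D.P.obj} {b : Fin (N + 1)}

/-- Multiplication of the coordinate `k` in the chart `b` by a function. -/
def Kap_mul (b : Fin (N + 1)) (k : Fin N) (v : W ⟶ D.P.obj) (ρ : Γ((big A).obj W, ⊤)) :
    W ⟶ D.P.obj := D.pt b W (Function.update (D.crd b v) k (ρ * D.crd b v k))

lemma Kap_crd (hv : D.InU b v) (j : Fin N) (w : (big A).obj W) :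
    (big A).map v w ∈ D.U (b.succAbove j) ↔ w ∈ ((big A).obj W).basicOpen (D.crd b v j) := by
  rw [← D.pt_mem_iff, D.pt_crd hv]

lemma Kap_mul_comp (f : V ⟶ W) (hv : D.InU b v) (k : Fin N) (ρ : Γ((big A).obj W, ⊤)) :
    f ≫ D.Kap_mul b k v ρ = D.Kap_mul b k (f ≫ v) (((big A).map f).appTop ρ) := by
  rw [Kap_mul, Kap_mul, D.comp_pt, D.crd_comp f hv]
  refine congrArg _ (funext fun i => ?_)
  by_cases h : i = k
  · subst h
    rw [Function.update_self, Function.update_self, map_mul]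
  · rw [Function.update_of_ne h, Function.update_of_ne h]

lemma Kap_mul_one (hv : D.InU b v) (k : Fin N) : D.Kap_mul b k v 1 = v := by
  rw [Kap_mul, one_mul, Function.update_eq_self, D.pt_crd hv]

lemma Kap_mul_zero (b : Fin (N + 1)) (k : Fin N) (v : W ⟶ D.P.obj) :
    D.Avoid (D.U (b.succAbove k)) (D.Kap_mul b k v 0) := fun w hw => by
  have h1 := (D.pt_mem_iff _ k _ w).1 hw
  rw [Function.update_self, zero_mul, Scheme.basicOpen_zero] at h1
  exact h1

lemma Kap_mul_eq (hv : D.InU b v) (k : Fin N) (ρ : Γ((big A).obj W, ⊤)) (w : (big A).obj W)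
    (hw : (big A).map (D.Kap_mul b k v ρ) w ∈ D.U (b.succAbove k)) :
    (big A).map v w ∈ D.U (b.succAbove k) := by
  have h1 := (D.pt_mem_iff _ k _ w).1 hw
  rw [Function.update_self, Scheme.basicOpen_mul] at h1
  exact (D.Kap_crd hv k w).2 h1.2

lemma Kap_mul_ne (hv : D.InU b v) {j k : Fin N} (h : j ≠ k) (ρ : Γ((big A).obj W, ⊤))
    (w : (big A).obj W) (hw : (big A).map v w ∈ D.U (b.succAbove j)) :
    (big A).map (D.Kap_mul b k v ρ) w ∈ D.U (b.succAbove j) := by
  refine (D.pt_mem_iff _ j _ w).2 ?_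
  rw [Function.update_of_ne h]
  exact (D.Kap_crd hv j w).1 hw

end mul

lemma Kap_eqAt {V W : Big A} (f : V ⟶ W) (v : W ⟶ D.P.obj) (w : (big A).obj V) :
    EqAt ((big A).map (f ≫ v)) ((big A).map (D.pt r V 0)) w ↔
      EqAt ((big A).map v) ((big A).map (D.pt r W 0)) ((big A).map f w) := by
  have e : (fun i : Fin N => ((big A).map f).appTop ((0 : Fin N → Γ((big A).obj W, ⊤)) i)) = 0 :=
    funext fun _ => map_zero _
  rw [← D.eqAt_comp, D.comp_pt, e]

lemma Kap_inU (hu : IsSite (s ⋙ big A)) {W : C} (v : s.obj W ⟶ D.P.obj) {b : Fin (N + 1)}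
    {w : (big A).obj (s.obj W)} (h : (big A).map v w ∈ D.U b) :
    Locally (s ⋙ big A) W w fun _ f => D.InU b (s.map f ≫ v) :=
  (hu.locally_open ((D.isOpen_U b).preimage ((big A).map v).continuous) h).mono
    fun _ _ hf y => by
      rw [Functor.map_comp]
      exact hf ⟨y, rfl⟩

lemma Kap_cover (hu : IsSite (s ⋙ big A)) {W : C} (v : s.obj W ⟶ D.P.obj)
    (w : (big A).obj (s.obj W)) (hv : (D.away0 s r).mem v) :
    ∃ i, (big A).map v w ∈ D.U (r.succAbove i) := by
  obtain ⟨b, hb⟩ := D.cover ((big A).map v w)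
  by_cases h : b = r
  · subst h
    obtain ⟨V, f, y, ⟨-, rfl, -⟩, hf⟩ := D.Kap_inU s hu v hb
    have h1 := (D.away0 s b).res f hv y
    change ¬ EqAt ((big A).map (s.map f ≫ v)) _ _ at h1
    rw [← D.pt_crd hf, D.eqAt_pt, not_forall] at h1
    obtain ⟨i, hi⟩ := h1
    rw [not_not, Pi.zero_apply, sub_zero, ← D.pt_mem_iff, D.pt_crd hf, Functor.map_comp] at hi
    exact ⟨i, hi⟩
  · obtain ⟨i, rfl⟩ := Fin.exists_succAbove_eq h
    exact ⟨i, hb⟩

/-- Hint: the kernel is the sum over the pair `(away0, avoid (U r))` (`smSC_shortExact`,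
`wg_g_iff`); cover it by the `inUSub (r.succAbove i)` (`loc_sm_of_cover`, `cover`, `eqAt_pt`);
on a nonempty intersection fix one chart `b = r.succAbove i₀`, write `r = b.succAbove k` and
contract by multiplying the coordinate `k` (`loc_sm_of_homotopy`, `pt_mem_iff`). -/
theorem wg_al0 (hu : IsSite (s ⋙ big A)) (F : Ch C L) :
    WG (NGen (s ⋙ big A)) ((chT (D.al0 L s r)).app F) := by
  classical
  refine (wg_g_iff (smSC_shortExact (a₁ := D.away0 s r) (b₁ := D.avoidSub s (D.U r))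
    (fun _ _ _ => trivial) (fun _ _ h => h.2) (fun _ _ h => h) (D.avoid_le_away0 s r)
    (fun _ _ h => h) (fun _ _ h => h.2) (fun _ _ h => Or.inl h) (fun _ _ h => Or.inl h.2)
    ((mapC (pb L (El.proj (D.PX s)))).obj F))).2 ?_
  refine loc_sm_of_cover (u := s ⋙ big A) (fun _ h => h.loc) Finset.univ _ _
    (fun i => D.inUSub s (r.succAbove i)) _ (fun W v w hv => ?_) fun t _ ⟨i₀, hi₀⟩ => ?_
  · obtain ⟨i, hi⟩ := D.Kap_cover s r hu v w hv
    exact (D.Kap_inU s hu v hi).mono fun V f hf => Or.inr ⟨i, Finset.mem_univ i, hf⟩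
  obtain ⟨k, hk⟩ := Fin.exists_succAbove_eq (Fin.succAbove_ne r i₀).symm
  have hU : D.U r = D.U ((r.succAbove i₀).succAbove k) := by rw [hk]
  refine loc_sm_of_homotopy (u := s ⋙ big A) ((D.away0 s r).infFin
      (fun i => D.inUSub s (r.succAbove i)) t) (D.avoidSub s (D.U r))
    (fun v ρ => D.Kap_mul (r.succAbove i₀) k v ρ)
    (fun f v ρ hv => D.Kap_mul_comp (s.map f) (hv.2 i₀ hi₀) k ρ)
    (fun v ρ hv => ⟨fun w hw => ?_, fun i hi w => ?_⟩)
    (fun v ρ hv hv' w hw => hv' w ?_) (fun v hv => D.Kap_mul_one (hv.2 i₀ hi₀) k)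
    (fun v hv w hw => D.Kap_mul_zero _ k v w (hU.le hw)) F
  · have h1 := (D.pt_mem_iff r i₀ 0 w).1 (hw.eq ▸ D.inU_pt _ _ _ w)
    rw [Pi.zero_apply, Scheme.basicOpen_zero] at h1
    exact h1
  · by_cases h : r.succAbove i = r.succAbove i₀
    · rw [h]
      exact D.inU_pt _ _ _ w
    · obtain ⟨j, hj⟩ := Fin.exists_succAbove_eq h
      have h1 : j ≠ k := fun e => Fin.succAbove_ne r i (by rw [← hj, e, hk])
      have h2 := hv.2 i hi w
      rw [← hj] at h2 ⊢
      exact D.Kap_mul_ne (hv.2 i₀ hi₀) h1 ρ w h2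
  · exact hU.ge (D.Kap_mul_eq (hv.2 i₀ hi₀) k ρ w (hU.le hw))

/-- Hint: `wg_smPush`, `eqAt_pt`, `isClosed_eqAt`, `IsSite.locally_open`; a function which does not
vanish at a point is a unit on an open neighbourhood. -/
theorem wg_be0 (hu : IsSite (s ⋙ big A)) (F : Ch C L) :
    WG (NGen (s ⋙ big A)) ((chT (D.be0 L s r)).app F) := by
  rw [be0, chT, NatTrans.mapHomologicalComplex_comp, NatTrans.comp_app]
  refine WG.comp ?_ (WG.of_nis (wg_smPush _ _ _ _ (fun W y w _ h => ?_)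
    (fun W y y' w _ _ h => Locally.of_forall w (Or.inl (congrArg _ (D.pt_injective r _ h))))
    (fun W v w _ => ?_) F))
  · have := (NatIso.mapHomologicalComplex (tNIso L (s ⋙ big A) N) (ComplexShape.up ℤ)).app F
      |>.isIso_hom
    exact WG.of_isIso
      ((NatIso.mapHomologicalComplex (tNIso L (s ⋙ big A) N) (ComplexShape.up ℤ)).app F).hom
  · have h1 := mt (D.eqAt_pt r y 0 w).2 (h w)
    rw [not_forall] at h1
    obtain ⟨i, hi⟩ := h1
    rw [not_not, Pi.zero_apply, sub_zero] at hi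
    refine (hu.locally_open (Scheme.basicOpen _ (y i)).isOpen hi).mono fun V f hf => ⟨i, ?_⟩
    refine RingedSpace.isUnit_of_isUnit_germ _ ⊤ _ fun x _ =>
      (Scheme.mem_basicOpen_top _ _ x).1 ?_
    change x ∈ Scheme.basicOpen _ (((s ⋙ big A).map f).appTop (y i))
    rw [← Scheme.preimage_basicOpen_top]
    exact hf ⟨x, rfl⟩
  · by_cases h : EqAt ((big A).map v) ((big A).map (D.pt r (s.obj W) 0)) w
    · exact (D.Kap_inU s hu v (h.eq ▸ D.inU_pt r _ 0 w)).mono fun V f hf =>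
        Or.inr ⟨D.crd r (s.map f ≫ v), trivial, D.pt_crd hf⟩
    · exact (hu.locally_open (D.isClosed_eqAt v (D.pt r _ 0)).isOpen_compl h).mono
        fun V f hf => Or.inl fun y hy => hf ⟨y, rfl⟩ ((D.Kap_eqAt r (s.map f) v y).1 hy)

end PD

end Pool.Agent.KEW
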