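import Pool.Agent.P.MP_6277db_ag.KEW.L9.Dat
import Pool.Agent.P.MP_6277db_ag.KEW.L2b.Sigma

/-!
KEW, layer L9: moving the centre of the chart from the tautological point to the origin.
-/

set_option backward.isDefEq.respectTransparency false
set_option linter.unusedSectionVars false

noncomputable section

open CategoryTheory Limits AlgebraicGeometry Opposite

namespace Pool.Agent.KEW

section general

variable {C : Type 1} [Category.{0} C] {C' : Type 1} [Category.{0} C'] {C'' : Type 1}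
  [Category.{0} C''] {L : Type 1} [CommRing L] {X X' : SP C}

lemma KapB_comp {F F' F'' : PSh C' L ⥤ PSh C L} [F.Additive] [F'.Additive] [F''.Additive]
    (τ : F ⟶ F') (τ' : F' ⟶ F'') (K : Ch C' L) :
    (chT (τ ≫ τ')).app K = (chT τ).app K ≫ (chT τ').app K := rfl

lemma KapB_whisker (R : PSh C'' L ⥤ PSh C' L) {F F' : PSh C' L ⥤ PSh C L} [R.Additive]
    [F.Additive] [F'.Additive] (τ : F ⟶ F') (K : Ch C'' L) :
    (chT (Functor.whiskerLeft R τ)).app K = (chT τ).app ((mapC R).obj K) := rfl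

lemma KapB_wg_iso {Gn : Ch C L → Prop} {F F' : PSh C' L ⥤ PSh C L} [F.Additive] [F'.Additive]
    (τ : F ⟶ F') [IsIso τ] (K : Ch C' L) : WG Gn ((chT τ).app K) :=
  have := ((NatIso.mapHomologicalComplex (asIso τ) (ComplexShape.up ℤ)).app K).isIso_hom
  WG.of_isIso ((NatIso.mapHomologicalComplex (asIso τ) (ComplexShape.up ℤ)).app K).hom

/-- A subpresheaf as a presheaf of sets. -/
def KapB_sub (a : X.Sub) : SP C where
  obj W := {x : X.obj W // a.mem x}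
  res f x := ⟨X.res f x.1, a.res f x.2⟩
  res_id W x := Subtype.ext (X.res_id W x.1)
  res_comp f g x := Subtype.ext (X.res_comp f g x.1)

/-- The inclusion of a subpresheaf. -/
def KapB_inc (a : X.Sub) : (KapB_sub a).Hom X := ⟨fun x => x.1, fun _ _ => rfl⟩

/-- The trace of `b` on `a`. -/
def KapB_tr (a b : X.Sub) : (KapB_sub a).Sub := ⟨fun x => b.mem x.1, fun f _ h => b.res f h⟩

/-- The inverse of the map given by the inclusion. -/
def KapB_cone (lam : El X ⥤ C') (a b : X.Sub) (G : PSh C' L) : SmCone a b ((pb L lam).obj G)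
    (smObj .top (KapB_tr a b) ((pb L ((KapB_inc a).el ⋙ lam)).obj G)) where
  φ p ha := smI .top (KapB_tr a b) ((pb L ((KapB_inc a).el ⋙ lam)).obj G) ⟨p.W, ⟨p.x, ha⟩⟩
  nat {p q} f ha g := smObj_map_I (a := .top) (b := KapB_tr a b)
    ((pb L ((KapB_inc a).el ⋙ lam)).obj G) (p := ⟨p.W, ⟨p.x, El.mem_of_hom f ha⟩⟩)
    (q := ⟨q.W, ⟨q.x, ha⟩⟩) ⟨f.1, Subtype.ext f.2⟩ trivial g
  zero p ha g hb := smI_of_b (a := .top) (b := KapB_tr a b)
    (G := (pb L ((KapB_inc a).el ⋙ lam)).obj G) (p := ⟨p.W, ⟨p.x, ha⟩⟩) hb g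

lemma KapB_exists_restr (lam : El X ⥤ C') (a b : X.Sub) :
    ∃ ρ : pb L lam ⋙ sm a b L ⟶ pb L ((KapB_inc a).el ⋙ lam) ⋙ sm .top (KapB_tr a b) L,
      IsIso ρ ∧ ∀ (G : PSh C' L) (W : C) (x : X.obj W) (hx : a.mem x)
        (g : G.obj (op (lam.obj ⟨W, x⟩))),
        ((ρ.app G).app (op W)).hom (smI a b ((pb L lam).obj G) ⟨W, x⟩ g) =
          smI .top (KapB_tr a b) ((pb L ((KapB_inc a).el ⋙ lam)).obj G) ⟨W, ⟨x, hx⟩⟩ g := by
  let e : pb L ((KapB_inc a).el ⋙ lam) ⋙ sm .top (KapB_tr a b) L ⟶ pb L lam ⋙ sm a b L :=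
    smPush L (KapB_inc a) (𝟙 _) (fun _ x _ => x.2) (fun _ _ _ h => h)
  have he : ∀ (G : PSh C' L) (p : El (KapB_sub a)) (g : G.obj (op (lam.obj ⟨p.W, p.x.1⟩))),
      ((e.app G).app (op p.W)).hom
        (smI .top (KapB_tr a b) ((pb L ((KapB_inc a).el ⋙ lam)).obj G) p g) =
      smI a b ((pb L lam).obj G) ⟨p.W, p.x.1⟩ g := fun G p g =>
    (smPush_I (KapB_inc a) (𝟙 _) (fun _ x _ => x.2) (fun _ _ _ h => h) G p trivial g).trans
      (congrArg _ (Site_id G g))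
  have h1 : ∀ G : PSh C' L, IsIso (e.app G) := fun G => ⟨(KapB_cone lam a b G).desc,
    sm_hom_ext fun p g _ _ => (congrArg _ (he G p g)).trans
      ((KapB_cone lam a b G).desc_I ⟨p.W, p.x.1⟩ p.x.2 g),
    sm_hom_ext fun p g ha _ => (congrArg ((e.app G).app (op p.W)).hom
      ((KapB_cone lam a b G).desc_I p ha g)).trans (he G ⟨p.W, ⟨p.x, ha⟩⟩ g)⟩
  have h2 : IsIso e := NatIso.isIso_of_isIso_app e
  refine ⟨inv e, inferInstance, fun G W x hx g => ?_⟩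
  exact (congrArg _ (he G ⟨W, ⟨x, hx⟩⟩ g).symm).trans
    (congrArg (fun k => ((NatTrans.app k G).app (op W)).hom (smI .top (KapB_tr a b)
      ((pb L ((KapB_inc a).el ⋙ lam)).obj G) ⟨W, ⟨x, hx⟩⟩ g)) (IsIso.hom_inv_id e))

/-- Maps of sums given by a map defined on `a` only. -/
lemma KapB_exists_push {u : C ⥤ Scheme.{0}} (lam : El X ⥤ C') (lam' : El X' ⥤ C') (a b : X.Sub)
    (a' b' : X'.Sub) (t : (KapB_sub a).Hom X') (μ : t.el ⋙ lam' ⟶ (KapB_inc a).el ⋙ lam) [IsIso μ]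
    (ha : ∀ (W : C) (x : (KapB_sub a).obj W), a'.mem (t.app x))
    (hb : ∀ (W : C) (x : (KapB_sub a).obj W), b.mem x.1 → b'.mem (t.app x)) :
    ∃ k : pb L lam ⋙ sm a b L ⟶ pb L lam' ⋙ sm a' b' L,
      (∀ (G : PSh C' L) (W : C) (x : X.obj W) (hx : a.mem x) (g : G.obj (op (lam.obj ⟨W, x⟩))),
        ((k.app G).app (op W)).hom (smI a b ((pb L lam).obj G) ⟨W, x⟩ g) =
          smI a' b' ((pb L lam').obj G) ⟨W, t.app ⟨x, hx⟩⟩
            ((G.map (μ.app ⟨W, ⟨x, hx⟩⟩).op).hom g)) ∧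
      ((∀ (W : C) (x : (KapB_sub a).obj W) (w : u.obj W), b'.mem (t.app x) →
          Locally u W w fun _ f => b.mem (X.res f x.1)) →
        (∀ (W : C) (x x' : (KapB_sub a).obj W), t.app x = t.app x' → x = x') →
        (∀ (W : C) (x' : X'.obj W) (w : u.obj W), a'.mem x' →
          Locally u W w fun V f => b'.mem (X'.res f x') ∨
            ∃ x : (KapB_sub a).obj V, t.app x = X'.res f x') →
        ∀ K : Ch C' L, WG (NGen u) ((chT k).app K)) := by
  obtain ⟨ρ, h1, h2⟩ := KapB_exists_restr (L := L) lam a b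
  refine ⟨ρ ≫ smPush L t μ (fun W x _ => ha W x) (fun W x _ h => hb W x h),
    fun G W x hx g => (congrArg _ (h2 G W x hx g)).trans
      (smPush_I t μ (fun W x _ => ha W x) (fun W x _ h => hb W x h) G ⟨W, ⟨x, hx⟩⟩ trivial g),
    fun h₁ h₂ h₃ K => ?_⟩
  rw [KapB_comp]
  exact (KapB_wg_iso ρ K).comp (WG.of_nis (wg_smPush _ _ _ _ (fun W x w _ h => h₁ W x w h)
    (fun W x x' w _ _ h => Locally.of_forall w (Or.inl (congrArg _ (h₂ W x x' h))))
    (fun W x' w h => (h₃ W x' w h).mono fun V f hf =>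
      hf.imp id fun ⟨x, hx⟩ => ⟨x, trivial, hx⟩) K))

end general

variable {A : Type} [CommRing A] [IsNoetherianRing A] [IsLocalRing A]

namespace PD

variable {N : ℕ} (D : PD A N) (L : Type 1) [CommRing L] (r : Fin (N + 1)) (Z : Set D.S)

/-- Pairs of a function and a second map to `P`, on objects over the generic point. -/
def XI : SP D.SP' where
  obj c := Γ((big A).obj ((smBig A).obj c.W), ⊤) × D.XQ.obj c
  res f p := (((big A).map ((smBig A).map f.1)).appTop p.1, D.XQ.res f p.2)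
  res_id c p := Prod.ext (by simp) (D.XQ.res_id c p.2)
  res_comp f g p := Prod.ext (by simp) (D.XQ.res_comp f g p.2)

/-- The projection. -/
def XIsnd : D.XI.Hom D.XQ := ⟨fun p => p.2, fun _ _ => rfl⟩

/-- Restriction of functions. -/
abbrev KapB_res {c' c : D.SP'} (f : c' ⟶ c) (s : Γ((big A).obj ((smBig A).obj c.W), ⊤)) :
    Γ((big A).obj ((smBig A).obj c'.W), ⊤) := ((big A).map ((smBig A).map f.1)).appTop s

lemma KapB_res_one {c' c : D.SP'} (f : c' ⟶ c) : D.KapB_res f 1 = 1 := map_one _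

lemma KapB_res_zero {c' c : D.SP'} (f : c' ⟶ c) : D.KapB_res f 0 = 0 := map_zero _

/-- The map `v` misses the point `s u`, where `u` is the tautological point of the chart. -/
def Away (c : D.SP') (s : Γ((big A).obj ((smBig A).obj c.W), ⊤)) (v : c.W.obj ⟶ D.P.obj) : Prop :=
  ∀ w, ¬ EqAt ((big A).map v)
    ((big A).map (D.pt r ((smBig A).obj c.W) fun i => s * D.crd r c.x i)) w

lemma KapB_crd {c' c : D.SP'} (f : c' ⟶ c) (hc : D.InU r c.x) (i : Fin N) :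
    D.crd r c'.x i = ((big A).map ((smBig A).map f.1)).appTop (D.crd r c.x i) := by
  exact (congrArg (fun v => D.crd r v i) f.2.symm).trans
    (congrFun (D.crd_comp ((smBig A).map f.1) hc) i)

lemma KapB_pt {c' c : D.SP'} (f : c' ⟶ c) (hc : D.InU r c.x)
    (s : Γ((big A).obj ((smBig A).obj c.W), ⊤)) :
    (smBig A).map f.1 ≫ (D.pt r ((smBig A).obj c.W) fun i => s * D.crd r c.x i) =
      D.pt r ((smBig A).obj c'.W) fun i =>
        ((big A).map ((smBig A).map f.1)).appTop s * D.crd r c'.x i := by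
  rw [D.comp_pt]
  exact congrArg (D.pt r _) (funext fun i => by rw [map_mul, D.KapB_crd r f hc])

lemma Away.res {c' c : D.SP'} (f : c' ⟶ c) (hc : D.InU r c.x)
    {s : Γ((big A).obj ((smBig A).obj c.W), ⊤)} {v : c.W.obj ⟶ D.P.obj} (h : D.Away r c s v) :
    D.Away r c' (((big A).map ((smBig A).map f.1)).appTop s) (f.1.hom ≫ v) := by
  intro w hw
  rw [← D.KapB_pt r f hc] at hw
  exact h _ ((D.eqAt_comp ((smBig A).map f.1) v _ w).1 hw)

/-- The tautological point lies in the chart. -/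
def aI : D.XI.Sub := ⟨fun {c} _ => D.InU r c.x, fun f _ h => El.mem_of_hom (a := D.inUSub _ r) f h⟩

/-- The tautological point lies in the chart and misses `Z`, or `v` misses `s u`. -/
def bI : D.XI.Sub where
  mem {c} p := D.InU r c.x ∧ (D.Avoid Z c.x ∨ D.Away r c p.1 p.2.1)
  res f _ h := ⟨El.mem_of_hom (a := D.inUSub _ r) f h.1,
    h.2.imp (El.mem_of_hom (a := D.avoidSub _ Z) f) (Away.res D r f h.1)⟩

/-- The target of the homotopy. -/
abbrev phiI : PSh (SmGen A) L ⥤ PSh D.SP' L :=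
  pb L (D.XIsnd.el ⋙ D.lamQ) ⋙ sm (D.aI r) (D.bI r Z) L

/-- The generators of `phiI`. -/
def eI (G : PSh (SmGen A) L) (c : D.SP') (s : Γ((big A).obj ((smBig A).obj c.W), ⊤))
    (v : c.W.obj ⟶ D.P.obj) (h : IsGen c.W.obj) :
    G.obj (op (toGen c.W h)) →ₗ[L] ((D.phiI L r Z).obj G).obj (op c) :=
  smI (D.aI r) (D.bI r Z) ((pb L (D.XIsnd.el ⋙ D.lamQ)).obj G) ⟨c, (s, ⟨v, h⟩)⟩

lemma KapB_inU {c' c : D.SP'} (f : c' ⟶ c) (hc : D.InU r c.x) : D.InU r c'.x :=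
  El.mem_of_hom (a := D.inUSub _ r) f hc

/-- The point `s u + y`. -/
def KapB_tr' (c : D.SP') (s : Γ((big A).obj ((smBig A).obj c.W), ⊤))
    (y : Fin N → Γ((big A).obj ((smBig A).obj c.W), ⊤)) : c.W.obj ⟶ D.P.obj :=
  D.pt r ((smBig A).obj c.W) fun i => s * D.crd r c.x i + y i

lemma KapB_nat {c' c : D.SP'} (f : c' ⟶ c) (s : Γ((big A).obj ((smBig A).obj c.W), ⊤))
    (y : (OS D.uS (Fin N)).obj c) (hc : D.InU r c.x) :
    D.KapB_tr' r c' (D.KapB_res f s) ((OS D.uS (Fin N)).res f y) =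
      f.1.hom ≫ D.KapB_tr' r c s y := by
  refine Eq.trans ?_ (D.comp_pt ((smBig A).map f.1) r _).symm
  refine congrArg (D.pt r ((smBig A).obj c'.W)) (funext fun i => ?_)
  rw [map_add, map_mul, ← D.KapB_crd r f hc]
  rfl

lemma KapB_eqAt (c : D.SP') (s : Γ((big A).obj ((smBig A).obj c.W), ⊤))
    (y : Fin N → Γ((big A).obj ((smBig A).obj c.W), ⊤)) (w : (big A).obj ((smBig A).obj c.W)) :
    EqAt ((big A).map (D.KapB_tr' r c s y))
      ((big A).map (D.pt r ((smBig A).obj c.W) fun i => s * D.crd r c.x i)) w ↔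
      ∀ i, w ∉ ((big A).obj ((smBig A).obj c.W)).basicOpen (y i) := by
  refine (D.eqAt_pt r _ _ w).trans (forall_congr' fun i => ?_)
  rw [add_sub_cancel_left]

lemma KapB_unit (c : D.SP') (s : Γ((big A).obj ((smBig A).obj c.W), ⊤))
    (y : (OS D.uS (Fin N)).obj c) (h : (unitSub D.uS (Fin N)).mem y) :
    D.Away r c s (D.KapB_tr' r c s y) := by
  obtain ⟨i, hi⟩ := h
  exact fun w hw => (D.KapB_eqAt r c s y w).1 hw i ((Scheme.basicOpen_of_isUnit _ hi).ge trivial)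

lemma KapB_h₁ (c : D.SP') (s : Γ((big A).obj ((smBig A).obj c.W), ⊤))
    (y : (OS D.uS (Fin N)).obj c) (w : D.uS.obj c) (h : D.Away r c s (D.KapB_tr' r c s y)) :
    Locally D.uS c w fun _ f => (unitSub D.uS (Fin N)).mem ((OS D.uS (Fin N)).res f y) := by
  have h1 := mt (D.KapB_eqAt r c s y w).2 (h w)
  rw [not_forall] at h1
  obtain ⟨i, hi⟩ := h1
  rw [not_not] at hi
  refine (D.siteS.locally_open (Scheme.basicOpen _ (y i)).isOpen hi).mono fun V f hf => ⟨i, ?_⟩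
  refine RingedSpace.isUnit_of_isUnit_germ _ ⊤ _ fun x _ => (Scheme.mem_basicOpen_top _ _ x).1 ?_
  change x ∈ Scheme.basicOpen _ ((D.uS.map f).appTop (y i))
  rw [← Scheme.preimage_basicOpen_top]
  exact hf ⟨x, rfl⟩

lemma KapB_h₂ (c : D.SP') (s : Γ((big A).obj ((smBig A).obj c.W), ⊤))
    (y y' : (OS D.uS (Fin N)).obj c) (h : D.KapB_tr' r c s y = D.KapB_tr' r c s y') : y = y' :=
  funext fun i => add_left_cancel (congrFun (D.pt_injective r _ h) i)

lemma KapB_h₃ (c : D.SP') (s : Γ((big A).obj ((smBig A).obj c.W), ⊤)) (v : c.W.obj ⟶ D.P.obj)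
    (w : D.uS.obj c) (hc : D.InU r c.x) :
    Locally D.uS c w fun c' f => D.Away r c' (D.KapB_res f s) (f.1.hom ≫ v) ∨
      ∃ y : (OS D.uS (Fin N)).obj c',
        D.KapB_tr' r c' (D.KapB_res f s) y = f.1.hom ≫ v := by
  by_cases h : EqAt ((big A).map v)
      ((big A).map (D.pt r ((smBig A).obj c.W) fun i => s * D.crd r c.x i)) w
  · have h1 : (big A).map v w ∈ D.U r := h.eq ▸ D.inU_pt r _ _ w
    refine (D.siteS.locally_open ((D.isOpen_U r).preimage ((big A).map v).continuous) h1).mono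
      fun c' f hf => Or.inr ?_
    have h2 : D.InU r (W := (smBig A).obj c'.W) (f.1.hom ≫ v) := fun y => by
      rw [Functor.map_comp]
      exact hf ⟨y, rfl⟩
    refine ⟨fun i => D.crd r (W := (smBig A).obj c'.W) (f.1.hom ≫ v) i -
        D.KapB_res f s * D.crd r c'.x i,
      Eq.trans (congrArg (D.pt r ((smBig A).obj c'.W)) (funext fun i => ?_)) (D.pt_crd h2)⟩
    exact add_sub_cancel _ _
  · refine (D.siteS.locally_open (D.isClosed_eqAt v _).isOpen_compl h).mono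
      fun c' f hf => Or.inl fun y hy => hf ⟨y, rfl⟩ ?_
    refine (D.eqAt_comp ((smBig A).map f.1) v _ y).1 ?_
    rw [D.KapB_pt r f hc]
    exact hy

/-- Maps from `R ⊗ X / b` to sums over `XI`. -/
lemma KapB_exists_lift {X : SP D.SP'} (a b : X.Sub) (hall : ∀ (c : D.SP') (x : X.obj c), a.mem x)
    (a' : D.XI.Sub) (σ : ∀ c : D.SP', X.obj c → Γ((big A).obj ((smBig A).obj c.W), ⊤))
    (t : ∀ c : D.SP', X.obj c → (c.W.obj ⟶ D.P.obj))
    (nσ : ∀ {c' c : D.SP'} (f : c' ⟶ c) (x : X.obj c),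
      σ c' (X.res f x) = D.KapB_res f (σ c x))
    (nt : ∀ {c' c : D.SP'} (f : c' ⟶ c) (x : X.obj c), D.InU r c.x →
      t c' (X.res f x) = f.1.hom ≫ t c x)
    (ha : ∀ (c : D.SP') (x : X.obj c) (h : IsGen c.W.obj), D.InU r c.x →
      a'.mem (W := c) (σ c x, ⟨t c x, h⟩))
    (hb : ∀ (c : D.SP') (x : X.obj c), D.InU r c.x → b.mem x → D.Away r c (σ c x) (t c x)) :
    ∃ k : (D.phiR L r Z).F ⋙ pb L (El.proj X) ⋙ sm a b L ⟶
        pb L (D.XIsnd.el ⋙ D.lamQ) ⋙ sm a' (D.bI r Z) L,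
      (∀ (G : PSh (SmGen A) L) (c : D.SP') (x : X.obj c) (h : IsGen c.W.obj)
        (g : G.obj (op (toGen c.W h))), D.InU r c.x →
        ((k.app G).app (op c)).hom (smI a b ((pb L (El.proj X)).obj ((D.phiR L r Z).F.obj G))
          ⟨c, x⟩ (D.eR L r Z G c h g)) =
        smI a' (D.bI r Z) ((pb L (D.XIsnd.el ⋙ D.lamQ)).obj G) ⟨c, (σ c x, ⟨t c x, h⟩)⟩ g) ∧
      ((∀ (c : D.SP') (x : X.obj c) (w : D.uS.obj c), D.Away r c (σ c x) (t c x) →
          Locally D.uS c w fun _ f => b.mem (X.res f x)) →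
        (∀ (c : D.SP') (x x' : X.obj c), σ c x = σ c x' → t c x = t c x' → x = x') →
        (∀ (c : D.SP') (p : D.XI.obj c) (w : D.uS.obj c), a'.mem p → D.InU r c.x ∧
          Locally D.uS c w fun c' f => D.Away r c' (D.KapB_res f p.1) (f.1.hom ≫ p.2.1) ∨
            ∃ x : X.obj c', σ c' x = D.KapB_res f p.1 ∧ t c' x = f.1.hom ≫ p.2.1) →
        ∀ K : Ch (SmGen A) L, WG (NGen D.uS) ((chT k).app K)) := by
  let τ : (KapB_sub (SP.sigAnd (El.proj X) a (D.aR r))).Hom D.XI :=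
    ⟨fun {c} p => (σ c p.1.1, ⟨t c p.1.1, p.1.2.down⟩),
      fun f p => Prod.ext (nσ f p.1.1) (Subtype.ext (nt f p.1.1 p.2.2))⟩
  let μ : τ.el ⋙ D.XIsnd.el ⋙ D.lamQ ⟶ (KapB_inc (SP.sigAnd (El.proj X) a (D.aR r))).el ⋙
      SP.sigEl (El.proj X) D.XR ⋙ D.lamR := 𝟙 _
  have hμ : IsIso μ := inferInstanceAs (IsIso (𝟙 _))
  obtain ⟨k, h1, h2⟩ := KapB_exists_push (L := L) (u := D.uS)
    (SP.sigEl (El.proj X) D.XR ⋙ D.lamR) (D.XIsnd.el ⋙ D.lamQ)
    (SP.sigAnd (El.proj X) a (D.aR r)) (SP.sigOr (El.proj X) b (D.bR Z)) a' (D.bI r Z) τ μ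
    (fun c p => ha c p.1.1 p.1.2.down p.2.2)
    (fun c p h => ⟨p.2.2, h.symm.imp id (hb c p.1.1 p.2.2)⟩)
  let e : (D.phiR L r Z).F ⋙ pb L (El.proj X) ⋙ sm a b L ⟶
      pb L (SP.sigEl (El.proj X) D.XR ⋙ D.lamR) ⋙
        sm (SP.sigAnd (El.proj X) a (D.aR r)) (SP.sigOr (El.proj X) b (D.bR Z)) L :=
    Functor.whiskerLeft (pb L D.lamR) (smSigma L (El.proj X) a b (D.aR r) (D.bR Z)).hom
  have he : IsIso e := inferInstanceAs (IsIso
    (Functor.whiskerLeft (pb L D.lamR) (smSigma L (El.proj X) a b (D.aR r) (D.bR Z)).hom))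
  refine ⟨e ≫ k, fun G c x h g hc => ?_, fun h₁ h₂ h₃ K => ?_⟩
  · have h3 := smSigma_I (El.proj X) a b (D.aR r) (D.bR Z) ((pb L D.lamR).obj G) c x ⟨h⟩ g
    have h4 := h1 G c ⟨x, ⟨h⟩⟩ ⟨hall c x, hc⟩ g
    exact (congrArg ((k.app G).app (op c)).hom h3).trans (h4.trans (congrArg _ (Site_id G g)))
  · rw [KapB_comp]
    refine (KapB_wg_iso e K).comp (h2 (fun c p w h => ?_) (fun c p p' h => ?_)
      (fun c p w h => ?_) K)
    · rcases h.2 with h' | h'
      · exact Locally.of_forall w (Or.inr h')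
      · exact (h₁ c p.1.1 w h').mono fun _ _ hf => Or.inl hf
    · obtain ⟨⟨x, ⟨y⟩⟩, hx⟩ := p
      obtain ⟨⟨x', ⟨y'⟩⟩, hx'⟩ := p'
      obtain rfl : x = x' := h₂ c x x' (congrArg Prod.fst h) (congrArg (fun q => q.2.1) h)
      rfl
    · obtain ⟨hc, h'⟩ := h₃ c p w h
      refine h'.mono fun c' f hf => hf.imp (fun h4 => ⟨D.KapB_inU r f hc, Or.inr h4⟩) ?_
      rintro ⟨x, h4, h5⟩
      exact ⟨⟨⟨x, ⟨p.2.2.comp f.1.hom⟩⟩, hall c' x, D.KapB_inU r f hc⟩,
        Prod.ext h4 (Subtype.ext h5)⟩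

/-- Families of maps with an integer parameter which extend to the affine line. -/
lemma KapB_exists_family {X : SP D.SP'} (b : X.Sub)
    (t : ∀ c : D.SP', Γ((big A).obj ((smBig A).obj c.W), ⊤) → X.obj c → (c.W.obj ⟶ D.P.obj))
    (nt : ∀ {c' c : D.SP'} (f : c' ⟶ c) (s : Γ((big A).obj ((smBig A).obj c.W), ⊤))
      (x : X.obj c), D.InU r c.x → t c' (D.KapB_res f s) (X.res f x) = f.1.hom ≫ t c s x)
    (hb : ∀ (c : D.SP') (s : Γ((big A).obj ((smBig A).obj c.W), ⊤)) (x : X.obj c),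
      D.InU r c.x → b.mem x → D.Away r c s (t c s x)) :
    ∃ k : ℤ → ((D.phiR L r Z).F ⋙ pb L (El.proj X) ⋙ sm .top b L ⟶ D.phiI L r Z),
      (∀ (n : ℤ) (G : PSh (SmGen A) L) (c : D.SP') (x : X.obj c) (h : IsGen c.W.obj)
        (g : G.obj (op (toGen c.W h))), D.InU r c.x →
        (((k n).app G).app (op c)).hom (smI .top b
          ((pb L (El.proj X)).obj ((D.phiR L r Z).F.obj G)) ⟨c, x⟩ (D.eR L r Z G c h g)) =
        D.eI L r Z G c n (t c n x) h g) ∧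
      (∀ (n n' : ℤ) (G : Ch (SmGen A) L),
        (QU L D.uS).map ((chT (k n)).app G) = (QU L D.uS).map ((chT (k n')).app G)) ∧
      ((∀ (c : D.SP') (s : Γ((big A).obj ((smBig A).obj c.W), ⊤)) (x : X.obj c) (w : D.uS.obj c),
          D.Away r c s (t c s x) → Locally D.uS c w fun _ f => b.mem (X.res f x)) →
        (∀ (c : D.SP') (s : Γ((big A).obj ((smBig A).obj c.W), ⊤)) (x x' : X.obj c),
          t c s x = t c s x' → x = x') →
        (∀ (c : D.SP') (s : Γ((big A).obj ((smBig A).obj c.W), ⊤)) (v : c.W.obj ⟶ D.P.obj)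
          (w : D.uS.obj c), D.InU r c.x →
          Locally D.uS c w fun c' f => D.Away r c' (D.KapB_res f s) (f.1.hom ≫ v) ∨
            ∃ x : X.obj c', t c' (D.KapB_res f s) x = f.1.hom ≫ v) →
        ∀ (n : ℤ) (K : Ch (SmGen A) L), WG (NGen D.uS) ((chT (k n)).app K)) := by
  obtain ⟨k, h1, h2⟩ := D.KapB_exists_lift L r Z (X := SP.sigma (El.proj (OS D.uS Unit)) X)
    (SP.sigAnd (El.proj (OS D.uS Unit)) .top .top) (SP.sigOr (El.proj (OS D.uS Unit)) .bot b)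
    (fun _ _ => ⟨trivial, trivial⟩) (D.aI r) (fun _ p => p.1 ()) (fun c p => t c (p.1 ()) p.2)
    (fun _ _ => rfl) (fun f p hc => nt f (p.1 ()) p.2 hc) (fun _ _ _ hc => hc)
    (fun c p hc h => hb c (p.1 ()) p.2 hc (h.resolve_left id))
  let e : ((D.phiR L r Z).F ⋙ pb L (El.proj X) ⋙ sm .top b L) ⋙ cylF L D.uS ⟶
      (D.phiR L r Z).F ⋙ pb L (El.proj (SP.sigma (El.proj (OS D.uS Unit)) X)) ⋙
        sm (SP.sigAnd (El.proj (OS D.uS Unit)) .top .top)
          (SP.sigOr (El.proj (OS D.uS Unit)) .bot b) L :=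
    Functor.whiskerLeft ((D.phiR L r Z).F ⋙ pb L (El.proj X))
      (smSigma L (El.proj (OS D.uS Unit)) .top .bot .top b).hom
  have he : IsIso e := inferInstanceAs (IsIso (Functor.whiskerLeft
    ((D.phiR L r Z).F ⋙ pb L (El.proj X))
      (smSigma L (El.proj (OS D.uS Unit)) .top .bot .top b).hom))
  let i : ℤ → ((D.phiR L r Z).F ⋙ pb L (El.proj X) ⋙ sm .top b L ⟶
      ((D.phiR L r Z).F ⋙ pb L (El.proj X) ⋙ sm .top b L) ⋙ cylF L D.uS) := fun n =>
    Functor.whiskerLeft ((D.phiR L r Z).F ⋙ pb L (El.proj X) ⋙ sm .top b L) (cylI L D.uS n)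
  refine ⟨fun n => i n ≫ e ≫ k, fun n G c x h g hc => ?_, fun n n' G => ?_,
    fun h₁ h₂ h₃ n K => ?_⟩
  · have h3 := cylI_apply (u := D.uS) n
      (((D.phiR L r Z).F ⋙ pb L (El.proj X) ⋙ sm .top b L).obj G) c (smI .top b
        ((pb L (El.proj X)).obj ((D.phiR L r Z).F.obj G)) ⟨c, x⟩ (D.eR L r Z G c h g))
    have h4 := smSigma_I (El.proj (OS D.uS Unit)) .top .bot .top b
      ((pb L (El.proj X)).obj ((D.phiR L r Z).F.obj G)) c (fun _ => (n : Γ(D.uS.obj c, ⊤))) x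
      (D.eR L r Z G c h g)
    have h5 := h1 G c ⟨fun _ => (n : Γ(D.uS.obj c, ⊤)), x⟩ h g hc
    exact (congrArg ((k.app G).app (op c)).hom
      ((congrArg ((e.app G).app (op c)).hom h3).trans h4)).trans h5
  · rw [KapB_comp, KapB_comp (i n'), Functor.map_comp, Functor.map_comp]
    exact congrArg (· ≫ _) (QM_cylI (u := D.uS) n n'
      ((mapC ((D.phiR L r Z).F ⋙ pb L (El.proj X) ⋙ sm .top b L)).obj G))
  · rw [KapB_comp, KapB_comp]
    have h3 : WG (NGen D.uS) ((chT (i n)).app K) := wg_cylI (u := D.uS) n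
      ((mapC ((D.phiR L r Z).F ⋙ pb L (El.proj X) ⋙ sm .top b L)).obj K)
    refine h3.comp ((KapB_wg_iso e K).comp (h2 (fun c p w h => ?_)
      (fun c p p' h h' => ?_) (fun c p w h => ⟨h, ?_⟩) K))
    · exact (h₁ c (p.1 ()) p.2 w h).mono fun _ _ hf => Or.inr hf
    · obtain ⟨s, x⟩ := p
      obtain ⟨s', x'⟩ := p'
      obtain rfl : s = s' := funext fun _ => h
      obtain rfl : x = x' := h₂ c (s ()) x x' h'
      rfl
    · exact (h₃ c p.1 p.2.1 w h).mono fun c' f hf =>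
        hf.imp id fun ⟨x, hx⟩ => ⟨⟨fun _ => D.KapB_res f p.1, x⟩, rfl, hx⟩

lemma KapB_avoid (c : D.SP') (s : Γ((big A).obj ((smBig A).obj c.W), ⊤)) (v : c.W.obj ⟶ D.P.obj)
    (h : D.Avoid (D.U r) v) : D.Away r c s v :=
  fun w hw => h w (hw.eq ▸ D.inU_pt r _ _ w)

/-- The identification of `R ⊗ T^N` with a sum. -/
def KapB_tau : (D.phiR L r Z).F ⋙ tN L D.uS N ⟶
    (D.phiR L r Z).F ⋙ pb L (El.proj (OS D.uS (Fin N))) ⋙ sm .top (unitSub D.uS (Fin N)) L :=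
  Functor.whiskerLeft (D.phiR L r Z).F (tNIso L D.uS N).hom

instance KapB_isIso : IsIso (D.KapB_tau L r Z) :=
  inferInstanceAs (IsIso (Functor.whiskerLeft (D.phiR L r Z).F (tNIso L D.uS N).hom))

lemma KapB_tau_apply (G : PSh (SmGen A) L) (c : D.SP') (y : Fin N → Γ(D.uS.obj c, ⊤))
    (m : ((D.phiR L r Z).F.obj G).obj (op c)) :
    (((D.KapB_tau L r Z).app G).app (op c)).hom (tpN ((D.phiR L r Z).F.obj G) c N y m) =
      smI .top (unitSub D.uS (Fin N))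
        ((pb L (El.proj (OS D.uS (Fin N)))).obj ((D.phiR L r Z).F.obj G)) ⟨c, y⟩ m :=
  tNIso_tpN _ c y m

lemma KapB_ext_K {Φ : PSh (SmGen A) L ⥤ PSh D.SP' L}
    {f f' : (D.phiR L r Z).F ⋙ D.phi1 L r ⟶ Φ}
    (h : ∀ (G : PSh (SmGen A) L) (c : D.SP') (v : c.W.obj ⟶ D.P.obj) (h : IsGen c.W.obj)
      (g : G.obj (op (toGen c.W h))), D.InU r c.x →
      ((f.app G).app (op c)).hom
        (D.eK L (D.sl (smBig A)) r ((D.phiR L r Z).F.obj G) c v (D.eR L r Z G c h g)) =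
      ((f'.app G).app (op c)).hom
        (D.eK L (D.sl (smBig A)) r ((D.phiR L r Z).F.obj G) c v (D.eR L r Z G c h g))) :
    f = f' := by
  refine NatTrans.ext (funext fun G => ?_)
  exact sm_sm_hom_ext (El.proj (D.PX (D.sl (smBig A)))) (a' := D.aR r) (b' := D.bR Z)
    (G := (pb L D.lamR).obj G) fun c v y g _ _ hy _ => h G c v y.down g hy

lemma KapB_ext_T {Φ : PSh (SmGen A) L ⥤ PSh D.SP' L}
    {f f' : (D.phiR L r Z).F ⋙ tN L D.uS N ⟶ Φ}
    (h : ∀ (G : PSh (SmGen A) L) (c : D.SP')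
      (y : Fin N → Γ((big A).obj ((smBig A).obj c.W), ⊤)) (h : IsGen c.W.obj)
      (g : G.obj (op (toGen c.W h))), D.InU r c.x →
      ((f.app G).app (op c)).hom
        (tpN (u := D.uS) ((D.phiR L r Z).F.obj G) c N y (D.eR L r Z G c h g)) =
      ((f'.app G).app (op c)).hom
        (tpN (u := D.uS) ((D.phiR L r Z).F.obj G) c N y (D.eR L r Z G c h g))) :
    f = f' := by
  refine NatTrans.ext (funext fun G => tN_hom_ext fun c y m => ?_)
  induction m using D.phiR_induction L r Z with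
  | zero => rw [map_zero, map_zero, map_zero]
  | gen hg g hc _ => exact h G c y hg g hc
  | add m m' h1 h2 => rw [map_add, map_add, map_add, h1, h2]

/-- For each integer `n`, the maps `v ↦ (n, v)` and `y ↦ (n, n u + y)`; in the localisation they do
not depend on `n`, and the second one is invertible.
Hint: both factor as `cylI n` followed by a map `cylF (K (R G)) ⟶ phiI G`, resp.
`cylF (tN (R G)) ⟶ phiI G`, which does not depend on `n`; the second is a local equivalence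
(flatten the sums with `smSigma` and `tNIso`, then `wg_smPush`); `QM_cylI`, `wg_cylI`. -/
lemma exists_homotopy : ∃ (al : ℤ → ((D.phiR L r Z).F ⋙ D.phi1 L r ⟶ D.phiI L r Z))
    (be : ℤ → ((D.phiR L r Z).F ⋙ tN L D.uS N ⟶ D.phiI L r Z)),
    (∀ (n : ℤ) (G : PSh (SmGen A) L) (c : D.SP') (v : c.W.obj ⟶ D.P.obj) (h : IsGen c.W.obj)
      (g : G.obj (op (toGen c.W h))), D.InU r c.x →
      (((al n).app G).app (op c)).hom
        (D.eK L (D.sl (smBig A)) r ((D.phiR L r Z).F.obj G) c v (D.eR L r Z G c h g)) =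
      D.eI L r Z G c n v h g) ∧
    (∀ (n : ℤ) (G : PSh (SmGen A) L) (c : D.SP')
      (y : Fin N → Γ((big A).obj ((smBig A).obj c.W), ⊤)) (h : IsGen c.W.obj)
      (g : G.obj (op (toGen c.W h))), D.InU r c.x →
      (((be n).app G).app (op c)).hom
        (tpN (u := D.uS) ((D.phiR L r Z).F.obj G) c N y (D.eR L r Z G c h g)) =
      D.eI L r Z G c n (D.pt r ((smBig A).obj c.W) fun i => n * D.crd r c.x i + y i) h g) ∧
    (∀ (n : ℤ) (G : Ch (SmGen A) L), WG (NGen D.uS) ((chT (be n)).app G)) ∧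
    (∀ (n n' : ℤ) (G : Ch (SmGen A) L),
      (QU L D.uS).map ((chT (al n)).app G) = (QU L D.uS).map ((chT (al n')).app G)) ∧
    ∀ (n n' : ℤ) (G : Ch (SmGen A) L),
      (QU L D.uS).map ((chT (be n)).app G) = (QU L D.uS).map ((chT (be n')).app G) := by
  obtain ⟨al, a1, a2, -⟩ := D.KapB_exists_family L r Z (X := D.PX (D.sl (smBig A)))
    (D.avoidSub _ (D.U r)) (fun _ _ v => v) (fun _ _ _ _ => rfl)
    (fun c s v _ h => D.KapB_avoid r c s v h)
  obtain ⟨be, b1, b2, b3⟩ := D.KapB_exists_family L r Z (X := OS D.uS (Fin N))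
    (unitSub D.uS (Fin N)) (D.KapB_tr' r) (D.KapB_nat r) (fun c s y _ h => D.KapB_unit r c s y h)
  refine ⟨al, fun n => D.KapB_tau L r Z ≫ be n, a1, fun n G c y h g hc => ?_, fun n G => ?_, a2,
    fun n n' G => ?_⟩
  · exact (congrArg (((be n).app G).app (op c)).hom (D.KapB_tau_apply L r Z G c y _)).trans
      (b1 n G c y h g hc)
  · rw [KapB_comp]
    exact (KapB_wg_iso _ G).comp (b3 (D.KapB_h₁ r) (D.KapB_h₂ r) (D.KapB_h₃ r) n G)
  · rw [KapB_comp, KapB_comp, Functor.map_comp, Functor.map_comp, b2 n n']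

/-- The tautological point lies in the chart and the function is `1`. -/
def KapB_a1 : D.XI.Sub where
  mem {c} p := D.InU r c.x ∧ p.1 = 1
  res f _ h := ⟨D.KapB_inU r f h.1, (congrArg (D.KapB_res f) h.2).trans (D.KapB_res_one f)⟩

lemma KapB_one {c : D.SP'} (hc : D.InU r c.x) :
    (D.pt r ((smBig A).obj c.W) fun i => 1 * D.crd r c.x i) = c.x :=
  Eq.trans (congrArg (D.pt r _) (funext fun _ => one_mul _)) (D.pt_crd hc)

/-- The part of `phiI` where the function is `1`. -/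
abbrev KapB_Q : PSh (SmGen A) L ⥤ PSh D.SP' L :=
  pb L (D.XIsnd.el ⋙ D.lamQ) ⋙ sm (D.KapB_a1 r) (D.bI r Z) L

/-- Its generators. -/
def KapB_e (G : PSh (SmGen A) L) (c : D.SP') (v : c.W.obj ⟶ D.P.obj) (h : IsGen c.W.obj) :
    G.obj (op (toGen c.W h)) →ₗ[L] ((D.KapB_Q L r Z).obj G).obj (op c) :=
  smI (D.KapB_a1 r) (D.bI r Z) ((pb L (D.XIsnd.el ⋙ D.lamQ)).obj G) ⟨c, (1, ⟨v, h⟩)⟩

lemma KapB_exists_j : ∃ j : D.KapB_Q L r Z ⟶ D.phiI L r Z,
    ∀ (G : PSh (SmGen A) L) (c : D.SP') (v : c.W.obj ⟶ D.P.obj) (h : IsGen c.W.obj)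
      (g : G.obj (op (toGen c.W h))), D.InU r c.x →
      ((j.app G).app (op c)).hom (D.KapB_e L r Z G c v h g) = D.eI L r Z G c 1 v h g :=
  have h1 : (D.KapB_a1 r).Le (D.aI r) := fun _ _ h => h.1
  have h2 : ((D.KapB_a1 r).inf (D.bI r Z)).Le (D.bI r Z) := fun _ _ h => h.2
  ⟨Functor.whiskerLeft _ (smLe L h1 h2), fun G c v h g hc =>
    smLe_I h1 h2 ((pb L (D.XIsnd.el ⋙ D.lamQ)).obj G) ⟨c, (1, ⟨v, h⟩)⟩ ⟨hc, rfl⟩ g⟩

lemma KapB_exists_chi : ∃ χ : D.KapB_Q L r Z ⟶ D.phiQ L r Z,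
    ∀ (G : PSh (SmGen A) L) (c : D.SP') (v : c.W.obj ⟶ D.P.obj) (h : IsGen c.W.obj)
      (g : G.obj (op (toGen c.W h))), D.InU r c.x →
      ((χ.app G).app (op c)).hom (D.KapB_e L r Z G c v h g) = D.eQ L r Z G c v h g := by
  have h1 : ∀ ⦃c : D.SP'⦄ (p : D.XI.obj c), (D.KapB_a1 r).mem p →
      (D.eqSub (D.U r)).mem (D.XIsnd.app p) := fun _ _ h w _ => h.1 w
  have h2 : ∀ ⦃c : D.SP'⦄ (p : D.XI.obj c), (D.KapB_a1 r).mem p → (D.bI r Z).mem p →
      (D.eqSub Zᶜ).mem (D.XIsnd.app p) := fun c p h h' w hw => by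
    rcases h'.2 with h3 | h3
    · exact h3 w
    · refine absurd hw.symm ?_
      have h4 := h3 w
      rwa [h.2, D.KapB_one r h.1] at h4
  exact ⟨smPush L (lam' := D.lamQ) D.XIsnd (𝟙 _) h1 h2, fun G c v h g hc =>
    (smPush_I (lam' := D.lamQ) D.XIsnd (𝟙 _) h1 h2 G ⟨c, (1, ⟨v, h⟩)⟩ ⟨hc, rfl⟩ g).trans
      (congrArg (D.eQ L r Z G c v h) (Site_id G g))⟩

lemma KapB_exists_al : ∃ k : (D.phiR L r Z).F ⋙ D.phi1 L r ⟶ D.KapB_Q L r Z,
    ∀ (G : PSh (SmGen A) L) (c : D.SP') (v : c.W.obj ⟶ D.P.obj) (h : IsGen c.W.obj)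
      (g : G.obj (op (toGen c.W h))), D.InU r c.x → ((k.app G).app (op c)).hom
        (D.eK L (D.sl (smBig A)) r ((D.phiR L r Z).F.obj G) c v (D.eR L r Z G c h g)) =
      D.KapB_e L r Z G c v h g := by
  obtain ⟨k, h1, -⟩ := D.KapB_exists_lift L r Z (X := D.PX (D.sl (smBig A))) .top
    (D.avoidSub _ (D.U r)) (fun _ _ => trivial) (D.KapB_a1 r) (fun _ _ => 1) (fun _ v => v)
    (fun f _ => (D.KapB_res_one f).symm) (fun _ _ _ => rfl) (fun _ _ _ hc => ⟨hc, rfl⟩)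
    (fun c v _ h => D.KapB_avoid r c 1 v h)
  exact ⟨k, h1⟩

lemma KapB_exists_be : ∃ k : (D.phiR L r Z).F ⋙ tN L D.uS N ⟶ D.KapB_Q L r Z,
    (∀ (G : PSh (SmGen A) L) (c : D.SP') (y : Fin N → Γ((big A).obj ((smBig A).obj c.W), ⊤))
      (h : IsGen c.W.obj) (g : G.obj (op (toGen c.W h))), D.InU r c.x →
      ((k.app G).app (op c)).hom
        (tpN (u := D.uS) ((D.phiR L r Z).F.obj G) c N y (D.eR L r Z G c h g)) =
      D.KapB_e L r Z G c (D.KapB_tr' r c 1 y) h g) ∧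
    ∀ G : Ch (SmGen A) L, WG (NGen D.uS) ((chT k).app G) := by
  obtain ⟨k, h1, h2⟩ := D.KapB_exists_lift L r Z (X := OS D.uS (Fin N)) .top
    (unitSub D.uS (Fin N)) (fun _ _ => trivial) (D.KapB_a1 r) (fun _ _ => 1)
    (fun c y => D.KapB_tr' r c 1 y) (fun f _ => (D.KapB_res_one f).symm)
    (fun f y hc => (congrArg (fun s => D.KapB_tr' r _ s _) (D.KapB_res_one f).symm).trans
      (D.KapB_nat r f 1 y hc)) (fun _ _ _ hc => ⟨hc, rfl⟩)
    (fun c y _ h => D.KapB_unit r c 1 y h)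
  refine ⟨D.KapB_tau L r Z ≫ k, fun G c y h g hc => (congrArg ((k.app G).app (op c)).hom
    (D.KapB_tau_apply L r Z G c y (D.eR L r Z G c h g))).trans (h1 G c y h g hc), fun G => ?_⟩
  rw [KapB_comp]
  refine (KapB_wg_iso _ G).comp (h2 (fun c y w h => D.KapB_h₁ r c 1 y w h)
    (fun c y y' _ h => D.KapB_h₂ r c 1 y y' h) (fun c p w h => ⟨h.1, ?_⟩) G)
  refine (D.KapB_h₃ r c p.1 p.2.1 w h.1).mono fun c' f hf => hf.imp id fun ⟨y, hy⟩ => ?_
  have h3 : D.KapB_res f p.1 = 1 := ((D.KapB_a1 r).res f h).2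
  exact ⟨y, h3.symm, (congrArg (fun s => D.KapB_tr' r c' s y) h3.symm).trans hy⟩

lemma KapB_exists_e : ∃ e : (D.phiR L r Z).F ⋙ D.K0 L (D.sl (smBig A)) r ⟶ D.phiI L r Z,
    (∀ (G : PSh (SmGen A) L) (c : D.SP') (v : c.W.obj ⟶ D.P.obj) (h : IsGen c.W.obj)
      (g : G.obj (op (toGen c.W h))), D.InU r c.x →
      (((Functor.whiskerLeft (D.phiR L r Z).F (D.al0 L (D.sl (smBig A)) r) ≫ e).app G).app
        (op c)).hom
        (D.eK L (D.sl (smBig A)) r ((D.phiR L r Z).F.obj G) c v (D.eR L r Z G c h g)) =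
      D.eI L r Z G c 0 v h g) ∧
    ∀ (G : PSh (SmGen A) L) (c : D.SP') (y : Fin N → Γ((big A).obj ((smBig A).obj c.W), ⊤))
      (h : IsGen c.W.obj) (g : G.obj (op (toGen c.W h))), D.InU r c.x →
      (((Functor.whiskerLeft (D.phiR L r Z).F (D.be0 L (D.sl (smBig A)) r) ≫ e).app G).app
        (op c)).hom (tpN (u := D.uS) ((D.phiR L r Z).F.obj G) c N y (D.eR L r Z G c h g)) =
      D.eI L r Z G c 0 (D.pt r ((smBig A).obj c.W) y) h g := by
  obtain ⟨e, e1, -⟩ := D.KapB_exists_lift L r Z (X := D.PX (D.sl (smBig A))) .top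
    (D.away0 _ r) (fun _ _ => trivial) (D.aI r) (fun _ _ => 0) (fun _ v => v)
    (fun f _ => (D.KapB_res_zero f).symm) (fun _ _ _ => rfl) (fun _ _ _ hc => hc)
    (fun c v _ h w hw => h w (by
      have h1 : (fun i => (0 : Γ((big A).obj ((smBig A).obj c.W), ⊤)) * D.crd r c.x i) = 0 :=
        funext fun _ => zero_mul _
      rw [h1] at hw
      exact hw))
  refine ⟨e, fun G c v h g hc => ?_, fun G c y h g hc => ?_⟩
  · have h1 := smLe_I (fun _ _ h => h) (D.avoid_le_away0 (D.sl (smBig A)) r)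
      ((pb L (El.proj (D.PX (D.sl (smBig A))))).obj ((D.phiR L r Z).F.obj G)) ⟨c, v⟩ trivial
      (D.eR L r Z G c h g)
    exact (congrArg ((e.app G).app (op c)).hom h1).trans (e1 G c v h g hc)
  · have h1 := D.KapB_tau_apply L r Z G c y (D.eR L r Z G c h g)
    have h2 := smPush_I (lam := El.proj _) (lam' := El.proj _) (D.ptHom (D.sl (smBig A)) r) (𝟙 _)
      (a := .top) (a' := .top) (fun _ _ h => h)
      (fun _ y _ h => D.ptHom_unit (D.sl (smBig A)) r y h) ((D.phiR L r Z).F.obj G) ⟨c, y⟩ trivial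
      (D.eR L r Z G c h g)
    have h3 := ((congrArg _ h1).trans h2).trans
      (congrArg _ (Site_id ((D.phiR L r Z).F.obj G) (D.eR L r Z G c h g)))
    exact (congrArg ((e.app G).app (op c)).hom h3).trans (e1 G c _ h g hc)

lemma KapB_Q_comp {Φ Φ' Φ'' : PSh (SmGen A) L ⥤ PSh D.SP' L} [Φ.Additive] [Φ'.Additive]
    [Φ''.Additive] {τ : Φ ⟶ Φ'} {τ' : Φ' ⟶ Φ''} {τ'' : Φ ⟶ Φ''} (h : τ ≫ τ' = τ'')
    (G : Ch (SmGen A) L) :
    (QU L D.uS).map ((chT τ).app G) ≫ (QU L D.uS).map ((chT τ').app G) =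
      (QU L D.uS).map ((chT τ'').app G) := by
  rw [← Functor.map_comp, ← KapB_comp, h]

/-- Hint: put `γ = Q al0 ≫ inv (Q be0)` (`wg_be0`). The map `e : K0 (R G) ⟶ phiI G`,
`(v, g) ↦ eI 0 v g` has `al0 ≫ e = al 0`, `be0 ≫ e = be 0`, so `γ ≫ Q (be 1) = Q (al 1)`. Let `Q₁` be
the sum over `XQ` for the pair (`InU r u`, `InU r u ∧ (Avoid Z u ∨ Away 1 v)`); `al 1`, `be 1` factor
through `j : Q₁ ⟶ phiI` (`smPush`) as `al' ≫ j`, `be' ≫ j` with `be'` a local equivalence (as above),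
so `j` is one, `γ ≫ Q be' = Q al'`; finally `χ : Q₁ ⟶ phiQ` (`smLe`) has `al' ≫ χ = k1`,
`be' ≫ χ = bq`. -/
theorem kap_final (G : Ch (SmGen A) L) :
    ∃ γ : (QU L D.uS).obj ((mapC (D.phi1 L r)).obj ((mapC (D.phiR L r Z).F).obj G)) ⟶
        (QU L D.uS).obj ((mapC (tN L D.uS N)).obj ((mapC (D.phiR L r Z).F).obj G)),
      γ ≫ (QU L D.uS).map ((chT (D.be0 L (D.sl (smBig A)) r)).app _) =
        (QU L D.uS).map ((chT (D.al0 L (D.sl (smBig A)) r)).app _) ∧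
      γ ≫ (QU L D.uS).map ((chT (D.bq L r Z)).app G) =
        (QU L D.uS).map ((chT (D.k1 L r Z)).app G) := by
  obtain ⟨al, be, a1, b1, wb, a2, b2⟩ := D.exists_homotopy L r Z
  obtain ⟨e, e1, e2⟩ := D.KapB_exists_e L r Z
  obtain ⟨al', a3⟩ := D.KapB_exists_al L r Z
  obtain ⟨be', b3, wb'⟩ := D.KapB_exists_be L r Z
  obtain ⟨j, hj⟩ := D.KapB_exists_j L r Z
  obtain ⟨χ, hχ⟩ := D.KapB_exists_chi L r Z
  have s1 : Functor.whiskerLeft (D.phiR L r Z).F (D.al0 L (D.sl (smBig A)) r) ≫ e = al 0 :=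
    D.KapB_ext_K L r Z fun G c v h g hc => by
      rw [a1 0 G c v h g hc, Int.cast_zero, e1 G c v h g hc]
  have s2 : Functor.whiskerLeft (D.phiR L r Z).F (D.be0 L (D.sl (smBig A)) r) ≫ e = be 0 :=
    D.KapB_ext_T L r Z fun G c y h g hc => by
      have h3 : (fun i => (0 : Γ((big A).obj ((smBig A).obj c.W), ⊤)) * D.crd r c.x i + y i) = y :=
        funext fun i => by rw [zero_mul, zero_add]
      rw [b1 0 G c y h g hc, Int.cast_zero, h3, e2 G c y h g hc]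
  have s3 : al' ≫ j = al 1 := D.KapB_ext_K L r Z fun G c v h g hc => by
    rw [a1 1 G c v h g hc, Int.cast_one]
    exact (congrArg ((j.app G).app (op c)).hom (a3 G c v h g hc)).trans (hj G c v h g hc)
  have s4 : be' ≫ j = be 1 := D.KapB_ext_T L r Z fun G c y h g hc => by
    rw [b1 1 G c y h g hc, Int.cast_one]
    exact (congrArg ((j.app G).app (op c)).hom (b3 G c y h g hc)).trans (hj G c _ h g hc)
  have s5 : al' ≫ χ = D.k1 L r Z := D.KapB_ext_K L r Z fun G c v h g hc =>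
    ((congrArg ((χ.app G).app (op c)).hom (a3 G c v h g hc)).trans (hχ G c v h g hc)).trans
      ((D.exists_k1 L r Z).choose_spec G c v h g hc).symm
  have s6 : be' ≫ χ = D.bq L r Z := D.KapB_ext_T L r Z fun G c y h g hc => by
    have h2 : D.KapB_tr' r c 1 y = D.pt r c.W.obj (D.crd r c.x + y) :=
      congrArg (D.pt r ((smBig A).obj c.W)) (funext fun i => congrArg (· + y i) (one_mul _))
    exact (((congrArg ((χ.app G).app (op c)).hom (b3 G c y h g hc)).trans (hχ G c _ h g hc)).trans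
      (congrArg (fun v => D.eQ L r Z G c v h g) h2)).trans
      ((D.exists_bq L r Z).choose_spec G c y h g hc).symm
  have i1 : IsIso ((QU L D.uS).map ((chT (Functor.whiskerLeft (D.phiR L r Z).F
      (D.be0 L (D.sl (smBig A)) r))).app G)) :=
    (isIso_QM_iff _).2 (D.wg_be0 L (D.sl (smBig A)) r D.siteS ((mapC (D.phiR L r Z).F).obj G))
  have i2 : IsIso ((QU L D.uS).map ((chT j).app G)) :=
    (isIso_QM_iff _).2 ((wb' G).of_precomp (by
      rw [← KapB_comp, s4]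
      exact wb 1 G))
  obtain ⟨γ, g1⟩ : ∃ γ, γ ≫ (QU L D.uS).map ((chT (Functor.whiskerLeft (D.phiR L r Z).F
      (D.be0 L (D.sl (smBig A)) r))).app G) = (QU L D.uS).map ((chT (Functor.whiskerLeft
        (D.phiR L r Z).F (D.al0 L (D.sl (smBig A)) r))).app G) :=
    ⟨_ ≫ inv _, by rw [Category.assoc, IsIso.inv_hom_id, Category.comp_id]⟩
  have g2 : γ ≫ (QU L D.uS).map ((chT be').app G) = (QU L D.uS).map ((chT al').app G) := by
    rw [← cancel_mono ((QU L D.uS).map ((chT j).app G)), Category.assoc, D.KapB_Q_comp L s4,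
      D.KapB_Q_comp L s3, b2 1 0, a2 1 0, ← D.KapB_Q_comp L s2, ← Category.assoc, g1,
      D.KapB_Q_comp L s1]
  have g3 : γ ≫ (QU L D.uS).map ((chT (D.bq L r Z)).app G) =
      (QU L D.uS).map ((chT (D.k1 L r Z)).app G) := by
    rw [← D.KapB_Q_comp L s6, ← Category.assoc, g2, D.KapB_Q_comp L s5]
  exact ⟨γ, g1, g3⟩

end PD

end Pool.Agent.KEW
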