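import Pool.Agent.P.MP_6277db_ag.KEW.L9.Col
import Pool.Agent.P.MP_6277db_ag.KEW.L1.Cyl

/-!
KEW, layer L9: restriction to a smaller site is faithful on the sources of the stable groups.
-/

set_option backward.isDefEq.respectTransparency false

noncomputable section

open CategoryTheory Limits AlgebraicGeometry Opposite MonoidalCategory

namespace Pool.Agent.KEW

variable {C : Type 1} [Category.{0} C] {C' : Type 1} [Category.{0} C'] {L : Type 1} [CommRing L]
  {u' : C' ⥤ Scheme.{0}} (ν : C ⥤ C') [ν.Full] [ν.Faithful]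
  (hu : IsSite (ν ⋙ u')) (hu' : IsSite u')

/-- The functor `ν` sends some cylinder on each object to a cylinder. -/
def CylCompat (ν : C ⥤ C') (u' : C' ⥤ Scheme.{0}) : Prop :=
  ∀ U : C, ∃ c : Cyl (ν ⋙ u') U, ∀ V : C',
    Function.Bijective fun φ : V ⟶ ν.obj c.I => (φ ≫ ν.map c.p, (u'.map φ).appTop c.t)

variable (L) in
/-- All presheaves on the big site, as presheaves with transfers. -/
def Nu_tr (ν : C ⥤ C') : TrData L ν where
  P _ := True
  closed := closedCl_top
  ρ := ν ⋙ rep C' L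
  mem _ := trivial
  e U := repEl L (𝟙 (ν.obj U))
  e_nat _ := (rep_map_repEl _ _).trans ((congrArg (repEl L)
    ((Category.id_comp _).trans (Category.comp_id _).symm)).trans (map_repEl _ _).symm)
  yoneda U F _ := repSec_bijective (ν.obj U) F

lemma Nu_unit_app (ν : C ⥤ C') {U V : C} (φ : V ⟶ U) :
    ((Nu_tr L ν).unit.app U).app (op V) (repEl L φ) = repEl L (ν.map φ) := by
  rw [app_repEl, TrData.repSec_unit]
  exact (map_repEl _ _).trans (congrArg (repEl L) (Category.comp_id _))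

lemma Nu_isIso_unit (U : C) : IsIso ((Nu_tr L ν).unit.app U) := by
  refine (NatTrans.isIso_iff_isIso_app _).2 fun V => ?_
  let e : ULift.{1} (V.unop ⟶ U) ≃ ULift.{1} (ν.obj V.unop ⟶ ν.obj U) :=
    Equiv.ulift.trans ((Functor.FullyFaithful.ofFullyFaithful ν).homEquiv.trans Equiv.ulift.symm)
  have h : ((Nu_tr L ν).unit.app U).app V = (ModuleCat.free L).map e.toIso.hom :=
    ModuleCat.free_hom_ext fun x => (Nu_unit_app ν x.down).trans
      (ModuleCat.free_map_apply (R := L) e.toIso.hom x).symm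
  rw [h]
  exact inferInstanceAs (IsIso ((ModuleCat.free L).map e.toIso.hom))

/-- The restriction of a representable presheaf. -/
lemma nonempty_pb_rep (U : C) : ∃ e : (rep C L).obj U ≅ (pb L ν).obj ((rep C' L).obj (ν.obj U)),
    ∀ (V : C) (φ : V ⟶ U), e.hom.app (op V) (repEl L φ) = repEl L (ν.map φ) := by
  have := Nu_isIso_unit (L := L) ν U
  exact ⟨asIso ((Nu_tr L ν).unit.app U), fun V φ => Nu_unit_app ν φ⟩

lemma Nu_orth {R : PSh C' L ⥤ PSh C L} [IsExact R] {T : Ch C L} (c : FinCell R (fun _ => True) T)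
    (hT : c.T'.IsKProjective) {X : Ch C' L} (h : Orth (G0 C' L) c.T' X) :
    Orth (G0 C L) T ((mapC R).obj X) := by
  have := c.isKProjective
  rw [orth_G0_iff] at h ⊢
  intro n g
  obtain ⟨φ, rfl⟩ := (c.shift n).exists_lift (X := X) (fun _ => trivial) g
  obtain ⟨H⟩ := h n φ
  exact ⟨((R.mapHomotopy H).compLeft (c.shift n).η).trans (Homotopy.ofEq (by simp))⟩

/-- The image of an elementary square. -/
def Nu_sq (ν : C ⥤ C') (S : NisSq (ν ⋙ u')) : NisSq u' where
  X := ν.obj S.X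
  A := ν.obj S.A
  Y := ν.obj S.Y
  B := ν.obj S.B
  i := ν.map S.i
  f := ν.map S.f
  j := ν.map S.j
  g := ν.map S.g
  w := by rw [← ν.map_comp, S.w, ν.map_comp]
  open_i := S.open_i
  etale_f := S.etale_f
  pb := S.pb
  uniq := S.uniq
  res := S.res

include hu hu' in
/-- Hint: `IsLocal.of_nis_of_cyl`, `IsSite.isLocal_nis_iff`, `IsLocal.bijective_cyl`; the test
complexes are tested on sections over objects of `C` (use K-projectivity and `orth_G0_iff`, or
`mv_glue` / `mv_delta` type statements), and homology commutes with restriction. -/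
theorem IsLocal.pb (hc : CylCompat ν u') {X : Ch C' L} (h : IsLocal (NGen u') X) :
    IsLocal (NGen (ν ⋙ u')) ((mapC (pb L ν)).obj X) := by
  have h1 := (hu'.isLocal_nis_iff X).1 h.nis
  refine IsLocal.of_nis_of_cyl ((hu.isLocal_nis_iff _).2 ?_) fun U => ?_
  · rintro _ (⟨U, hU, rfl⟩ | ⟨S, rfl⟩)
    · exact Nu_orth (FinCell.single closedCl_top ((Nu_tr L ν).goodTerm U) 0)
        (FinCell.single closedCl_top (goodTerm_rep (ν.obj U)) 0).isKProjective
        (h1 _ (Or.inl ⟨ν.obj U, hU, rfl⟩))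
    · exact Nu_orth (cellQ closedCl_top (Nu_tr L ν).goodTerm S)
        (cellQ (R := 𝟭 (PSh C' L)) (ρ := rep C' L) (e := 𝟙 _) closedCl_top goodTerm_rep
          (Nu_sq ν S)).isKProjective (h1 _ (Or.inr ⟨Nu_sq ν S, rfl⟩))
  · obtain ⟨c, hc⟩ := hc U
    let c' : Cyl u' (ν.obj U) := ⟨ν.obj c.I, ν.map c.p, c.t, hc⟩
    exact ⟨c, ((isLocal_G0 _).orth_cone_rep_iff 0 c.p).1
      (Nu_orth (cellM closedCl_top (Nu_tr L ν).goodTerm c.p)
        (cellM (R := 𝟭 (PSh C' L)) (ρ := rep C' L) (e := 𝟙 _) closedCl_top goodTerm_rep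
          c'.p).isKProjective (h.orth (c'.wg_p 0)))⟩

section bij

variable {G : Ch C L → Prop} {G' : Ch C' L → Prop} {Φ : Ch C' L ⥤ Ch C L} (h : PresW G' G Φ)

lemma Nu_pre {A A' K : Ch C' L} (y : (QM G').obj A' ⟶ (QM G').obj A) [IsIso y]
    (hA : Function.Bijective fun x : (QM G').obj A ⟶ (QM G').obj K => h.homMap x) :
    Function.Bijective fun x : (QM G').obj A' ⟶ (QM G').obj K => h.homMap x := by
  have := h.isIso_homMap y
  have e : (fun x : (QM G').obj A' ⟶ (QM G').obj K => h.homMap x) ∘ (asIso y).homFromEquiv.symm =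
      (asIso (h.homMap y)).homFromEquiv.symm ∘
        fun x : (QM G').obj A ⟶ (QM G').obj K => h.homMap x := funext fun x => h.homMap_comp y x
  rw [← Equiv.bijective_comp (asIso y).homFromEquiv.symm, e]
  exact (Equiv.bijective _).comp hA

lemma Nu_post {A K K' : Ch C' L} (y : (QM G').obj K ⟶ (QM G').obj K') [IsIso y]
    (hA : Function.Bijective fun x : (QM G').obj A ⟶ (QM G').obj K' => h.homMap x) :
    Function.Bijective fun x : (QM G').obj A ⟶ (QM G').obj K => h.homMap x := by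
  have := h.isIso_homMap y
  have e : (asIso (h.homMap y)).homToEquiv ∘
      (fun x : (QM G').obj A ⟶ (QM G').obj K => h.homMap x) =
      (fun x : (QM G').obj A ⟶ (QM G').obj K' => h.homMap x) ∘ (asIso y).homToEquiv :=
    funext fun x => (h.homMap_comp x y).symm
  rw [← Equiv.comp_bijective _ (asIso (h.homMap y)).homToEquiv, e]
  exact hA.comp (Equiv.bijective _)

lemma Nu_inj [Φ.Additive] {A K : Ch C' L} : (Function.Injective
    fun x : (QM G').obj A ⟶ (QM G').obj K => h.homMap x) ↔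
      ∀ x : (QM G').obj A ⟶ (QM G').obj K, h.homMap x = 0 → x = 0 :=
  ⟨fun hi _ hx => hi (hx.trans h.homMap_zero.symm), fun hi x y e =>
    sub_eq_zero.1 (hi _ ((h.homMap_sub x y).trans (sub_eq_zero.2 e)))⟩

end bij

lemma Nu_repCls {U : C} {X : Ch C L} {q : ℤ} (g : (sgl q).obj ((rep C L).obj U) ⟶ X) :
    repCls g = 0 ↔ ∃ w : (X.X (q - 1)).obj (op U), (X.d (q - 1) q).app (op U) w =
      repSec ((HomologicalComplex.singleObjXSelf _ q _).inv ≫ g.f q) := by
  rw [repCls_eq, ← cls_repSec _ (congrArg repSec (single_comp_d g (q + 1))),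
    cls_eq_zero_iff _ _ (q - 1) (by omega)]

/-- Restriction is bijective on morphisms out of `F` placed in any degree. -/
def NuBij (F : PSh C' L) : Prop :=
  ∀ (q : ℤ) (K : Ch C' L), Function.Bijective
    fun x : (QU L u').obj ((sgl q).obj F) ⟶ (QU L u').obj K => (presW_pb ν hu hu').homMap x

/-- Hint: local replacement of `K` (`IsSite.exists_replacement`), `IsLocal.pb`, `homRep`. -/
theorem nuBij_rep (hc : CylCompat ν u') (hc' : HasCyl u') (U : C) :
    NuBij ν hu hu' ((rep C' L).obj (ν.obj U)) := by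
  intro q K
  obtain ⟨X, j, -, hj, hX⟩ := hu'.exists_replacement hc' K
  have := hj.isIso
  refine Nu_post _ ((QU L u').map j) ?_
  have hX' := IsLocal.pb ν hu hu' hc hX
  let c := FinCell.single closedCl_top ((Nu_tr L ν).goodTerm U) q
  have := Nu_isIso_unit (L := L) ν U
  have : IsIso c.η := inferInstanceAs (IsIso (_ ≫ _))
  refine ⟨(Nu_inj _).2 fun x hx => ?_, fun y => ?_⟩
  · obtain ⟨a, rfl⟩ := hX.exists_map x
    rw [PresW.homMap_map] at hx
    have h1 : (QU L (ν ⋙ u')).map (c.η ≫ (mapC (Pool.Agent.KEW.pb L ν)).map a) = 0 := by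
      rw [Functor.map_comp]
      exact (congrArg (_ ≫ ·) hx).trans comp_zero
    rw [← hX'.homRep_eq_zero_iff, hX'.homRep_map, Nu_repCls] at h1
    rw [← hX.homRep_eq_zero_iff, hX.homRep_map, Nu_repCls]
    obtain ⟨w, hw⟩ := h1
    refine ⟨w, hw.trans ?_⟩
    have e : (HomologicalComplex.singleObjXSelf _ q _).inv ≫
        (c.η ≫ (mapC (Pool.Agent.KEW.pb L ν)).map a).f q = (Nu_tr L ν).unit.app U ≫
          (rs L ν).map ((HomologicalComplex.singleObjXSelf _ q _).inv ≫ a.f q) := by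
      simp [c, FinCell.single, sglLift, HomologicalComplex.single_map_f_self]
    rw [e, repSec_comp, TrData.repSec_unit]
    rfl
  · obtain ⟨g, hg⟩ := hX'.exists_map ((QU L (ν ⋙ u')).map c.η ≫ y)
    obtain ⟨a, rfl⟩ := c.exists_lift (X := X) (fun _ => trivial) g
    rw [Functor.map_comp, cancel_epi] at hg
    exact ⟨(QU L u').map a, (PresW.homMap_map _ a).trans hg⟩

lemma NuBij.of_iso {F F' : PSh C' L} (e : F ≅ F') (h : NuBij ν hu hu' F) : NuBij ν hu hu' F' := by
  exact fun q K => Nu_pre _ ((QU L u').map ((sgl q).map e.inv)) (h q K)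

lemma Nu_five {G : Ch C L → Prop} {G' : Ch C' L → Prop} (Φ : PSh C' L ⥤ PSh C L) [IsExact Φ]
    (h : PresW G' G (mapC Φ)) {S : ShortComplex (Ch C' L)} (hS : S.ShortExact) {K : Ch C' L}
    (h₁ : Function.Bijective fun x : (QM G').obj S.X₁ ⟶ (QM G').obj K => h.homMap x)
    (h₂ : Function.Bijective fun x : (QM G').obj S.X₂ ⟶ (QM G').obj K => h.homMap x)
    (h₁' : Function.Bijective fun x : (QM G').obj (S.X₁⟦(1 : ℤ)⟧) ⟶ (QM G').obj K => h.homMap x)
    (h₂' : Function.Bijective fun x : (QM G').obj (S.X₂⟦(1 : ℤ)⟧) ⟶ (QM G').obj K => h.homMap x) :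
    Function.Bijective fun x : (QM G').obj S.X₃ ⟶ (QM G').obj K => h.homMap x := by
  have hS' := shortExact_mapC Φ hS
  have hδ := homMap_sesδ Φ h hS
  have hi := fun {Z : DM G} (y : _ ⟶ Z) =>
    ((QM G).mapIso (((mapC Φ).commShiftIso (1 : ℤ)).app S.X₁)).hom_inv_id_assoc y
  refine ⟨(Nu_inj _).2 fun x hx => ?_, fun y => ?_⟩
  · obtain ⟨y, rfl⟩ := ses_contra₃ hS x ((Nu_inj h).1 h₂.1 _ (by
      rw [h.homMap_comp, hx, comp_zero]))
    obtain ⟨z, hz⟩ := ses_contra₁ hS' ((QM G).map (((mapC Φ).commShiftIso (1 : ℤ)).inv.app S.X₁) ≫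
      h.homMap y) (by
        rw [← hδ, Category.assoc]
        exact (congrArg (_ ≫ ·) (hi _)).trans ((h.homMap_comp _ _).symm.trans hx))
    obtain ⟨z', hz'⟩ := h₂'.2 ((QM G).map (((mapC Φ).commShiftIso (1 : ℤ)).hom.app S.X₂) ≫ z)
    have e : y = (QM G').map (S.f⟦(1 : ℤ)⟧') ≫ z' := h₁'.1 (by
      have n := ((mapC Φ).commShiftIso (1 : ℤ)).hom.naturality S.f
      dsimp only [Functor.comp_map] at n hz' ⊢
      rw [h.homMap_comp, h.homMap_map, hz', ← Functor.map_comp_assoc, n, Functor.map_comp_assoc]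
      exact (hi _).symm.trans (congrArg (_ ≫ ·) hz))
    rw [e, ← Category.assoc, sesδ_f, zero_comp]
  · obtain ⟨a, ha⟩ := h₂.2 ((QM G).map ((mapC Φ).map S.g) ≫ y)
    dsimp only at ha
    obtain ⟨b, rfl⟩ := ses_contra₂ hS a ((Nu_inj h).1 h₁.1 _ (by
      rw [h.homMap_comp, ha, h.homMap_map, ← Functor.map_comp_assoc, ← Functor.map_comp, S.zero,
        Functor.map_zero, Functor.map_zero, zero_comp]))
    rw [h.homMap_comp, h.homMap_map] at ha
    obtain ⟨c, hc⟩ := ses_contra₃ hS' (y - h.homMap b) (by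
      rw [Preadditive.comp_sub, sub_eq_zero]
      exact ha.symm)
    obtain ⟨c', hc'⟩ := h₁'.2 ((QM G).map (((mapC Φ).commShiftIso (1 : ℤ)).hom.app S.X₁) ≫ c)
    dsimp only at hc'
    refine ⟨sesδ G' hS ≫ c' + b, ?_⟩
    dsimp only
    rw [h.homMap_add, h.homMap_comp, hc', ← Category.assoc, hδ, ← hc, sub_add_cancel]

/-- Hint: five lemma with `ses_contra₁/₂/₃`, `homMap_sesδ`, `sglShiftIso`. -/
lemma NuBij.right {S : ShortComplex (PSh C' L)} (hS : S.ShortExact) (h₁ : NuBij ν hu hu' S.X₁)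
    (h₂ : NuBij ν hu hu' S.X₂) : NuBij ν hu hu' S.X₃ := by
  intro q K
  exact Nu_five _ _ (shortExact_sgl hS q) (h₁ q K) (h₂ q K)
    (Nu_pre _ ((QU L u').map ((sglShiftIso 1 (q - 1) q (by omega)).hom.app S.X₁)) (h₁ _ K))
    (Nu_pre _ ((QU L u').map ((sglShiftIso 1 (q - 1) q (by omega)).hom.app S.X₂)) (h₂ _ K))

lemma Nu_unit_iff {W I : Scheme.{0}} (φ : W ⟶ I) (t : Γ(I, ⊤)) :
    IsUnit (φ.appTop t) ↔ Set.range φ ⊆ I.basicOpen t := by
  constructor
  · rintro h _ ⟨x, rfl⟩
    have : x ∈ φ ⁻¹ᵁ I.basicOpen t := by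
      rw [Scheme.preimage_basicOpen_top, W.basicOpen_of_isUnit h]
      trivial
    exact this
  · intro h
    refine RingedSpace.isUnit_of_isUnit_germ W.toRingedSpace ⊤ _ fun x _ => ?_
    refine (W.mem_basicOpen_top _ x).1 ?_
    rw [← Scheme.preimage_basicOpen_top]
    exact h ⟨x, rfl⟩

lemma Nu_mono {U V : C} (φ : V ⟶ U) [Mono φ] : Mono ((rep C L).map φ) := by
  have : ∀ W, Mono (((rep C L).map φ).app W) := fun W =>
    (ModuleCat.mono_iff_injective _).2 (Finsupp.mapDomain_injective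
      (f := fun x : ULift.{1} (W.unop ⟶ V) => (ULift.up (x.down ≫ φ) : ULift.{1} (W.unop ⟶ U)))
      fun x y e => ULift.ext _ _ ((cancel_mono φ).1 (congrArg ULift.down e)))
  exact NatTrans.mono_of_mono_app _

lemma Nu_ses {u : C ⥤ Scheme.{0}} (hu : IsSite u) {U : C} (c : Cyl u U) {G : C} (j : G ⟶ c.I)
    [IsOpenImmersion (u.map j)] (hj : Set.range (u.map j) = (u.obj c.I).basicOpen c.t) :
    ∃ (π : (rep C L).obj c.I ⟶ (RS.unit.T L u).obj ((rep C L).obj U))
      (w : (rep C L).map j ≫ π = 0), (ShortComplex.mk _ _ w).ShortExact := by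
  obtain ⟨π, hπ⟩ := (repSec_bijective c.I ((RS.unit.T L u).obj ((rep C L).obj U))).2
    (RS.unit.tp ((rep C L).obj U) c.I c.t (repEl L c.p))
  have h1 : ∀ {V : C} (φ : V ⟶ c.I), π.app (op V) (repEl L φ) =
      RS.unit.tp ((rep C L).obj U) V ((u.map φ).appTop c.t) (repEl L (φ ≫ c.p)) := fun φ => by
    rw [app_repEl, hπ, ← map_repEl]
    exact RS.unit.map_tp _ φ _ _
  have w : (rep C L).map j ≫ π = 0 := (repSec_bijective G _).1 (by
    rw [repSec_comp, repSec, rep_map_repEl, h1, Category.id_comp]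
    exact RS.unit.tp_of_mem _ _ ((Nu_unit_iff _ _).2 hj.le) _)
  have := hu.mono_of_open j
  have hm := Nu_mono (L := L) j
  have he : Epi π := ⟨fun {M} f f' e => RS.unit.hom_ext fun W a g => by
    have h2 : (f.app (op W)).hom ∘ₗ RS.unit.tp ((rep C L).obj U) W a =
        (f'.app (op W)).hom ∘ₗ RS.unit.tp ((rep C L).obj U) W a := by
      refine Finsupp.lhom_ext' fun x => LinearMap.ext_ring ?_
      have h3 := congrArg (fun θ => θ.app (op W) (repEl L (c.pt x.down a))) e
      simp only [NatTrans.comp_app, ConcreteCategory.comp_apply, h1, Cyl.pt_t, Cyl.pt_p] at h3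
      exact h3
    exact LinearMap.congr_fun h2 g⟩
  refine ⟨π, w, { exact := ShortComplex.exact_of_g_is_cokernel _ ?_ }⟩
  refine CokernelCofork.IsColimit.ofπ' π w fun {M} k hk => ?_
  let d : RS.unit.Cone u ((rep C L).obj U) M :=
    { ψ := fun W a => Finsupp.linearCombination L
        fun x : ULift.{1} (W ⟶ U) => k.app (op W) (repEl L (c.pt x.down a))
      nat := fun {V W} f a g => by
        refine LinearMap.congr_fun (f := (M.map f.op).hom ∘ₗ Finsupp.linearCombination L _)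
          (g := Finsupp.linearCombination L _ ∘ₗ (((rep C L).obj U).map f.op).hom)
          (Finsupp.lhom_ext' fun x => LinearMap.ext_ring ?_) g
        change M.map f.op (Finsupp.linearCombination L _ (Finsupp.single x 1)) =
          Finsupp.linearCombination L _ (((rep C L).obj U).map f.op (repEl L x.down))
        rw [map_repEl, repEl, Finsupp.linearCombination_single, Finsupp.linearCombination_single,
          one_smul, one_smul, ← Site_nat, map_repEl, Cyl.comp_pt]
      zero := fun W a g ha => by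
        refine LinearMap.congr_fun (g := 0) (Finsupp.lhom_ext' fun x => LinearMap.ext_ring ?_) g
        change Finsupp.linearCombination L _ (Finsupp.single x 1) = 0
        obtain ⟨ψ, hψ⟩ := hu.lift_open j (c.pt x.down a)
          (((Nu_unit_iff _ _).1 (by rw [Cyl.pt_t]; exact ha)).trans hj.ge)
        rw [Finsupp.linearCombination_single, one_smul, ← hψ, ← rep_map_repEl]
        exact Site_zero hk _ }
  refine ⟨d.desc, (repSec_bijective c.I _).1 ?_⟩
  rw [repSec_comp, hπ]
  refine (d.desc_tp _ _ _).trans ?_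
  change Finsupp.linearCombination L _ (Finsupp.single (ULift.up c.p) 1) = _
  rw [Finsupp.linearCombination_single, one_smul, Cyl.pt_p_t]
  rfl

include hu hu' in
/-- The presentation of `rep U ⊗ T` by the affine line and the multiplicative group over `U`. -/
lemma exists_tate_ses (hc : CylCompat ν u') (U : C) :
    ∃ (G I : C) (j : G ⟶ I) (π : (rep C' L).obj (ν.obj I) ⟶
      (RS.unit.T L u').obj ((rep C' L).obj (ν.obj U))) (w : (rep C' L).map (ν.map j) ≫ π = 0),
      (ShortComplex.mk _ _ w).ShortExact := by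
  obtain ⟨c, hc⟩ := hc U
  obtain ⟨G, j, h1, h2⟩ := hu.exists_open c.I (((ν ⋙ u').obj c.I).basicOpen c.t)
  have : IsOpenImmersion (u'.map (ν.map j)) := h1
  exact ⟨G, c.I, j, Nu_ses hu' ⟨ν.obj c.I, ν.map c.p, c.t, hc⟩ (ν.map j) h2⟩

lemma Nu_comm (u : C ⥤ Scheme.{0}) (F : PSh C L) (n : ℕ) :
    Nonempty ((tN L u n).obj ((RS.unit.T L u).obj F) ≅ (tN L u (n + 1)).obj F) := by
  induction n with
  | zero => exact ⟨Iso.refl _⟩
  | succ n ih => exact ⟨(RS.unit.T L u).mapIso ih.some⟩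

/-- Hint: induction on `n` for all `U`, using `tN (n + 1) ≅ T ⋙ tN n` and exactness of `tN n`. -/
theorem nuBij_tN (hc : CylCompat ν u') (hc' : HasCyl u') (n : ℕ) (U : C) :
    NuBij ν hu hu' ((tN L u' n).obj ((rep C' L).obj (ν.obj U))) := by
  induction n generalizing U with
  | zero => exact nuBij_rep ν hu hu' hc hc' U
  | succ n ih =>
    obtain ⟨G, I, j, π, w, hS⟩ := exists_tate_ses (L := L) ν hu hu' hc U
    exact NuBij.of_iso ν hu hu' (Nu_comm u' _ n).some
      (NuBij.right ν hu hu' (hS.map_of_exact (tN L u' n)) (ih G) (ih I))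

lemma Nu_terminal {U : C} (h : IsTerminal U) : Nonempty ((rep C L).obj U ≅ 𝟙_ (PSh C L)) := by
  obtain ⟨a, ha⟩ := (repSec_bijective U (𝟙_ (PSh C L))).2 (1 : L)
  have : IsIso a := (NatTrans.isIso_iff_isIso_app _).2 fun V => by
    have h1 : ∀ φ : V.unop ⟶ U, a.app V (repEl L φ) = (1 : L) := fun φ =>
      (app_repEl a φ).trans (by rw [ha]; rfl)
    refine ⟨ModuleCat.ofHom (LinearMap.toSpanSingleton L _ (repEl L (h.from V.unop))), ?_, ?_⟩
    · refine ModuleCat.free_hom_ext fun x => ?_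
      change LinearMap.toSpanSingleton L _ (repEl L (h.from V.unop))
        (a.app V (repEl L x.down)) = repEl L x.down
      rw [h1, LinearMap.toSpanSingleton_apply_one, h.hom_ext (h.from _) x.down]
    · refine ModuleCat.hom_ext (LinearMap.ext_ring ?_)
      change a.app V (LinearMap.toSpanSingleton L _ (repEl L (h.from V.unop)) 1) = (1 : L)
      rw [LinearMap.toSpanSingleton_apply_one, h1]
  exact ⟨asIso a⟩

/-- The result: `U₀` is an object of the small site which is terminal in the big site. -/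
theorem nu_faithful (hc : CylCompat ν u') (hc' : HasCyl u') (U₀ : C) (h₀ : IsTerminal (ν.obj U₀))
    (q : ℤ) (n : ℕ) (K : Ch C' L)
    (x : (QU L u').obj ((src L u' q n).obj (𝟙_ (PSh C' L))) ⟶ (QU L u').obj K)
    (hx : (presW_pb ν hu hu').homMap x = 0) : x = 0 := by
  have h := NuBij.of_iso ν hu hu' ((tN L u' n).mapIso (Nu_terminal h₀).some)
    (nuBij_tN ν hu hu' hc hc' n U₀) q K
  exact (Nu_inj _).1 (Nu_pre _ ((QU L u').map
    (nonempty_src_sgl q n (𝟙_ (PSh C' L))).some.hom) h).1 x hx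

end Pool.Agent.KEW
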