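import Pool.Agent.P.MP_6277db_ag.KEW.L9.KapB
import Pool.Agent.P.MP_6277db_ag.KEW.L9.Diag
import Pool.Agent.P.MP_6277db_ag.KEW.L9.CycS
import Pool.Agent.P.MP_6277db_ag.KEW.L9.CycW
import Pool.Agent.P.MP_6277db_ag.KEW.L9.Nu

/-!
KEW, layer L9: the main lemma.
-/

set_option backward.isDefEq.respectTransparency false
set_option linter.unusedSectionVars false

noncomputable section

open CategoryTheory Limits AlgebraicGeometry Opposite MonoidalCategory

namespace Pool.Agent.KEW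

variable {A : Type} [CommRing A] [IsNoetherianRing A] [IsLocalRing A]

namespace PD

variable {N : ℕ} (D : PD A N) (L : Type 1) [CommRing L] (m : ℕ) (r : Fin (N + 1)) (Z : Set D.S)

/-- Morphisms which satisfy the diagonal identity vanish stably. -/
def Pr (j : ℕ) (G : Spt L (genSch A)) : Prop :=
  ∀ (q : ℤ) (n : ℕ) (B : Ch (Sm A) L) (_ : B ≅ (src L (smS A) q n).obj (𝟙_ (PSh (Sm A) L)))
    (x : (QU L D.uS).obj ((mapC (D.gS L)).obj B) ⟶
      (QU L D.uS).obj ((mapC (D.phiR L r Z).F).obj (G.X (j + n)))),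
    D.DiagP L r Z (G.X (j + n)) B x → StZ ((D.phiR L r Z).spt G) x

lemma diagP_post_iff {G G' : Ch (SmGen A) L} (f : G ⟶ G') (hf : WG (NGen (genSch A)) f)
    (B : Ch (Sm A) L) (x : (QU L D.uS).obj ((mapC (D.gS L)).obj B) ⟶
      (QU L D.uS).obj ((mapC (D.phiR L r Z).F).obj G)) :
    D.DiagP L r Z G' B (x ≫ (QU L D.uS).map ((mapC (D.phiR L r Z).F).map f)) ↔
      D.DiagP L r Z G B x := by
  have e1 := (QU L D.uS).congr_map ((chT (D.k1 L r Z)).naturality f)
  have e2 := (QU L D.uS).congr_map ((chT (D.k2 L r Z)).naturality f)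
  rw [Functor.map_comp, Functor.map_comp] at e1 e2
  have := WG.isIso (D.presQ L r Z f hf)
  unfold DiagP
  rw [PresW.homMap_comp, PresW.homMap_comp, PresW.homMap_map, PresW.homMap_map, Category.assoc,
    Category.assoc]
  erw [e1, e2]
  rw [← Category.assoc, ← Category.assoc, ← Category.assoc, cancel_mono, Category.assoc]

lemma pr_iff {j : ℕ} {G G' : Spt L (genSch A)} {f : SptHom G G'} (hf : f.IsW) :
    D.Pr L r Z j G ↔ D.Pr L r Z j G' := by
  constructor
  · intro h q n B e x hx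
    have := WG.isIso ((D.phiR L r Z).pres _ (hf (j + n)))
    obtain ⟨y, rfl⟩ : ∃ y, x = y ≫ (QU L D.uS).map ((mapC (D.phiR L r Z).F).map (f.f (j + n))) :=
      ⟨x ≫ inv _, by rw [Category.assoc, IsIso.inv_hom_id, Category.comp_id]⟩
    exact (h q n B e y ((D.diagP_post_iff L r Z _ (hf _) B y).1 hx)).post
      ((D.phiR L r Z).sptHom f)
  · intro h q n B e x hx
    exact StZ.of_post ((D.phiR L r Z).sptHom_isW hf)
      (h q n B e _ ((D.diagP_post_iff L r Z _ (hf _) B x).2 hx))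

lemma pr_eqvGen {j : ℕ} {G G' : Spt L (genSch A)} (h : Relation.EqvGen LevelW G G') :
    D.Pr L r Z j G ↔ D.Pr L r Z j G' := by
  induction h with
  | rel _ _ h =>
    obtain ⟨f, hf⟩ := (levelW_iff _ _).1 h
    exact D.pr_iff L r Z hf
  | refl => rfl
  | symm _ _ _ h => exact h.symm
  | trans _ _ _ _ _ h h' => exact h.trans h'

lemma lam_zero (h : VAN A L m) (hZ : IsClosed Z) {j : ℕ}
    (hT : ∀ z ∈ Z, D.P.obj.obj.hom z ≠ IsLocalRing.closedPoint A → TrLe D.P.obj.obj.hom z j)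
    {q : ℤ} {n : ℕ} {B : Ch (Sm A) L} (e : B ≅ (src L (smS A) q n).obj (𝟙_ (PSh (Sm A) L)))
    (y : (QU L (smS A)).obj ((mapC (D.K L (smBig A) r)).obj B) ⟶
      (QU L (smS A)).obj ((sgl 0).obj (MZ A L m (Fin (j + n + N)) (D.ZA r Z (j + n))))) :
    y = 0 := by
  obtain ⟨e'⟩ := nonempty_src_add (u := smS A) q n N (𝟙_ (PSh (Sm A) L))
  have := WG.isIso (D.wg_al0 L (smBig A) r (isSite_sm A) B)
  have := WG.isIso (D.wg_be0 L (smBig A) r (isSite_sm A) B)
  have h0 := h (j + n + N) j (n + N) (D.ZA r Z (j + n)) (D.isClosed_ZA r Z _ hZ) (by omega)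
    (D.trLe_ZA r Z _ hT) q
    ((QU L (smS A)).map (e'.inv ≫ (mapC (tN L (smS A) N)).map e.inv) ≫
      (QU L (smS A)).map ((chT (D.be0 L (smBig A) r)).app B) ≫
      inv ((QU L (smS A)).map ((chT (D.al0 L (smBig A) r)).app B)) ≫ y)
  rwa [Preadditive.IsIso.comp_left_eq_zero, Preadditive.IsIso.comp_left_eq_zero,
    Preadditive.IsIso.comp_left_eq_zero] at h0

lemma k2_zero (h : VAN A L m) (hZ : IsClosed Z) {j : ℕ}
    (hT : ∀ z ∈ Z, D.P.obj.obj.hom z ≠ IsLocalRing.closedPoint A → TrLe D.P.obj.obj.hom z j)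
    {q : ℤ} {n : ℕ} {B : Ch (Sm A) L} (e : B ≅ (src L (smS A) q n).obj (𝟙_ (PSh (Sm A) L)))
    (x : (QU L D.uS).obj ((mapC (D.gS L)).obj B) ⟶
      (QU L D.uS).obj ((mapC (D.phiR L r Z).F).obj ((sgl 0).obj (HG A L m (j + n))))) :
    (D.pres2 L r).homMap x ≫
      (QU L D.uS).map ((chT (D.k2 L r Z)).app ((sgl 0).obj (HG A L m (j + n)))) ≫
      (QU L D.uS).map (toSgl (D.phiQ L r Z) (D.cQ L m r Z (j + n))) = 0 := by
  have h0 := D.lam_zero L m r Z h hZ hT e ((D.presLam L r).homMap x ≫ (QU L (smS A)).map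
    (toSgl ((D.phiR L r Z).F ⋙ D.Lam L r) (D.cM L m r Z (j + n))))
  have h1 := congrArg (D.presGS L).homMap h0
  erw [PresW.homMap_zero, PresW.homMap_comp, PresW.homMap_map, PresW.homMap_homMap] at h1
  have h2 := map_toSgl ((D.phiR L r Z).F ⋙ D.Lam L r) (D.gS L) (D.cM L m r Z (j + n))
    (D.incl L m r Z (j + n))
  rw [← D.k2_cQ] at h2
  rw [← Functor.map_comp, chT_toSgl]
  erw [← h2]
  rw [Functor.map_comp, ← Category.assoc]
  erw [h1]
  exact zero_comp

theorem pr_voev (h : VAN A L m) (hZ : IsClosed Z) {j : ℕ}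
    (hT : ∀ z ∈ Z, D.P.obj.obj.hom z ≠ IsLocalRing.closedPoint A → TrLe D.P.obj.obj.hom z j) :
    D.Pr L r Z j (voev L (genSch A) m) := by
  intro q n B e x hx
  have h2 := D.k2_zero L m r Z h hZ hT e x
  obtain ⟨γ, hγ, hγ'⟩ := D.kap_final L r Z ((sgl 0).obj (HG A L m (j + n)))
  have i1 := WG.isIso (D.wg_al0 L (D.sl (smBig A)) r D.siteS ((mapC (D.gS L)).obj B))
  have i2 := WG.isIso (D.wg_be0 L (D.sl (smBig A)) r D.siteS ((mapC (D.gS L)).obj B))
  have i3 := WG.isIso (D.wg_be0 L (D.sl (smBig A)) r D.siteS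
    ((mapC (D.phiR L r Z).F).obj ((sgl 0).obj (HG A L m (j + n)))))
  have i4 := WG.isIso (wg_toSgl (D.phiR L r Z).F (D.locInj_psi L m r Z (j + n) hZ)
    (D.locSurj_psi L m r Z (j + n)))
  have n1 := PresW.homMap_naturality (D.presK L (D.sl (smBig A)) r)
    (D.presK0 L (D.sl (smBig A)) r) (chT (D.al0 L (D.sl (smBig A)) r)) x
  have n2 := PresW.homMap_naturality (presW_tN (u := D.uS) N)
    (D.presK0 L (D.sl (smBig A)) r) (chT (D.be0 L (D.sl (smBig A)) r)) x
  have h3 : (D.presK L (D.sl (smBig A)) r).homMap x ≫ γ =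
      ((QU L D.uS).map ((chT (D.al0 L (D.sl (smBig A)) r)).app ((mapC (D.gS L)).obj B)) ≫
        inv ((QU L D.uS).map ((chT (D.be0 L (D.sl (smBig A)) r)).app ((mapC (D.gS L)).obj B)))) ≫
      (presW_tN (u := D.uS) N).homMap x := by
    rw [← cancel_mono ((QU L D.uS).map ((chT (D.be0 L (D.sl (smBig A)) r)).app
      ((mapC (D.phiR L r Z).F).obj ((sgl 0).obj (HG A L m (j + n)))))), Category.assoc, hγ,
      Category.assoc, Category.assoc]
    erw [n1, n2]
    rw [IsIso.inv_hom_id_assoc]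
  have h4 : (D.presK L (D.sl (smBig A)) r).homMap x ≫
      (QU L D.uS).map ((chT (D.k1 L r Z)).app ((sgl 0).obj (HG A L m (j + n)))) ≫
      (QU L D.uS).map (toSgl (D.phiQ L r Z) (D.cQ L m r Z (j + n))) = 0 := by
    rw [← Category.assoc]
    erw [hx]
    rw [Category.assoc, Category.assoc]
    erw [h2]
    exact comp_zero
  rw [← hγ', Category.assoc, ← Category.assoc, h3, Category.assoc,
    Preadditive.IsIso.comp_left_eq_zero, ← Functor.map_comp, ← D.σN_psi, Functor.map_comp,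
    ← Category.assoc, Preadditive.IsIso.comp_right_eq_zero] at h4
  exact StZ.of_σN N h4

instance : D.nu.Full where
  map_surjective f := ⟨⟨ObjectProperty.homMk f.1, f.2⟩, rfl⟩

instance : D.nu.Faithful where
  map_injective h := El.hom_ext (ObjectProperty.hom_ext _ (congrArg Subtype.val h))

lemma cylCompat_nu : CylCompat D.nu D.uB := by
  intro U
  obtain ⟨c, hc⟩ := exists_cyl_big A U.W.obj
  let I : D.SP' := ⟨⟨c.I, Sites_smooth_of A c.p hc U.W.property⟩, c.p ≫ U.x⟩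
  let p : I ⟶ U := ⟨ObjectProperty.homMk c.p, rfl⟩
  have key : ∀ V : D.BP, Function.Bijective
      fun φ : V ⟶ D.nu.obj I => (φ ≫ D.nu.map p, (D.uB.map φ).appTop c.t) := fun V => by
    refine ⟨fun φ φ' h => El.hom_ext ((c.bij V.W).1 (Prod.ext ?_ ?_)), ?_⟩
    · exact congrArg Subtype.val (congrArg Prod.fst h)
    · exact (congrArg Prod.snd h :)
    · rintro ⟨ψ, t⟩
      obtain ⟨φ, hφ⟩ := (c.bij V.W).2 (ψ.1, t)
      have h1 : φ ≫ c.p = ψ.1 := congrArg Prod.fst hφ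
      refine ⟨⟨φ, ?_⟩, Prod.ext (El.hom_ext h1) (congrArg Prod.snd hφ :)⟩
      exact (Category.assoc φ c.p U.x).symm.trans (h1 ▸ ψ.2)
  refine ⟨⟨I, p, c.t, fun V => ⟨fun φ φ' h => D.nu.map_injective ((key (D.nu.obj V)).1
    (Prod.ext ?_ ?_)), ?_⟩⟩, key⟩
  · exact (D.nu.map_comp φ p).symm.trans
      ((congrArg D.nu.map (congrArg Prod.fst h)).trans (D.nu.map_comp φ' p))
  · exact (congrArg Prod.snd h :)
  · rintro ⟨ψ, t⟩
    obtain ⟨φ, hφ⟩ := (key (D.nu.obj V)).2 (D.nu.map ψ, t)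
    obtain ⟨φ, rfl⟩ := D.nu.map_surjective φ
    exact ⟨φ, Prod.ext (D.nu.map_injective ((D.nu.map_comp φ p).trans (congrArg Prod.fst hφ)))
      (congrArg Prod.snd hφ :)⟩

/-- The object `(P, id)` is terminal in the big slice. -/
def isTerminalP : IsTerminal (D.nu.obj ⟨D.P, 𝟙 D.P.obj⟩) :=
  IsTerminal.ofUniqueHom (fun V => ⟨V.x, Category.comp_id V.x⟩) fun _ f =>
    El.hom_ext ((Category.comp_id f.1).symm.trans f.2)

variable (A) in
/-- The restriction of a spectrum, in the language of lax functors. -/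
def resHom (E : Spt L (big A)) : SptHom (E.res (smGen A)) ((genL A L).spt E) where
  f _ := 𝟙 _
  comm n := by
    have : (genL A L).θc (E.X n) = 𝟙 _ := by
      ext k : 1
      rfl
    change _ ≫ 𝟙 _ = (tT L _).map (𝟙 _) ≫ (genL A L).θc (E.X n) ≫ _
    rw [this, CategoryTheory.Functor.map_id]
    erw [Category.id_comp, Category.id_comp, Category.comp_id]
    rfl

/-- The main lemma. -/
theorem van_phiB (h : VAN A L m) (hZ : IsClosed Z) {j : ℕ}
    (hT : ∀ z ∈ Z, D.P.obj.obj.hom z ≠ IsLocalRing.closedPoint A → TrLe D.P.obj.obj.hom z j)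
    {E : Spt L (big A)} (hE : ∀ n, SmGenerated A L (E.X n))
    (hE' : Relation.EqvGen LevelW (E.res (smGen A)) (voev L (smGen A ⋙ big A) m)) :
    Van ((D.phiB L r Z).spt E) j (𝟙_ (PSh D.BP L)) := by
  intro q n x
  have hθ : IsIso (D.nuL L).θ :=
    inferInstanceAs (IsIso (Lax.ofPb L (u' := D.uB) D.nu D.siteS D.siteB).θ)
  refine (D.nuL L).stZ_reflect _ q _ (fun k K y hy => nu_faithful (u' := D.uB) D.nu D.siteS
    D.siteB D.cylCompat_nu ((hasCyl_big A).el _) _ D.isTerminalP q k K y hy) x ?_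
  obtain ⟨e⟩ := nonempty_src_pb (u' := big A) (El.proj (D.PX (𝟭 (Big A)))) q n
    (𝟙_ (PSh (Big A) L))
  obtain ⟨e'⟩ := nonempty_src_pb (u' := big A) (smBig A) q n (𝟙_ (PSh (Big A) L))
  have h1 := (D.pr_eqvGen L r Z hE').2 (D.pr_voev L m r Z h hZ hT) q n _ e' _
    (D.diagP L r Z (hE (j + n)) _ ((QU L D.uB).map e.hom ≫ x))
  have h2 := (h1.post ((D.phiR L r Z).sptHom (resHom A L E))).post
    ((genL A L).compHom (D.phiR L r Z) E)
  have hc : IsIso (D.cmp L r Z).τ := (D.exists_cmp L r Z).choose_spec.1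
  have w1 : ((D.phiB L r Z).compHom (D.nuL L) E).IsW := fun k => WG.of_quasiIso (𝟙 _)
  have w2 : ((D.cmp L r Z).spt E).IsW := fun k => by
    have : IsIso ((chT (D.cmp L r Z).τ).app (E.X k)) :=
      inferInstanceAs (IsIso ((NatIso.mapHomologicalComplex (asIso (D.cmp L r Z).τ) _).hom.app _))
    exact WG.of_quasiIso ((chT (D.cmp L r Z).τ).app (E.X k))
  have i1 := PresW.isIso_homMap (D.nuL L).pres ((QU L D.uB).map e.hom)
  refine StZ.of_pre ((D.nuL L).pres.homMap ((QU L D.uB).map e.hom)) ?_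
  refine StZ.of_post w1 (StZ.of_post w2 ?_)
  convert h2 using 1
  · rfl
  dsimp only [Lax.compHom, Lax.sptHom, resHom, Lax.Hom.spt]
  rw [PresW.homMap_comp]
  erw [CategoryTheory.Functor.map_id, CategoryTheory.Functor.map_id, CategoryTheory.Functor.map_id,
    Category.comp_id, Category.comp_id, Category.comp_id]

end PD

end Pool.Agent.KEW
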