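import Pool.Agent.P.MP_6277db_ag.KEW.L2b.Sites

/-!
KEW, layer L9: coincidence of two maps at a point, and schemes with projective charts.
-/

set_option backward.isDefEq.respectTransparency false

noncomputable section

open CategoryTheory Limits AlgebraicGeometry Opposite

namespace Pool.Agent.KEW

section eqAt

variable {V W P P' S : Scheme.{0}}

/-- The maps `u` and `v` agree on the residue field of the point `w`. -/
def EqAt (u v : W ⟶ P) (w : W) : Prop :=
  W.fromSpecResidueField w ≫ u = W.fromSpecResidueField w ≫ v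

lemma EqAt.refl (u : W ⟶ P) (w : W) : EqAt u u w := rfl

lemma EqAt.symm {u v : W ⟶ P} {w : W} (h : EqAt u v w) : EqAt v u w := Eq.symm h

lemma EqAt.trans {u v v' : W ⟶ P} {w : W} (h : EqAt u v w) (h' : EqAt v v' w) : EqAt u v' w :=
  Eq.trans h h'

lemma PD_nonempty (W : Scheme.{0}) (w : W) : Nonempty (Spec (W.residueField w)) :=
  ⟨IsLocalRing.closedPoint _⟩

lemma EqAt.eq {u v : W ⟶ P} {w : W} (h : EqAt u v w) : u w = v w := by
  obtain ⟨t⟩ := PD_nonempty W w
  have h1 : (W.fromSpecResidueField w ≫ u) t = (W.fromSpecResidueField w ≫ v) t := by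
    rw [show W.fromSpecResidueField w ≫ u = W.fromSpecResidueField w ≫ v from h]
  rwa [Scheme.Hom.comp_apply, Scheme.Hom.comp_apply, Scheme.fromSpecResidueField_apply] at h1

lemma EqAt.post {u v : W ⟶ P} {w : W} (h : EqAt u v w) (i : P ⟶ P') : EqAt (u ≫ i) (v ≫ i) w := by
  unfold EqAt at h ⊢
  rw [reassoc_of% h]

lemma PD_epi (f : V ⟶ W) (y : V) : Epi (Spec.map (f.residueFieldMap y)) := by
  have h1 : Flat (Spec.map (f.residueFieldMap y)) := by
    rw [HasRingHomProperty.Spec_iff (P := @Flat)]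
    algebraize [(f.residueFieldMap y).hom]
    exact (inferInstance : Module.Flat (W.residueField (f y)) (V.residueField y))
  have h2 : Surjective (Spec.map (f.residueFieldMap y)) := ⟨fun t => by
    obtain ⟨s⟩ := PD_nonempty V y
    exact ⟨s, Subsingleton.elim (α := PrimeSpectrum (W.residueField (f y))) _ _⟩⟩
  exact Flat.epi_of_flat_of_surjective _

/-- Hint: `Spec` of a field extension is an epimorphism of schemes (flat, surjective). -/
lemma eqAt_comp (f : V ⟶ W) (u v : W ⟶ P) (y : V) :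
    EqAt (f ≫ u) (f ≫ v) y ↔ EqAt u v (f y) := by
  have := PD_epi f y
  unfold EqAt
  rw [← Scheme.Hom.SpecMap_residueFieldMap_fromSpecResidueField_assoc,
    ← Scheme.Hom.SpecMap_residueFieldMap_fromSpecResidueField_assoc, cancel_epi]

lemma eqAt_mono (i : P ⟶ P') [Mono i] (u v : W ⟶ P) (w : W) :
    EqAt (u ≫ i) (v ≫ i) w ↔ EqAt u v w := by
  unfold EqAt
  rw [← Category.assoc, ← Category.assoc, cancel_mono]

lemma PD_lift (i : P' ⟶ P) [IsClosedImmersion i] (u : W ⟶ P) (w : W) (h : u w ∈ Set.range i) :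
    ∃ d : Spec (W.residueField w) ⟶ P', d ≫ i = W.fromSpecResidueField w ≫ u := by
  refine CycB_lift i (W.residueField w) (W.fromSpecResidueField w ≫ u) ?_
  have h1 : ∀ t : Spec (W.residueField w), (W.fromSpecResidueField w ≫ u) t ∈ Set.range i :=
    fun t => by rwa [Scheme.Hom.comp_apply, Scheme.fromSpecResidueField_apply]
  exact h1 _

lemma eqAt_iff_diag (s : P ⟶ S) [IsSeparated s] {u v : W ⟶ P} (h : u ≫ s = v ≫ s) (w : W) :
    pullback.lift u v h w ∈ Set.range (pullback.diagonal s) ↔ EqAt u v w := by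
  constructor
  · intro hw
    obtain ⟨d, hd⟩ := PD_lift (pullback.diagonal s) (pullback.lift u v h) w hw
    have h1 := hd =≫ pullback.fst s s
    have h2 := hd =≫ pullback.snd s s
    rw [Category.assoc, Category.assoc, pullback.lift_fst, pullback.diagonal_fst] at h1
    rw [Category.assoc, Category.assoc, pullback.lift_snd, pullback.diagonal_snd] at h2
    exact h1.symm.trans h2
  · intro hw
    have h1 : EqAt (u ≫ pullback.diagonal s) (pullback.lift u v h) w := by
      unfold EqAt at hw ⊢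
      apply pullback.hom_ext
      · simp
      · simp [hw]
    exact ⟨u w, by rw [← h1.eq, Scheme.Hom.comp_apply]⟩

lemma isClosed_eqAt (s : P ⟶ S) [IsSeparated s] {u v : W ⟶ P} (h : u ≫ s = v ≫ s) :
    IsClosed {w | EqAt u v w} := by
  have h1 : {w | EqAt u v w} = pullback.lift u v h ⁻¹' Set.range (pullback.diagonal s) :=
    Set.ext fun w => (eqAt_iff_diag s h w).symm
  rw [h1]
  exact (pullback.diagonal s).isClosedEmbedding.isClosed_range.preimage (Scheme.Hom.continuous _)

lemma PD_zero (w : W) (a : Γ(W, ⊤)) :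
    (W.fromSpecResidueField w).appTop a = 0 ↔ w ∉ W.basicOpen a := by
  rw [← basicOpen_eq_bot_iff, ← Scheme.preimage_basicOpen_top]
  constructor
  · intro h hw
    obtain ⟨t⟩ := PD_nonempty W w
    have h1 : t ∈ W.fromSpecResidueField w ⁻¹ᵁ W.basicOpen a := by
      change W.fromSpecResidueField w t ∈ W.basicOpen a
      rwa [Scheme.fromSpecResidueField_apply]
    rw [h] at h1
    exact h1
  · intro h
    refine le_bot_iff.1 fun t ht => h ?_
    change W.fromSpecResidueField w t ∈ W.basicOpen a at ht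
    rwa [Scheme.fromSpecResidueField_apply] at ht

lemma PD_inj {ι : Type} (f : W ⟶ S) {y y' : ι → Γ(W, ⊤)}
    (h : AffineSpace.homOfVector f y = AffineSpace.homOfVector f y') : y = y' := by
  funext i
  rw [← AffineSpace.homOfVector_appTop_coord f y i, h, AffineSpace.homOfVector_appTop_coord]

lemma PD_mem {ι : Type} (f : W ⟶ S) (y : ι → Γ(W, ⊤)) (i : ι) (w : W) :
    AffineSpace.homOfVector f y w ∈ 𝔸(ι; S).basicOpen (AffineSpace.coord S i) ↔
      w ∈ W.basicOpen (y i) := by
  rw [← AffineSpace.homOfVector_appTop_coord f y i, ← Scheme.preimage_basicOpen_top]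
  rfl

lemma PD_eta {ι : Type} (l : W ⟶ 𝔸(ι; S)) :
    AffineSpace.homOfVector (l ≫ 𝔸(ι; S) ↘ S) (fun i => l.appTop (AffineSpace.coord S i)) = l :=
  AffineSpace.hom_ext (AffineSpace.homOfVector_over _ _) fun i =>
    AffineSpace.homOfVector_appTop_coord _ _ i

lemma eqAt_homOfVector {ι : Type} (f : W ⟶ S) (y y' : ι → Γ(W, ⊤)) (w : W) :
    EqAt (AffineSpace.homOfVector f y) (AffineSpace.homOfVector f y') w ↔
      ∀ i, w ∉ W.basicOpen (y i - y' i) := by
  unfold EqAt
  rw [AffineSpace.comp_homOfVector, AffineSpace.comp_homOfVector]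
  constructor
  · intro h i
    rw [← PD_zero, map_sub, sub_eq_zero]
    exact congrFun (PD_inj _ h) i
  · intro h
    refine congrArg _ (funext fun i => ?_)
    have h1 := (PD_zero w _).2 (h i)
    rwa [map_sub, sub_eq_zero] at h1

/-- A point lies on a section which is a closed immersion iff it is fixed by the projection. -/
lemma mem_range_section {p : W ⟶ V} {σ : V ⟶ W} [IsClosedImmersion σ] (h : σ ≫ p = 𝟙 V) (w : W) :
    w ∈ Set.range σ ↔ EqAt (p ≫ σ) (𝟙 W) w := by
  constructor
  · intro hw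
    obtain ⟨d, hd⟩ := PD_lift σ (𝟙 W) w hw
    unfold EqAt
    rw [Category.comp_id] at hd ⊢
    rw [← hd, Category.assoc, reassoc_of% h]
  · intro hw
    exact ⟨p w, by rw [← Scheme.Hom.comp_apply, hw.eq]; rfl⟩

lemma mem_range_zeroSec (ι : Type) (W : Scheme.{0}) (x : 𝔸(ι; W)) :
    x ∈ Set.range (zeroSec ι W) ↔ ∀ i, x ∉ 𝔸(ι; W).basicOpen (AffineSpace.coord W i) := by
  have h0 : IsClosedImmersion (zeroSec ι W ≫ 𝔸(ι; W) ↘ W) := by
    rw [CycB_zero_over]
    infer_instance
  have h1 : IsClosedImmersion (zeroSec ι W) := IsClosedImmersion.of_comp _ (𝔸(ι; W) ↘ W)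
  have h2 : 𝔸(ι; W) ↘ W ≫ zeroSec ι W = AffineSpace.homOfVector (𝔸(ι; W) ↘ W) fun _ => 0 := by
    rw [zeroSec, AffineSpace.comp_homOfVector, Category.comp_id]
    exact congrArg _ (funext fun _ => map_zero _)
  have h3 : 𝟙 𝔸(ι; W) = AffineSpace.homOfVector (𝔸(ι; W) ↘ W) (AffineSpace.coord W) :=
    AffineSpace.hom_ext (by rw [Category.id_comp, AffineSpace.homOfVector_over]) fun i => by
      rw [AffineSpace.homOfVector_appTop_coord]
      rfl
  rw [mem_range_section (CycB_zero_over ι W), h2, h3]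
  constructor
  · intro h i
    have h4 := (eqAt_homOfVector _ _ _ x).1 h.symm i
    rwa [sub_zero] at h4
  · intro h
    refine ((eqAt_homOfVector _ _ _ x).2 fun i => ?_).symm
    rw [sub_zero]
    exact h i

end eqAt

/-- A smooth scheme with the standard charts of projective space. -/
structure PD (A : Type) [CommRing A] (N : ℕ) where
  /-- the scheme -/
  P : Sm A
  /-- the charts -/
  ch : Fin (N + 1) → (𝔸(Fin N; Spec (.of A)) ⟶ P.obj.obj.left)
  opn : ∀ b, IsOpenImmersion (ch b)
  chOver : ∀ b, ch b ≫ P.obj.obj.hom = 𝔸(Fin N; Spec (.of A)) ↘ Spec (.of A)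
  cover : ∀ x : P.obj.obj.left, ∃ b, x ∈ Set.range (ch b)
  trans : ∀ (b : Fin (N + 1)) (i : Fin N) (x : 𝔸(Fin N; Spec (.of A))),
    ch b x ∈ Set.range (ch (b.succAbove i)) ↔
      x ∈ 𝔸(Fin N; Spec (.of A)).basicOpen (AffineSpace.coord _ i)

namespace PD

variable {A : Type} [CommRing A] {N : ℕ} (D : PD A N)

instance (b : Fin (N + 1)) : IsOpenImmersion (D.ch b) := D.opn b

/-- The underlying scheme. -/
abbrev S : Scheme.{0} := (big A).obj D.P.obj

/-- The image of a chart. -/
def U (b : Fin (N + 1)) : Set D.S := Set.range (D.ch b)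

lemma isOpen_U (b : Fin (N + 1)) : IsOpen (D.U b) := (D.ch b).isOpenEmbedding.isOpen_range

variable {V W : Big A}

/-- The point with coordinates `y` in the chart `b`. -/
def pt (b : Fin (N + 1)) (W : Big A) (y : Fin N → Γ((big A).obj W, ⊤)) : W ⟶ D.P.obj :=
  Big.homMk (AffineSpace.homOfVector W.obj.hom y ≫ D.ch b)
    (by rw [Category.assoc, D.chOver, AffineSpace.homOfVector_over])

lemma map_pt (b : Fin (N + 1)) (W : Big A) (y : Fin N → Γ((big A).obj W, ⊤)) :
    (big A).map (D.pt b W y) = AffineSpace.homOfVector W.obj.hom y ≫ D.ch b := rfl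

/-- The map `v` has image in the chart `b`. -/
def InU (b : Fin (N + 1)) (v : W ⟶ D.P.obj) : Prop := ∀ w, (big A).map v w ∈ D.U b

/-- The map `v` misses the set `Z`. -/
def Avoid (Z : Set D.S) (v : W ⟶ D.P.obj) : Prop := ∀ w, (big A).map v w ∉ Z

variable {D}

lemma InU.comp {b : Fin (N + 1)} {v : W ⟶ D.P.obj} (h : D.InU b v) (f : V ⟶ W) :
    D.InU b (f ≫ v) := fun w => by
  rw [Functor.map_comp]
  exact h _

lemma Avoid.comp {Z : Set D.S} {v : W ⟶ D.P.obj} (h : D.Avoid Z v) (f : V ⟶ W) :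
    D.Avoid Z (f ≫ v) := fun w => by
  rw [Functor.map_comp]
  exact h _

variable (D)

lemma exists_crd (b : Fin (N + 1)) (v : W ⟶ D.P.obj) :
    ∃ y : Fin N → Γ((big A).obj W, ⊤), D.InU b v → D.pt b W y = v := by
  by_cases h : D.InU b v
  · have h1 : Set.range ((big A).map v) ⊆ Set.range (D.ch b) := by
      rintro _ ⟨w, rfl⟩
      exact h w
    have h2 := IsOpenImmersion.lift_fac (D.ch b) ((big A).map v) h1
    refine ⟨fun i => (IsOpenImmersion.lift (D.ch b) ((big A).map v) h1).appTop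
      (AffineSpace.coord _ i), fun _ => Big.hom_ext ?_⟩
    have h3 : IsOpenImmersion.lift (D.ch b) ((big A).map v) h1 ≫
        𝔸(Fin N; Spec (.of A)) ↘ Spec (.of A) = W.obj.hom := by
      rw [← D.chOver b, ← Category.assoc, h2]
      exact Big.w v
    rw [map_pt, ← h3]
    exact (congrArg (· ≫ D.ch b) (PD_eta _)).trans h2
  · exact ⟨0, fun h' => (h h').elim⟩

/-- The coordinates of a map with image in the chart `b`. -/
def crd (b : Fin (N + 1)) (v : W ⟶ D.P.obj) : Fin N → Γ((big A).obj W, ⊤) :=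
  (D.exists_crd b v).choose

lemma pt_crd {b : Fin (N + 1)} {v : W ⟶ D.P.obj} (h : D.InU b v) : D.pt b W (D.crd b v) = v :=
  (D.exists_crd b v).choose_spec h

lemma pt_injective (b : Fin (N + 1)) (W : Big A) : Function.Injective (D.pt b W) := by
  intro y y' h
  have h1 := congrArg (big A).map h
  rw [map_pt, map_pt, cancel_mono] at h1
  exact PD_inj _ h1

lemma inU_pt (b : Fin (N + 1)) (W : Big A) (y : Fin N → Γ((big A).obj W, ⊤)) :
    D.InU b (D.pt b W y) := by
  intro w
  exact ⟨AffineSpace.homOfVector W.obj.hom y w, (Scheme.Hom.comp_apply _ _ _).symm⟩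

lemma crd_pt (b : Fin (N + 1)) (W : Big A) (y : Fin N → Γ((big A).obj W, ⊤)) :
    D.crd b (D.pt b W y) = y := D.pt_injective b W (D.pt_crd (D.inU_pt b W y))

lemma comp_pt (f : V ⟶ W) (b : Fin (N + 1)) (y : Fin N → Γ((big A).obj W, ⊤)) :
    f ≫ D.pt b W y = D.pt b V fun i => ((big A).map f).appTop (y i) := by
  apply Big.hom_ext
  rw [Functor.map_comp, map_pt, map_pt, AffineSpace.comp_homOfVector_assoc, Big.w]
  rfl

lemma crd_comp (f : V ⟶ W) {b : Fin (N + 1)} {v : W ⟶ D.P.obj} (h : D.InU b v) :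
    D.crd b (f ≫ v) = fun i => ((big A).map f).appTop (D.crd b v i) := by
  apply D.pt_injective b V
  rw [D.pt_crd (h.comp f), ← comp_pt, D.pt_crd h]

lemma pt_mem_iff (b : Fin (N + 1)) (i : Fin N) (y : Fin N → Γ((big A).obj W, ⊤))
    (w : (big A).obj W) :
    (big A).map (D.pt b W y) w ∈ D.U (b.succAbove i) ↔ w ∈ ((big A).obj W).basicOpen (y i) := by
  have h1 : (big A).map (D.pt b W y) w = D.ch b (AffineSpace.homOfVector W.obj.hom y w) :=
    Scheme.Hom.comp_apply _ _ _
  rw [h1]
  exact (D.trans b i _).trans (PD_mem W.obj.hom y i w)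

lemma eqAt_pt (b : Fin (N + 1)) (y y' : Fin N → Γ((big A).obj W, ⊤)) (w : (big A).obj W) :
    EqAt ((big A).map (D.pt b W y)) ((big A).map (D.pt b W y')) w ↔
      ∀ i, w ∉ ((big A).obj W).basicOpen (y i - y' i) := by
  rw [map_pt, map_pt]
  exact (eqAt_mono (D.ch b) _ _ w).trans (eqAt_homOfVector _ y y' w)

lemma isClosed_eqAt (u v : W ⟶ D.P.obj) :
    IsClosed {w | EqAt ((big A).map u) ((big A).map v) w} := by
  have : IsSeparated D.P.obj.obj.hom := D.P.obj.property.2.2
  exact KEW.isClosed_eqAt D.P.obj.obj.hom ((Big.w u).trans (Big.w v).symm)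

lemma eqAt_comp (f : V ⟶ W) (u v : W ⟶ D.P.obj) (y : (big A).obj V) :
    EqAt ((big A).map (f ≫ u)) ((big A).map (f ≫ v)) y ↔
      EqAt ((big A).map u) ((big A).map v) ((big A).map f y) := by
  rw [Functor.map_comp, Functor.map_comp, KEW.eqAt_comp]

end PD

/-- The object lies over the generic point. -/
def IsGen {A : Type} [CommRing A] [IsLocalRing A] (W : Big A) : Prop :=
  IsLocalRing.closedPoint A ∉ Set.range W.obj.hom

lemma IsGen.comp {A : Type} [CommRing A] [IsLocalRing A] {V W : Big A} (f : V ⟶ W) (h : IsGen W) :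
    IsGen V := by
  rintro ⟨y, hy⟩
  refine h ⟨(big A).map f y, ?_⟩
  rw [← hy, ← Big.w f]
  rfl

end Pool.Agent.KEW
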