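import Pool.Agent.P.MP_6277db_ag.KEW.L9.Filt
import Pool.Agent.P.MP_6277db_ag.KEW.L9.Adj
import Pool.Agent.P.MP_6277db_ag.KEW.L2b.Sigma
import Pool.Agent.P.MP_6277db_ag.KEW.L2b.Glue

/-!
KEW, layer L9: the adjunction attached to a closed subscheme of `P`.
-/

set_option backward.isDefEq.respectTransparency false
set_option linter.unusedSectionVars false

noncomputable section

open CategoryTheory Limits AlgebraicGeometry Opposite MonoidalCategory

namespace Pool.Agent.KEW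

variable {A : Type} [CommRing A] [IsNoetherianRing A] [IsLocalRing A]

variable (A) in
/-- The empty schemes. -/
def empSub : (SP.pt (Big A)).Sub :=
  SP.ptSub (fun W => IsEmpty ((big A).obj W)) fun f h => ⟨fun y => h.elim ((big A).map f y)⟩

variable (A) in
/-- Killing the sections over empty schemes. -/
abbrev PiF (L : Type 1) [CommRing L] : PSh (Big A) L ⥤ PSh (Big A) L :=
  pb L (El.proj (SP.pt (Big A))) ⋙ sm .top (empSub A) L

/-- The generators of `PiF`. -/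
def ePi {L : Type 1} [CommRing L] (G : PSh (Big A) L) (W : Big A) :
    G.obj (op W) →ₗ[L] ((PiF A L).obj G).obj (op W) :=
  smI .top (empSub A) ((pb L (El.proj (SP.pt (Big A)))).obj G) ⟨W, ()⟩

lemma StepA_mk {C : Type 1} [Category.{0} C] {L : Type 1} [CommRing L] {E : Type 2}
    [Category.{1} E] (F F' : E ⥤ PSh C L)
    (ψ : ∀ (G : E) (W : C), (F.obj G).obj (op W) →ₗ[L] (F'.obj G).obj (op W))
    (nat : ∀ (G : E) {V W : C} (f : V ⟶ W) (g : (F.obj G).obj (op W)),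
      ((F'.obj G).map f.op).hom (ψ G W g) = ψ G V (((F.obj G).map f.op).hom g))
    (natG : ∀ {G G' : E} (τ : G ⟶ G') (W : C) (g : (F.obj G).obj (op W)),
      ((F'.map τ).app (op W)).hom (ψ G W g) = ψ G' W (((F.map τ).app (op W)).hom g)) :
    ∃ k : F ⟶ F', ∀ (G : E) (W : C) (g : (F.obj G).obj (op W)),
      ((k.app G).app (op W)).hom g = ψ G W g := by
  let k : ∀ G : E, F.obj G ⟶ F'.obj G := fun G =>
    { app W := ModuleCat.ofHom (ψ G W.unop)
      naturality W V f := ModuleCat.hom_ext (LinearMap.ext fun g => (nat G f.unop g).symm) }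
  refine ⟨{ app := k, naturality := fun G G' τ => ?_ }, fun _ _ _ => rfl⟩
  ext W : 2
  exact ModuleCat.hom_ext (LinearMap.ext fun g => (natG τ W.unop g).symm)

lemma StepA_mm {C : Type 1} [Category.{0} C] {L : Type 1} [CommRing L] (G : PSh C L) {U V W : C}
    (f : U ⟶ V) (f' : V ⟶ W) (g : G.obj (op W)) :
    (G.map f.op).hom ((G.map f'.op).hom g) = (G.map (f ≫ f').op).hom g := by
  rw [op_comp, Functor.map_comp]
  rfl

lemma StepA_sq {C : Type 1} [Category.{0} C] {L : Type 1} [CommRing L] (G : PSh C L)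
    {U V V' W : C} {f : U ⟶ V} {f' : V ⟶ W} {k : U ⟶ V'} {k' : V' ⟶ W} (h : f ≫ f' = k ≫ k')
    (g : G.obj (op W)) :
    (G.map f.op).hom ((G.map f'.op).hom g) = (G.map k.op).hom ((G.map k'.op).hom g) := by
  rw [StepA_mm, StepA_mm, h]

lemma StepA_ret {C : Type 1} [Category.{0} C] {L : Type 1} [CommRing L] (G : PSh C L) {U V : C}
    {f : U ⟶ V} {f' : V ⟶ U} (h : f ≫ f' = 𝟙 U) (g : G.obj (op U)) :
    (G.map f.op).hom ((G.map f'.op).hom g) = g := by
  rw [StepA_mm, h, op_id, CategoryTheory.Functor.map_id]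
  rfl

lemma StepA_nat {C : Type 1} [Category.{0} C] {L : Type 1} [CommRing L] {G G' : PSh C L}
    (τ : G ⟶ G') {V W : C} (f : V ⟶ W) (g : G.obj (op W)) :
    (τ.app (op V)).hom ((G.map f.op).hom g) = (G'.map f.op).hom ((τ.app (op W)).hom g) :=
  congrArg (fun k => k.hom g) (τ.naturality f.op)

lemma StepA_ePi_map {L : Type 1} [CommRing L] (G : PSh (Big A) L) {V W : Big A} (f : V ⟶ W)
    (g : G.obj (op W)) :
    (((PiF A L).obj G).map f.op).hom (ePi G W g) = ePi G V ((G.map f.op).hom g) :=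
  smObj_map_I' (a := .top) (b := empSub A) ((pb L (El.proj (SP.pt (Big A)))).obj G) f (x := ())
    trivial g

lemma StepA_ePi_nat {L : Type 1} [CommRing L] {G G' : PSh (Big A) L} (τ : G ⟶ G') (W : Big A)
    (g : G.obj (op W)) :
    (((PiF A L).map τ).app (op W)).hom (ePi G W g) = ePi G' W ((τ.app (op W)).hom g) :=
  sm_map_I (a := .top) (b := empSub A) ((pb L (El.proj (SP.pt (Big A)))).map τ) ⟨W, ()⟩ g

lemma StepA_ePi_zero {L : Type 1} [CommRing L] (G : PSh (Big A) L) {W : Big A}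
    (h : IsEmpty ((big A).obj W)) (g : G.obj (op W)) : ePi G W g = 0 :=
  smI_of_b (a := .top) (b := empSub A) (G := (pb L (El.proj (SP.pt (Big A)))).obj G)
    (p := ⟨W, ()⟩) h g

lemma StepA_ePi_surj {L : Type 1} [CommRing L] (G : PSh (Big A) L) (W : Big A)
    (m : ((PiF A L).obj G).obj (op W)) : ∃ g, ePi G W g = m :=
  sm_induction (a := .top) (b := empSub A) (G := (pb L (El.proj (SP.pt (Big A)))).obj G)
    (P := fun m => ∃ g, ePi G W g = m) m ⟨0, map_zero _⟩ (fun _ g _ _ => ⟨g, rfl⟩)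
    fun _ _ ⟨g, h⟩ ⟨g', h'⟩ => ⟨g + g', (map_add _ _ _).trans (congrArg₂ (· + ·) h h')⟩

lemma exists_cPi (L : Type 1) [CommRing L] : ∃ c : 𝟭 (PSh (Big A) L) ⟶ PiF A L,
    (∀ (G : PSh (Big A) L) (W : Big A) (g : G.obj (op W)),
      ((c.app G).app (op W)).hom g = ePi G W g) ∧ ∀ K, WG (NGen (big A)) ((chT c).app K) := by
  obtain ⟨c, hc⟩ := StepA_mk (𝟭 (PSh (Big A) L)) (PiF A L) (fun G W => ePi G W)
    (fun G _ _ f g => StepA_ePi_map G f g) fun τ W g => StepA_ePi_nat τ W g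
  refine ⟨c, hc, fun K => WG.of_nis (wg_nis_of_terms _ (fun n U g h w => ?_) fun n U m w => ?_)⟩
  · rcases (smI_eq_zero_iff (a := .top) (b := empSub A)
      (G := (pb L (El.proj (SP.pt (Big A)))).obj (K.X n)) ⟨U, ()⟩ g).1
      ((hc (K.X n) U g).symm.trans h) with h | h | h
    · exact (h trivial).elim
    · exact (IsEmpty.false (self := h) w).elim
    · obtain rfl : g = 0 := h
      exact Locally.of_forall _ (map_zero _)
  · obtain ⟨g, hg⟩ := StepA_ePi_surj (K.X n) U ((((PiF A L).obj (K.X n)).map (𝟙 U).op).hom m)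
    exact Locally.of_forall _ ⟨g, (hc (K.X n) U g).trans hg⟩

namespace PD

variable {N : ℕ} (D : PD A N) (L : Type 1) [CommRing L] {X Y : Big A} (i : X ⟶ D.P.obj)

/-- Points of `X` as objects of the big slice. -/
def lamX : El (SP.yon (𝟭 (Big A)) X) ⥤ D.BP where
  obj p := ⟨p.W, p.x ≫ i⟩
  map {p q} f := ⟨f.1, (Category.assoc f.1 q.x i).symm.trans (congrArg (· ≫ i) f.2)⟩

/-- The left adjoint `G ↦ (W ↦ ⨁_{x : W ⟶ X} G (W, x ≫ i))`. -/
def LX : Lax L D.uB (big A) :=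
  Lax.ofSm L (D.lamX i) (𝟙 _) .top .bot (liftsNb_of_iso (isSite_big A) D.siteB _ (𝟙 _) _ _)

lemma isIso_LX : IsIso (D.LX L i).θ :=
  isIso_smθ (u := big A) (u' := D.uB) RS.unit (D.lamX i) (𝟙 (D.lamX i ⋙ D.uB)) .top .bot

/-- The generators of `LX`. -/
def eLX (G : PSh D.BP L) (W : Big A) (x : W ⟶ X) :
    G.obj (op ⟨W, x ≫ i⟩) →ₗ[L] ((D.LX L i).F.obj G).obj (op W) :=
  smI .top .bot ((pb L (D.lamX i)).obj G) ⟨W, x⟩

lemma StepA_eLX_map (G : PSh D.BP L) {V W : Big A} {x : W ⟶ X} {x' : V ⟶ X}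
    (φ : (⟨V, x' ≫ i⟩ : D.BP) ⟶ ⟨W, x ≫ i⟩) (h : φ.1 ≫ x = x') (g : G.obj (op ⟨W, x ≫ i⟩)) :
    (((D.LX L i).F.obj G).map φ.1.op).hom (D.eLX L i G W x g) =
      D.eLX L i G V x' ((G.map φ.op).hom g) :=
  smObj_map_I (a := .top) (b := .bot) ((pb L (D.lamX i)).obj G) (p := ⟨V, x'⟩) (q := ⟨W, x⟩)
    ⟨φ.1, h⟩ trivial g

lemma StepA_eLX_nat {G G' : PSh D.BP L} (τ : G ⟶ G') (W : Big A) (x : W ⟶ X)
    (g : G.obj (op ⟨W, x ≫ i⟩)) :
    (((D.LX L i).F.map τ).app (op W)).hom (D.eLX L i G W x g) =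
      D.eLX L i G' W x ((τ.app (op ⟨W, x ≫ i⟩)).hom g) :=
  sm_map_I (a := .top) (b := .bot) ((pb L (D.lamX i)).map τ) ⟨W, x⟩ g

lemma StepA_eLX_θ (G : PSh D.BP L) (W : Big A) (x : W ⟶ X) (t : Γ((big A).obj W, ⊤))
    (g : G.obj (op ⟨W, x ≫ i⟩)) :
    (((D.LX L i).θ.app G).app (op W)).hom
      (RS.unit.tp (u := big A) ((D.LX L i).F.obj G) W t (D.eLX L i G W x g)) =
      D.eLX L i ((RS.unit.T L D.uB).obj G) W x (RS.unit.tp (u := D.uB) G ⟨W, x ≫ i⟩ t g) :=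
  smθ_I (L := L) (u := big A) (u' := D.uB) RS.unit (D.lamX i) (𝟙 (D.lamX i ⋙ D.uB)) .top .bot
    G ⟨W, x⟩ t g

variable [IsClosedImmersion ((big A).map i)]

/-- The preimages of `X`. -/
def dX : ZDat (El.proj (D.PX (𝟭 (Big A)))) (SP.pt D.BP) where
  T := D.S
  Z₀ := (big A).obj X
  i := (big A).map i
  closed := inferInstance
  t p := (big A).map p.W.x
  nat f := ((big A).map_comp _ _).symm.trans (congrArg (big A).map f.1.2)

/-- The preimage of `X` in an object of the big slice. -/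
abbrev ZX (c : D.BP) : Big A := (D.dX i).Z.obj ⟨c, ()⟩

/-- The inclusion of the preimage. -/
abbrev ιX (c : D.BP) : D.ZX i c ⟶ c.W := (D.dX i).ι.app ⟨c, ()⟩

/-- The projection of the preimage to `X`. -/
def sX (c : D.BP) : D.ZX i c ⟶ X :=
  Big.homMk ((D.dX i).snd ⟨c, ()⟩) (by
    rw [← Big.w i, ← Category.assoc]
    erw [← ((D.dX i).isPullback ⟨c, ()⟩).w]
    rw [Category.assoc]
    exact congrArg ((D.dX i).fst ⟨c, ()⟩ ≫ ·) (Big.w c.x))

lemma ιX_x (c : D.BP) : D.ιX i c ≫ c.x = D.sX i c ≫ i :=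
  Big.hom_ext (((big A).map_comp _ _).trans
    (((D.dX i).isPullback ⟨c, ()⟩).w.trans ((big A).map_comp (D.sX i c) i).symm))

/-- The inclusion of the preimage in the big slice. -/
def inclX (c : D.BP) : (⟨D.ZX i c, D.sX i c ≫ i⟩ : D.BP) ⟶ c := ⟨D.ιX i c, D.ιX_x i c⟩

/-- Maps into the preimage. -/
def liftX {W : Big A} (c : D.BP) (f : W ⟶ c.W) (x : W ⟶ X) (h : f ≫ c.x = x ≫ i) :
    W ⟶ D.ZX i c :=
  Big.homMk (((D.dX i).isPullback ⟨c, ()⟩).lift ((big A).map f) ((big A).map x)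
    (((big A).map_comp _ _).symm.trans ((congrArg (big A).map h).trans ((big A).map_comp _ _))))
    (by
      change _ ≫ (D.dX i).fst ⟨c, ()⟩ ≫ c.W.obj.hom = _
      rw [IsPullback.lift_fst_assoc]
      exact Big.w f)

lemma liftX_ι {W : Big A} (c : D.BP) (f : W ⟶ c.W) (x : W ⟶ X) (h : f ≫ c.x = x ≫ i) :
    D.liftX i c f x h ≫ D.ιX i c = f :=
  Big.hom_ext (((big A).map_comp _ _).trans (IsPullback.lift_fst _ _ _ _))

lemma liftX_s {W : Big A} (c : D.BP) (f : W ⟶ c.W) (x : W ⟶ X) (h : f ≫ c.x = x ≫ i) :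
    D.liftX i c f x h ≫ D.sX i c = x :=
  Big.hom_ext (((big A).map_comp _ _).trans (IsPullback.lift_snd _ _ _ _))

lemma ZX_hom_ext {W : Big A} {c : D.BP} {f g : W ⟶ D.ZX i c} (h : f ≫ D.ιX i c = g ≫ D.ιX i c) :
    f = g :=
  Big.hom_ext ((cancel_mono ((D.dX i).fst ⟨c, ()⟩)).1 (((big A).map_comp f (D.ιX i c)).symm.trans
    ((congrArg (big A).map h).trans ((big A).map_comp g (D.ιX i c)))))

lemma map_ιX {c' c : D.BP} (f : c' ⟶ c) :
    (D.dX i).Z.map (X := ⟨c', ()⟩) (Y := ⟨c, ()⟩) ⟨f, rfl⟩ ≫ D.ιX i c = D.ιX i c' ≫ f.1 :=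
  (D.dX i).ι.naturality (X := ⟨c', ()⟩) (Y := ⟨c, ()⟩) ⟨f, rfl⟩

lemma map_sX {c' c : D.BP} (f : c' ⟶ c) :
    (D.dX i).Z.map (X := ⟨c', ()⟩) (Y := ⟨c, ()⟩) ⟨f, rfl⟩ ≫ D.sX i c = D.sX i c' :=
  Big.hom_ext (((big A).map_comp _ _).trans ((D.dX i).map_snd _))

/-- The image of `X`. -/
abbrev imX : Set D.S := Set.range ((big A).map i)

/-- The inclusions of the preimages. -/
def piX : (D.dX i).Z ⋙ big A ⟶ El.proj (SP.pt D.BP) ⋙ D.uB where
  app p := (D.dX i).fst p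
  naturality _ _ f := (D.dX i).map_fst f

/-- The right adjoint `G ↦ ((W, u) ↦ G (W ×_P X))`. -/
def RX : Lax L (big A) D.uB :=
  Lax.ofSm L (D.dX i).Z (D.piX i) (D.ind .top) (D.ind (D.avoidSub _ (D.imX i)))
    ((D.dX i).liftsNb D.siteB (isSite_big A) _ (Iso.refl _) fun _ _ h => h.2)

/-- The generators of `RX`. -/
def eRX (G : PSh (Big A) L) (c : D.BP) :
    G.obj (op (D.ZX i c)) →ₗ[L] ((D.RX L i).F.obj G).obj (op c) :=
  smI (D.ind .top) (D.ind (D.avoidSub _ (D.imX i))) ((pb L (D.dX i).Z).obj G) ⟨c, ()⟩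

/-- The map between preimages. -/
abbrev StepA_z {c' c : D.BP} (f : c' ⟶ c) : D.ZX i c' ⟶ D.ZX i c :=
  (D.dX i).Z.map (X := ⟨c', ()⟩) (Y := ⟨c, ()⟩) ⟨f, rfl⟩

/-- The map between preimages in the big slice. -/
def StepA_zs {c' c : D.BP} (f : c' ⟶ c) :
    (⟨D.ZX i c', D.sX i c' ≫ i⟩ : D.BP) ⟶ ⟨D.ZX i c, D.sX i c ≫ i⟩ :=
  ⟨D.StepA_z i f, (Category.assoc _ _ _).symm.trans (congrArg (· ≫ i) (D.map_sX i f))⟩

/-- The section attached to a point of `X`. -/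
abbrev StepA_l {W : Big A} (x : W ⟶ X) : W ⟶ D.ZX i ⟨W, x ≫ i⟩ :=
  D.liftX i ⟨W, x ≫ i⟩ (𝟙 W) x (Category.id_comp _)

lemma StepA_l_ι {W : Big A} (x : W ⟶ X) : D.StepA_l i x ≫ D.ιX i ⟨W, x ≫ i⟩ = 𝟙 W :=
  D.liftX_ι i ⟨W, x ≫ i⟩ (𝟙 W) x (Category.id_comp _)

lemma StepA_l_s {W : Big A} (x : W ⟶ X) : D.StepA_l i x ≫ D.sX i ⟨W, x ≫ i⟩ = x :=
  D.liftX_s i ⟨W, x ≫ i⟩ (𝟙 W) x (Category.id_comp _)

lemma StepA_z_ι {c' c : D.BP} (f : c' ⟶ c) : D.StepA_z i f ≫ D.ιX i c = D.ιX i c' ≫ f.1 :=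
  D.map_ιX i f

lemma StepA_l_nat {V W : Big A} {x : W ⟶ X} {x' : V ⟶ X}
    (φ : (⟨V, x' ≫ i⟩ : D.BP) ⟶ ⟨W, x ≫ i⟩) :
    φ.1 ≫ D.StepA_l i x = D.StepA_l i x' ≫ D.StepA_z i φ := by
  refine D.ZX_hom_ext i ?_
  rw [Category.assoc, Category.assoc, StepA_l_ι, StepA_z_ι, ← Category.assoc, StepA_l_ι,
    Category.comp_id, Category.id_comp]

lemma StepA_l_z (c : D.BP) :
    D.StepA_l i (D.sX i c) ≫ D.StepA_z i (D.inclX i c) = 𝟙 (D.ZX i c) := by
  refine D.ZX_hom_ext i ?_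
  rw [Category.assoc, StepA_z_ι, ← Category.assoc, StepA_l_ι]
  rfl

/-- The section in the big slice. -/
def StepA_ls {W : Big A} (x : W ⟶ X) :
    (⟨W, x ≫ i⟩ : D.BP) ⟶ ⟨D.ZX i ⟨W, x ≫ i⟩, D.sX i ⟨W, x ≫ i⟩ ≫ i⟩ :=
  ⟨D.StepA_l i x, (Category.assoc _ _ _).symm.trans (congrArg (· ≫ i) (D.StepA_l_s i x))⟩

lemma StepA_eRX_map (G : PSh (Big A) L) {c' c : D.BP} (f : c' ⟶ c) (g : G.obj (op (D.ZX i c))) :
    (((D.RX L i).F.obj G).map f.op).hom (D.eRX L i G c g) =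
      D.eRX L i G c' ((G.map (D.StepA_z i f).op).hom g) :=
  smObj_map_I' (a := D.ind .top) (b := D.ind (D.avoidSub _ (D.imX i)))
    ((pb L (D.dX i).Z).obj G) f (x := ()) trivial g

lemma StepA_eRX_nat {G G' : PSh (Big A) L} (τ : G ⟶ G') (c : D.BP) (g : G.obj (op (D.ZX i c))) :
    (((D.RX L i).F.map τ).app (op c)).hom (D.eRX L i G c g) =
      D.eRX L i G' c ((τ.app (op (D.ZX i c))).hom g) :=
  sm_map_I (a := D.ind .top) (b := D.ind (D.avoidSub _ (D.imX i))) ((pb L (D.dX i).Z).map τ)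
    ⟨c, ()⟩ g

lemma StepA_eRX_θ (G : PSh (Big A) L) (c : D.BP) (t : Γ(D.uB.obj c, ⊤))
    (g : G.obj (op (D.ZX i c))) :
    (((D.RX L i).θ.app G).app (op c)).hom
      (RS.unit.tp (u := D.uB) ((D.RX L i).F.obj G) c t (D.eRX L i G c g)) =
      D.eRX L i ((RS.unit.T L (big A)).obj G) c
        (RS.unit.tp (u := big A) G (D.ZX i c) (((big A).map (D.ιX i c)).appTop t) g) :=
  smθ_I (L := L) (u := D.uB) (u' := big A) RS.unit (D.dX i).Z (D.piX i) (D.ind .top)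
    (D.ind (D.avoidSub _ (D.imX i))) G ⟨c, ()⟩ t g

lemma exists_eta : ∃ η : 𝟭 (PSh D.BP L) ⟶ (D.LX L i).F ⋙ (D.RX L i).F,
    ∀ (G : PSh D.BP L) (c : D.BP) (g : G.obj (op c)), ((η.app G).app (op c)).hom g =
      D.eRX L i ((D.LX L i).F.obj G) c
        (D.eLX L i G (D.ZX i c) (D.sX i c) ((G.map (D.inclX i c).op).hom g)) := by
  refine StepA_mk (𝟭 (PSh D.BP L)) ((D.LX L i).F ⋙ (D.RX L i).F)
    (fun G c => D.eRX L i ((D.LX L i).F.obj G) c ∘ₗ D.eLX L i G (D.ZX i c) (D.sX i c) ∘ₗ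
      (G.map (D.inclX i c).op).hom) (fun G c' c f g => ?_) fun {G G'} τ c g => ?_
  · have h1 := D.StepA_eRX_map L i ((D.LX L i).F.obj G) f
      (D.eLX L i G (D.ZX i c) (D.sX i c) ((G.map (D.inclX i c).op).hom g))
    have h2 := D.StepA_eLX_map L i G (D.StepA_zs i f) (D.map_sX i f)
      ((G.map (D.inclX i c).op).hom g)
    have h3 := StepA_sq G (f := D.StepA_zs i f) (f' := D.inclX i c) (k := D.inclX i c') (k' := f)
      (El.hom_ext (D.map_ιX i f)) g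
    exact h1.trans (congrArg (D.eRX L i ((D.LX L i).F.obj G) c')
      (h2.trans (congrArg (D.eLX L i G (D.ZX i c') (D.sX i c')) h3)))
  · have h1 := D.StepA_eRX_nat L i ((D.LX L i).F.map τ) c
      (D.eLX L i G (D.ZX i c) (D.sX i c) ((G.map (D.inclX i c).op).hom g))
    have h2 := D.StepA_eLX_nat L i τ (D.ZX i c) (D.sX i c) ((G.map (D.inclX i c).op).hom g)
    have h3 := StepA_nat τ (D.inclX i c) g
    exact h1.trans (congrArg (D.eRX L i ((D.LX L i).F.obj G') c)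
      (h2.trans (congrArg (D.eLX L i G' (D.ZX i c) (D.sX i c)) h3)))

lemma exists_eps : ∃ ε : (D.RX L i).F ⋙ (D.LX L i).F ⟶ PiF A L,
    ∀ (G : PSh (Big A) L) (W : Big A) (x : W ⟶ X) (g : G.obj (op (D.ZX i ⟨W, x ≫ i⟩))),
      ((ε.app G).app (op W)).hom
        (D.eLX L i ((D.RX L i).F.obj G) W x (D.eRX L i G ⟨W, x ≫ i⟩ g)) =
      ePi G W ((G.map (D.liftX i ⟨W, x ≫ i⟩ (𝟙 W) x (Category.id_comp _)).op).hom g) := by
  obtain ⟨κ, hκ⟩ := Dat_exists (a := D.ind .top) (b := D.ind (D.avoidSub _ (D.imX i)))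
    (D.lamX i) (pb L (D.dX i).Z) (PiF A L ⋙ pb L (El.proj (SP.yon (𝟭 (Big A)) X)))
    (fun G p _ _ => ePi G p.W ∘ₗ (G.map (D.StepA_l i p.x).op).hom)
    (fun G p' p f _ _ g => (StepA_ePi_map G f.1 _).trans (congrArg (ePi G p'.W)
      (StepA_sq G (D.StepA_l_nat i (x := p.x) (x' := p'.x) ((D.lamX i).map f)) g)))
    (fun G p _ _ g h => StepA_ePi_zero G ⟨fun w => h w ⟨(big A).map p.x w, by
      rw [← Scheme.Hom.comp_apply, ← Functor.map_comp]
      rfl⟩⟩ _)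
    (fun {G G'} τ p _ _ g => (StepA_ePi_nat τ p.W _).trans
      (congrArg (ePi G' p.W) (StepA_nat τ (D.StepA_l i p.x) g)))
  obtain ⟨k, hk⟩ := Dat_exists₁ (a := .top) (b := .bot) ((D.RX L i).F ⋙ pb L (D.lamX i))
    (PiF A L) κ fun _ _ _ h => h.elim
  exact ⟨k, fun G W x g => (hk G ⟨W, x⟩ trivial _).trans (hκ G ⟨W, x⟩ () trivial g)⟩

/-- The data of the inverse of the identification. -/
def StepA_cone : SmCone .top .bot ((pb L (D.lamX i)).obj (𝟙_ (PSh D.BP L)))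
    ((rep (Big A) L).obj X) where
  φ p _ := LinearMap.toSpanSingleton L _ (repEl L p.x)
  nat {p q} f _ g := by
    have h1 := map_repEl (L := L) q.x f.1
    have h2 : f.1 ≫ q.x = p.x := f.2
    rw [h2] at h1
    exact (map_smul _ (show L from g) _).trans (congrArg ((show L from g) • ·) h1)
  zero _ _ _ h := h.elim

omit [IsClosedImmersion ((big A).map i)] in
lemma exists_repIso : ∃ e : (rep (Big A) L).obj X ≅ (D.LX L i).F.obj (𝟙_ (PSh D.BP L)),
    ∀ (W : Big A) (x : W ⟶ X), (e.hom.app (op W)).hom (repEl L x) =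
      D.eLX L i (𝟙_ (PSh D.BP L)) W x (1 : L) := by
  obtain ⟨a, ha⟩ := (repSec_bijective X ((D.LX L i).F.obj (𝟙_ (PSh D.BP L)))).2
    (D.eLX L i (𝟙_ (PSh D.BP L)) X (𝟙 X) (1 : L))
  have h1 : ∀ (W : Big A) (x : W ⟶ X), (a.app (op W)).hom (repEl L x) =
      D.eLX L i (𝟙_ (PSh D.BP L)) W x (1 : L) := fun W x => by
    refine (app_repEl a x).trans ?_
    rw [ha]
    exact D.StepA_eLX_map L i (𝟙_ (PSh D.BP L)) (x := 𝟙 X) (x' := x)
      ⟨x, congrArg (x ≫ ·) (Category.id_comp i)⟩ (Category.comp_id x) (1 : L)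
  have h2 : ∀ (W : Big A) (x : W ⟶ X) (g : L), ((D.StepA_cone L i).desc.app (op W)).hom
      (D.eLX L i (𝟙_ (PSh D.BP L)) W x g) = g • repEl L x := fun W x g =>
    (D.StepA_cone L i).desc_I ⟨W, x⟩ trivial g
  refine ⟨⟨a, (D.StepA_cone L i).desc, ?_, ?_⟩, h1⟩
  · ext W : 2
    refine ModuleCat.hom_ext (Cmp_rep_lin_ext fun x => ?_)
    exact (congrArg ((D.StepA_cone L i).desc.app W).hom (h1 W.unop x)).trans
      ((h2 W.unop x 1).trans (one_smul _ _))
  · refine sm_hom_ext (a := .top) (b := .bot) fun p g _ _ => ?_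
    refine (congrArg (a.app (op p.W)).hom (h2 p.W p.x g)).trans ?_
    rw [map_smul, h1, ← map_smul]
    exact congrArg (D.eLX L i (𝟙_ (PSh D.BP L)) p.W p.x) (mul_one (show L from g))

section StepA_tri

variable {η : 𝟭 (PSh D.BP L) ⟶ (D.LX L i).F ⋙ (D.RX L i).F}
  (hη : ∀ (G : PSh D.BP L) (c : D.BP) (g : G.obj (op c)), ((η.app G).app (op c)).hom g =
    D.eRX L i ((D.LX L i).F.obj G) c
      (D.eLX L i G (D.ZX i c) (D.sX i c) ((G.map (D.inclX i c).op).hom g)))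
  {ε : (D.RX L i).F ⋙ (D.LX L i).F ⟶ PiF A L}
  (hε : ∀ (G : PSh (Big A) L) (W : Big A) (x : W ⟶ X) (g : G.obj (op (D.ZX i ⟨W, x ≫ i⟩))),
    ((ε.app G).app (op W)).hom
      (D.eLX L i ((D.RX L i).F.obj G) W x (D.eRX L i G ⟨W, x ≫ i⟩ g)) =
    ePi G W ((G.map (D.StepA_l i x).op).hom g))
  {c : 𝟭 (PSh (Big A) L) ⟶ PiF A L}
  (hc : ∀ (G : PSh (Big A) L) (W : Big A) (g : G.obj (op W)),
    ((c.app G).app (op W)).hom g = ePi G W g)

include hη hε hc

lemma StepA_tri₁ (G : PSh D.BP L) :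
    (D.LX L i).F.map (η.app G) ≫ ε.app ((D.LX L i).F.obj G) = c.app ((D.LX L i).F.obj G) := by
  have key : ∀ (W : Big A) (x : W ⟶ X) (g : G.obj (op ⟨W, x ≫ i⟩)),
      ((ε.app ((D.LX L i).F.obj G)).app (op W)).hom
        ((((D.LX L i).F.map (η.app G)).app (op W)).hom (D.eLX L i G W x g)) =
      ((c.app ((D.LX L i).F.obj G)).app (op W)).hom (D.eLX L i G W x g) := fun W x g => by
    have h1 := D.StepA_eLX_nat L i (η.app G) W x g
    rw [hη G ⟨W, x ≫ i⟩ g] at h1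
    have h2 := hε ((D.LX L i).F.obj G) W x
      (D.eLX L i G _ (D.sX i ⟨W, x ≫ i⟩) ((G.map (D.inclX i ⟨W, x ≫ i⟩).op).hom g))
    have h3 := D.StepA_eLX_map L i G (D.StepA_ls i x) (D.StepA_l_s i x)
      ((G.map (D.inclX i ⟨W, x ≫ i⟩).op).hom g)
    rw [StepA_ret G (f := D.StepA_ls i x) (f' := D.inclX i ⟨W, x ≫ i⟩)
      (El.hom_ext (D.StepA_l_ι i x)) g] at h3
    exact (congrArg ((ε.app ((D.LX L i).F.obj G)).app (op W)).hom h1).trans
      (h2.trans ((congrArg (ePi ((D.LX L i).F.obj G) W) h3).trans (hc _ W _).symm))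
  exact sm_hom_ext (a := .top) (b := .bot) fun p g _ _ => key p.W p.x g

lemma StepA_tri₂ (G : PSh (Big A) L) :
    η.app ((D.RX L i).F.obj G) ≫ (D.RX L i).F.map (ε.app G) = (D.RX L i).F.map (c.app G) := by
  have key : ∀ (p : D.BP) (g : G.obj (op (D.ZX i p))),
      (((D.RX L i).F.map (ε.app G)).app (op p)).hom
        (((η.app ((D.RX L i).F.obj G)).app (op p)).hom (D.eRX L i G p g)) =
      (((D.RX L i).F.map (c.app G)).app (op p)).hom (D.eRX L i G p g) := fun p g => by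
    have h1 := hη ((D.RX L i).F.obj G) p (D.eRX L i G p g)
    rw [D.StepA_eRX_map L i G (D.inclX i p) g] at h1
    have h2 := D.StepA_eRX_nat L i (ε.app G) p
      (D.eLX L i ((D.RX L i).F.obj G) (D.ZX i p) (D.sX i p)
        (D.eRX L i G _ ((G.map (D.StepA_z i (D.inclX i p)).op).hom g)))
    have h3 := hε G (D.ZX i p) (D.sX i p) ((G.map (D.StepA_z i (D.inclX i p)).op).hom g)
    rw [StepA_ret G (D.StepA_l_z i p) g] at h3
    have h4 := D.StepA_eRX_nat L i (c.app G) p g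
    rw [hc G (D.ZX i p) g] at h4
    exact (congrArg (((D.RX L i).F.map (ε.app G)).app (op p)).hom h1).trans
      (h2.trans ((congrArg (D.eRX L i ((PiF A L).obj G) p) h3).trans h4.symm))
  exact sm_hom_ext (a := D.ind .top) (b := D.ind (D.avoidSub _ (D.imX i)))
    fun p g _ _ => key p.W g

end StepA_tri

/-- The adjunction attached to `X`. -/
def adj : AdjDat L (big A) D.uB (𝟙_ (PSh D.BP L)) ((rep (Big A) L).obj X) where
  l := D.LX L i
  r := D.RX L i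
  p := PiF A L
  ex := inferInstance
  pres := presW_sm_proj _ _
  η := (D.exists_eta L i).choose
  ε := (D.exists_eps L i).choose
  c := (exists_cPi L).choose
  wc := (exists_cPi L).choose_spec.2
  tri₁ := D.StepA_tri₁ L i (D.exists_eta L i).choose_spec (D.exists_eps L i).choose_spec
    (exists_cPi L).choose_spec.1
  tri₂ := D.StepA_tri₂ L i (D.exists_eta L i).choose_spec (D.exists_eps L i).choose_spec
    (exists_cPi L).choose_spec.1
  iso := D.isIso_LX L i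
  ηθ := by
    intro G
    refine RS.unit.hom_ext fun c t g => ?_
    have h1 := RS.unit.T_map_tp (u := D.uB) ((D.exists_eta L i).choose.app G) c t g
    rw [(D.exists_eta L i).choose_spec G c g] at h1
    have h2 := D.StepA_eRX_θ L i ((D.LX L i).F.obj G) c t
      (D.eLX L i G (D.ZX i c) (D.sX i c) ((G.map (D.inclX i c).op).hom g))
    have h3 := D.StepA_eRX_nat L i ((D.LX L i).θ.app G) c
      (RS.unit.tp (u := big A) ((D.LX L i).F.obj G) (D.ZX i c)
        (((big A).map (D.ιX i c)).appTop t)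
        (D.eLX L i G (D.ZX i c) (D.sX i c) ((G.map (D.inclX i c).op).hom g)))
    have h4 := D.StepA_eLX_θ L i G (D.ZX i c) (D.sX i c) (((big A).map (D.ιX i c)).appTop t)
      ((G.map (D.inclX i c).op).hom g)
    have h5 := (D.exists_eta L i).choose_spec ((RS.unit.T L D.uB).obj G) c
      (RS.unit.tp (u := D.uB) G c t g)
    rw [RS.unit.map_tp (u := D.uB) G (D.inclX i c) t g] at h5
    exact (congrArg (((D.RX L i).F.map ((D.LX L i).θ.app G)).app (op c)).hom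
      ((congrArg (((D.RX L i).θ.app ((D.LX L i).F.obj G)).app (op c)).hom h1).trans h2)).trans
      (h3.trans ((congrArg (D.eRX L i _ c) h4).trans h5.symm))
  e := (D.exists_repIso L i).choose

/-- Restriction to the preimages of `X`. -/
def thX : (D.indB L .top (D.avoidSub _ (D.imX i))).Hom (D.RX L i) where
  τ := (D.dX i).toZ L (D.ind .top) (D.ind (D.avoidSub _ (D.imX i)))
  comm := by
    intro G
    refine RS.unit.hom_ext fun c t g => ?_
    induction g using sm_induction with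
    | zero => rw [map_zero, map_zero, map_zero]
    | add m m' h h' => rw [map_add, map_add, map_add, h, h']
    | gen x g _ _ =>
      have h1 := smθ_I (L := L) (u := D.uB) (u' := big A) RS.unit D.Dat_lamB (𝟙 _) (D.ind .top)
        (D.ind (D.avoidSub _ (D.imX i))) G ⟨c, ()⟩ t g
      have h2 := (D.dX i).toZ_I (D.ind .top) (D.ind (D.avoidSub _ (D.imX i)))
        ((RS.unit.T L (big A)).obj G) ⟨c, ()⟩ (RS.unit.tp (u := big A) G c.W t g)
      have h3 := RS.unit.map_tp (u := big A) G (D.ιX i c) t g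
      have h4 := RS.unit.T_map_tp (u := D.uB)
        (((D.dX i).toZ L (D.ind .top) (D.ind (D.avoidSub _ (D.imX i)))).app G) c t
        (D.eB L .top (D.avoidSub _ (D.imX i)) G c g)
      have h5 := (D.dX i).toZ_I (D.ind .top) (D.ind (D.avoidSub _ (D.imX i))) G ⟨c, ()⟩ g
      have h6 := D.StepA_eRX_θ L i G c t ((G.map (D.ιX i c).op).hom g)
      refine ((congrArg _ h1).trans (h2.trans (congrArg (D.eRX L i _ c) h3))).trans
        (h6.symm.trans ?_)
      exact congrArg _ ((congrArg _ h5.symm).trans h4.symm)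

lemma thX_isW {E : Spt L (big A)} (hE : ∀ n, SmGenerated A L (E.X n)) :
    ((D.thX L i).spt E).IsW := fun n =>
  (D.dX i).glue D.siteB (fun _ _ h => h.2) (hE n)

end PD

end Pool.Agent.KEW
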